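import Pool.Agent.Lib.MP_0087d5_lc.SUB.KDefs

/-!
# The computed relations are the relations of the theory

Jobs KSA (`DK_iff`, `lamK_iff`), KSB (`lvK_iff`, `leK_iff`), KSC (`claK_eq`), KSD (`ndK_eq`, `upK_eq`, `gdata`), KSE (`zK_mate`, `z2_disj`), KSF (`hK_iff`).
-/

namespace Pool.Agent.SUB

open Relation Finset Pool.Agent.AUG Pool.Agent.UPM

variable {n : ℕ} {G M : SimpleGraph (Fin n)} {x y b c r r' : Fin n} {k : Fin n} {σ : St n}

/-- Job KSA. (`distK_iff`, `mt_mate`, `Mate.mm`.) -/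
theorem DK_iff (h : IsMat G M) : DK n (G, M) x y k ↔ dd (mt M) (EE G (mt M)) x y = k := by
  exact distK_iff (qs n (G, M)) (mt_mate h).1.mm x y k

private theorem ksa_ap (h : IsMat G M) (hk : ldK n (G, M) k) : ∃ S, AP G (mt M) S k := by
  obtain ⟨a, b, z, x, j, ⟨h1, h2, h3, h4, h5, h6, h7⟩, hj, hkj⟩ := hk
  have h8 : dd (mt M) (EE G (mt M)) z x = j := (DK_iff h).1 hj
  have h9 := (reachK_iff (G, M) h z x).1 h6
  obtain ⟨L, hL⟩ := dd_walk h9
  exact ⟨_, a, b, h1, h2, h3, Or.inr ⟨z, x, L, dd (mt M) (EE G (mt M)) z x, by rw [h8]; exact hkj, h4, h5, hL, h7, rfl⟩⟩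

private theorem ksa_ld (h : IsMat G M) {S : Finset (Fin n)} {K : ℕ} (hS : AP G (mt M) S K) (hK : K ≠ 0) :
    ∃ k : Fin n, ldK n (G, M) k ∧ (k : ℕ) ≤ K := by
  obtain ⟨s, t, hst, hs, ht, (⟨h0, -⟩ | ⟨z, x, L, d, hd, hz, hsz, hW, hxt, -⟩)⟩ := hS
  · exact absurd h0 hK
  · have hm := (mt_mate h).1
    have h1 := dd_le_of_walk hW
    have h2 := dd_lt_of_walk hW
    have h3 := dd_two_card hm.mm hz h2
    rw [Fintype.card_fin] at h3
    have h4 : dd (mt M) (EE G (mt M)) z x + 1 < n := by omega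
    refine ⟨⟨dd (mt M) (EE G (mt M)) z x + 1, h4⟩, ⟨s, t, z, x, ⟨dd (mt M) (EE G (mt M)) z x, by omega⟩,
      ⟨hst, hs, ht, hz, hsz, (reachK_iff (G, M) h z x).2 h2, hxt⟩, (DK_iff h).2 rfl, rfl⟩, ?_⟩
    show dd (mt M) (EE G (mt M)) z x + 1 ≤ K
    omega

/-- Job KSA. `dirK`: an augmenting path with `k = 0`. `ldK`: augmenting paths with `k = j + 1`, `j = dd z x` is the least weight of a walk from `z` to `x` (`dd_walk`, `dd_le_of_walk`), and `j + 1 < n` by `dd_two_card`. (`reachK_iff`, `DK_iff`, `lam_mem`, `lam_le`.) -/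
theorem lamK_iff (h : IsMat G M) : lamK n (G, M) k ↔ ¬ Mxl G (mt M) ∧ lam G (mt M) = k := by
  have hdir : (∃ a b, dirK n (G, M) a b) ↔ ∃ S, AP G (mt M) S 0 := by
    constructor
    · rintro ⟨a, b, h1, h2, h3⟩
      exact ⟨_, a, b, h3.ne, h1, h2, Or.inl ⟨rfl, h3, rfl⟩⟩
    · rintro ⟨S, s, t, hst, hs, ht, (⟨-, h3, -⟩ | ⟨z, x, L, d, hd, -⟩)⟩
      · exact ⟨s, t, hs, ht, h3⟩
      · omega
  by_cases hD : ∃ a b, dirK n (G, M) a b
  · obtain ⟨S, hS⟩ := hdir.1 hD
    have hl : lam G (mt M) = 0 := Nat.le_zero.1 (lam_le hS)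
    have hm : ¬ Mxl G (mt M) := fun hc => hc S 0 hS
    unfold lamK
    constructor
    · rintro (⟨-, h0⟩ | ⟨h0, -⟩)
      · exact ⟨hm, by omega⟩
      · exact absurd hD h0
    · rintro ⟨-, h0⟩
      exact Or.inl ⟨hD, by omega⟩
  · have hne : ∀ S j, AP G (mt M) S j → j ≠ 0 := by
      rintro S j hS rfl
      exact hD (hdir.2 ⟨S, hS⟩)
    unfold lamK
    constructor
    · rintro (⟨h0, -⟩ | ⟨-, h1, h2⟩)
      · exact absurd h0 hD
      · obtain ⟨S, hS⟩ := ksa_ap h h1
        have hm : ¬ Mxl G (mt M) := fun hc => hc S _ hS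
        refine ⟨hm, le_antisymm (lam_le hS) ?_⟩
        obtain ⟨S', hS'⟩ := lam_mem hm
        obtain ⟨k', hk', hle⟩ := ksa_ld h hS' (hne _ _ hS')
        have h3 := h2 k' hk'
        have h4 : (k : ℕ) ≤ k' := h3
        omega
    · rintro ⟨hm, hk⟩
      right
      have hmin : ∀ k', ldK n (G, M) k' → k ≤ k' := by
        intro k' hk'
        obtain ⟨S, hS⟩ := ksa_ap h hk'
        have h3 := lam_le hS
        show (k : ℕ) ≤ k'
        omega
      refine ⟨hD, ?_, hmin⟩
      obtain ⟨S', hS'⟩ := lam_mem hm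
      obtain ⟨k', hk', hle⟩ := ksa_ld h hS' (hne _ _ hS')
      have h3 : (k : ℕ) ≤ k' := hmin k' hk'
      have h4 : k' = k := Fin.ext (by omega)
      rw [← h4]
      exact hk'

private theorem ksb_ZZ (j : Fin n) : (j : ℕ) < ZZ (Fin n) := by
  have h := j.isLt
  unfold ZZ
  rw [Fintype.card_fin]
  omega

private theorem ksb_ZZ' (j : Fin n) : (j : ℕ) + 1 < ZZ (VS n) := by
  have h := j.isLt
  unfold ZZ
  have h1 : Fintype.card (VS n) = n + n + 2 := by
    simp [VS]
  rw [h1]
  omega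

/-- Job KSB. (`lv_exp`, `lv_cov`, `lv_le`, `lv_bound`, `DK_iff`.) -/
theorem lvK_iff (h : IsMat G M) : lvK n (G, M) x k ↔ lv G (mt M) x = k + 1 := by
  have hm := (mt_mate h).1
  by_cases hx : mt M x = x
  · have h1 := lv_exp hm hx
    unfold lvK
    constructor
    · rintro (⟨-, h0⟩ | ⟨h0, -⟩)
      · omega
      · exact absurd hx h0
    · intro h0
      exact Or.inl ⟨hx, by omega⟩
  · have hle : ∀ k' : Fin n, cdK n (G, M) x k' → lv G (mt M) x ≤ k' + 1 := by
      rintro k' ⟨a, z, j, ha, hz, haz, hj, hk⟩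
      have h1 : dd (mt M) (EE G (mt M)) z x = j := (DK_iff h).1 hj
      have h2 := lv_le (x := x) hm ha hz haz (by rw [h1]; exact ksb_ZZ j)
      omega
    have hex : lv G (mt M) x < ZZ (VS n) → ∃ k' : Fin n, cdK n (G, M) x k' ∧ (k' : ℕ) + 1 = lv G (mt M) x := by
      intro hlt
      obtain ⟨s, z, hs, hz, hsz, h1, h2⟩ := lv_cov hm hx hlt
      have h3 := dd_two_card hm.mm hz h1
      rw [Fintype.card_fin] at h3
      refine ⟨⟨dd (mt M) (EE G (mt M)) z x + 1, by omega⟩, ⟨s, z, ⟨dd (mt M) (EE G (mt M)) z x, by omega⟩, hs, hz, hsz,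
        (DK_iff h).2 rfl, rfl⟩, ?_⟩
      show dd (mt M) (EE G (mt M)) z x + 1 + 1 = _
      omega
    unfold lvK
    constructor
    · rintro (⟨h0, -⟩ | ⟨-, h1, h2⟩)
      · exact absurd h0 hx
      · have h3 := hle k h1
        obtain ⟨k', hk', h4⟩ := hex (lt_of_le_of_lt h3 (ksb_ZZ' k))
        have h5 : (k : ℕ) ≤ k' := h2 k' hk'
        omega
    · intro h0
      right
      obtain ⟨k', hk', h4⟩ := hex (by rw [h0]; exact ksb_ZZ' k)
      have h5 : k' = k := Fin.ext (by omega)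
      rw [h5] at hk'
      refine ⟨hx, hk', fun k'' hk'' => ?_⟩
      have h6 := hle k'' hk''
      show (k : ℕ) ≤ k''
      omega

/-- Job KSB. Every finite level is computed. (`lv_pos`, `lv_bound`.) -/
theorem lvK_exists (h : IsMat G M) (hx : lv G (mt M) x < ZZ (VS n)) : ∃ i : Fin n, lvK n (G, M) x i ∧ lv G (mt M) x = i + 1 := by
  have hm := (mt_mate h).1
  have h1 := lv_pos (x := x) hm
  have h2 := lv_bound hm hx
  have hn := x.isLt
  refine ⟨⟨lv G (mt M) x - 1, by omega⟩, (lvK_iff h).2 ?_, ?_⟩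
  · show lv G (mt M) x = lv G (mt M) x - 1 + 1
    omega
  · show lv G (mt M) x = lv G (mt M) x - 1 + 1
    omega

/-- Job KSB. -/
theorem leK_iff (h : IsMat G M) (hx : lv G (mt M) x < ZZ (VS n)) (hy : lv G (mt M) y < ZZ (VS n)) :
    leK' n (G, M) x y ↔ lv G (mt M) x ≤ lv G (mt M) y := by
  constructor
  · rintro ⟨i, j, hi, hj, hij⟩
    have h1 := (lvK_iff h).1 hi
    have h2 := (lvK_iff h).1 hj
    have h3 : (i : ℕ) ≤ j := hij
    omega
  · intro hxy
    obtain ⟨i, hi, h1⟩ := lvK_exists h hx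
    obtain ⟨j, hj, h2⟩ := lvK_exists h hy
    refine ⟨i, j, hi, hj, ?_⟩
    show (i : ℕ) ≤ j
    omega

/-- Job KSC. `gcK x y` implies `x = y` or that `vv x`, `vv y` are adjacent in the threshold graph (`GA`); conversely a path in the threshold graph from `vv b` to `vv x` stays in the vertices of `G` (cf. `cla_vv`) and its edges are given by `gcK`: `lv x = i + 1`, `lv y = j + 1`, `θ = lam + 2`, `lam = k`. -/
theorem claK_eq (h : IsMat G M) (hn : ¬ Mxl G (mt M)) : claK n (G, M) = Cla G (mt M) := by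
  have hm := (mt_mate h).1
  have hll := lam_lt hm hn
  have hth := th_lt hm hn
  have hlamK : ∀ hl : lam G (mt M) < n, lamK n (G, M) ⟨lam G (mt M), hl⟩ := fun hl => (lamK_iff h).2 ⟨hn, rfl⟩
  funext b x
  apply propext
  constructor
  · intro hc
    unfold claK at hc
    induction hc with
    | refl => exact cla_refl
    | @tail y z _ hyz ih =>
      have hstep : y = z ∨ GA (ms (mt M)) (Es G (mt M)) (ds G (mt M)) (lam G (mt M) + 2) (vv y) (vv z) := by
        rcases hyz with ⟨h1, h2, i, j, k, hi, hj, hk, hij⟩ | ⟨h1, i, j, k, hi, hj, hk, hij⟩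
        · right
          left
          have h3 : ds G (mt M) (vv y) = i + 1 := (lvK_iff h).1 hi
          have h4 : ds G (mt M) (vv z) = j + 1 := (lvK_iff h).1 hj
          have h5 := ((lamK_iff h).1 hk).2
          exact ⟨⟨h1, h2⟩, by omega⟩
        · by_cases hyz : y = z
          · exact Or.inl hyz
          · right
            right
            have h3 : ds G (mt M) (vv y) = i + 1 := (lvK_iff h).1 hi
            have h4 : ds G (mt M) (vv z) = j + 1 := (lvK_iff h).1 hj
            have h5 := ((lamK_iff h).1 hk).2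
            have h6 : mt M y ≠ y := fun hc => hyz (by rw [← h1]; exact hc.symm)
            have h7 : mt M y = z := h1
            refine ⟨?_, by omega⟩
            rw [ms_vv_cov h6, h7]
      rcases hstep with rfl | hga
      · exact ih
      · exact ReflTransGen.tail ih hga
  · intro hc
    have key : ∀ v, Cn (ms (mt M)) (Es G (mt M)) (ds G (mt M)) (lam G (mt M) + 2) (vv b) v →
        ∃ x, v = vv x ∧ claK n (G, M) b x := by
      intro v hv
      induction hv with
      | refl => exact ⟨b, rfl, ReflTransGen.refl⟩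
      | @tail v w hv' hvw ih =>
        obtain ⟨y, rfl, hy⟩ := ih
        obtain ⟨z, rfl, -⟩ := cla_vv hm hn (ReflTransGen.tail hv' hvw)
        refine ⟨z, rfl, ReflTransGen.tail hy ?_⟩
        rcases hvw with ⟨⟨h1, h2⟩, h3⟩ | ⟨h1, h3⟩
        · have h3' : lv G (mt M) y + lv G (mt M) z + 1 ≤ lam G (mt M) + 2 := h3
          obtain ⟨i, hi, h4⟩ := lvK_exists (x := y) h (by omega)
          obtain ⟨j, hj, h5⟩ := lvK_exists (x := z) h (by omega)
          left
          refine ⟨h1, h2, i, j, ⟨lam G (mt M), by omega⟩, hi, hj, hlamK _, ?_⟩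
          show (i : ℕ) + j + 1 ≤ lam G (mt M)
          omega
        · have h3' : lv G (mt M) y + lv G (mt M) z ≤ lam G (mt M) + 2 := h3
          obtain ⟨i, hi, h4⟩ := lvK_exists (x := y) h (by omega)
          obtain ⟨j, hj, h5⟩ := lvK_exists (x := z) h (by omega)
          right
          refine ⟨?_, i, j, ⟨lam G (mt M), by omega⟩, hi, hj, hlamK _, ?_⟩
          · show mt M y = z
            by_cases hy' : mt M y = y
            · rw [ms_vv_exp hy'] at h1
              simp at h1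
            · rw [ms_vv_cov hy'] at h1
              have h6 : z = mt M y := by simpa using h1
              exact h6.symm
          · show (i : ℕ) + j ≤ lam G (mt M)
            omega
    obtain ⟨x', hx', hcl⟩ := key (vv x) hc
    have h6 : x = x' := by simpa using hx'
    rw [h6]
    exact hcl

/-- An exposed vertex is alive. -/
private theorem ksd_al_exp {m : Fin n → Fin n} (hm : Mate G m) (hn : ¬ Mxl G m) (hb : m b = b) :
    Al (ms m) (ds G m) (lam G m + 2) (vv b) := by
  unfold Al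
  rw [ms_vv_exp hb]
  have h1 : ds G m (vv b) = 1 := lv_exp hm hb
  have h2 := ds_vc (t := b) hm hb hn
  omega

/-- A covered vertex is alive iff the levels of the two vertices of the pair are large. -/
private theorem ksd_al_cov {m : Fin n → Fin n} (hb : m b ≠ b) :
    Al (ms m) (ds G m) (lam G m + 2) (vv b) ↔ lam G m + 2 < lv G m b + lv G m (m b) := by
  unfold Al lv
  rw [ms_vv_cov hb]

/-- Job KSD. Exposed vertices: `lv = 1`, alive by `ds_vc`. Covered vertices: `lv b = i + 1`, `lv (mt M b) = j + 1` or infinite (`ZZ`), `Al`: `lam + 2 < lv b + lv (mt M b)`, `th_lt`. -/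
theorem ndK_eq (h : IsMat G M) (hn : ¬ Mxl G (mt M)) : ndK n (G, M) = Nd G (mt M) := by
  have hm : Mate G (mt M) := (mt_mate h).1
  have hth := th_lt hm hn
  have hlam := lam_lt hm hn
  funext b
  apply propext
  have hle : lv G (mt M) (mt M b) ≤ ZZ (VS n) := dd_le_ZZ
  constructor
  · rintro ⟨i, k, hi, hk, hik, hor⟩
    have h1 := (lvK_iff h).1 hi
    have h2 := ((lamK_iff h).1 hk).2
    have h3 : (i : ℕ) ≤ k := hik
    refine ⟨by omega, ?_, ?_⟩
    · by_cases hb : mt M b = b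
      · exact ksd_al_exp hm hn hb
      · rw [ksd_al_cov hb]
        rcases hor with hor | hor
        · exact absurd hor hb
        · by_cases hz : lv G (mt M) (mt M b) < ZZ (VS n)
          · obtain ⟨j, hj, hj'⟩ := lvK_exists h hz
            have h4 := (hor j hj).1
            omega
          · omega
    · rcases hor with hor | hor
      · exact Or.inl hor
      · right
        by_cases hz : lv G (mt M) (mt M b) < ZZ (VS n)
        · obtain ⟨j, hj, hj'⟩ := lvK_exists h hz
          rcases (hor j hj).2 with h4 | ⟨h4, h5⟩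
          · left
            have h6 : (i : ℕ) < j := h4
            omega
          · right
            refine ⟨?_, h5⟩
            rw [h1, hj', h4]
        · left
          omega
  · rintro ⟨h1, h2, h3⟩
    have hz : lv G (mt M) b < ZZ (VS n) := by omega
    obtain ⟨i, hi, hi'⟩ := lvK_exists h hz
    have hk : lam G (mt M) < n := by omega
    refine ⟨i, ⟨lam G (mt M), hk⟩, hi, (lamK_iff h).2 ⟨hn, rfl⟩, ?_, ?_⟩
    · show (i : ℕ) ≤ lam G (mt M)
      omega
    · by_cases hb : mt M b = b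
      · exact Or.inl hb
      · right
        rw [ksd_al_cov hb] at h2
        intro j hj
        have h4 : lv G (mt M) (mt M b) = j + 1 := (lvK_iff h).1 hj
        refine ⟨?_, ?_⟩
        · show lam G (mt M) < i + j
          omega
        · rcases h3 with h3 | h3 | ⟨h3, h5⟩
          · exact absurd h3 hb
          · left
            show (i : ℕ) < j
            omega
          · right
            refine ⟨?_, h5⟩
            apply Fin.ext
            omega

/-- Job KSD. (If `lv x + 1 = lv c` then both are finite: `dd_le_ZZ`, `lv_bound`.) -/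
theorem upK_eq (h : IsMat G M) (hn : ¬ Mxl G (mt M)) : upK n (G, M) = Upp G (mt M) := by
  have hm : Mate G (mt M) := (mt_mate h).1
  funext b c
  apply propext
  unfold upK Upp
  rw [claK_eq h hn]
  constructor
  · rintro ⟨x, i, j, hx, ha, hne, hi, hj, hij⟩
    have h1 := (lvK_iff h).1 hi
    have h2 := (lvK_iff h).1 hj
    exact ⟨x, hx, ha, hne, by omega⟩
  · rintro ⟨x, hx, ha, hne, hl⟩
    have hle : lv G (mt M) c ≤ ZZ (VS n) := dd_le_ZZ
    have hz : lv G (mt M) x < ZZ (VS n) := by omega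
    have hb := lv_bound hm hz
    have hZ : n + 3 ≤ ZZ (VS n) := by
      simp only [ZZ, Fintype.card_sum, Fintype.card_fin, Fintype.card_bool]
      omega
    have hz' : lv G (mt M) c < ZZ (VS n) := by omega
    obtain ⟨i, hi, hi'⟩ := lvK_exists h hz
    obtain ⟨j, hj, hj'⟩ := lvK_exists h hz'
    exact ⟨x, i, j, hx, ha, hne, hi, hj, by omega⟩

/-- Job KSD. (`leK_iff`, `up_lv`, `nd_exp`; nodes have levels at most `lam + 1`, which is finite by `th_lt`.) -/
theorem gdata (h : IsMat G M) (hn : ¬ Mxl G (mt M)) :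
    GData (ndK n (G, M)) (lv G (mt M)) (leK' n (G, M)) (upK n (G, M)) (fun x => mt M x = x) (lam G (mt M) + 1) := by
  have hm : Mate G (mt M) := (mt_mate h).1
  have hth := th_lt hm hn
  rw [ndK_eq h hn, upK_eq h hn]
  refine ⟨?_, ?_, ?_, ?_⟩
  · intro b c hb hc
    have h1 := hb.1
    have h2 := hc.1
    exact leK_iff h (by omega) (by omega)
  · intro b c hb hu
    exact up_lv hm hn hb hu
  · intro r hr
    exact nd_exp hm hn hr
  · intro b hb
    exact hb.1

/-- The structural properties of a state for a matching which is not maximum. -/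
abbrev GI (G M : SimpleGraph (Fin n)) (σ : St n) : Prop :=
  GInv (ndK n (G, M)) (lv G (mt M)) (upK n (G, M)) (fun x => mt M x = x) σ

/-- Job KSE. -/
theorem z2_mate (h : IsMat G M) {Ow : Fin n → Fin n → Prop} (hx : z2 n (G, M) Ow r r' x) : z2 n (G, M) Ow r r' (mt M x) := by
  have hm : mt M (mt M x) = x := (mt_mate h).1.1 x
  have key : ∀ t, zK n (G, M) Ow t x → zK n (G, M) Ow t (mt M x) := by
    rintro t ⟨b, hb, hc⟩
    refine ⟨b, hb, ?_⟩
    show claK n (G, M) b (mt M x) ∨ claK n (G, M) b (mt M (mt M x))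
    rw [hm]
    exact hc.symm
  exact hx.imp (key r) (key r')

/-- Job KSE. (`zone_disj`, `GInv.nd_rt`, `GInv.fn`.) -/
theorem zK_disj (h : IsMat G M) (hn : ¬ Mxl G (mt M)) (hi : GI G M σ) (hx : zK n (G, M) σ.1 r x) (hx' : zK n (G, M) σ.1 r' x) : r = r' := by
  obtain ⟨b, hb, hc⟩ := hx
  obtain ⟨b', hb', hc'⟩ := hx'
  have h1 : ndK n (G, M) b := (hi.nd_rt b r hb).1
  have h2 : ndK n (G, M) b' := (hi.nd_rt b' r' hb').1
  rw [ndK_eq h hn] at h1 h2
  rw [claK_eq h hn] at hc hc'
  have h3 : b = b' := zone_disj (mt_mate h).1 hn h1 h2 hc hc'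
  rw [← h3] at hb'
  exact hi.fn b r r' hb hb'

/-- Job KSE. (`rG_mat`, `mt_rG`, `z2_mate`.) -/
theorem rs_mat (h : IsMat G M) (Ow : Fin n → Fin n → Prop) (r r' : Fin n) :
    IsMat (rs n (G, M) Ow r r').1 (rs n (G, M) Ow r r').2 ∧ mt (rs n (G, M) Ow r r').2 = rm (mt M) (z2 n (G, M) Ow r r') :=
  ⟨rG_mat h, mt_rG h fun _ hx => z2_mate h hx⟩

private theorem ksf_ext (h : IsMat G M) {Ow : Fin n → Fin n → Prop} {S : Finset (Fin n)} {l : ℕ}
    (hA : AP (rs n (G, M) Ow r r').1 (mt (rs n (G, M) Ow r r').2) S l) :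
    AP G (mt M) S l ∧ ∀ x ∈ S, z2 n (G, M) Ow r r' x := by
  rw [(rs_mat h Ow r r').2] at hA
  exact ap_extend (mt_mate h).1 (fun x hx => z2_mate h hx) hA

private theorem ksf_res (h : IsMat G M) {Ow : Fin n → Fin n → Prop} {S : Finset (Fin n)} {l : ℕ}
    (hA : AP G (mt M) S l) (hS : ∀ x ∈ S, z2 n (G, M) Ow r r' x) :
    AP (rs n (G, M) Ow r r').1 (mt (rs n (G, M) Ow r r').2) S l := by
  rw [(rs_mat h Ow r r').2]
  exact ap_restrict (mt_mate h).1 (fun x hx => z2_mate h hx) hA hS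

private theorem ksf_lam (h : IsMat G M) {Ow : Fin n → Fin n → Prop} (hh : hK n (G, M) Ow r r') :
    ¬ Mxl (rs n (G, M) Ow r r').1 (mt (rs n (G, M) Ow r r').2) ∧
      lam (rs n (G, M) Ow r r').1 (mt (rs n (G, M) Ow r r').2) = lam G (mt M) := by
  obtain ⟨_, _, k, hk1, hk2⟩ := hh
  have h1 := (lamK_iff h).1 hk1
  have h2 := (lamK_iff (G := (rs n (G, M) Ow r r').1) (M := (rs n (G, M) Ow r r').2) (rs_mat h Ow r r').1).1 hk2
  exact ⟨h2.1, h2.2.trans h1.2.symm⟩

/-- Job KSF. `lamK_iff` for `(G, M)` and for the restriction (`rs_mat`); `ap_restrict`, `ap_extend`: every augmenting path of the restriction is one of `G`, so `lam` of the restriction is at least `lam G (mt M)`. -/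
theorem hK_iff (h : IsMat G M) (hn : ¬ Mxl G (mt M)) {Ow : Fin n → Fin n → Prop} :
    hK n (G, M) Ow r r' ↔ mt M r = r ∧ mt M r' = r' ∧ ∃ S, AP G (mt M) S (lam G (mt M)) ∧ ∀ x ∈ S, z2 n (G, M) Ow r r' x := by
  constructor
  · intro hh
    obtain ⟨h1, h2⟩ := ksf_lam h hh
    obtain ⟨S, hS⟩ := lam_mem h1
    rw [h2] at hS
    exact ⟨hh.1, hh.2.1, S, ksf_ext h hS⟩
  · rintro ⟨h1, h2, S, hS, hZ⟩
    have h3 := ksf_res h hS hZ
    have h4 : ¬ Mxl (rs n (G, M) Ow r r').1 (mt (rs n (G, M) Ow r r').2) := fun h5 => h5 _ _ h3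
    have h5 := lam_le h3
    obtain ⟨S', hS'⟩ := lam_mem h4
    have h6 := lam_le (ksf_ext h hS').1
    have h7 := lam_lt (mt_mate h).1 hn
    refine ⟨h1, h2, ⟨lam G (mt M), by omega⟩, (lamK_iff h).2 ⟨hn, rfl⟩, ?_⟩
    exact (lamK_iff (G := (rs n (G, M) Ow r r').1) (M := (rs n (G, M) Ow r r').2) (rs_mat h Ow r r').1).2
      ⟨h4, le_antisymm h5 h6⟩

/-- Job KSF. In this case `lam` of the restriction is `lam G (mt M)` and the restriction is not maximum. -/
theorem hK_lam (h : IsMat G M) (hn : ¬ Mxl G (mt M)) {Ow : Fin n → Fin n → Prop} (hh : hK n (G, M) Ow r r') :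
    ¬ Mxl (rs n (G, M) Ow r r').1 (mt (rs n (G, M) Ow r r').2) ∧
      lam (rs n (G, M) Ow r r').1 (mt (rs n (G, M) Ow r r').2) = lam G (mt M) := by
  exact ksf_lam h hh

end Pool.Agent.SUB
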