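import Pool.Agent.Lib.MP_0087d5_lc.SUB.Loop

/-!
# Steps, loops of steps, closed circuits

Jobs LP1 (`ofComp`, `mono`, `congr`, `pull`), LP2 (`LStep.*`), LP3 (`relSub_of_LComp`).
-/

namespace Pool.Agent.SUB

open Pool.Agent.UPM (RF Readers RelF Ext Comp GS GB FODef)

variable {S : ℕ → Type} {B : Readers S} {ι κ Fl : Type} {D D' : ℕ → ℕ}

/-- Job LP1. -/
theorem FOM.ofFO {P : ∀ n : ℕ, (ι → Fin n) → Prop} (h : FODef ι P) : FOM ι P := by
  induction h with
  | le i j => exact FOM.le i j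
  | add i j k => exact FOM.add i j k
  | not _ ih => exact FOM.not ih
  | and _ _ ih1 ih2 => exact FOM.and ih1 ih2
  | ex _ ih => exact FOM.ex ih

/-- The depth is monotone in the bound. -/
private theorem lp1_depth {C : OM S B} {n d d' : ℕ} (hd : d ≤ d') (h : C.DepthLE n d) : C.DepthLE n d' := by
  obtain ⟨lev, h1, h2⟩ := h
  exact ⟨lev, fun g => (h1 g).trans hd, h2⟩

/-- The circuit with the same gates and wires. -/
private def lp1_of (C : Pool.Agent.UPM.OC S B) : OM S B where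
  T := C.T
  finT := C.finT
  A := C.A
  finA := C.finA
  inp := C.inp
  wire := C.wire
  uniform := fun a b => FOM.ofFO (C.uniform a b)

/-- The circuit reading the changed input. -/
private def lp1_pull {S' : ℕ → Type} {B' : Readers S'} (g : ∀ n, S' n → S n)
    (hg : ∀ (ι : Type) (P : RF S ι), B ι P → B' ι (fun n s x => P n (g n s) x)) (C : OM S B) : OM S' B' where
  T := C.T
  finT := C.finT
  A := C.A
  finA := C.finA
  inp := fun t => (C.inp t).map fun r => ⟨r.1, fun n s x => r.2.1 n (g n s) x, hg r.1 r.2.1 r.2.2.1, r.2.2.2⟩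
  wire := C.wire
  uniform := C.uniform

/-- Job LP1. The same circuit. -/
theorem LComp.ofComp {F : RF S ι} (h : Comp S B ι F) : LComp D S B ι F := by
  obtain ⟨hι, C, o, e, c, k, h1, h2⟩ := h
  refine ⟨hι, lp1_of C, o, e, c, k, fun n => ⟨(h1 n).1, ?_⟩, fun n s => ?_⟩
  · obtain ⟨lev, h3, h4⟩ := (h1 n).2
    refine ⟨lev, fun g => (h3 g).trans ?_, h4⟩
    exact Nat.le_mul_of_pos_right _ (Nat.succ_pos _)
  · obtain ⟨v, hv, hvx⟩ := h2 n s
    refine ⟨v, cn_consistent_iff.2 fun a x => ?_, hvx⟩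
    have h3 := hv ⟨a, x⟩
    constructor
    · intro r hr
      have hr' : C.inp a = some r := hr
      dsimp only at h3
      rw [hr'] at h3
      exact h3
    · intro hr
      have hr' : C.inp a = none := hr
      dsimp only at h3
      rw [hr'] at h3
      refine h3.trans (not_congr ?_)
      exact ⟨fun h4 b y w => h4 ⟨b, y⟩ w, fun h4 g w => h4 g.1 g.2 w⟩

/-- Job LP1. -/
theorem LComp.mono (hD : ∀ n, D n ≤ D' n) {F : RF S ι} (h : LComp D S B ι F) : LComp D' S B ι F := by
  obtain ⟨hι, C, o, e, c, k, h1, h2⟩ := h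
  refine ⟨hι, C, o, e, c, k, fun n => ⟨(h1 n).1, lp1_depth ?_ (h1 n).2⟩, h2⟩
  exact Nat.mul_le_mul_left _ (Nat.succ_le_succ (hD n))

/-- Job LP1. -/
theorem LComp.congr {F F' : RF S ι} (h : LComp D S B ι F) (hF : ∀ n s x, F n s x ↔ F' n s x) : LComp D S B ι F' := by
  obtain ⟨hι, C, o, e, c, k, h1, h2⟩ := h
  refine ⟨hι, C, o, e, c, k, h1, fun n s => ?_⟩
  obtain ⟨v, hv, hvx⟩ := h2 n s
  exact ⟨v, hv, fun x => (hvx x).trans (hF n s x)⟩

/-- Job LP1. Change of the input; readers become readers. -/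
theorem LComp.pull {S' : ℕ → Type} {B' : Readers S'} (g : ∀ n, S' n → S n)
    (hg : ∀ (ι : Type) (P : RF S ι), B ι P → B' ι (fun n s x => P n (g n s) x)) {F : RF S ι} (h : LComp D S B ι F) :
    LComp D S' B' ι (fun n s x => F n (g n s) x) := by
  obtain ⟨hι, C, o, e, c, k, h1, h2⟩ := h
  refine ⟨hι, lp1_pull g hg C, o, e, c, k, h1, fun n s => ?_⟩
  obtain ⟨v, hv, hvx⟩ := h2 n (g n s)
  refine ⟨v, cn_consistent_iff.2 fun a x => ?_, hvx⟩
  obtain ⟨h3, h4⟩ := cn_consistent_iff.1 hv a x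
  have hi : (lp1_pull g hg C).inp a = (C.inp a).map fun r =>
      ⟨r.1, fun n s x => r.2.1 n (g n s) x, hg r.1 r.2.1 r.2.2.1, r.2.2.2⟩ := rfl
  constructor
  · intro r hr
    rw [hi, Option.map_eq_some_iff] at hr
    obtain ⟨r', hr1, hr2⟩ := hr
    rw [← hr2]
    exact h3 r' hr1
  · intro hr
    rw [hi, Option.map_eq_none_iff] at hr
    exact h4 hr

/-- A step: new relations computed from the input and the old relations. -/
def LStep (S : ℕ → Type) (B : Readers S) (D : ℕ → ℕ) (F : Fl → RF (fun n => S n × RelF κ Fl n) κ) : Prop :=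
  ∀ f, LComp D (fun n => S n × RelF κ Fl n) (Ext B κ Fl) κ (F f)

/-- The map on the relations given by a step. -/
def run (F : Fl → RF (fun n => S n × RelF κ Fl n) κ) (n : ℕ) (s : S n) (R : RelF κ Fl n) : RelF κ Fl n := fun f x => F f n (s, R) x

private theorem lp2_pull {F : RF (fun n => S n × RelF κ Fl n) κ}
    (h : LComp D (fun n => S n × RelF κ Fl n) (Ext B κ Fl) κ F) :
    LComp D (fun n => (S n × RelF κ Fl n) × RelF κ Fl n) (Ext (Ext B κ Fl) κ Fl) κ
      (fun n s x => F n (s.1.1, s.2) x) := by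
  refine LComp.pull (S := fun n => S n × RelF κ Fl n) (S' := fun n => (S n × RelF κ Fl n) × RelF κ Fl n)
    (fun n s => (s.1.1, s.2)) ?_ h
  intro ι P hP
  cases hP with
  | old hP => exact Ext.old (Ext.old hP)
  | new f => exact Ext.new f

/-- Job LP2. `LComp.loop` with one iteration (`T = 0`), the initial relations `F` and the step `G`, pulled back along `(s, R, R') ↦ (s, R')`. -/
theorem LStep.comp (hFl : Finite Fl) (hne : Nonempty κ) {F G : Fl → RF (fun n => S n × RelF κ Fl n) κ} (hF : LStep S B D F) (hG : LStep S B D G) :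
    LStep S B D (fun f n s x => run G n s.1 (run F n s.1 s.2) f x) := by
  intro f
  have hG' : ∀ f, LComp D (fun n => (S n × RelF κ Fl n) × RelF κ Fl n) (Ext (Ext B κ Fl) κ Fl) κ
      (fun n s x => G f n (s.1.1, s.2) x) := fun f => lp2_pull (hG f)
  have h := LComp.loop (S := fun n => S n × RelF κ Fl n) (B := Ext B κ Fl) (D := D) hFl hne (D' := D)
    (T := fun _ => 0) (FOM.zero ()) (fun n hn => hn) (fun n => by simp) (H := F) hF hG' f
  exact h

/-- Job LP2. `LComp.loop` with the initial relations `fun f n s x => s.2 f x`. -/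
theorem LStep.iter (hFl : Finite Fl) (hne : Nonempty κ) {F : Fl → RF (fun n => S n × RelF κ Fl n) κ} (hF : LStep S B D F) {T : ℕ → ℕ}
    (hT : FOM Unit (fun n x => (x () : ℕ) = T n)) (hTn : ∀ n, 0 < n → T n < n) (hD : ∀ n, (T n + 1) * (D n + 1) ≤ D' n + 1) :
    LStep S B D' (fun f n s x => (run F n s.1)^[T n + 1] s.2 f x) := by
  intro f
  have hF' : ∀ f, LComp D (fun n => (S n × RelF κ Fl n) × RelF κ Fl n) (Ext (Ext B κ Fl) κ Fl) κ
      (fun n s x => F f n (s.1.1, s.2) x) := fun f => lp2_pull (hF f)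
  have hH : ∀ f, LComp D' (fun n => S n × RelF κ Fl n) (Ext B κ Fl) κ (fun n s x => s.2 f x) :=
    fun f' => LComp.base (hF f).1 (Ext.new f')
  have h := LComp.loop (S := fun n => S n × RelF κ Fl n) (B := Ext B κ Fl) (D := D) hFl hne (D' := D')
    (T := T) hT hTn hD hH hF' f
  exact h

/-- Job LP2. A constant number of iterations (induction on `c`, `LStep.comp`). -/
theorem LStep.citer (hFl : Finite Fl) (hne : Nonempty κ) (hκ : Finite κ) {F : Fl → RF (fun n => S n × RelF κ Fl n) κ} (hF : LStep S B D F) (c : ℕ) :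
    LStep S B D (fun f n s x => (run F n s.1)^[c] s.2 f x) := by
  induction c with
  | zero => exact fun f => LComp.base hκ (Ext.new f)
  | succ c ih => exact LStep.comp hFl hne hF ih

/-- Job LP2. The result of a step for the relations which are false. (`LComp.loop` with `T = 0` and `H = False`.) -/
theorem LStep.start (hFl : Finite Fl) (hne : Nonempty κ) (hκ : Finite κ) {F : Fl → RF (fun n => S n × RelF κ Fl n) κ} (hF : LStep S B D F) (f : Fl) :
    LComp D S B κ (fun n s x => run F n s (fun _ _ => False) f x) := by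
  have h := LComp.loop (S := S) (B := B) (D := D) hFl hne (D' := D)
    (T := fun _ => 0) (FOM.zero ()) (fun n hn => hn) (fun n => by simp)
    (H := fun _ _ _ _ => False) (fun _ => LComp.ofFO hκ (FOM.const False)) hF f
  exact h

/-- Version of `LComp.not` in which the output map is a bijection. -/
private theorem lp3_not {P : RF S ι} (h : LComp D S B ι P) :
    ∃ (C : OM S B) (o : C.T) (e : C.A o ≃ ι) (c k : ℕ),
      (∀ n, C.FanInTwo n ∧ C.DepthLE n (c * (Nat.log 2 n + 1) ^ k * (D n + 1))) ∧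
      ∀ n s, ∃ v, C.Consistent n s v ∧ ∀ x, v ⟨o, fun i => x (e i)⟩ ↔ ¬ P n s x := by
  obtain ⟨hι, C, o, e, c, k, hC, hv⟩ := h
  let N : CnNew C :=
    { T := Unit
      finT := inferInstance
      A := fun _ => ι
      finA := fun _ => hι
      inp := fun _ => none
      w1 := fun _ b n x y => (⟨b, y⟩ : C.Gate n) = ⟨o, fun i => x (e i)⟩
      w2 := fun _ _ _ _ _ => False
      u1 := fun _ b => cn_fo_out C o b e
      u2 := fun _ _ => FOM.const False }
  refine ⟨N.ext, Sum.inr (), Equiv.refl ι, c + 2, k, ?_, ?_⟩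
  · intro n
    have hb := N.bounds (n := n) (d₂ := 0) (hC n).1 (hC n).2 (fun _ _ => 0) (fun _ _ => le_rfl) (fun _ _ _ _ w => absurd w id) (by
      rintro a x ⟨b₁ | b₁, y₁⟩ ⟨b₂ | b₂, y₂⟩ ⟨b₃ | b₃, y₃⟩ w₁ w₂ w₃
      · left
        have h1 : (⟨b₁, y₁⟩ : C.Gate n) = ⟨b₂, y₂⟩ := Eq.trans w₁ (Eq.symm w₂)
        cases h1
        rfl
      · exact absurd w₃ id
      · exact absurd w₂ id
      · exact absurd w₂ id
      · exact absurd w₁ id
      · exact absurd w₁ id
      · exact absurd w₁ id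
      · exact absurd w₁ id)
    refine ⟨hb.1, ?_⟩
    obtain ⟨l, hl1, hl2⟩ := hb.2
    refine ⟨l, fun g => (hl1 g).trans ?_, hl2⟩
    have := cn_depth (c := c) (k := k) (n := n) (d := D n)
    omega
  · intro n s
    obtain ⟨v, hcons, hval⟩ := hv n s
    refine ⟨N.val v (fun _ x => ¬ v ⟨o, fun i => x (e i)⟩), N.consistent hcons (fun a x r hr => ?_) (fun a x _ => ?_), ?_⟩
    · exact absurd hr (by simp [N])
    · show ¬ v ⟨o, fun i => x (e i)⟩ ↔ ¬ ((∀ b y, (⟨b, y⟩ : C.Gate n) = ⟨o, fun i => x (e i)⟩ → v ⟨b, y⟩) ∧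
        ∀ (_ : Unit) (y : ι → Fin n), False → ¬ v ⟨o, fun i => y (e i)⟩)
      apply not_congr
      constructor
      · intro h1
        refine ⟨fun b y hby => ?_, fun _ _ hf => hf.elim⟩
        rw [hby]
        exact h1
      · rintro ⟨h1, _⟩
        exact h1 _ _ rfl
    · intro x
      exact not_congr (hval x)

/-- A reader of `GB` reads one entry of the adjacency matrix. -/
private theorem lp3_reader {A : Type} {P : RF GS ι} (h : GB ι P) (e : ι → A) :
    ∃ q : A × A, ∀ (n : ℕ) (s : GS n) (x : A → Fin n),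
      P n s (fun i => x (e i)) ↔ s.Adj (x q.1) (x q.2) := by
  cases h
  exact ⟨(e 0, e 1), fun n s x => Iff.rfl⟩

/-- The input maps of the closed circuit. -/
private theorem lp3_inp (C : OM GS GB) (t : C.T) : ∃ q : Option (C.A t × C.A t),
    (C.inp t = none ∧ q = none) ∨
    ∃ (ι : Type) (P : RF GS ι) (hB : GB ι P) (e : ι → C.A t) (q' : C.A t × C.A t),
      C.inp t = some ⟨ι, P, hB, e⟩ ∧ q = some q' ∧
      ∀ (n : ℕ) (s : GS n) (x : C.A t → Fin n), P n s (fun i => x (e i)) ↔ s.Adj (x q'.1) (x q'.2) := by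
  rcases C.inp t with _ | ⟨ι, P, hB, e⟩
  · exact ⟨none, Or.inl ⟨rfl, rfl⟩⟩
  · obtain ⟨q, hq⟩ := lp3_reader hB e
    exact ⟨some q, Or.inr ⟨ι, P, hB, e, q, rfl, rfl, hq⟩⟩

/-- Consistent assignments of a circuit with levels are unique. -/
private theorem lp3_unique {r : ℕ} (C : CircuitFamilyM r) (n d : ℕ) (hd : C.DepthLE n d)
    (G : SimpleGraph (Fin n)) {v w : C.Gate n → Prop} (hv : C.Consistent n G v)
    (hw : C.Consistent n G w) (g : C.Gate n) : v g ↔ w g := by
  obtain ⟨lev, -, hlev⟩ := hd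
  suffices H : ∀ (m : ℕ) (g : C.Gate n), lev g < m → (v g ↔ w g) from H _ g (Nat.lt_succ_self _)
  intro m
  induction m with
  | zero => exact fun g hg => absurd hg (Nat.not_lt_zero _)
  | succ m ih =>
    intro g hg
    have h1 := hv g
    have h2 := hw g
    rcases hC : C.inp g.1 with _ | ⟨i, j⟩
    · rw [hC] at h1 h2
      rw [h1, h2]
      have hih : ∀ h, C.Wire n g h → (v h ↔ w h) := fun h hh => ih h (by
        have := hlev g h hh
        omega)
      refine not_congr (forall_congr' fun h => ?_)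
      exact ⟨fun k hh => (hih h hh).1 (k hh), fun k hh => (hih h hh).2 (k hh)⟩
    · rw [hC] at h1 h2
      exact h1.trans h2.symm

/-- The depth of the closed circuit. -/
private theorem lp3_depth {c k L d m c₀ : ℕ} (h : (d + 1) ^ 9 ≤ c₀ * m) :
    (c * L ^ k * (d + 1)) ^ 9 ≤ c ^ 9 * c₀ * L ^ (9 * k) * m := by
  calc (c * L ^ k * (d + 1)) ^ 9 = c ^ 9 * L ^ (9 * k) * (d + 1) ^ 9 := by
        rw [mul_pow, mul_pow, ← pow_mul, mul_comm k 9]
    _ ≤ c ^ 9 * L ^ (9 * k) * (c₀ * m) := Nat.mul_le_mul_left _ h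
    _ = c ^ 9 * c₀ * L ^ (9 * k) * m := by ring

/-- Job LP3. Closed circuits. As `relNC2_of_NCP` in `AUG/Compile2.lean`: `LComp.not` twice, with an output map which is a bijection. The depth: `(c (log n + 1)^k (D n + 1))^9`. -/
theorem relSub_of_LComp {r : ℕ} {F : RF GS (Fin r)} (h : LComp D GS GB (Fin r) F) {c₀ : ℕ} (hD : ∀ n, (D n + 1) ^ 9 ≤ c₀ * (n + 1) ^ 8) :
    RelSub r (fun n G x => F n G x) := by
  obtain ⟨C, o, e, c, k, hCD, hV⟩ := lp3_not (LComp.not h)
  choose q hq using lp3_inp C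
  let C' : CircuitFamilyM r :=
    { T := C.T
      finT := C.finT
      A := C.A
      finA := C.finA
      inp := q
      wire := C.wire
      uniform := C.uniform
      out := o
      outA := e }
  refine ⟨C', fun n => c * (Nat.log 2 n + 1) ^ k * (D n + 1), c ^ 9 * c₀, 9 * k, fun n => lp3_depth (hD n),
    fun n => ⟨(hCD n).1, (hCD n).2, fun G => ?_⟩⟩
  obtain ⟨v, hv, hvF⟩ := hV n G
  have hcons : C'.Consistent n G v := by
    intro g
    have h1 := hv g
    have h2 : C'.inp g.1 = q g.1 := rfl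
    rw [h2]
    rcases hq g.1 with ⟨h3, h4⟩ | ⟨ι, P, hB, e', q', h3, h4, h5⟩
    · rw [h3] at h1
      rw [h4]
      exact h1
    · rw [h3] at h1
      rw [h4]
      exact h1.trans (h5 n G g.2)
  refine ⟨⟨v, hcons⟩, fun w hw x => ?_⟩
  rw [← lp3_unique C' n _ (hCD n).2 G hcons hw (C'.outGate n x)]
  exact (hvF x).trans not_not

end Pool.Agent.SUB
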