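import Pool.Agent.Lib.MP_0087d5_lc.SUB.KProg
import Pool.Agent.Lib.MP_0087d5_lc.SUB.LPost

/-!
# The steps of the algorithm as programs

The state: three binary relations: `R 0` = the matching, `R 1 ![b, r]`: `b` is owned by `r`, `R 2 ![b, b]`: `b` is active. Jobs LSA (`dM_en`, `dS_en`, `rd_*`), LSB (`st_ini`, `st_aug`), LSC (`st_grow`), LSD (`st_fin`).
-/

namespace Pool.Agent.SUB

open Relation Finset Pool.Agent.AUG Pool.Agent.UPM

/-- The state relations. -/
abbrev RS (n : ℕ) : Type := RelF (Fin 2) (Fin 3) n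

/-- The matching of a state. -/
def dM (n : ℕ) (R : RS n) : SimpleGraph (Fin n) := SimpleGraph.fromRel (fun p q => R 0 ![p, q])

/-- The structures of a state. -/
def dS (n : ℕ) (R : RS n) : St n := (fun b r => R 1 ![b, r], fun b => R 2 ![b, b])

/-- The state with a given matching and given structures. -/
def en (n : ℕ) (M : SimpleGraph (Fin n)) (σ : St n) : RS n := fun f x =>
  if f = 0 then M.Adj (x 0) (x 1) else if f = 1 then σ.1 (x 0) (x 1) else x 0 = x 1 ∧ σ.2 (x 0)

/-- Job LSA. -/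
theorem dM_en (n : ℕ) (M : SimpleGraph (Fin n)) (σ : St n) : dM n (en n M σ) = M := by
  ext p q
  unfold dM
  rw [SimpleGraph.fromRel_adj]
  show p ≠ q ∧ (M.Adj p q ∨ M.Adj q p) ↔ M.Adj p q
  constructor
  · rintro ⟨-, h1 | h1⟩
    · exact h1
    · exact h1.symm
  · intro h1
    exact ⟨h1.ne, Or.inl h1⟩

/-- Job LSA. -/
theorem dS_en (n : ℕ) (M : SimpleGraph (Fin n)) (σ : St n) : dS n (en n M σ) = σ := by
  refine Prod.ext (funext fun b => funext fun r => rfl) (funext fun b => ?_)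
  show (b = b ∧ σ.2 b) = σ.2 b
  exact propext ⟨fun h => h.2, fun h => ⟨rfl, h⟩⟩

/-- The inputs of the steps. -/
abbrev XS (n : ℕ) : Type := GS n × RS n

/-- The readers of the steps. -/
abbrev XB : Readers XS := Ext GB (Fin 2) (Fin 3)

private theorem lsa_vec {n : ℕ} (x : Fin 2 → Fin n) : ![x 0, x 1] = x := by
  funext i
  fin_cases i <;> rfl

private theorem lsa_rel (f : Fin 3) : NCP XS XB (Fin 2) (fun _ s x => s.2 f ![x 0, x 1]) := by
  have h1 : NCP XS XB (Fin 2) (fun _ s x => s.2 f x) := NCP.base inferInstance (Ext.new f)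
  refine h1.congr fun n s x => ?_
  rw [lsa_vec]

private theorem lsa_mat : NCP XS XB (Fin 2) (fun n s x => (dM n s.2).Adj (x 0) (x 1)) := by
  have h2 := lsa_rel 0
  have h3 : NCP XS XB (Fin 2) (fun _ s x => s.2 0 ![x 1, x 0]) :=
    (NCP.comap (κ := Fin 2) inferInstance ![1, 0] h2).congr fun n s x => Iff.rfl
  refine (NCP.and (NCP.not (NCP.eq inferInstance 0 1)) (NCP.or h2 h3)).congr fun n s x => ?_
  unfold dM
  rw [SimpleGraph.fromRel_adj]

private theorem lsa_gr : NCP XS XB (Fin 2) (fun _ s x => s.1.Adj (x 0) (x 1)) :=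
  NCP.base inferInstance (Ext.old GB.adj)

private theorem lsa_readers (ι : Type) (_ : Finite ι) (P : RF GS2 ι) (h : GB2 ι P) :
    NCP XS XB ι (fun n s x => P n (s.1, dM n s.2) x) := by
  cases h with
  | fst => exact lsa_gr
  | snd => exact lsa_mat

/-- Job LSA. Programs for a graph and a matching are programs for the state. (`NCP.pull`; see `ye_dec`, `ye_readers` in `AUG/SearchProg.lean`.) -/
theorem rd_pull {ι : Type} {F : RF GS2 ι} (h : NCP GS2 GB2 ι F) : NCP XS XB ι (fun n s x => F n (s.1, dM n s.2) x) :=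
  NCP.pull (S := GS2) (B := GB2) (fun n (s : XS n) => (s.1, dM n s.2)) lsa_readers h

/-- Job LSA. -/
theorem rd_own : NCP XS XB (Fin 2) (fun n s x => (dS n s.2).1 (x 0) (x 1)) := lsa_rel 1

/-- Job LSA. -/
theorem rd_act : NCP XS XB (Fin 1) (fun n s x => (dS n s.2).2 (x 0)) :=
  (NCP.comap (κ := Fin 1) inferInstance ![0, 0] (lsa_rel 2)).congr fun _ _ _ => Iff.rfl

/-- Job LSA. -/
theorem rd_adj : NCP XS XB (Fin 2) (fun n s x => s.1.Adj (x 0) (x 1)) ∧ NCP XS XB (Fin 2) (fun n s x => (dM n s.2).Adj (x 0) (x 1)) :=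
  ⟨lsa_gr, lsa_mat⟩

/-- Job LSA. A state given by programs. -/
theorem rd_en {M : ∀ n, XS n → SimpleGraph (Fin n)} {σ : ∀ n, XS n → St n} (h0 : NCP XS XB (Fin 2) (fun n s x => (M n s).Adj (x 0) (x 1)))
    (h1 : NCP XS XB (Fin 2) (fun n s x => (σ n s).1 (x 0) (x 1))) (h2 : NCP XS XB (Fin 1) (fun n s x => (σ n s).2 (x 0))) (f : Fin 3) :
    NCP XS XB (Fin 2) (fun n s x => en n (M n s) (σ n s) f x) := by
  have h3 : NCP XS XB (Fin 2) (fun n s x => x 0 = x 1 ∧ (σ n s).2 (x 0)) :=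
    NCP.and (NCP.eq inferInstance 0 1) ((NCP.comap (κ := Fin 2) inferInstance ![0] h2).congr fun n s x => Iff.rfl)
  fin_cases f
  · exact h0
  · exact h1
  · exact h3

/-- The initial structures. -/
def fIni (f : Fin 3) : RF XS (Fin 2) := fun n s x => en n (dM n s.2) (g0 (fun y => mt (dM n s.2) y = y)) f x

/-- A growth step. -/
def fGrow (f : Fin 3) : RF XS (Fin 2) := fun n s x => en n (dM n s.2) (growK mx0 n (s.1, dM n s.2) (dS n s.2)) f x

/-- The end of a round. -/
def fFin (f : Fin 3) : RF XS (Fin 2) := fun n s x => en n (finG mx0 n (s.1, dM n s.2) (dS n s.2).1) (dS n s.2) f x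

/-- An augmentation. -/
def fAug (f : Fin 3) : RF XS (Fin 2) := fun n s x => en n (sAug n s.1 (dM n s.2)) (dS n s.2) f x

/-- Job LSB. (`rd_en`, `rd_pull`, `fa_mt`.) -/
theorem st_ini (f : Fin 3) : NCP XS XB (Fin 2) (fIni f) := by
  refine rd_en (M := fun n s => dM n s.2) (σ := fun n s => g0 (fun y => mt (dM n s.2) y = y)) rd_adj.2 ?_ ?_ f
  · have h1 : NCP XS XB (Fin 2) (fun _ _ x => x 0 = x 1) := NCP.eq inferInstance 0 1
    have h2 : NCP XS XB (Fin 2) (fun n s x => mt (dM n s.2) (x 1) = x 1) :=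
      rd_pull (F := fun _ s x => mt s.2 (x 1) = x 1) (fa_mt inferInstance 1 1)
    exact (NCP.and h1 h2).congr fun n s x => Iff.rfl
  · have h2 : NCP XS XB (Fin 1) (fun n s x => mt (dM n s.2) (x 0) = x 0) :=
      rd_pull (F := fun _ s x => mt s.2 (x 0) = x 0) (fa_mt inferInstance 0 0)
    exact h2.congr fun n s x => Iff.rfl

/-- Job LSB. (`q_sAug`.) -/
theorem st_aug (f : Fin 3) : NCP XS XB (Fin 2) (fAug f) := by
  refine rd_en (M := fun n s => sAug n s.1 (dM n s.2)) (σ := fun n s => dS n s.2) ?_ rd_own rd_act f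
  exact rd_pull (F := fun n s x => (sAug n s.1 s.2).Adj (x 0) (x 1)) q_sAug

theorem lsc_rel1 {S : ℕ → Type} {B : Readers S} {ι : Type} {R : ∀ n, S n → Fin n → Prop} (hι : Finite ι)
    (h : NCP S B (Fin 1) (fun n s x => R n s (x 0))) (i : ι) : NCP S B ι (fun n s x => R n s (x i)) :=
  NCP.comap hι (fun _ => i) h

/-- The owners for a state. -/
def lscOwn (n : ℕ) (s : XS n) : Fin n → Fin n → Prop := (dS n s.2).1

/-- The active nodes for a state. -/
def lscAct (n : ℕ) (s : XS n) : Fin n → Prop := (dS n s.2).2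

/-- The nodes for a state. -/
def lscNd (n : ℕ) (s : XS n) : Fin n → Prop := ndK n (s.1, dM n s.2)

/-- The comparison of levels for a state. -/
def lscLe (n : ℕ) (s : XS n) : Fin n → Fin n → Prop := leK' n (s.1, dM n s.2)

/-- The edges upwards for a state. -/
def lscUp (n : ℕ) (s : XS n) : Fin n → Fin n → Prop := upK n (s.1, dM n s.2)

/-- The heads for a state. -/
def lscHd (n : ℕ) (s : XS n) : Fin n → Prop := hd (lscLe n s) (dS n s.2)

/-- The wanted nodes for a state. -/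
def lscWt (n : ℕ) (s : XS n) : Fin n → Fin n → Prop := wt (lscNd n s) (lscLe n s) (lscUp n s) (dS n s.2)

/-- The extensions of the heads for a state. -/
def lscQt (n : ℕ) (s : XS n) : Fin n → Fin n → Prop := qt (mx0 n) (lscNd n s) (lscLe n s) (lscUp n s) (dS n s.2)

theorem lsc_own {ι : Type} (hι : Finite ι) (i j : ι) : NCP XS XB ι (fun n s x => lscOwn n s (x i) (x j)) :=
  NCP.rel2 (R := lscOwn) hι rd_own i j

theorem lsc_act {ι : Type} (hι : Finite ι) (i : ι) : NCP XS XB ι (fun n s x => lscAct n s (x i)) :=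
  lsc_rel1 (R := lscAct) hι rd_act i

theorem lsc_nd {ι : Type} (hι : Finite ι) (i : ι) : NCP XS XB ι (fun n s x => lscNd n s (x i)) :=
  lsc_rel1 (R := lscNd) hι (rd_pull q_nd) i

theorem lsc_le {ι : Type} (hι : Finite ι) (i j : ι) : NCP XS XB ι (fun n s x => lscLe n s (x i) (x j)) :=
  NCP.rel2 (R := lscLe) hι (rd_pull q_le) i j

theorem lsc_up {ι : Type} (hι : Finite ι) (i j : ι) : NCP XS XB ι (fun n s x => lscUp n s (x i) (x j)) :=
  NCP.rel2 (R := lscUp) hι (rd_pull q_up) i j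

theorem lsc_hd {ι : Type} (hι : Finite ι) (i : ι) : NCP XS XB ι (fun n s x => lscHd n s (x i)) := by
  have h1 : NCP XS XB (Option (Option ι)) (fun n s z =>
      lscAct n s (z none) → lscOwn n s (z none) (z (some none)) → lscLe n s (z none) (z (some (some i)))) :=
    NCP.imp (lsc_act inferInstance none) (NCP.imp (lsc_own inferInstance none (some none))
      (lsc_le inferInstance none (some (some i))))
  have h2 : NCP XS XB (Option ι) (fun n s z =>
      ∀ h' : Fin n, lscAct n s h' → lscOwn n s h' (z none) → lscLe n s h' (z (some i))) :=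
    NCP.all1 (R := fun n s z h' => lscAct n s h' → lscOwn n s h' (z none) → lscLe n s h' (z (some i))) h1
  have h3 : NCP XS XB ι (fun n s x =>
      ∃ r : Fin n, lscOwn n s (x i) r ∧ ∀ h' : Fin n, lscAct n s h' → lscOwn n s h' r → lscLe n s h' (x i)) :=
    NCP.ex1 (R := fun n s x r => lscOwn n s (x i) r ∧ ∀ h' : Fin n, lscAct n s h' → lscOwn n s h' r → lscLe n s h' (x i))
      (NCP.and (lsc_own inferInstance (some i) none) h2)
  exact NCP.and (lsc_act hι i) h3

theorem lsc_wt {ι : Type} (hι : Finite ι) (i j : ι) : NCP XS XB ι (fun n s x => lscWt n s (x i) (x j)) := by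
  have h1 : NCP XS XB ι (fun n s x => ∀ r : Fin n, ¬ lscOwn n s (x j) r) :=
    NCP.all1 (R := fun n s x r => ¬ lscOwn n s (x j) r) (NCP.not (lsc_own inferInstance (some j) none))
  exact NCP.and (lsc_hd hι i) (NCP.and (lsc_nd hι j) (NCP.and h1 (lsc_up hι i j)))

theorem lsc_qt {ι : Type} (hι : Finite ι) (i j : ι) : NCP XS XB ι (fun n s x => lscQt n s (x i) (x j)) := by
  have h1 : NCP XS XB (Fin 2) (fun n s x => (SimpleGraph.fromRel (lscWt n s)).Adj (x 0) (x 1)) := by
    refine NCP.congr (NCP.and (NCP.not (NCP.eq inferInstance 0 1))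
      (NCP.or (lsc_wt inferInstance 0 1) (lsc_wt inferInstance 1 0))) (fun n s x => ?_)
    rw [SimpleGraph.fromRel_adj]
  have h2 : NCP XS XB (Fin 2) (fun n s x => lscQt n s (x 0) (x 1)) := NCP.and (lsc_wt inferInstance 0 1) (mx_ncp h1)
  exact NCP.rel2 (R := lscQt) hι h2 i j

/-- Job LSC. `hd`, `wt`, `qt`, `gst` unfolded; `q_nd`, `q_le`, `q_up` with `rd_pull`; `mx_ncp` for the graph `SimpleGraph.fromRel (wt …)`. -/
theorem st_grow (f : Fin 3) : NCP XS XB (Fin 2) (fGrow f) := by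
  have h1 : NCP XS XB (Fin 2) (fun n s x => lscOwn n s (x 0) (x 1) ∨ ∃ h : Fin n, lscQt n s h (x 0) ∧ lscOwn n s h (x 1)) :=
    NCP.or (lsc_own inferInstance 0 1) (NCP.ex1 (R := fun n s x h => lscQt n s h (x 0) ∧ lscOwn n s h (x 1))
      (NCP.and (lsc_qt inferInstance none (some 0)) (lsc_own inferInstance none (some 1))))
  have h2 : NCP XS XB (Fin 1) (fun n s x => (lscAct n s (x 0) ∧ ¬ (lscHd n s (x 0) ∧ ∀ c : Fin n, ¬ lscQt n s (x 0) c)) ∨
      ∃ h : Fin n, lscQt n s h (x 0)) :=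
    NCP.or (NCP.and (lsc_act inferInstance 0) (NCP.not (NCP.and (lsc_hd inferInstance 0)
      (NCP.all1 (R := fun n s x c => ¬ lscQt n s (x 0) c) (NCP.not (lsc_qt inferInstance (some 0) none))))))
      (NCP.ex1 (R := fun n s x h => lscQt n s h (x 0)) (lsc_qt inferInstance none (some 0)))
  exact rd_en (M := fun n s => dM n s.2) (σ := fun n s => growK mx0 n (s.1, dM n s.2) (dS n s.2)) rd_adj.2 h1 h2 f

section lsd

variable {ι : Type}

private theorem lsd_own (hι : Finite ι) (i j : ι) : NCP XS XB ι (fun n s x => (dS n s.2).1 (x i) (x j)) :=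
  NCP.comap hι ![i, j] rd_own

private theorem lsd_cla (hι : Finite ι) (i j : ι) : NCP XS XB ι (fun n s x => claK n (s.1, dM n s.2) (x i) (x j)) :=
  NCP.comap hι ![i, j] (rd_pull q_cla)

private theorem lsd_mt (hι : Finite ι) (i j : ι) : NCP XS XB ι (fun n s x => mt (dM n s.2) (x i) = x j) :=
  rd_pull (F := fun n s x => mt s.2 (x i) = x j) (fa_mt hι i j)

private theorem lsd_zK (hι : Finite ι) (i l : ι) :
    NCP XS XB ι (fun n s x => zK n (s.1, dM n s.2) (dS n s.2).1 (x i) (x l)) := by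
  have h1 : NCP XS XB (Option ι) (fun n s z => ∃ y : Fin n, mt (dM n s.2) (z (some l)) = y ∧ claK n (s.1, dM n s.2) (z none) y) :=
    NCP.ex1 (S := XS) (R := fun n s (z : Option ι → Fin n) y => mt (dM n s.2) (z (some l)) = y ∧ claK n (s.1, dM n s.2) (z none) y)
      (NCP.and (lsd_mt (ι := Option (Option ι)) inferInstance (some (some l)) none)
        (lsd_cla (ι := Option (Option ι)) inferInstance (some none) none))
  have h2 : NCP XS XB (Option ι) (fun n s z => (dS n s.2).1 (z none) (z (some i)) ∧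
      (claK n (s.1, dM n s.2) (z none) (z (some l)) ∨
        ∃ y : Fin n, mt (dM n s.2) (z (some l)) = y ∧ claK n (s.1, dM n s.2) (z none) y)) :=
    NCP.and (lsd_own inferInstance none (some i)) (NCP.or (lsd_cla inferInstance none (some l)) h1)
  refine (NCP.ex1 (S := XS) (R := fun n s (x : ι → Fin n) b => (dS n s.2).1 b (x i) ∧
      (claK n (s.1, dM n s.2) b (x l) ∨ ∃ y : Fin n, mt (dM n s.2) (x l) = y ∧ claK n (s.1, dM n s.2) b y)) h2).congr
    fun n s x => ?_
  unfold zK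
  refine exists_congr fun b => and_congr_right fun _ => or_congr_right ?_
  exact ⟨fun ⟨y, h3, h4⟩ => by rw [h3]; exact h4, fun h3 => ⟨_, rfl, h3⟩⟩

private theorem lsd_z2 (hι : Finite ι) (i j l : ι) :
    NCP XS XB ι (fun n s x => z2 n (s.1, dM n s.2) (dS n s.2).1 (x i) (x j) (x l)) :=
  NCP.or (lsd_zK hι i l) (lsd_zK hι j l)

/-- The restricted input. -/
private def lsd_in (n : ℕ) (s : XS n) (p : Fin 2 → Fin n) : GS2 n := rs n (s.1, dM n s.2) (dS n s.2).1 (p 0) (p 1)

private theorem lsd_readers (κ : Type) (_ : Finite κ) (P : RF GS2 κ) (h : GB2 κ P) :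
    NCP XS XB (Fin 2 ⊕ κ) (fun n s z => P n (lsd_in n s (fun i => z (Sum.inl i))) (fun i => z (Sum.inr i))) := by
  cases h with
  | fst =>
    exact NCP.and (NCP.comap (κ := Fin 2 ⊕ Fin 2) inferInstance ![Sum.inr 0, Sum.inr 1] rd_adj.1)
      (NCP.and (lsd_z2 inferInstance (Sum.inl 0) (Sum.inl 1) (Sum.inr 0)) (lsd_z2 inferInstance (Sum.inl 0) (Sum.inl 1) (Sum.inr 1)))
  | snd =>
    exact NCP.and (NCP.comap (κ := Fin 2 ⊕ Fin 2) inferInstance ![Sum.inr 0, Sum.inr 1] rd_adj.2)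
      (NCP.and (lsd_z2 inferInstance (Sum.inl 0) (Sum.inl 1) (Sum.inr 0)) (lsd_z2 inferInstance (Sum.inl 0) (Sum.inl 1) (Sum.inr 1)))

private theorem lsd_lamr (hι : Finite ι) (i j k : ι) :
    NCP XS XB ι (fun n s x => lamK n (rs n (s.1, dM n s.2) (dS n s.2).1 (x i) (x j)) (x k)) :=
  NCP.comap (ι := Fin 2 ⊕ Fin 1) hι (Sum.elim ![i, j] ![k])
    (LF.param q_lam (S' := XS) (B' := XB) (π := Fin 2) inferInstance lsd_in lsd_readers)

private theorem lsd_augr (hι : Finite ι) (i j k l : ι) :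
    NCP XS XB ι (fun n s x => (sAug n (rs n (s.1, dM n s.2) (dS n s.2).1 (x i) (x j)).1
      (rs n (s.1, dM n s.2) (dS n s.2).1 (x i) (x j)).2).Adj (x k) (x l)) :=
  NCP.comap (ι := Fin 2 ⊕ Fin 2) hι (Sum.elim ![i, j] ![k, l])
    (LF.param q_sAug (S' := XS) (B' := XB) (π := Fin 2) inferInstance lsd_in lsd_readers)

private theorem lsd_lam (hι : Finite ι) (k : ι) : NCP XS XB ι (fun n s x => lamK n (s.1, dM n s.2) (x k)) :=
  NCP.comap (ι := Fin 1) hι ![k] (rd_pull q_lam)

private theorem lsd_hK (hι : Finite ι) (i j : ι) :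
    NCP XS XB ι (fun n s x => hK n (s.1, dM n s.2) (dS n s.2).1 (x i) (x j)) := by
  have h1 := NCP.ex1 (S := XS) (R := fun n s (x : ι → Fin n) k => lamK n (s.1, dM n s.2) k ∧
      lamK n (rs n (s.1, dM n s.2) (dS n s.2).1 (x i) (x j)) k)
    (NCP.and (lsd_lam (ι := Option ι) inferInstance none) (lsd_lamr (ι := Option ι) inferInstance (some i) (some j) none))
  exact NCP.and (lsd_mt hι i i) (NCP.and (lsd_mt hι j j) h1)

private theorem lsd_hG (hι : Finite ι) (i j : ι) :
    NCP XS XB ι (fun n s x => (hG n (s.1, dM n s.2) (dS n s.2).1).Adj (x i) (x j)) := by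
  refine (NCP.and (NCP.not (NCP.eq hι i j)) (NCP.or (lsd_hK hι i j) (lsd_hK hι j i))).congr fun n s x => ?_
  unfold hG
  rw [SimpleGraph.fromRel_adj]

private theorem lsd_mx (hι : Finite ι) (i j : ι) :
    NCP XS XB ι (fun n s x => (mx0 n (hG n (s.1, dM n s.2) (dS n s.2).1)).Adj (x i) (x j)) :=
  NCP.comap (ι := Fin 2) hι ![i, j]
    (mx_ncp (H := fun n (s : XS n) => hG n (s.1, dM n s.2) (dS n s.2).1) (lsd_hG (ι := Fin 2) inferInstance 0 1))

private theorem lsd_finK (hι : Finite ι) (i j : ι) :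
    NCP XS XB ι (fun n s x => finK mx0 n (s.1, dM n s.2) (dS n s.2).1 (x i) (x j)) := by
  have h1 := NCP.ex1 (S := XS) (R := fun n s (x : ι → Fin n) r => ∃ r' : Fin n,
      (mx0 n (hG n (s.1, dM n s.2) (dS n s.2).1)).Adj r r' ∧ z2 n (s.1, dM n s.2) (dS n s.2).1 r r' (x i) ∧
        (sAug n (rs n (s.1, dM n s.2) (dS n s.2).1 r r').1 (rs n (s.1, dM n s.2) (dS n s.2).1 r r').2).Adj (x i) (x j))
    (NCP.ex1 (S := XS) (R := fun n s (z : Option ι → Fin n) r' =>
      (mx0 n (hG n (s.1, dM n s.2) (dS n s.2).1)).Adj (z none) r' ∧ z2 n (s.1, dM n s.2) (dS n s.2).1 (z none) r' (z (some i)) ∧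
        (sAug n (rs n (s.1, dM n s.2) (dS n s.2).1 (z none) r').1 (rs n (s.1, dM n s.2) (dS n s.2).1 (z none) r').2).Adj
          (z (some i)) (z (some j)))
      (NCP.and (lsd_mx (ι := Option (Option ι)) inferInstance (some none) none)
        (NCP.and (lsd_z2 (ι := Option (Option ι)) inferInstance (some none) none (some (some i)))
          (lsd_augr (ι := Option (Option ι)) inferInstance (some none) none (some (some i)) (some (some j))))))
  have h2 := NCP.all1 (S := XS) (R := fun n s (x : ι → Fin n) r => ∀ r' : Fin n,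
      (mx0 n (hG n (s.1, dM n s.2) (dS n s.2).1)).Adj r r' → ¬ z2 n (s.1, dM n s.2) (dS n s.2).1 r r' (x i))
    (NCP.all1 (S := XS) (R := fun n s (z : Option ι → Fin n) r' =>
      (mx0 n (hG n (s.1, dM n s.2) (dS n s.2).1)).Adj (z none) r' → ¬ z2 n (s.1, dM n s.2) (dS n s.2).1 (z none) r' (z (some i)))
      (NCP.imp (lsd_mx (ι := Option (Option ι)) inferInstance (some none) none)
        (NCP.not (lsd_z2 (ι := Option (Option ι)) inferInstance (some none) none (some (some i))))))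
  have h3 : NCP XS XB ι (fun n s x => (dM n s.2).Adj (x i) (x j)) := NCP.comap (ι := Fin 2) hι ![i, j] rd_adj.2
  exact (NCP.or h1 (NCP.and h3 h2)).congr fun n s x => Iff.rfl

private theorem lsd_finG :
    NCP XS XB (Fin 2) (fun n s x => (finG mx0 n (s.1, dM n s.2) (dS n s.2).1).Adj (x 0) (x 1)) := by
  refine (NCP.and (NCP.not (NCP.eq inferInstance 0 1))
    (NCP.or (lsd_finK inferInstance 0 1) (lsd_finK inferInstance 1 0))).congr fun n s x => ?_
  unfold finG
  rw [SimpleGraph.fromRel_adj]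

end lsd

/-- Job LSD. `zK`, `z2`: `q_cla` with `rd_pull` and `rd_own`. `lamK n (rs n s Ow r r') k` and `(sAug n (rs …).1 (rs …).2).Adj p q`: `LF.param` with the parameters `(r, r')`, `π = Fin 2`, for `q_lam`, `q_sAug` and the input `fun n s p => rs n (s.1, dM n s.2) (dS n s.2).1 (p 0) (p 1)`
(the readers `GB2.fst`, `GB2.snd` of the restricted graphs: adjacency and both vertices in the zone). Then `hK`, `mx_ncp` for `hG`, `finK`, `finG`. -/
theorem st_fin (f : Fin 3) : NCP XS XB (Fin 2) (fFin f) :=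
  rd_en (M := fun n s => finG mx0 n (s.1, dM n s.2) (dS n s.2).1) (σ := fun n s => dS n s.2) lsd_finG rd_own rd_act f

end Pool.Agent.SUB
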