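import Pool.Agent.Lib.MP_0087d5_lc.SUB.Defs

/-!
# The growth of structures

Abstract version: `nd` = nodes, `lvl` = levels, `up` = edges upwards, `le` = comparison of the levels, `rt` = roots. Jobs GRA (`mx_…`, `ginv_zero`), GRB (`ginv_succ`: first properties), GRC (`ginv_succ`: counting), GRD (`grow_card`), EXA (`chn_…`), EXB (`exit_pair`).
-/

namespace Pool.Agent.SUB

open Relation Finset Pool.Agent.AUG

variable {n : ℕ}

/-- The hypotheses on the data. -/
structure GData (nd : Fin n → Prop) (lvl : Fin n → ℕ) (le up : Fin n → Fin n → Prop) (rt : Fin n → Prop) (B : ℕ) : Prop where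
  le_iff : ∀ b c, nd b → nd c → (le b c ↔ lvl b ≤ lvl c)
  lt : ∀ b c, nd b → up b c → lvl b < lvl c
  rt_nd : ∀ r, rt r → nd r
  bd : ∀ b, nd b → lvl b ≤ B

/-- The structural properties of a state. -/
structure GInv (nd : Fin n → Prop) (lvl : Fin n → ℕ) (up : Fin n → Fin n → Prop) (rt : Fin n → Prop) (σ : St n) : Prop where
  nd_rt : ∀ b r, σ.1 b r → nd b ∧ rt r
  fn : ∀ b r r', σ.1 b r → σ.1 b r' → r = r'
  root : ∀ r, rt r → σ.1 r r
  chain : ∀ b r, σ.1 b r → ∃ L, Chn up r (b :: L) ∧ ∀ x ∈ b :: L, σ.1 x r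
  ac : ∀ b, σ.2 b → ∃ r, σ.1 b r
  lev : ∀ b b' r, σ.2 b → σ.2 b' → σ.1 b r → σ.1 b' r → lvl b = lvl b' → b = b'
  closed : ∀ b r c, σ.1 b r → ¬ σ.2 b → up b c → nd c → ∃ r', σ.1 c r'

/-- The counting properties of a state after `t` steps. -/
structure GCnt (rt : Fin n → Prop) (t : ℕ) (σ : St n) : Prop where
  cnt1 : ∀ r, rt r → {b | σ.1 b r}.ncard ≤ t + 1
  cnt2 : ∀ r, rt r → (∃ b, σ.2 b ∧ σ.1 b r) → t + {b | σ.2 b ∧ σ.1 b r}.ncard + 1 ≤ 2 * {b | σ.1 b r}.ncard

variable {nd : Fin n → Prop} {lvl : Fin n → ℕ} {le up : Fin n → Fin n → Prop} {rt : Fin n → Prop} {B : ℕ} {σ : St n} {mx : SimpleGraph (Fin n) → SimpleGraph (Fin n)}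

/-- Job GRA. The matching between heads and wanted nodes: each head is extended by at most one node. (`IsMat` of `mx H`, `H = fromRel (wt …)`.) -/
theorem qt_right (hmx : ∀ H, MaxlM H (mx H)) {h c c' : Fin n} (h1 : qt mx nd le up σ h c) (h2 : qt mx nd le up σ h c') : c = c' := by
  exact (hmx _).1.2 h c c' h1.2 h2.2

/-- Job GRA. -/
theorem qt_left (hmx : ∀ H, MaxlM H (mx H)) {h h' c : Fin n} (h1 : qt mx nd le up σ h c) (h2 : qt mx nd le up σ h' c) : h = h' := by
  exact (hmx _).1.2 c h h' h1.2.symm h2.2.symm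

/-- Job GRA. Maximality: if `h` wants `c` then `h` is extended or `c` is taken. (By `MaxlM` some edge of `mx H` is at `h` or at `c`; it is an edge of `H`, so `wt` holds in one direction; a head is visited and a wanted node is not visited, so the direction is the right one.) -/
theorem qt_max (hmx : ∀ H, MaxlM H (mx H)) (hac : ∀ b, σ.2 b → ∃ r, σ.1 b r) {h c : Fin n} (h1 : wt nd le up σ h c) :
    (∃ c', qt mx nd le up σ h c') ∨ ∃ h', qt mx nd le up σ h' c := by
  obtain ⟨⟨ha, r, hr, -⟩, -, hcv, -⟩ := id h1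
  have hne : h ≠ c := by
    rintro rfl
    exact hcv r hr
  have hadj : (SimpleGraph.fromRel (wt nd le up σ)).Adj h c := by
    rw [SimpleGraph.fromRel_adj]
    exact ⟨hne, Or.inl h1⟩
  rcases (hmx (SimpleGraph.fromRel (wt nd le up σ))).2 h c hadj with ⟨z, hz⟩ | ⟨z, hz⟩
  · have h2 := (hmx (SimpleGraph.fromRel (wt nd le up σ))).1.1 hz
    rw [SimpleGraph.fromRel_adj] at h2
    rcases h2.2 with h3 | h3
    · exact Or.inl ⟨z, h3, hz⟩
    · exact absurd hr (h3.2.2.1 r)
  · have h2 := (hmx (SimpleGraph.fromRel (wt nd le up σ))).1.1 hz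
    rw [SimpleGraph.fromRel_adj] at h2
    rcases h2.2 with h3 | h3
    · obtain ⟨⟨-, r', hr', -⟩, -⟩ := h3
      exact absurd hr' (hcv r')
    · exact Or.inr ⟨z, h3, hz.symm⟩

/-- Job GRA. Heads are unique: two heads of one structure are equal (`le_iff`, `lev`). -/
theorem hd_unique (hd1 : GData nd lvl le up rt B) (hi : GInv nd lvl up rt σ) {h h' r : Fin n} (h1 : hd le σ h) (h2 : hd le σ h') (h3 : σ.1 h r) (h4 : σ.1 h' r) : h = h' := by
  obtain ⟨ha, r1, hr1, hm1⟩ := h1
  obtain ⟨ha', r2, hr2, hm2⟩ := h2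
  obtain rfl : r1 = r := hi.fn h r1 r hr1 h3
  obtain rfl : r2 = r1 := hi.fn h' r2 r1 hr2 h4
  have h5 := (hd1.le_iff h' h (hi.nd_rt h' r2 h4).1 (hi.nd_rt h r2 h3).1).1 (hm1 h' ha' h4)
  have h6 := (hd1.le_iff h h' (hi.nd_rt h r2 h3).1 (hi.nd_rt h' r2 h4).1).1 (hm2 h ha h3)
  exact hi.lev h h' r2 ha ha' h3 h4 (le_antisymm h6 h5)

/-- Job GRA. A structure with an active node has a head (an active node of the greatest level). -/
theorem hd_exists (hd1 : GData nd lvl le up rt B) (hi : GInv nd lvl up rt σ) {b r : Fin n} (h1 : σ.2 b) (h2 : σ.1 b r) : ∃ h, hd le σ h ∧ σ.1 h r := by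
  classical
  obtain ⟨h, hh, hmax⟩ := Finset.exists_max_image (univ.filter (fun x => σ.2 x ∧ σ.1 x r)) lvl
    ⟨b, by simp [h1, h2]⟩
  rw [Finset.mem_filter] at hh
  refine ⟨h, ⟨hh.2.1, r, hh.2.2, fun h' ha' hr' => ?_⟩, hh.2.2⟩
  rw [hd1.le_iff h' h (hi.nd_rt h' r hr').1 (hi.nd_rt h r hh.2.2).1]
  exact hmax h' (Finset.mem_filter.2 ⟨Finset.mem_univ _, ha', hr'⟩)

/-- Job GRA. -/
theorem ginv_zero (hd1 : GData nd lvl le up rt B) : GInv nd lvl up rt (g0 rt) := by
  refine ⟨?_, ?_, ?_, ?_, ?_, ?_, ?_⟩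
  · rintro b r ⟨rfl, hr⟩
    exact ⟨hd1.rt_nd b hr, hr⟩
  · rintro b r r' ⟨rfl, -⟩ ⟨rfl, -⟩
    rfl
  · intro r hr
    exact ⟨rfl, hr⟩
  · rintro b r ⟨rfl, hr⟩
    refine ⟨[], Chn.nil, fun x hx => ?_⟩
    rw [List.mem_singleton] at hx
    exact ⟨hx, hr⟩
  · intro b hb
    exact ⟨b, rfl, hb⟩
  · rintro b b' r - - ⟨rfl, -⟩ ⟨rfl, -⟩ -
    rfl
  · rintro b r c ⟨rfl, hr⟩ hb
    exact absurd hr hb

/-- Job GRA. -/
theorem gcnt_zero : GCnt rt 0 (g0 rt) := by
  refine ⟨fun r _ => ?_, fun r hr _ => ?_⟩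
  · have h1 : {b : Fin n | (g0 rt).1 b r} ⊆ {r} := by
      rintro b ⟨rfl, -⟩
      exact rfl
    have h2 := Set.ncard_le_ncard h1 (Set.finite_singleton r)
    rw [Set.ncard_singleton] at h2
    omega
  · have h1 : {b : Fin n | (g0 rt).1 b r} = {r} := by
      ext b
      constructor
      · rintro ⟨rfl, -⟩
        exact rfl
      · intro hb
        exact ⟨hb, hr⟩
    have h2 : {b : Fin n | (g0 rt).2 b ∧ (g0 rt).1 b r} = {r} := by
      ext b
      constructor
      · rintro ⟨-, rfl, -⟩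
        exact rfl
      · intro hb
        have hb' : b = r := hb
        rw [hb']
        exact ⟨hr, rfl, hr⟩
    rw [h1, h2, Set.ncard_singleton]

/-- Job GRB. New visited nodes `c` are nodes, not visited before, and get the owner of `h`; `fn` by `qt_left` and since `c` was not visited; `chain`: the chain of `h` and `c`; `lev`: the new active node `c` is higher than the head `h`, and the head is the highest active node of its structure (`lt`, `le_iff`), and only one
node is added to a structure (`hd_unique`, `qt_right`); `closed`: a node which is deactivated is a head `b` without extension, by `qt_max` all wanted nodes above `b` are visited after the step. -/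
theorem ginv_succ (hmx : ∀ H, MaxlM H (mx H)) (hd1 : GData nd lvl le up rt B) (hi : GInv nd lvl up rt σ) : GInv nd lvl up rt (gst mx nd le up σ) := by
  have hown : ∀ c h, qt mx nd le up σ h c → ∃ r, σ.1 h r := fun c h hq => ⟨hq.1.1.2.choose, hq.1.1.2.choose_spec.1⟩
  have hold : ∀ b r, σ.2 b → (gst mx nd le up σ).1 b r → σ.1 b r := by
    intro b r hb h1
    rcases h1 with h1 | ⟨h, hq, -⟩
    · exact h1
    · obtain ⟨r', hr'⟩ := hi.ac b hb
      exact absurd hr' (hq.1.2.2.1 r')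
  have hnew : ∀ h b r, qt mx nd le up σ h b → (gst mx nd le up σ).1 b r → ∃ h', qt mx nd le up σ h' b ∧ σ.1 h' r := by
    intro h b r hq h1
    rcases h1 with h1 | h1
    · exact absurd h1 (hq.1.2.2.1 r)
    · exact h1
  have hlow : ∀ b h c r, σ.2 b → σ.1 b r → qt mx nd le up σ h c → σ.1 h r → lvl b < lvl c := by
    intro b h c r hb hbr hq hhr
    obtain ⟨r0, hr0, hmax⟩ := hq.1.1.2
    have e : r0 = r := hi.fn h r0 r hr0 hhr
    subst e
    have h1 := (hd1.le_iff b h (hi.nd_rt b r0 hbr).1 (hi.nd_rt h r0 hhr).1).1 (hmax b hb hbr)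
    exact lt_of_le_of_lt h1 (hd1.lt h c (hi.nd_rt h r0 hhr).1 hq.1.2.2.2)
  refine ⟨?_, ?_, ?_, ?_, ?_, ?_, ?_⟩
  · rintro b r (h1 | ⟨h, hq, hhr⟩)
    · exact hi.nd_rt b r h1
    · exact ⟨hq.1.2.1, (hi.nd_rt h r hhr).2⟩
  · rintro b r r' (h1 | ⟨h, hq, hhr⟩) (h2 | ⟨h', hq', hhr'⟩)
    · exact hi.fn b r r' h1 h2
    · exact absurd h1 (hq'.1.2.2.1 r)
    · exact absurd h2 (hq.1.2.2.1 r')
    · have e := qt_left hmx hq hq'
      subst e
      exact hi.fn h r r' hhr hhr'
  · intro r hr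
    exact Or.inl (hi.root r hr)
  · rintro b r (h1 | ⟨h, hq, hhr⟩)
    · obtain ⟨L, hL, hm⟩ := hi.chain b r h1
      exact ⟨L, hL, fun x hx => Or.inl (hm x hx)⟩
    · obtain ⟨L, hL, hm⟩ := hi.chain h r hhr
      refine ⟨h :: L, Chn.cons hL hq.1.2.2.2, fun x hx => ?_⟩
      rcases List.mem_cons.1 hx with e | hx
      · rw [e]
        exact Or.inr ⟨h, hq, hhr⟩
      · exact Or.inl (hm x hx)
  · rintro b (⟨h1, -⟩ | ⟨h, hq⟩)
    · obtain ⟨r, hr⟩ := hi.ac b h1
      exact ⟨r, Or.inl hr⟩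
    · obtain ⟨r, hr⟩ := hown b h hq
      exact ⟨r, Or.inr ⟨h, hq, hr⟩⟩
  · rintro b b' r (⟨h1, -⟩ | ⟨h, hq⟩) (⟨h2, -⟩ | ⟨h', hq'⟩) hbr hbr' hl
    · exact hi.lev b b' r h1 h2 (hold b r h1 hbr) (hold b' r h2 hbr') hl
    · obtain ⟨h'', hq'', hr''⟩ := hnew h' b' r hq' hbr'
      have h3 := hlow b h'' b' r h1 (hold b r h1 hbr) hq'' hr''
      omega
    · obtain ⟨h'', hq'', hr''⟩ := hnew h b r hq hbr
      have h3 := hlow b' h'' b r h2 (hold b' r h2 hbr') hq'' hr''
      omega
    · obtain ⟨h1, hq1, hr1⟩ := hnew h b r hq hbr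
      obtain ⟨h2, hq2, hr2⟩ := hnew h' b' r hq' hbr'
      have e := hd_unique hd1 hi hq1.1.1 hq2.1.1 hr1 hr2
      subst e
      exact qt_right hmx hq1 hq2
  · intro b r c hbr hna hup hnd
    have hbr0 : σ.1 b r := by
      rcases hbr with h1 | ⟨h, hq, -⟩
      · exact h1
      · exact absurd (Or.inr ⟨h, hq⟩) hna
    by_cases hb : σ.2 b
    · have h1 : hd le σ b ∧ ∀ c, ¬ qt mx nd le up σ b c := by
        by_contra h2
        exact hna (Or.inl ⟨hb, h2⟩)
      by_cases hc : ∃ r', σ.1 c r'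
      · obtain ⟨r', hr'⟩ := hc
        exact ⟨r', Or.inl hr'⟩
      · have h2 : wt nd le up σ b c := ⟨h1.1, hnd, fun r' hr' => hc ⟨r', hr'⟩, hup⟩
        rcases qt_max hmx hi.ac h2 with ⟨c', hc'⟩ | ⟨h', hh'⟩
        · exact absurd hc' (h1.2 c')
        · obtain ⟨r', hr'⟩ := hown c h' hh'
          exact ⟨r', Or.inr ⟨h', hh', hr'⟩⟩
    · obtain ⟨r', hr'⟩ := hi.closed b r c hbr0 hb hup hnd
      exact ⟨r', Or.inl hr'⟩

/-- Job GRC. In one step a structure gets at most one new visited node (`hd_unique`, `qt_right`). If it is extended then both numbers (visited, active) increase by one; otherwise the number of active nodes decreases by one (the head) if there was one (`hd_exists`). -/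
theorem gcnt_succ (hmx : ∀ H, MaxlM H (mx H)) (hd1 : GData nd lvl le up rt B) (hi : GInv nd lvl up rt σ) {t : ℕ} (hc : GCnt rt t σ) :
    GCnt rt (t + 1) (gst mx nd le up σ) := by
  classical
  by_contra hcon
  have key : ∀ r, rt r → {b | (gst mx nd le up σ).1 b r}.ncard ≤ t + 1 + 1 ∧
      ((∃ b, (gst mx nd le up σ).2 b ∧ (gst mx nd le up σ).1 b r) →
        t + 1 + {b | (gst mx nd le up σ).2 b ∧ (gst mx nd le up σ).1 b r}.ncard + 1 ≤ 2 * {b | (gst mx nd le up σ).1 b r}.ncard) := by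
    intro r hr
    by_cases hN : ∃ h c, qt mx nd le up σ h c ∧ σ.1 h r
    · obtain ⟨h, c, hq, hhr⟩ := hN
      have hV : {b | (gst mx nd le up σ).1 b r} = insert c {b | σ.1 b r} := by
        ext b
        constructor
        · rintro (h1 | ⟨h', hq', hhr'⟩)
          · exact Or.inr h1
          · have e := hd_unique hd1 hi hq.1.1 hq'.1.1 hhr hhr'
            subst e
            exact Or.inl (qt_right hmx hq' hq)
        · rintro (h1 | h1)
          · rw [h1]
            exact Or.inr ⟨h, hq, hhr⟩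
          · exact Or.inl h1
      have hcV : c ∉ {b | σ.1 b r} := fun h1 => hq.1.2.2.1 r h1
      have hcard : {b | (gst mx nd le up σ).1 b r}.ncard = {b | σ.1 b r}.ncard + 1 := by
        rw [hV, Set.ncard_insert_of_notMem hcV (Set.toFinite _)]
      have hA : {b | (gst mx nd le up σ).2 b ∧ (gst mx nd le up σ).1 b r}.ncard ≤ {b | σ.2 b ∧ σ.1 b r}.ncard + 1 := by
        refine le_trans (Set.ncard_le_ncard ?_ (Set.toFinite _)) (Set.ncard_insert_le c {b | σ.2 b ∧ σ.1 b r})
        rintro b ⟨h1, h2⟩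
        by_cases hbc : b = c
        · exact Or.inl hbc
        · right
          have h3 : σ.1 b r := by
            have h4 : b ∈ {b | (gst mx nd le up σ).1 b r} := h2
            rw [hV] at h4
            exact h4.resolve_left hbc
          refine ⟨?_, h3⟩
          rcases h1 with ⟨h5, -⟩ | ⟨h', hq'⟩
          · exact h5
          · exact absurd h3 (hq'.1.2.2.1 r)
      have h1 := hc.cnt1 r hr
      have h2 := hc.cnt2 r hr ⟨h, hq.1.1.1, hhr⟩
      rw [hcard]
      exact ⟨by omega, fun _ => by omega⟩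
    · have hV : {b | (gst mx nd le up σ).1 b r} = {b | σ.1 b r} := by
        ext b
        constructor
        · rintro (h1 | ⟨h', hq', hhr'⟩)
          · exact h1
          · exact absurd ⟨h', b, hq', hhr'⟩ hN
        · intro h1
          exact Or.inl h1
      rw [hV]
      have h1 := hc.cnt1 r hr
      refine ⟨by omega, ?_⟩
      rintro ⟨b, hb1, hb2⟩
      have hb3 : σ.1 b r := by
        have h4 : b ∈ {b | (gst mx nd le up σ).1 b r} := hb2
        rw [hV] at h4
        exact h4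
      have hb4 : σ.2 b := by
        rcases hb1 with ⟨h5, -⟩ | ⟨h', hq'⟩
        · exact h5
        · exact absurd hb3 (hq'.1.2.2.1 r)
      obtain ⟨h, hh, hhr⟩ := hd_exists hd1 hi hb4 hb3
      have h2 := hc.cnt2 r hr ⟨b, hb4, hb3⟩
      have hhA : h ∈ {b | σ.2 b ∧ σ.1 b r} := ⟨hh.1, hhr⟩
      have hA : {b | (gst mx nd le up σ).2 b ∧ (gst mx nd le up σ).1 b r} ⊆ {b | σ.2 b ∧ σ.1 b r} \ {h} := by
        rintro x ⟨hx1, hx2⟩
        have hx3 : σ.1 x r := by
          have h4 : x ∈ {b | (gst mx nd le up σ).1 b r} := hx2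
          rw [hV] at h4
          exact h4
        rcases hx1 with ⟨h5, h6⟩ | ⟨h', hq'⟩
        · refine ⟨⟨h5, hx3⟩, ?_⟩
          intro hxh
          rw [Set.mem_singleton_iff] at hxh
          subst hxh
          exact h6 ⟨hh, fun c hq => hN ⟨x, c, hq, hx3⟩⟩
        · exact absurd hx3 (hq'.1.2.2.1 r)
      have h3 := Set.ncard_le_ncard hA (Set.toFinite _)
      have h4 := Set.ncard_sdiff_singleton_add_one hhA (Set.toFinite _)
      omega
  exact hcon ⟨fun r hr => (key r hr).1, fun r hr => (key r hr).2⟩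

/-- Job GRD. -/
theorem grow_all (hmx : ∀ H, MaxlM H (mx H)) (hd1 : GData nd lvl le up rt B) (t : ℕ) :
    GInv nd lvl up rt ((gst mx nd le up)^[t] (g0 rt)) ∧ GCnt rt t ((gst mx nd le up)^[t] (g0 rt)) := by
  induction t with
  | zero => exact ⟨ginv_zero hd1, gcnt_zero⟩
  | succ t ih =>
    rw [Function.iterate_succ_apply']
    exact ⟨ginv_succ hmx hd1 ih.1, gcnt_succ hmx hd1 ih.1 ih.2⟩

/-- Job GRD. The number of active nodes. For a root `r` with an active node: the active nodes of `r` have different levels at most `B`, so there are at most `B + 1`, and `t + 2 ≤ 2 * {b | σ.1 b r}.ncard`; sum over the roots (`fn`: the sets of visited nodes are disjoint). -/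
theorem active_card (hd1 : GData nd lvl le up rt B) (hi : GInv nd lvl up rt σ) {t : ℕ} (hc : GCnt rt t σ) :
    (t + 1) * {b | σ.2 b}.ncard ≤ 2 * n * (B + 1) := by
  classical
  have hcard : ∀ p : Fin n → Prop, {b | p b}.ncard = ∑ b : Fin n, if p b then 1 else 0 := by
    intro p
    rw [Set.ncard_eq_toFinset_card', Set.toFinset_ofPred, Finset.card_filter]
  have hv : ∑ r : Fin n, {b | σ.1 b r}.ncard ≤ n := by
    have h1 : ∑ r : Fin n, {b | σ.1 b r}.ncard = ∑ b : Fin n, ∑ r : Fin n, if σ.1 b r then 1 else 0 := by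
      rw [Finset.sum_comm]
      exact Finset.sum_congr rfl fun r _ => hcard fun b => σ.1 b r
    rw [h1]
    have h2 : ∀ b ∈ (univ : Finset (Fin n)), (∑ r : Fin n, if σ.1 b r then 1 else 0) ≤ 1 := by
      intro b _
      rw [← Finset.card_filter]
      refine Finset.card_le_one.2 fun r hr r' hr' => ?_
      exact hi.fn b r r' (Finset.mem_filter.1 hr).2 (Finset.mem_filter.1 hr').2
    refine (Finset.sum_le_sum h2).trans ?_
    simp
  have ha : {b | σ.2 b}.ncard ≤ ∑ r : Fin n, {b | σ.2 b ∧ σ.1 b r}.ncard := by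
    have h1 : ∑ r : Fin n, {b | σ.2 b ∧ σ.1 b r}.ncard = ∑ b : Fin n, ∑ r : Fin n, if σ.2 b ∧ σ.1 b r then 1 else 0 := by
      rw [Finset.sum_comm]
      refine Finset.sum_congr rfl fun r _ => (hcard fun b => σ.2 b ∧ σ.1 b r).trans ?_
      refine Finset.sum_congr rfl fun b _ => ?_
      by_cases h : σ.2 b ∧ σ.1 b r
      · rw [if_pos h, if_pos h]
      · rw [if_neg h, if_neg h]
    rw [h1, hcard]
    refine Finset.sum_le_sum fun b _ => ?_
    by_cases hb : σ.2 b
    · obtain ⟨r, hr⟩ := hi.ac b hb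
      rw [if_pos hb]
      refine le_trans ?_ (Finset.single_le_sum (fun _ _ => Nat.zero_le _) (Finset.mem_univ r))
      rw [if_pos ⟨hb, hr⟩]
    · rw [if_neg hb]
      exact Nat.zero_le _
  have hr1 : ∀ r ∈ (univ : Finset (Fin n)), (t + 1) * {b | σ.2 b ∧ σ.1 b r}.ncard ≤ 2 * (B + 1) * {b | σ.1 b r}.ncard := by
    intro r _
    by_cases hne : ∃ b, σ.2 b ∧ σ.1 b r
    · obtain ⟨b, hb, hbr⟩ := hne
      have h1 := hc.cnt2 r (hi.nd_rt b r hbr).2 ⟨b, hb, hbr⟩
      have h2 : {b | σ.2 b ∧ σ.1 b r}.ncard ≤ B + 1 := by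
        have h3 : Set.InjOn lvl {b | σ.2 b ∧ σ.1 b r} := fun x hx y hy hxy =>
          hi.lev x y r hx.1 hy.1 hx.2 hy.2 hxy
        rw [← h3.ncard_image]
        have h4 : lvl '' {b | σ.2 b ∧ σ.1 b r} ⊆ Set.Iio (B + 1) := by
          rintro _ ⟨x, hx, rfl⟩
          exact Nat.lt_succ_of_le (hd1.bd x (hi.nd_rt x r hx.2).1)
        refine (Set.ncard_le_ncard h4 (Set.finite_Iio _)).trans ?_
        rw [Set.ncard_eq_toFinset_card']
        simp
      calc (t + 1) * {b | σ.2 b ∧ σ.1 b r}.ncard ≤ (2 * {b | σ.1 b r}.ncard) * (B + 1) :=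
            Nat.mul_le_mul (by omega) h2
        _ = 2 * (B + 1) * {b | σ.1 b r}.ncard := by ring
    · have h1 : {b | σ.2 b ∧ σ.1 b r} = ∅ := by
        ext b
        constructor
        · intro hb
          exact absurd ⟨b, hb⟩ hne
        · intro hb
          exact absurd hb (Set.notMem_empty b)
      rw [h1, Set.ncard_empty, mul_zero]
      exact Nat.zero_le _
  calc (t + 1) * {b | σ.2 b}.ncard ≤ (t + 1) * ∑ r : Fin n, {b | σ.2 b ∧ σ.1 b r}.ncard := Nat.mul_le_mul_left _ ha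
    _ = ∑ r : Fin n, (t + 1) * {b | σ.2 b ∧ σ.1 b r}.ncard := Finset.mul_sum _ _ _
    _ ≤ ∑ r : Fin n, 2 * (B + 1) * {b | σ.1 b r}.ncard := Finset.sum_le_sum hr1
    _ = 2 * (B + 1) * ∑ r : Fin n, {b | σ.1 b r}.ncard := (Finset.mul_sum _ _ _).symm
    _ ≤ 2 * (B + 1) * n := Nat.mul_le_mul_left _ hv
    _ = 2 * n * (B + 1) := by ring

/-! ### The exit argument -/

/-- Job EXA. All members of a chain which starts at a root and has no active member are visited. (From the root upwards, `closed`.) -/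
theorem chain_visited (hi : GInv nd lvl up rt σ) {r : Fin n} (hr : rt r) {L : List (Fin n)} (hL : Chn up r L) (hN : ∀ b ∈ L, nd b) (hac : ∀ b ∈ L, ¬ σ.2 b) :
    ∀ b ∈ L, ∃ r', σ.1 b r' := by
  induction hL with
  | nil =>
    intro b hb
    rw [List.mem_singleton] at hb
    subst hb
    exact ⟨b, hi.root b hr⟩
  | @cons b c L h hbc ih =>
    have ih' := ih (fun x hx => hN x (List.mem_cons_of_mem _ hx)) (fun x hx => hac x (List.mem_cons_of_mem _ hx))
    intro x hx
    rcases List.mem_cons.1 hx with rfl | hx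
    · obtain ⟨r', hr'⟩ := ih' b List.mem_cons_self
      exact hi.closed b r' x hr' (hac b (List.mem_cons_of_mem _ List.mem_cons_self)) hbc
        (hN x List.mem_cons_self)
    · exact ih' x hx

/-- Job EXA. A chain can be cut at a member: the upper part `p :: P` and the lower part (`Chn up r (b :: L₂)`), and another chain ending at `b` can be put below the upper part. -/
theorem chn_replace {r r' p b : Fin n} {P L₂ L₃ : List (Fin n)} (h : Chn up r (P ++ b :: L₂)) (h' : Chn up r' (b :: L₃)) : Chn up r' (P ++ b :: L₃) := by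
  induction P generalizing p with
  | nil => exact h'
  | cons x P ih =>
    cases P with
    | nil =>
      simp only [List.cons_append, List.nil_append] at h ⊢
      cases h with
      | cons _ h2 => exact Chn.cons h' h2
    | cons y P =>
      simp only [List.cons_append] at h ih ⊢
      cases h with
      | cons h1 h2 => exact Chn.cons (ih (p := p) h1) h2

/-- the lower members of a chain have smaller levels -/
private theorem exa_lvl (hd1 : GData nd lvl le up rt B) {r : Fin n} {L : List (Fin n)} (h : Chn up r L)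
    (hN : ∀ b ∈ L, nd b) : ∀ b M, L = b :: M → (∀ x ∈ M, lvl x < lvl b) ∧ L.Nodup := by
  induction h with
  | nil =>
    intro b M hb
    rw [List.cons.injEq] at hb
    obtain ⟨rfl, rfl⟩ := hb
    exact ⟨by simp, List.nodup_singleton _⟩
  | @cons b c L h hbc ih =>
    have ih' := ih (fun x hx => hN x (List.mem_cons_of_mem _ hx)) b L rfl
    intro d M hd
    rw [List.cons.injEq] at hd
    obtain ⟨rfl, rfl⟩ := hd
    have h1 : lvl b < lvl c := hd1.lt b c (hN b (List.mem_cons_of_mem _ List.mem_cons_self)) hbc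
    have h2 : ∀ x ∈ b :: L, lvl x < lvl c := by
      intro x hx
      rcases List.mem_cons.1 hx with rfl | hx
      · exact h1
      · exact (ih'.1 x hx).trans h1
    refine ⟨h2, List.nodup_cons.2 ⟨fun hc => ?_, ih'.2⟩⟩
    exact lt_irrefl _ (h2 c hc)

private theorem exa_ne {r : Fin n} {L : List (Fin n)} (h : Chn up r L) : ∃ b M, L = b :: M := by
  cases h with
  | nil => exact ⟨_, _, rfl⟩
  | cons _ _ => exact ⟨_, _, rfl⟩

/-- Job EXA. The members of a chain have different levels. -/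
theorem chn_nodup (hd1 : GData nd lvl le up rt B) {r : Fin n} {L : List (Fin n)} (h : Chn up r L) (hN : ∀ b ∈ L, nd b) : L.Nodup := by
  obtain ⟨b, M, hb⟩ := exa_ne h
  exact (exa_lvl hd1 h hN b M hb).2

/-- Job EXA. The top part of a chain owned by `ρ`: either the whole chain is owned by `ρ`, or there is a lowest... cut `L = P ++ b :: L₂` where the members of `P` are owned by `ρ` and `b` is not. (`List` induction from the top.) -/
theorem top_part {ρ : Fin n} (L : List (Fin n)) : (∀ b ∈ L, σ.1 b ρ) ∨ ∃ P b L₂, L = P ++ b :: L₂ ∧ (∀ x ∈ P, σ.1 x ρ) ∧ ¬ σ.1 b ρ := by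
  induction L with
  | nil => exact Or.inl (by simp)
  | cons a L ih =>
    by_cases ha : σ.1 a ρ
    · rcases ih with h | ⟨P, b, L₂, h1, h2, h3⟩
      · left
        intro x hx
        rcases List.mem_cons.1 hx with rfl | hx
        · exact ha
        · exact h x hx
      · right
        refine ⟨a :: P, b, L₂, by rw [h1, List.cons_append], ?_, h3⟩
        intro x hx
        rcases List.mem_cons.1 hx with rfl | hx
        · exact ha
        · exact h2 x hx
    · exact Or.inr ⟨[], a, L, rfl, by simp, ha⟩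

private theorem exb_root_mem {r : Fin n} {L : List (Fin n)} (h : Chn up r L) : r ∈ L := by
  induction h with
  | nil => exact List.mem_singleton.2 rfl
  | cons _ _ ih => exact List.mem_cons_of_mem _ ih

private theorem exb_suffix {r w : Fin n} {R₂ : List (Fin n)} : ∀ R₁ : List (Fin n), Chn up r (R₁ ++ w :: R₂) → Chn up r (w :: R₂) := by
  intro R₁
  induction R₁ with
  | nil => exact fun h => h
  | cons x R₁ ih =>
    intro h
    cases R₁ with
    | nil =>
      simp only [List.cons_append, List.nil_append] at h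
      cases h with
      | cons h1 _ => exact h1
    | cons y R₁ =>
      simp only [List.cons_append] at h ih
      cases h with
      | cons h1 _ => exact ih h1

private theorem exb_last (pr : Fin n → Prop) (R : List (Fin n)) (h : ∃ x ∈ R, pr x) :
    ∃ R₁ w R₂, R = R₁ ++ w :: R₂ ∧ pr w ∧ ∀ x ∈ R₂, ¬ pr x := by
  induction R with
  | nil => obtain ⟨x, hx, _⟩ := h; simp at hx
  | cons a R ih =>
    by_cases h' : ∃ x ∈ R, pr x
    · obtain ⟨R₁, w, R₂, h1, h2, h3⟩ := ih h'
      exact ⟨a :: R₁, w, R₂, by rw [h1, List.cons_append], h2, h3⟩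
    · obtain ⟨x, hx, hp⟩ := h
      rcases List.mem_cons.1 hx with rfl | hx
      · exact ⟨[], x, R, rfl, hp, fun y hy hpy => h' ⟨y, hy, hpy⟩⟩
      · exact absurd ⟨x, hx, hp⟩ h'

/-- `x` is in the top part of `A` owned by `ρ` -/
private def ExbTop (σ : St n) (ρ : Fin n) (A : List (Fin n)) (x : Fin n) : Prop :=
  ∃ P' S', A = P' ++ x :: S' ∧ (∀ y ∈ P', σ.1 y ρ) ∧ σ.1 x ρ

private theorem exb_case (hd1 : GData nd lvl le up rt B) (hi : GInv nd lvl up rt σ) {ρ r t p q w : Fin n}
    {A₀ B₀ R₂ : List (Fin n)} (hr : rt r) (hA : Chn up r (p :: A₀)) (hB : Chn up t (q :: B₀))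
    (hdis : ∀ x ∈ p :: A₀, x ∉ q :: B₀) (hvis : ∀ x ∈ p :: A₀, ∃ r', σ.1 x r') (hp : σ.1 p ρ)
    (hR : Chn up ρ (w :: R₂)) (hRo : ∀ x ∈ w :: R₂, σ.1 x ρ) (hw : ExbTop σ ρ (q :: B₀) w)
    (hR₂ : ∀ x ∈ R₂, ¬ ExbTop σ ρ (p :: A₀) x) :
    ∃ ρ' A₁ B₁, ρ' ≠ ρ ∧ Chn up ρ' (p :: A₁) ∧ Chn up ρ (q :: B₁) ∧ (∀ x ∈ p :: A₁, σ.1 x ρ ∨ σ.1 x ρ') ∧
      (∀ x ∈ q :: B₁, σ.1 x ρ) ∧ (∀ x ∈ p :: A₁, x ∉ q :: B₁) ∧ ∃ b ∈ p :: A₀, σ.1 b ρ' := by
  obtain ⟨Q₁, Q₂, hQ, hQ₁, hwρ⟩ := hw
  have hwB : w ∈ q :: B₀ := by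
    rw [hQ]
    exact List.mem_append_right _ List.mem_cons_self
  have hBc : Chn up ρ (Q₁ ++ w :: R₂) := by
    rw [hQ] at hB
    exact chn_replace (p := w) hB hR
  obtain ⟨B₁, hB₁⟩ : ∃ B₁, Q₁ ++ w :: R₂ = q :: B₁ := by
    cases Q₁ with
    | nil =>
      simp only [List.nil_append, List.cons.injEq] at hQ
      exact ⟨R₂, by rw [List.nil_append, hQ.1]⟩
    | cons a Q₁ =>
      simp only [List.cons_append, List.cons.injEq] at hQ
      exact ⟨Q₁ ++ w :: R₂, by rw [List.cons_append, hQ.1]⟩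
  have hBo : ∀ x ∈ q :: B₁, σ.1 x ρ := by
    intro x hx
    rw [← hB₁] at hx
    rcases List.mem_append.1 hx with h | h
    · exact hQ₁ x h
    · exact hRo x h
  rcases top_part (σ := σ) (ρ := ρ) (p :: A₀) with hall | ⟨P, b, L₂, h1, h2, h3⟩
  · exfalso
    have hrA := exb_root_mem hA
    have hρ : ρ = r := hi.fn r ρ r (hall r hrA) (hi.root r hr)
    subst hρ
    have htop : ExbTop σ ρ (p :: A₀) ρ := by
      obtain ⟨P', S', hs⟩ := List.append_of_mem hrA
      refine ⟨P', S', hs, ?_, hall ρ hrA⟩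
      intro y hy
      refine hall y ?_
      rw [hs]
      exact List.mem_append_left _ hy
    rcases List.mem_cons.1 (exb_root_mem hR) with h | h
    · exact hdis ρ hrA (h ▸ hwB)
    · exact hR₂ ρ h htop
  · have hbA : b ∈ p :: A₀ := by
      rw [h1]
      exact List.mem_append_right _ List.mem_cons_self
    obtain ⟨ρ', hρ'⟩ := hvis b hbA
    have hne : ρ' ≠ ρ := fun h => h3 (h ▸ hρ')
    obtain ⟨Lb, hLb, hLbo⟩ := hi.chain b ρ' hρ'
    have hAc : Chn up ρ' (P ++ b :: Lb) := by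
      rw [h1] at hA
      exact chn_replace (p := b) hA hLb
    obtain ⟨A₁, hA₁⟩ : ∃ A₁, P ++ b :: Lb = p :: A₁ := by
      cases P with
      | nil =>
        simp only [List.nil_append, List.cons.injEq] at h1
        exact absurd (h1.1 ▸ hp) h3
      | cons a P =>
        simp only [List.cons_append, List.cons.injEq] at h1
        exact ⟨P ++ b :: Lb, by rw [List.cons_append, h1.1]⟩
    refine ⟨ρ', A₁, B₁, hne, hA₁ ▸ hAc, hB₁ ▸ hBc, ?_, hBo, ?_, b, hbA, hρ'⟩
    · intro x hx
      rw [← hA₁] at hx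
      rcases List.mem_append.1 hx with h | h
      · exact Or.inl (h2 x h)
      · exact Or.inr (hLbo x h)
    · intro x hx hx'
      rw [← hA₁] at hx
      rcases List.mem_append.1 hx with h | h
      · have hxA : x ∈ p :: A₀ := by
          rw [h1]
          exact List.mem_append_left _ h
        rw [← hB₁] at hx'
        rcases List.mem_append.1 hx' with h' | h'
        · refine hdis x hxA ?_
          rw [hQ]
          exact List.mem_append_left _ h'
        · rcases List.mem_cons.1 h' with rfl | h'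
          · exact hdis x hxA hwB
          · refine hR₂ x h' ?_
            obtain ⟨P', S', hs⟩ := List.append_of_mem h
            refine ⟨P', S' ++ b :: L₂, by rw [h1, hs, List.append_assoc, List.cons_append], ?_, h2 x h⟩
            intro y hy
            refine h2 y ?_
            rw [hs]
            exact List.mem_append_left _ hy
      · exact hne (hi.fn x ρ' ρ (hLbo x h) (hBo x hx'))

/-- Job EXB. The exit argument. `A = p :: A₀`, `B' = q :: B₀` are disjoint chains from different roots `r`, `t` without active members, so all members are visited (`chain_visited`). Let `ρ` own `p` and `ρ'` own `q`.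
Case `ρ ≠ ρ'`: take the chains given by `chain` for `p` and `q` (members owned by `ρ`, `ρ'`; disjoint by `fn`; no repetitions by `chn_nodup`).
Case `ρ = ρ'`: let `P` be the top part of `A` owned by `ρ` and `Q` the top part of `B'` owned by `ρ` (`top_part`). Let `R` be the chain from `ρ` to `p` given by `chain` (all members owned by `ρ`), and let `w` be the lowest member of `R` which lies in `P` or `Q` (`p` is one); the members of `R` below `w` are not in `P`, `Q`.
(a) `w ∈ Q`: the chain `B₁`: the part of `R` below `w`, then the upper part of `B'` from `w` to `q` (`chn_replace`); all its members are owned by `ρ`. `P` is not all of `A`: otherwise `r ∈ P` is owned by `ρ`, so `ρ = r` (`root`, `fn`), and `w = r` as the lowest member of `R` is `ρ = r ∈ P`; but `P`, `Q` are disjoint.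
So `A = P ++ b :: L₂`, `b` owned by some `ρ'' ≠ ρ`. The chain `A₁`: the chain of `b` from `ρ''` (`chain`, members owned by `ρ''`) with `P` on top (`chn_replace`). `A₁`, `B₁` are disjoint: `P` is disjoint from `Q` and from the members of `R` below `w`, the others are owned by `ρ''`. Result: `r' = ρ''`, `t' = ρ`; `b` is owned by `ρ''` and `q` by `ρ`.
(b) `w ∈ P`: symmetric: `A₁` = part of `R` below `w` and the part of `A` from `w` to `p`; `B' = Q ++ b :: L₂` with `b` owned by `ρ'' ≠ ρ`, `B₁` = chain of `b` with `Q` on top; `r' = ρ`, `t' = ρ''`. -/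
theorem exit_pair (hd1 : GData nd lvl le up rt B) (hi : GInv nd lvl up rt σ) {r t p q : Fin n} {A₀ B₀ : List (Fin n)} (hrt : r ≠ t) (hr : rt r) (ht : rt t)
    (hA : Chn up r (p :: A₀)) (hB : Chn up t (q :: B₀)) (hN : ∀ b ∈ (p :: A₀) ++ (q :: B₀), nd b) (hnd : ((p :: A₀) ++ (q :: B₀)).Nodup)
    (hac : ∀ b ∈ (p :: A₀) ++ (q :: B₀), ¬ σ.2 b) :
    ∃ r' t' A₁ B₁, r' ≠ t' ∧ Chn up r' (p :: A₁) ∧ Chn up t' (q :: B₁) ∧ (∀ b ∈ (p :: A₁) ++ (q :: B₁), σ.1 b r' ∨ σ.1 b t') ∧
      ((p :: A₁) ++ (q :: B₁)).Nodup ∧ (∃ b ∈ (p :: A₀) ++ (q :: B₀), σ.1 b r') ∧ ∃ b ∈ (p :: A₀) ++ (q :: B₀), σ.1 b t' := by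
  have hvA : ∀ b ∈ p :: A₀, ∃ r', σ.1 b r' := chain_visited hi hr hA
    (fun b hb => hN b (List.mem_append_left _ hb)) (fun b hb => hac b (List.mem_append_left _ hb))
  have hvB : ∀ b ∈ q :: B₀, ∃ r', σ.1 b r' := chain_visited hi ht hB
    (fun b hb => hN b (List.mem_append_right _ hb)) (fun b hb => hac b (List.mem_append_right _ hb))
  obtain ⟨_, _, hdis⟩ := List.nodup_append.1 hnd
  have hdisA : ∀ x ∈ p :: A₀, x ∉ q :: B₀ := fun x hx hx' => hdis x hx x hx' rfl
  have hdisB : ∀ x ∈ q :: B₀, x ∉ p :: A₀ := fun x hx hx' => hdis x hx' x hx rfl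
  obtain ⟨ρ, hρ⟩ := hvA p List.mem_cons_self
  obtain ⟨ρ₁, hρ₁⟩ := hvB q List.mem_cons_self
  have hndp : ∀ {s : Fin n} {L : List (Fin n)}, Chn up s L → (∀ x ∈ L, ∃ r', σ.1 x r') → L.Nodup := by
    intro s L h h'
    exact chn_nodup hd1 h fun x hx => by
      obtain ⟨r', hr'⟩ := h' x hx
      exact (hi.nd_rt x r' hr').1
  by_cases hne : ρ = ρ₁
  · subst hne
    obtain ⟨Lp, hLp, hLpo⟩ := hi.chain p ρ hρ
    obtain ⟨R₁, w, R₂, hR, hw, hR₂⟩ := exb_last (fun x => ExbTop σ ρ (p :: A₀) x ∨ ExbTop σ ρ (q :: B₀) x) (p :: Lp)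
      ⟨p, List.mem_cons_self, Or.inl ⟨[], A₀, rfl, by simp, hρ⟩⟩
    have hRc : Chn up ρ (w :: R₂) := exb_suffix R₁ (hR ▸ hLp)
    have hRo : ∀ x ∈ w :: R₂, σ.1 x ρ := by
      intro x hx
      refine hLpo x ?_
      rw [hR]
      exact List.mem_append_right _ hx
    rcases hw with hw | hw
    · obtain ⟨ρ', B₁, A₁, h1, h2, h3, h4, h5, h6, b, hb, hb'⟩ := exb_case hd1 hi ht hB hA hdisB hvB hρ₁ hRc hRo hw
        (fun x hx h => hR₂ x hx (Or.inr h))
      refine ⟨ρ, ρ', A₁, B₁, h1.symm, h3, h2, ?_, ?_, ⟨p, List.mem_append_left _ List.mem_cons_self, hρ⟩,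
        b, List.mem_append_right _ hb, hb'⟩
      · intro x hx
        rcases List.mem_append.1 hx with h | h
        · exact Or.inl (h5 x h)
        · exact h4 x h
      · refine List.nodup_append.2 ⟨hndp h3 fun x hx => ⟨ρ, h5 x hx⟩, hndp h2 fun x hx => ?_, ?_⟩
        · rcases h4 x hx with h | h
          · exact ⟨_, h⟩
          · exact ⟨_, h⟩
        · intro x hx y hy hxy
          subst hxy
          exact h6 x hy hx
    · obtain ⟨ρ', A₁, B₁, h1, h2, h3, h4, h5, h6, b, hb, hb'⟩ := exb_case hd1 hi hr hA hB hdisA hvA hρ hRc hRo hw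
        (fun x hx h => hR₂ x hx (Or.inl h))
      refine ⟨ρ', ρ, A₁, B₁, h1, h2, h3, ?_, ?_, ⟨b, List.mem_append_left _ hb, hb'⟩,
        q, List.mem_append_right _ List.mem_cons_self, hρ₁⟩
      · intro x hx
        rcases List.mem_append.1 hx with h | h
        · exact (h4 x h).symm
        · exact Or.inr (h5 x h)
      · refine List.nodup_append.2 ⟨hndp h2 fun x hx => ?_, hndp h3 fun x hx => ⟨ρ, h5 x hx⟩, ?_⟩
        · rcases h4 x hx with h | h
          · exact ⟨_, h⟩
          · exact ⟨_, h⟩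
        · intro x hx y hy hxy
          subst hxy
          exact h6 x hx hy
  · obtain ⟨Lp, hLp, hLpo⟩ := hi.chain p ρ hρ
    obtain ⟨Lq, hLq, hLqo⟩ := hi.chain q ρ₁ hρ₁
    refine ⟨ρ, ρ₁, Lp, Lq, hne, hLp, hLq, ?_, ?_, ⟨p, List.mem_append_left _ List.mem_cons_self, hρ⟩,
      q, List.mem_append_right _ List.mem_cons_self, hρ₁⟩
    · intro x hx
      rcases List.mem_append.1 hx with h | h
      · exact Or.inl (hLpo x h)
      · exact Or.inr (hLqo x h)
    · refine List.nodup_append.2 ⟨hndp hLp fun x hx => ⟨_, hLpo x hx⟩, hndp hLq fun x hx => ⟨_, hLqo x hx⟩, ?_⟩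
      intro x hx y hy hxy
      subst hxy
      exact hne (hi.fn x ρ ρ₁ (hLpo x hx) (hLqo x hy))

end Pool.Agent.SUB
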