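import Pool.Agent.Lib.MP_0087d5_lc.SUB.FOM

/-!
# The ninth root

Jobs RTA (`rt_*`, `dtot`), RTB (`fm_rt3`, `fm_rt5`).
-/

namespace Pool.Agent.SUB

/-- The ninth root of `n - 1`, rounded down. -/
def rt (n : ℕ) : ℕ := Nat.findGreatest (fun a => a ^ 9 ≤ n - 1) n

/-- Job RTA. -/
theorem rt_le (n : ℕ) : rt n ^ 9 ≤ n - 1 := by
  unfold rt
  exact Nat.findGreatest_spec (P := fun a => a ^ 9 ≤ n - 1) (Nat.zero_le n)
    (by rw [zero_pow (by norm_num)]; exact Nat.zero_le _)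

/-- Job RTA. -/
theorem lt_rt (n : ℕ) : n ≤ (rt n + 1) ^ 9 := by
  by_cases h : rt n + 1 ≤ n
  · have h1 : ¬ (rt n + 1) ^ 9 ≤ n - 1 :=
      Nat.findGreatest_is_greatest (P := fun a => a ^ 9 ≤ n - 1) (Nat.lt_succ_self (rt n)) h
    omega
  · have h1 : rt n + 1 ≤ (rt n + 1) ^ 9 := Nat.le_self_pow (by norm_num) _
    omega

/-- Job RTA. -/
theorem rt_pos {n : ℕ} (h : 2 ≤ n) : 1 ≤ rt n := by
  unfold rt
  refine Nat.le_findGreatest (P := fun a => a ^ 9 ≤ n - 1) (by omega) ?_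
  rw [one_pow]
  omega

private theorem rta_pow {n k : ℕ} (hk : k ≤ 9) (hk0 : k ≠ 0) (h : 0 < n) : rt n ^ k < n := by
  rcases Nat.eq_zero_or_pos (rt n) with h0 | h0
  · rw [h0, zero_pow hk0]
    exact h
  · have h1 : rt n ^ k ≤ rt n ^ 9 := Nat.pow_le_pow_right h0 hk
    have h2 := rt_le n
    omega

/-- Job RTA. (`rt n ^ k ≤ rt n ^ 9` if `1 ≤ rt n`.) -/
theorem rt3_lt (n : ℕ) (h : 0 < n) : rt n ^ 3 < n :=
  rta_pow (by norm_num) (by norm_num) h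

/-- Job RTA. -/
theorem rt5_lt (n : ℕ) (h : 0 < n) : rt n ^ 5 < n :=
  rta_pow (by norm_num) (by norm_num) h

/-- Job RTA. `a ^ 8 + a ^ 5 + a ^ 3 + 1 = (a ^ 5 + 1) * (a ^ 3 + 1) ≤ 4 * (max a 1) ^ 8`. -/
theorem dtot (n : ℕ) : (rt n ^ 8 + rt n ^ 5 + rt n ^ 3 + 1) ^ 9 ≤ 262144 * (n + 1) ^ 8 := by
  obtain ⟨a, ha⟩ : ∃ a, a = rt n := ⟨_, rfl⟩
  obtain ⟨b, hb⟩ : ∃ b, b = max a 1 := ⟨_, rfl⟩
  have h1 : a ^ 9 ≤ n + 1 := by
    have h := rt_le n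
    rw [← ha] at h
    omega
  have hab : a ≤ b := hb ▸ le_max_left _ _
  have hb1 : 1 ≤ b := hb ▸ le_max_right _ _
  have h2 : b ^ 9 ≤ n + 1 := by
    rw [hb]
    rcases le_total a 1 with h | h
    · rw [max_eq_right h, one_pow]
      omega
    · rw [max_eq_left h]
      exact h1
  have hk : ∀ k, k ≤ 8 → a ^ k ≤ b ^ 8 := fun k hk =>
    (Nat.pow_le_pow_left hab k).trans (Nat.pow_le_pow_right hb1 hk)
  have h3 : a ^ 8 + a ^ 5 + a ^ 3 + 1 ≤ 4 * b ^ 8 := by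
    have e1 := hk 8 le_rfl
    have e2 := hk 5 (by norm_num)
    have e3 := hk 3 (by norm_num)
    have e4 : 1 ≤ b ^ 8 := Nat.one_le_pow _ _ hb1
    omega
  rw [← ha]
  calc (a ^ 8 + a ^ 5 + a ^ 3 + 1) ^ 9 ≤ (4 * b ^ 8) ^ 9 := Nat.pow_le_pow_left h3 9
    _ = 262144 * (b ^ 9) ^ 8 := by ring
    _ ≤ 262144 * (n + 1) ^ 8 := Nat.mul_le_mul_left _ (Nat.pow_le_pow_left h2 8)

/-- The powers up to the ninth are in `Fin n`. -/
private def rtbE (n : ℕ) (a : Fin n) : Prop :=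
  ∃ a2 a3 a6 a9 : Fin n, (a : ℕ) * (a : ℕ) = (a2 : ℕ) ∧ (a2 : ℕ) * (a : ℕ) = (a3 : ℕ) ∧
    (a3 : ℕ) * (a3 : ℕ) = (a6 : ℕ) ∧ (a6 : ℕ) * (a3 : ℕ) = (a9 : ℕ)

private theorem rtb_iff {n : ℕ} (a : Fin n) : rtbE n a ↔ (a : ℕ) ^ 9 < n := by
  constructor
  · rintro ⟨a2, a3, a6, a9, h1, h2, h3, h4⟩
    have h5 : (a : ℕ) ^ 9 = (a9 : ℕ) := by
      rw [← h4, ← h3, ← h2, ← h1]
      ring
    rw [h5]
    exact a9.2
  · intro h
    have hk : ∀ k, k ≠ 0 → k ≤ 9 → (a : ℕ) ^ k < n := by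
      intro k hk0 hk
      rcases Nat.eq_zero_or_pos (a : ℕ) with h0 | h0
      · rw [h0, zero_pow hk0]
        exact lt_of_le_of_lt (Nat.zero_le _) a.2
      · exact lt_of_le_of_lt (Nat.pow_le_pow_right h0 hk) h
    refine ⟨⟨(a : ℕ) ^ 2, hk 2 (by norm_num) (by norm_num)⟩, ⟨(a : ℕ) ^ 3, hk 3 (by norm_num) (by norm_num)⟩,
      ⟨(a : ℕ) ^ 6, hk 6 (by norm_num) (by norm_num)⟩, ⟨(a : ℕ) ^ 9, h⟩, ?_, ?_, ?_, ?_⟩
    · show (a : ℕ) * (a : ℕ) = (a : ℕ) ^ 2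
      ring
    · show (a : ℕ) ^ 2 * (a : ℕ) = (a : ℕ) ^ 3
      ring
    · show (a : ℕ) ^ 3 * (a : ℕ) ^ 3 = (a : ℕ) ^ 6
      ring
    · show (a : ℕ) ^ 6 * (a : ℕ) ^ 3 = (a : ℕ) ^ 9
      ring

private theorem rtb_fo {ι : Type} (i : ι) : FOM ι (fun n x => rtbE n (x i)) := by
  have h : FOM (Option (Option (Option (Option ι)))) (fun _ z =>
      ((z (some (some (some (some i)))) : ℕ) * (z (some (some (some (some i)))) : ℕ) = (z (some (some (some none))) : ℕ)) ∧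
      ((z (some (some (some none))) : ℕ) * (z (some (some (some (some i)))) : ℕ) = (z (some (some none)) : ℕ)) ∧
      ((z (some (some none)) : ℕ) * (z (some (some none)) : ℕ) = (z (some none) : ℕ)) ∧
      ((z (some none) : ℕ) * (z (some (some none)) : ℕ) = (z none : ℕ))) :=
    FOM.and (FOM.mul _ _ _) (FOM.and (FOM.mul _ _ _) (FOM.and (FOM.mul _ _ _) (FOM.mul _ _ _)))
  exact fm_congr (FOM.ex (FOM.ex (FOM.ex (FOM.ex h)))) (fun n x => Iff.rfl)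

/-- `x i` is the root. -/
private theorem rtb_root {ι : Type} (i : ι) : FOM ι (fun n x => (x i : ℕ) = rt n) := by
  have h : FOM (Option ι) (fun n z => ((z none : ℕ) = (z (some i) : ℕ) + 1) ∧ rtbE n (z none)) :=
    FOM.and (FOM.succ _ _) (rtb_fo _)
  refine fm_congr (FOM.and (rtb_fo i) (FOM.not (FOM.ex h))) (fun n x => ?_)
  show (rtbE n (x i) ∧ ¬ ∃ b : Fin n, ((b : ℕ) = (x i : ℕ) + 1) ∧ rtbE n b) ↔ _
  have hn : 0 < n := lt_of_le_of_lt (Nat.zero_le _) (x i).2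
  rw [rtb_iff]
  constructor
  · rintro ⟨h1, h2⟩
    have h3 : (x i : ℕ) ≤ rt n := by
      unfold rt
      refine Nat.le_findGreatest (P := fun a => a ^ 9 ≤ n - 1) (x i).2.le ?_
      show (x i : ℕ) ^ 9 ≤ n - 1
      omega
    by_contra h4
    have h5 : (x i : ℕ) + 1 ≤ rt n := by omega
    have h6 : ((x i : ℕ) + 1) ^ 9 ≤ rt n ^ 9 := Nat.pow_le_pow_left h5 9
    have h7 := rt_le n
    have h8 : (x i : ℕ) + 1 ≤ ((x i : ℕ) + 1) ^ 9 := Nat.le_self_pow (by norm_num) _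
    refine h2 ⟨⟨(x i : ℕ) + 1, by omega⟩, rfl, ?_⟩
    rw [rtb_iff]
    show ((x i : ℕ) + 1) ^ 9 < n
    omega
  · intro h1
    have h2 := rt_le n
    have h3 := lt_rt n
    rw [← h1] at h2 h3
    refine ⟨by omega, ?_⟩
    rintro ⟨b, h4, h5⟩
    rw [rtb_iff, h4] at h5
    omega

/-- Job RTB. `a = rt n` (for `0 < n`) iff there are `a2 = a * a`, `a3 = a2 * a`, `a6 = a3 * a3`, `a9 = a6 * a3` in `Fin n` (that is `a ^ 9 ≤ n - 1`) and there are no such numbers for `b = a + 1`. (If `b = a + 1` is not in `Fin n` then `b ^ 9 > n - 1`.) -/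
theorem fm_rt3 : FOM Unit (fun n x => (x () : ℕ) = rt n ^ 3) := by
  have h : FOM (Option (Option Unit)) (fun n z => ((z (some none) : ℕ) = rt n) ∧
      ((z (some none) : ℕ) * (z (some none) : ℕ) = (z none : ℕ)) ∧
      ((z none : ℕ) * (z (some none) : ℕ) = (z (some (some ())) : ℕ))) :=
    FOM.and (rtb_root _) (FOM.and (FOM.mul _ _ _) (FOM.mul _ _ _))
  refine fm_congr (FOM.ex (FOM.ex h)) (fun n x => ?_)
  show (∃ a b : Fin n, ((a : ℕ) = rt n) ∧ ((a : ℕ) * (a : ℕ) = (b : ℕ)) ∧ ((b : ℕ) * (a : ℕ) = (x () : ℕ))) ↔ _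
  have hn : 0 < n := lt_of_le_of_lt (Nat.zero_le _) (x ()).2
  constructor
  · rintro ⟨a, b, h1, h2, h3⟩
    rw [← h3, ← h2, ← h1]
    ring
  · intro h1
    have e1 : rt n < n := by
      have h2 := rta_pow (n := n) (k := 1) (by norm_num) (by norm_num) hn
      rwa [pow_one] at h2
    refine ⟨⟨rt n, e1⟩, ⟨rt n ^ 2, rta_pow (by norm_num) (by norm_num) hn⟩, rfl, ?_, ?_⟩
    · show rt n * rt n = rt n ^ 2
      ring
    · show rt n ^ 2 * rt n = (x () : ℕ)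
      rw [h1]
      ring

/-- Job RTB. -/
theorem fm_rt5 : FOM Unit (fun n x => (x () : ℕ) = rt n ^ 5) := by
  have h : FOM (Option (Option (Option Unit))) (fun n z => ((z (some (some none)) : ℕ) = rt n) ∧
      ((z (some (some none)) : ℕ) * (z (some (some none)) : ℕ) = (z (some none) : ℕ)) ∧
      ((z (some none) : ℕ) * (z (some (some none)) : ℕ) = (z none : ℕ)) ∧
      ((z none : ℕ) * (z (some none) : ℕ) = (z (some (some (some ()))) : ℕ))) :=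
    FOM.and (rtb_root _) (FOM.and (FOM.mul _ _ _) (FOM.and (FOM.mul _ _ _) (FOM.mul _ _ _)))
  refine fm_congr (FOM.ex (FOM.ex (FOM.ex h))) (fun n x => ?_)
  show (∃ a b c : Fin n, ((a : ℕ) = rt n) ∧ ((a : ℕ) * (a : ℕ) = (b : ℕ)) ∧ ((b : ℕ) * (a : ℕ) = (c : ℕ)) ∧
    ((c : ℕ) * (b : ℕ) = (x () : ℕ))) ↔ _
  have hn : 0 < n := lt_of_le_of_lt (Nat.zero_le _) (x ()).2
  constructor
  · rintro ⟨a, b, c, h1, h2, h3, h4⟩
    rw [← h4, ← h3, ← h2, ← h1]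
    ring
  · intro h1
    have e1 : rt n < n := by
      have h2 := rta_pow (n := n) (k := 1) (by norm_num) (by norm_num) hn
      rwa [pow_one] at h2
    refine ⟨⟨rt n, e1⟩, ⟨rt n ^ 2, rta_pow (by norm_num) (by norm_num) hn⟩,
      ⟨rt n ^ 3, rta_pow (by norm_num) (by norm_num) hn⟩, rfl, ?_, ?_, ?_⟩
    · show rt n * rt n = rt n ^ 2
      ring
    · show rt n ^ 2 * rt n = rt n ^ 3
      ring
    · show rt n ^ 3 * rt n ^ 2 = (x () : ℕ)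
      rw [h1]
      ring

end Pool.Agent.SUB
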