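import Pool.Agent.Lib.MP_0087d5_lc.SUB.SAugSpec

/-!
# One round

`mx` gives maximal matchings of all graphs (`hmx`). Jobs RDA (`fin_mxl`), RDB (`rs_comm`, `fin_adj_in`, `fin_adj_out`), RDC (`fin_sp`), RDD (`exit_hK`, `path_exit`), RDE (`blocking`), RDF (`round_spec`).
-/

namespace Pool.Agent.SUB

open Relation Finset Pool.Agent.AUG Pool.Agent.UPM

variable {n : ℕ} {G M : SimpleGraph (Fin n)} {x y b c r r' t p q : Fin n} {k T f : ℕ} {σ : St n} {S : Finset (Fin n)} {A B : List (Fin n)}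
  {Ow : Fin n → Fin n → Prop} {ν : Fin n → Fin n} {mx : ∀ n : ℕ, SimpleGraph (Fin n) → SimpleGraph (Fin n)}

/-- Job RDA. If the matching is maximum then `lamK` is false (`lamK_iff`), `hG` has no edges, nor has `mx n (hG …)`, and `finG` is `M`. -/
theorem fin_mxl (hmx : ∀ (n : ℕ) (H : SimpleGraph (Fin n)), MaxlM H (mx n H)) (h : IsMat G M) (hM : Mxl G (mt M)) : finG mx n (G, M) Ow = M := by
  have hno : ∀ r r', ¬ (mx n (hG n (G, M) Ow)).Adj r r' := by
    intro r r' hr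
    have h1 := (hmx n (hG n (G, M) Ow)).1.1 hr
    rw [hG, SimpleGraph.fromRel_adj] at h1
    obtain ⟨-, ⟨-, -, k, hk, -⟩ | ⟨-, -, k, hk, -⟩⟩ := h1
    · exact ((lamK_iff h).1 hk).1 hM
    · exact ((lamK_iff h).1 hk).1 hM
  ext p q
  rw [finG, SimpleGraph.fromRel_adj]
  constructor
  · rintro ⟨-, (⟨r, r', h1, -⟩ | ⟨h1, -⟩) | (⟨r, r', h1, -⟩ | ⟨h1, -⟩)⟩
    · exact absurd h1 (hno r r')
    · exact h1
    · exact absurd h1 (hno r r')
    · exact h1.symm
  · intro h1
    exact ⟨h1.ne, Or.inl (Or.inr ⟨h1, fun r r' hr => absurd hr (hno r r')⟩)⟩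

private theorem rdb_z2_comm {Ow : Fin n → Fin n → Prop} : z2 n (G, M) Ow r r' = z2 n (G, M) Ow r' r := by
  funext x
  exact propext or_comm

/-- Job RDB. -/
theorem rs_comm : rs n (G, M) Ow r r' = rs n (G, M) Ow r' r := by
  unfold rs
  rw [rdb_z2_comm]

/-- Job RDB. Adjacent roots satisfy `hK` and are different. -/
theorem pr_hK (hmx : ∀ (n : ℕ) (H : SimpleGraph (Fin n)), MaxlM H (mx n H)) (hr : (mx n (hG n (G, M) Ow)).Adj r r') : r ≠ r' ∧ hK n (G, M) Ow r r' := by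
  have h1 := (hmx n (hG n (G, M) Ow)).1.1 hr
  unfold hG at h1
  rw [SimpleGraph.fromRel_adj] at h1
  refine ⟨h1.1, ?_⟩
  rcases h1.2 with h2 | h2
  · exact h2
  · obtain ⟨a1, a2, k, a3, a4⟩ := h2
    refine ⟨a2, a1, k, a3, ?_⟩
    rw [rs_comm]
    exact a4

private theorem rdb_pair (hmx : ∀ (n : ℕ) (H : SimpleGraph (Fin n)), MaxlM H (mx n H)) (h : IsMat G M) (hn : ¬ Mxl G (mt M)) (hi : GI G M σ)
    {a b : Fin n} (hr : (mx n (hG n (G, M) σ.1)).Adj r r') (ha : (mx n (hG n (G, M) σ.1)).Adj a b)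
    (hx : z2 n (G, M) σ.1 r r' x) (hx' : z2 n (G, M) σ.1 a b x) : (a = r ∧ b = r') ∨ (a = r' ∧ b = r) := by
  have hU := (hmx n (hG n (G, M) σ.1)).1.2
  rcases hx' with hx' | hx' <;> rcases hx with hx | hx
  · have e := zK_disj h hn hi hx' hx
    subst e
    exact Or.inl ⟨rfl, hU _ _ _ ha hr⟩
  · have e := zK_disj h hn hi hx' hx
    subst e
    exact Or.inr ⟨rfl, hU _ _ _ ha hr.symm⟩
  · have e := zK_disj h hn hi hx' hx
    subst e
    exact Or.inr ⟨hU _ _ _ ha.symm hr, rfl⟩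
  · have e := zK_disj h hn hi hx' hx
    subst e
    exact Or.inl ⟨hU _ _ _ ha.symm hr.symm, rfl⟩

private theorem rdb_zone (h : IsMat G M) {Ow : Fin n → Fin n → Prop} {a b : Fin n}
    (hxy : (sAug n (rs n (G, M) Ow a b).1 (rs n (G, M) Ow a b).2).Adj x y) :
    G.Adj x y ∧ z2 n (G, M) Ow a b x ∧ z2 n (G, M) Ow a b y :=
  (sAug_spec.mat _ (rs_mat h Ow a b).1).1 hxy

/-- Job RDB. Inside a zone the new matching is the augmented one. The zones of different pairs of the matching `mx n (hG …)` are disjoint (`zK_disj`); the edges of `sAug … (rs …)` are edges of `rG G Z` (`sAug_spec`), so both ends are in the zone; `M`-edges with an end in the zone have both ends there (`z2_mate`). -/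
theorem fin_adj_in (hmx : ∀ (n : ℕ) (H : SimpleGraph (Fin n)), MaxlM H (mx n H)) (h : IsMat G M) (hn : ¬ Mxl G (mt M)) (hi : GI G M σ)
    (hr : (mx n (hG n (G, M) σ.1)).Adj r r') (hx : z2 n (G, M) σ.1 r r' x) :
    (finG mx n (G, M) σ.1).Adj x y ↔ (sAug n (rs n (G, M) σ.1 r r').1 (rs n (G, M) σ.1 r r').2).Adj x y := by
  unfold finG
  rw [SimpleGraph.fromRel_adj]
  constructor
  · rintro ⟨hne, h1 | h1⟩
    · rcases h1 with ⟨a, b, hab, hz, hA⟩ | ⟨-, h2⟩
      · rcases rdb_pair hmx h hn hi hr hab hx hz with ⟨rfl, rfl⟩ | ⟨rfl, rfl⟩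
        · exact hA
        · rw [rs_comm] at hA
          exact hA
      · exact absurd hx (h2 r r' hr)
    · rcases h1 with ⟨a, b, hab, hz, hA⟩ | ⟨h3, h2⟩
      · have h4 := (rdb_zone h hA).2.2
        rcases rdb_pair hmx h hn hi hr hab hx h4 with ⟨rfl, rfl⟩ | ⟨rfl, rfl⟩
        · exact hA.symm
        · rw [rs_comm] at hA
          exact hA.symm
      · have h4 := z2_mate h hx
        have h5 : mt M x = y := (((mt_mate h).2 x y).1 h3.symm).1
        rw [h5] at h4
        exact absurd h4 (h2 r r' hr)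
  · intro hA
    exact ⟨hA.ne, Or.inl (Or.inl ⟨r, r', hr, hx, hA⟩)⟩

/-- Job RDB. -/
theorem fin_adj_out (hmx : ∀ (n : ℕ) (H : SimpleGraph (Fin n)), MaxlM H (mx n H)) (h : IsMat G M) (hn : ¬ Mxl G (mt M)) (hi : GI G M σ)
    (hx : ∀ r r', (mx n (hG n (G, M) σ.1)).Adj r r' → ¬ z2 n (G, M) σ.1 r r' x) :
    (finG mx n (G, M) σ.1).Adj x y ↔ M.Adj x y := by
  unfold finG
  rw [SimpleGraph.fromRel_adj]
  constructor
  · rintro ⟨hne, h1 | h1⟩
    · rcases h1 with ⟨a, b, hab, hz, hA⟩ | ⟨h2, -⟩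
      · exact absurd hz (hx a b hab)
      · exact h2
    · rcases h1 with ⟨a, b, hab, hz, hA⟩ | ⟨h3, h2⟩
      · exact absurd (rdb_zone h hA).2.2 (hx a b hab)
      · exact h3.symm
  · intro hA
    exact ⟨hA.ne, Or.inl (Or.inr ⟨hA, fun a b hab => hx a b hab⟩)⟩

private theorem rdc_mt {A B : SimpleGraph (Fin n)} (h : ∀ y, A.Adj x y ↔ B.Adj x y) : mt A x = mt B x := by
  rw [mt_iff]
  have h1 := (mt_iff (M := B) (x := x) (y := mt B x)).1 rfl
  simp only [h]
  exact h1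

/-- Job RDC. `glue` for the index type `{e : Fin n × Fin n // (mx n (hG …)).Adj e.1 e.2 ∧ e.1 < e.2}`, the zones `z2 e.1 e.2`, `μ e = mt (sAug … (rs e.1 e.2))`, `c = 2 * lam G (mt M) + 2`: `sAug_spec` for the restricted graphs with `rs_mat`, `hK_lam`, `pr_hK`;
`m' = mt (finG …)` by `fin_adj_in`, `fin_adj_out` (`mt` depends on the neighbours only: `mt_iff`); `finG …` is a matching of `G` by the same two lemmas. `f` is the number of indices; the vertices covered by the matching `mx n (hG …)` are twice as many. -/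
theorem fin_sp (hmx : ∀ (n : ℕ) (H : SimpleGraph (Fin n)), MaxlM H (mx n H)) (h : IsMat G M) (hn : ¬ Mxl G (mt M)) (hi : GI G M σ) :
    IsMat G (finG mx n (G, M) σ.1) ∧ ∃ f, Sp G (mt M) (mt (finG mx n (G, M) σ.1)) f ∧ {r | ∃ r', (mx n (hG n (G, M) σ.1)).Adj r r'}.ncard = 2 * f := by
  classical
  set P := mx n (hG n (G, M) σ.1) with hP
  have hU : ∀ v w w', P.Adj v w → P.Adj v w' → w = w' := (hmx n (hG n (G, M) σ.1)).1.2
  have hMat : IsMat G (finG mx n (G, M) σ.1) := by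
    constructor
    · intro x y hxy
      by_cases hx : ∃ r r', P.Adj r r' ∧ z2 n (G, M) σ.1 r r' x
      · obtain ⟨r, r', hr, hx⟩ := hx
        exact (rdb_zone h ((fin_adj_in hmx h hn hi hr hx).1 hxy)).1
      · push Not at hx
        exact h.1 ((fin_adj_out hmx h hn hi hx).1 hxy)
    · intro v w w' h1 h2
      by_cases hx : ∃ r r', P.Adj r r' ∧ z2 n (G, M) σ.1 r r' v
      · obtain ⟨r, r', hr, hx⟩ := hx
        exact (sAug_spec.mat _ (rs_mat h σ.1 r r').1).2 v w w'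
          ((fin_adj_in hmx h hn hi hr hx).1 h1) ((fin_adj_in hmx h hn hi hr hx).1 h2)
      · push Not at hx
        exact h.2 v w w' ((fin_adj_out hmx h hn hi hx).1 h1) ((fin_adj_out hmx h hn hi hx).1 h2)
  refine ⟨hMat, Fintype.card {e : Fin n × Fin n // P.Adj e.1 e.2 ∧ e.1 < e.2}, ?_, ?_⟩
  · have hsp : ∀ e : {e : Fin n × Fin n // P.Adj e.1 e.2 ∧ e.1 < e.2},
        Sp (rs n (G, M) σ.1 e.1.1 e.1.2).1 (mt (rs n (G, M) σ.1 e.1.1 e.1.2).2)
          (mt (sAug n (rs n (G, M) σ.1 e.1.1 e.1.2).1 (rs n (G, M) σ.1 e.1.1 e.1.2).2)) 1 := by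
      intro e
      exact sAug_spec.sp _ (rs_mat h σ.1 _ _).1 (hK_lam h hn (pr_hK hmx e.2.1).2).1
    obtain ⟨g1, g2, g3⟩ := glue (mt_mate h).1
      (fun (e : {e : Fin n × Fin n // P.Adj e.1 e.2 ∧ e.1 < e.2}) x => z2 n (G, M) σ.1 e.1.1 e.1.2 x)
      (fun e x hx => z2_mate h hx)
      (fun e e' x hx hx' => by
        rcases rdb_pair hmx h hn hi e.2.1 e'.2.1 hx hx' with ⟨h1, h2⟩ | ⟨h1, h2⟩
        · exact Subtype.ext (Prod.ext h1.symm h2.symm)
        · exfalso
          have h3 := e.2.2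
          have h4 := e'.2.2
          rw [h1, h2] at h4
          exact absurd h3 (not_lt.2 h4.le))
      (fun e => mt (sAug n (rs n (G, M) σ.1 e.1.1 e.1.2).1 (rs n (G, M) σ.1 e.1.1 e.1.2).2))
      (fun e => (hsp e).1)
      (fun e => by
        have h1 := (hsp e).2.1
        rw [(rs_mat h σ.1 e.1.1 e.1.2).2] at h1
        exact h1)
      (c := 2 * lam G (mt M) + 2)
      (fun e => by
        have h1 := (hsp e).2.2
        rw [(hK_lam h hn (pr_hK hmx e.2.1).2).2, (rs_mat h σ.1 e.1.1 e.1.2).2, one_mul] at h1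
        exact h1)
      (m' := mt (finG mx n (G, M) σ.1))
      (fun e x hx => rdc_mt fun y => fin_adj_in hmx h hn hi e.2.1 hx)
      (fun x hx => rdc_mt fun y => fin_adj_out hmx h hn hi fun r r' hr hz => by
        rcases lt_trichotomy r r' with h1 | h1 | h1
        · exact hx ⟨(r, r'), hr, h1⟩ hz
        · exact hr.ne h1
        · refine hx ⟨(r', r), hr.symm, h1⟩ ?_
          show z2 n (G, M) σ.1 r' r x
          rw [rdb_z2_comm]
          exact hz)
    exact ⟨g1, g2, g3⟩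
  · have h1 : {r | ∃ r', P.Adj r r'} =
        (((univ : Finset {e : Fin n × Fin n // P.Adj e.1 e.2 ∧ e.1 < e.2}).image (fun e => e.1.1) ∪
          (univ : Finset {e : Fin n × Fin n // P.Adj e.1 e.2 ∧ e.1 < e.2}).image (fun e => e.1.2) : Finset (Fin n)) : Set (Fin n)) := by
      ext r
      simp only [Set.mem_setOf_eq, coe_union, coe_image, coe_univ, Set.image_univ, Set.mem_union, Set.mem_range]
      constructor
      · rintro ⟨r', hr⟩
        rcases lt_trichotomy r r' with h1 | h1 | h1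
        · exact Or.inl ⟨⟨(r, r'), hr, h1⟩, rfl⟩
        · exact absurd h1 hr.ne
        · exact Or.inr ⟨⟨(r', r), hr.symm, h1⟩, rfl⟩
      · rintro (⟨e, rfl⟩ | ⟨e, rfl⟩)
        · exact ⟨_, e.2.1⟩
        · exact ⟨_, e.2.1.symm⟩
    rw [h1, Set.ncard_coe_finset, card_union_of_disjoint, card_image_of_injective, card_image_of_injective, card_univ]
    · ring
    · rintro ⟨⟨a, b⟩, h2⟩ ⟨⟨a', b'⟩, h3⟩ h4
      simp only at h4 h2 h3
      subst h4
      have h5 := hU _ _ _ h2.1.symm h3.1.symm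
      subst h5
      rfl
    · rintro ⟨⟨a, b⟩, h2⟩ ⟨⟨a', b'⟩, h3⟩ h4
      simp only at h4 h2 h3
      subst h4
      have h5 := hU _ _ _ h2.1 h3.1
      subst h5
      rfl
    · rw [disjoint_left]
      intro r h2 h3
      rw [mem_image] at h2 h3
      obtain ⟨⟨⟨a, b⟩, h4⟩, -, h6⟩ := h2
      obtain ⟨⟨⟨a', b'⟩, h5⟩, -, h7⟩ := h3
      simp only at h4 h5 h6 h7
      subst h6
      subst h7
      have h8 := hU _ _ _ h4.1 h5.1.symm
      subst h8
      exact absurd h4.2 (not_lt.2 h5.2.le)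

/-- Job RDD. `exit_pair` for `gdata` (`ndK_eq`, `upK_eq`), then `f1` for the new chains; the members of the chains are owned by `r₁` or `t₁`, so the set of the augmenting path is contained in `z2 … r₁ t₁`; `hK_iff`. (The roots `r₁`, `t₁` of the new chains are exposed: the last entry of a chain is its root, it is visited, `nd_rt`; if `σ.1 b r₁` then `mt M r₁ = r₁` by `nd_rt`.) -/
theorem exit_hK (h : IsMat G M) (hn : ¬ Mxl G (mt M)) (hi : GI G M σ) (hrt : r ≠ t) (hr : mt M r = r) (ht : mt M t = t)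
    (hA : Chn (Upp G (mt M)) r (p :: A)) (hB : Chn (Upp G (mt M)) t (q :: B)) (hN : ∀ b ∈ (p :: A) ++ (q :: B), Nd G (mt M) b)
    (hnd : ((p :: A) ++ (q :: B)).Nodup) (hpq : Brr G (mt M) p q) (hac : ∀ b ∈ (p :: A) ++ (q :: B), ¬ σ.2 b) :
    ∃ r₁ t₁, r₁ ≠ t₁ ∧ hK n (G, M) σ.1 r₁ t₁ ∧ (∃ b ∈ (p :: A) ++ (q :: B), σ.1 b r₁) ∧ ∃ b ∈ (p :: A) ++ (q :: B), σ.1 b t₁ := by
  have hup := upK_eq h hn
  have hnd' := ndK_eq h hn
  have hcl := claK_eq h hn
  have hA' : Chn (upK n (G, M)) r (p :: A) := by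
    rw [hup]
    exact hA
  have hB' : Chn (upK n (G, M)) t (q :: B) := by
    rw [hup]
    exact hB
  have hN' : ∀ b ∈ (p :: A) ++ (q :: B), ndK n (G, M) b := by
    rw [hnd']
    exact hN
  obtain ⟨r₁, t₁, A₁, B₁, e1, e2, e3, e4, e5, e6, e7⟩ := exit_pair (gdata h hn) hi hrt hr ht hA' hB' hN' hnd hac
  have hr₁ : mt M r₁ = r₁ := by
    obtain ⟨b, _, hb⟩ := e6
    exact (hi.nd_rt b r₁ hb).2
  have ht₁ : mt M t₁ = t₁ := by
    obtain ⟨b, _, hb⟩ := e7
    exact (hi.nd_rt b t₁ hb).2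
  have hN₁ : ∀ b ∈ (p :: A₁) ++ (q :: B₁), Nd G (mt M) b := by
    intro b hb
    rw [← hnd']
    rcases e4 b hb with hb' | hb'
    · exact (hi.nd_rt b r₁ hb').1
    · exact (hi.nd_rt b t₁ hb').1
  rw [hup] at e2 e3
  obtain ⟨S, hS, hSm⟩ := f1 (mt_mate h).1 hn hr₁ ht₁ e2 e3 hN₁ e5 hpq
  refine ⟨r₁, t₁, e1, (hK_iff h hn).2 ⟨hr₁, ht₁, S, hS, ?_⟩, e6, e7⟩
  intro x hx
  obtain ⟨b, hb, hbx⟩ := hSm x hx
  rw [← hcl] at hbx
  rcases e4 b hb with hb' | hb'
  · exact Or.inl ⟨b, hb', hbx⟩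
  · exact Or.inr ⟨b, hb', hbx⟩

/-- Job RDD. (`f2`, `exit_hK`.) -/
theorem path_exit (h : IsMat G M) (hn : ¬ Mxl G (mt M)) (hi : GI G M σ) (hS : AP G (mt M) S (lam G (mt M))) (hac : ∀ b ∈ S, ¬ σ.2 b) :
    ∃ r₁ t₁, r₁ ≠ t₁ ∧ hK n (G, M) σ.1 r₁ t₁ ∧ (∃ b ∈ S, σ.1 b r₁) ∧ ∃ b ∈ S, σ.1 b t₁ := by
  obtain ⟨r, t, p, q, A, B, hrt, hr, ht, hA, hB, hN, hnd, hpq⟩ := f2 (mt_mate h).1 hn hS
  obtain ⟨r₁, t₁, e1, e2, ⟨b, hb, hb'⟩, ⟨c, hc, hc'⟩⟩ := exit_hK h hn hi hrt hr ht hA hB (fun b hb => (hN b hb).1) hnd hpq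
    (fun b hb => hac b (hN b hb).2)
  exact ⟨r₁, t₁, e1, e2, ⟨b, (hN b hb).2, hb'⟩, ⟨c, (hN c hc).2, hc'⟩⟩

/-- Job RDE. A family of pairwise disjoint sets, each with a member with property `P`: there are at most as many sets as elements with the property. -/
private theorem rde_count {k : ℕ} {S : Fin k → Finset (Fin n)} (hS : ∀ i j, i ≠ j → Disjoint (S i) (S j)) (I : Finset (Fin k)) (P : Finset (Fin n))
    (hI : ∀ i ∈ I, ∃ b ∈ S i, b ∈ P) : I.card ≤ P.card := by
  classical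
  choose g hg1 hg2 using hI
  have h1 : (Finset.univ : Finset {i // i ∈ I}).card ≤ P.card := by
    apply Finset.card_le_card_of_injOn (fun i => g i.1 i.2)
    · intro i _
      exact hg2 i.1 i.2
    · intro i _ j _ hij
      by_contra hne
      have hne' : i.1 ≠ j.1 := fun h => hne (Subtype.ext h)
      have hd := hS i.1 j.1 hne'
      have h2 : g i.1 i.2 ∈ S j.1 := by
        have := hg1 j.1 j.2
        simp only at hij
        rw [hij]
        exact this
      exact (Finset.disjoint_left.mp hd) (hg1 i.1 i.2) h2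
  simpa using h1

/-- Job RDE. `dec_tight`: `k` disjoint shortest augmenting paths. Those with an active vertex: at most the number of active vertices (`active_card` for `gdata`: `(T + 2) * (number) ≤ 2 * n * (lam + 2)`). The others: `path_exit` and the maximality of `mx n (hG …)`: one of `r₁`, `t₁` is covered by it; so there is a vertex
of the path which is owned by one of the `2 f` covered roots, each owns at most `T + 2` vertices (`cnt1`). So there are at most `2 f (T + 2)` of them. -/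
theorem blocking (hmx : ∀ (n : ℕ) (H : SimpleGraph (Fin n)), MaxlM H (mx n H)) (h : IsMat G M) (hn : ¬ Mxl G (mt M)) (hi : GI G M σ)
    (hc : GCnt (fun x => mt M x = x) (T + 1) σ) (hf : {r | ∃ r', (mx n (hG n (G, M) σ.1)).Adj r r'}.ncard = 2 * f) (hs : Sp G (mt M) ν k) :
    (T + 2) * k ≤ 2 * n * (lam G (mt M) + 2) + 2 * f * (T + 2) ^ 2 := by
  classical
  obtain ⟨S, hS1, hS2⟩ := dec_tight (mt_mate h).1 hs
  -- the active vertices
  have hact := active_card (gdata h hn) hi hc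
  set Act : Finset (Fin n) := Finset.univ.filter (fun b => σ.2 b) with hAct
  have hAc : {b | σ.2 b}.ncard = Act.card := by
    rw [Set.ncard_eq_toFinset_card']
    congr 1
    ext b
    simp [hAct]
  set R : Finset (Fin n) := Finset.univ.filter (fun r => ∃ r', (mx n (hG n (G, M) σ.1)).Adj r r') with hR
  have hRc : R.card = 2 * f := by
    rw [← hf, Set.ncard_eq_toFinset_card']
    congr 1
    ext b
    simp [hR]
  set Own : Finset (Fin n) := Finset.univ.filter (fun b => ∃ r ∈ R, σ.1 b r) with hOwn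
  -- the number of owned vertices
  have hOc : Own.card ≤ 2 * f * (T + 2) := by
    have h1 : Own ⊆ (R.filter (fun r => mt M r = r)).biUnion (fun r => Finset.univ.filter (fun b => σ.1 b r)) := by
      intro b hb
      obtain ⟨r, hr, hb⟩ := (Finset.mem_filter.mp hb).2
      refine Finset.mem_biUnion.mpr ⟨r, Finset.mem_filter.mpr ⟨hr, (hi.nd_rt b r hb).2⟩, ?_⟩
      simpa using hb
    refine (Finset.card_le_card h1).trans ?_
    refine (Finset.card_biUnion_le_card_mul _ _ (T + 2) ?_).trans ?_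
    · intro r hr
      have h2 := hc.cnt1 r (Finset.mem_filter.mp hr).2
      have h3 : {b | σ.1 b r}.ncard = (Finset.univ.filter (fun b => σ.1 b r)).card := by
        rw [Set.ncard_eq_toFinset_card']
        congr 1
        ext b
        simp
      rw [← h3]
      exact h2
    · rw [← hRc]
      exact Nat.mul_le_mul_right _ (Finset.card_le_card (Finset.filter_subset _ _))
  -- the paths with active vertices and the others
  set I : Finset (Fin k) := Finset.univ.filter (fun i => ∃ b ∈ S i, σ.2 b) with hI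
  have hI1 : I.card ≤ Act.card := by
    refine rde_count hS2 I Act ?_
    intro i hi'
    obtain ⟨b, hb, hb'⟩ := (Finset.mem_filter.mp hi').2
    exact ⟨b, hb, by simpa [hAct] using hb'⟩
  have hI2 : (Finset.univ \ I : Finset (Fin k)).card ≤ Own.card := by
    refine rde_count hS2 _ Own ?_
    intro i hi'
    have hi2 : ∀ b ∈ S i, ¬ σ.2 b := by
      intro b hb hb'
      have : i ∈ I := Finset.mem_filter.mpr ⟨Finset.mem_univ _, b, hb, hb'⟩
      exact (Finset.mem_sdiff.mp hi').2 this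
    obtain ⟨r₁, t₁, hne, hK1, ⟨b, hb, hbr⟩, b', hb', hbt⟩ := path_exit h hn hi (hS1 i) hi2
    have hadj : (hG n (G, M) σ.1).Adj r₁ t₁ := by
      unfold hG
      rw [SimpleGraph.fromRel_adj]
      exact ⟨hne, Or.inl hK1⟩
    rcases (hmx n (hG n (G, M) σ.1)).2 r₁ t₁ hadj with hz | hz
    · refine ⟨b, hb, Finset.mem_filter.mpr ⟨Finset.mem_univ _, r₁, ?_, hbr⟩⟩
      simpa [hR] using hz
    · refine ⟨b', hb', Finset.mem_filter.mpr ⟨Finset.mem_univ _, t₁, ?_, hbt⟩⟩
      simpa [hR] using hz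
  have hk : k = I.card + (Finset.univ \ I : Finset (Fin k)).card := by
    have h1 := Finset.card_sdiff_add_card_eq_card (Finset.subset_univ I)
    rw [Finset.card_univ, Fintype.card_fin] at h1
    omega
  have hk2 : k ≤ Act.card + 2 * f * (T + 2) := by
    calc k = I.card + (Finset.univ \ I : Finset (Fin k)).card := hk
      _ ≤ Act.card + 2 * f * (T + 2) := Nat.add_le_add hI1 (hI2.trans hOc)
  rw [hAc] at hact
  have hact' : (T + 2) * Act.card ≤ 2 * n * (lam G (mt M) + 2) := by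
    have e1 : T + 1 + 1 = T + 2 := rfl
    have e2 : lam G (mt M) + 1 + 1 = lam G (mt M) + 2 := rfl
    rw [e1, e2] at hact
    exact hact
  calc (T + 2) * k ≤ (T + 2) * (Act.card + 2 * f * (T + 2)) := Nat.mul_le_mul_left _ hk2
    _ = (T + 2) * Act.card + 2 * f * (T + 2) ^ 2 := by ring
    _ ≤ 2 * n * (lam G (mt M) + 2) + 2 * f * (T + 2) ^ 2 := Nat.add_le_add_right hact' _

/-- Job RDF. (`grow_all` for `gdata`, `fin_sp`, `blocking`, `fin_mxl`.) -/
theorem round_spec (hmx : ∀ (n : ℕ) (H : SimpleGraph (Fin n)), MaxlM H (mx n H)) (T : ℕ) : RSpec G T (rndG mx T n G) := by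
  have hgrow : ∀ {M : SimpleGraph (Fin n)}, IsMat G M → ¬ Mxl G (mt M) →
      GI G M ((growK mx n (G, M))^[T + 1] (g0 (fun x => mt M x = x))) ∧
      GCnt (fun x => mt M x = x) (T + 1) ((growK mx n (G, M))^[T + 1] (g0 (fun x => mt M x = x))) := by
    intro M h hn
    exact grow_all (hmx n) (gdata h hn) (T + 1)
  refine ⟨?_, ?_, ?_⟩
  · intro M h
    by_cases hM : Mxl G (mt M)
    · have e : rndG mx T n G M = M := fin_mxl hmx h hM
      rw [e]
      exact h
    · exact (fin_sp hmx h hM (hgrow h hM).1).1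
  · intro M h hM
    have e : rndG mx T n G M = M := fin_mxl hmx h hM
    rw [e]
    exact hM
  · intro M h hM
    obtain ⟨hi, hc⟩ := hgrow h hM
    obtain ⟨_, f, h1, h2⟩ := fin_sp hmx h hM hi
    exact ⟨f, h1, fun ν k hs => blocking hmx h hM hi hc h2 hs⟩

end Pool.Agent.SUB
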