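import Pool.Agent.Lib.MP_0087d5_lc.SUB.LSteps
import Pool.Agent.Lib.MP_0087d5_lc.SUB.Round
import Pool.Agent.Lib.MP_0087d5_lc.SUB.Root

/-!
# The algorithm

Jobs MNA (`run_*`, `sem_*`), MNB (`fmax_*`), MNC (`pm_iff`, `small_max`), MND (`max_sub`, `pm_sub`).
-/

namespace Pool.Agent.SUB

open Relation Finset Pool.Agent.AUG Pool.Agent.UPM

/-- One round: initial structures, `rt n ^ 3 + 1` growth steps, augmentation in the zones, `rt n ^ 3 + 1` single augmentations. -/
def rnd (n : ℕ) (G : GS n) (R : RS n) : RS n :=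
  (run (S := GS) fAug n G)^[rt n ^ 3 + 1] (run (S := GS) fFin n G ((run (S := GS) fGrow n G)^[rt n ^ 3 + 1] (run (S := GS) fIni n G R)))

private theorem mna_ini (n : ℕ) (G : GS n) (R : RS n) :
    run (S := GS) fIni n G R = en n (dM n R) (g0 (fun y => mt (dM n R) y = y)) := rfl

private theorem mna_grow (n : ℕ) (G : GS n) (M : SimpleGraph (Fin n)) (σ : St n) (k : ℕ) :
    (run (S := GS) fGrow n G)^[k] (en n M σ) = en n M ((growK mx0 n (G, M))^[k] σ) := by
  induction k with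
  | zero => rfl
  | succ k ih =>
    rw [Function.iterate_succ_apply', Function.iterate_succ_apply', ih]
    show en n (dM n (en n M _)) (growK mx0 n (G, dM n (en n M _)) (dS n (en n M _))) = _
    rw [dM_en, dS_en]

private theorem mna_fin (n : ℕ) (G : GS n) (M : SimpleGraph (Fin n)) (σ : St n) :
    run (S := GS) fFin n G (en n M σ) = en n (finG mx0 n (G, M) σ.1) σ := by
  show en n (finG mx0 n (G, dM n (en n M σ)) (dS n (en n M σ)).1) (dS n (en n M σ)) = _
  rw [dM_en, dS_en]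

private theorem mna_aug (n : ℕ) (G : GS n) (M : SimpleGraph (Fin n)) (σ : St n) (k : ℕ) :
    (run (S := GS) fAug n G)^[k] (en n M σ) = en n ((sAug n G)^[k] M) σ := by
  induction k with
  | zero => rfl
  | succ k ih =>
    rw [Function.iterate_succ_apply', Function.iterate_succ_apply', ih]
    show en n (sAug n G (dM n (en n _ σ))) (dS n (en n _ σ)) = _
    rw [dM_en, dS_en]

private theorem mna_rnd (n : ℕ) (G : GS n) (R : RS n) : rnd n G R =
    en n ((sAug n G)^[rt n ^ 3 + 1] (rndG mx0 (rt n ^ 3) n G (dM n R)))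
      ((growK mx0 n (G, dM n R))^[rt n ^ 3 + 1] (g0 (fun y => mt (dM n R) y = y))) := by
  unfold rnd
  rw [mna_ini, mna_grow, mna_fin, mna_aug]
  rfl

/-- Job MNA. (`dM_en`, `dS_en`.) -/
theorem sem_rnd (n : ℕ) (G : GS n) (R : RS n) : dM n (rnd n G R) = (sAug n G)^[rt n ^ 3 + 1] (rndG mx0 (rt n ^ 3) n G (dM n R)) := by
  rw [mna_rnd, dM_en]

/-- Job MNA. The result of a round is a state `en n M σ`. -/
theorem rnd_en (n : ℕ) (G : GS n) (R : RS n) : ∃ σ, rnd n G R = en n (dM n (rnd n G R)) σ := by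
  refine ⟨(growK mx0 n (G, dM n R))^[rt n ^ 3 + 1] (g0 (fun y => mt (dM n R) y = y)), ?_⟩
  rw [mna_rnd, dM_en]

/-- Job MNA. (`LStep.comp`, `LStep.iter`, `LComp.ofComp`, `NCP.comp`, `LComp.mono`, `fm_rt3`, `rt3_lt`; the steps are programs, so of depth `D = 0`.) -/
theorem rnd_step : LStep GS GB (fun n => rt n ^ 3) (fun f n s x => rnd n s.1 s.2 f x) := by
  have hc : ∀ (D : ℕ → ℕ) {F : Fin 3 → RF XS (Fin 2)}, (∀ f, NCP XS XB (Fin 2) (F f)) → LStep GS GB D F :=
    fun D F h f => LComp.ofComp (h f).comp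
  have hD : ∀ n, (rt n ^ 3 + 1) * ((fun _ => 0 : ℕ → ℕ) n + 1) ≤ (fun n => rt n ^ 3) n + 1 := by
    intro n
    show (rt n ^ 3 + 1) * (0 + 1) ≤ rt n ^ 3 + 1
    rw [zero_add, mul_one]
  have hfl : Finite (Fin 3) := inferInstance
  have hne : Nonempty (Fin 2) := ⟨0⟩
  have h1 : LStep GS GB (fun n => rt n ^ 3) fIni := hc _ st_ini
  have h2 : LStep GS GB (fun n => rt n ^ 3) (fun f n s x => (run (S := GS) fGrow n s.1)^[rt n ^ 3 + 1] s.2 f x) :=
    LStep.iter hfl hne (hc (fun _ => 0) st_grow) fm_rt3 rt3_lt hD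
  have h3 : LStep GS GB (fun n => rt n ^ 3) fFin := hc _ st_fin
  have h4 : LStep GS GB (fun n => rt n ^ 3) (fun f n s x => (run (S := GS) fAug n s.1)^[rt n ^ 3 + 1] s.2 f x) :=
    LStep.iter hfl hne (hc (fun _ => 0) st_aug) fm_rt3 rt3_lt hD
  exact LStep.comp hfl hne (LStep.comp hfl hne (LStep.comp hfl hne h1 h2) h3) h4

/-- The number of rounds is `20000 * (rt n ^ 5 + 1)`. -/
def tot (n : ℕ) (G : GS n) : RS n := ((rnd n G)^[20000])^[rt n ^ 5 + 1] (fun _ _ => False)

/-- Job MNB. (`LStep.citer`, `LStep.iter`, `LStep.start`, `fm_rt5`, `rt5_lt`.) -/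
theorem tot_comp (f : Fin 3) : LComp (fun n => rt n ^ 8 + rt n ^ 5 + rt n ^ 3) GS GB (Fin 2) (fun n G x => tot n G f x) := by
  have key : ∀ c : ℕ, LComp (fun n => rt n ^ 8 + rt n ^ 5 + rt n ^ 3) GS GB (Fin 2)
      (fun n G x => ((rnd n G)^[c])^[rt n ^ 5 + 1] (fun _ _ => False) f x) := by
    intro c
    have h1 : LStep GS GB (fun n => rt n ^ 3) (fun (f : Fin 3) n (s : GS n × RS n) x => (rnd n s.1)^[c] s.2 f x) :=
      LStep.citer inferInstance inferInstance inferInstance rnd_step c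
    have h2 : LStep GS GB (fun n => rt n ^ 8 + rt n ^ 5 + rt n ^ 3)
        (fun (f : Fin 3) n (s : GS n × RS n) x => ((rnd n s.1)^[c])^[rt n ^ 5 + 1] s.2 f x) :=
      LStep.iter inferInstance inferInstance h1 (T := fun n => rt n ^ 5) fm_rt5 rt5_lt (fun n => le_of_eq (by ring))
    exact LStep.start inferInstance inferInstance inferInstance h2 f
  exact key 20000

/-- The matching computed. -/
def fmax (n : ℕ) (G : SimpleGraph (Fin n)) : SimpleGraph (Fin n) := dM n (tot n G)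

/-- Job MNB. (`rnd_en`.) -/
theorem mnb_tot (n : ℕ) (G : SimpleGraph (Fin n)) : tot n G = (rnd n G)^[20000 * (rt n ^ 5 + 1)] (fun _ _ => False) := by
  unfold tot
  rw [Function.iterate_mul]

/-- Job MNB. (`rnd_en`.) -/
theorem fmax_adj (n : ℕ) (G : SimpleGraph (Fin n)) (x : Fin 2 → Fin n) : (fmax n G).Adj (x 0) (x 1) ↔ tot n G 0 x := by
  have h1 : ∃ R, tot n G = rnd n G R := by
    refine ⟨(rnd n G)^[20000 * (rt n ^ 5 + 1) - 1] (fun _ _ => False), ?_⟩
    rw [mnb_tot, ← Function.iterate_succ_apply' (rnd n G)]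
    congr 1
  obtain ⟨R, hR⟩ := h1
  obtain ⟨σ, hσ⟩ := rnd_en n G R
  rw [← hR] at hσ
  have h2 : tot n G 0 x = en n (dM n (tot n G)) σ 0 x := congrFun (congrFun hσ 0) x
  rw [h2]
  exact Iff.rfl

/-- Job MNB. -/
theorem fmax_eq (n : ℕ) (G : SimpleGraph (Fin n)) :
    fmax n G = (fun M => (sAug n G)^[rt n ^ 3 + 1] (rndG mx0 (rt n ^ 3) n G M))^[20000 * (rt n ^ 5 + 1)] ⊥ := by
  have h1 : Function.Semiconj (dM n) (rnd n G) (fun M => (sAug n G)^[rt n ^ 3 + 1] (rndG mx0 (rt n ^ 3) n G M)) :=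
    fun R => sem_rnd n G R
  have h2 : dM n (fun _ _ => False) = ⊥ := by
    ext a b
    unfold dM
    rw [SimpleGraph.fromRel_adj]
    simp
  unfold fmax
  rw [mnb_tot, (h1.iterate_right _).eq, h2]

/-- Job MNC. -/
theorem small_max {n : ℕ} (hn : n ≤ 1) (G M : SimpleGraph (Fin n)) : IsMaxMat G M := by
  have hno : ∀ (H : SimpleGraph (Fin n)) (a b : Fin n), ¬ H.Adj a b := by
    intro H a b h
    apply h.ne
    apply Fin.ext
    have ha := a.2
    have hb := b.2
    omega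
  refine ⟨⟨fun a b h => absurd h (hno M a b), fun v w w' h => absurd h (hno M v w)⟩, fun N hN => ?_⟩
  have h1 : N = M := by
    ext a b
    exact ⟨fun h => absurd h (hno N a b), fun h => absurd h (hno M a b)⟩
  rw [h1]

/-- Job MNC. (`iter_main`, `round_spec`, `sAug_spec`, `mx0_maxl`, `rt_pos`, `lt_rt`.) -/
theorem fmax_max (n : ℕ) (G : SimpleGraph (Fin n)) : IsMaxMat G (fmax n G) := by
  by_cases hn : n ≤ 1
  · exact small_max hn G _
  · rw [fmax_eq]
    have hbot : IsMat G (⊥ : SimpleGraph (Fin n)) := ⟨bot_le, fun v w w' h => absurd h id⟩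
    exact iter_main (rt_pos (by omega)) (lt_rt n) (round_spec mx0_maxl (rt n ^ 3)) sAug_spec hbot le_rfl

/-- Job MNC. -/
theorem pm_iff {n : ℕ} {G M : SimpleGraph (Fin n)} (h : IsMaxMat G M) : (∃ P : G.Subgraph, P.IsPerfectMatching) ↔ ∀ x, ∃ y, M.Adj x y := by
  classical
  constructor
  · rintro ⟨P, hP1, hP2⟩
    have hN : IsMat G P.spanningCoe := by
      refine ⟨fun a b hab => P.adj_sub hab, fun v w w' h1 h2 => ?_⟩
      obtain ⟨u, -, hu⟩ := hP1 (hP2 v)
      exact (hu w h1).trans (hu w' h2).symm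
    obtain ⟨ν, hν, hNν⟩ := exists_mate hN
    obtain ⟨m, hm, hMm⟩ := exists_mate h.1
    have e1 := two_edges hν hNν
    have e2 := two_edges hm hMm
    have e3 := h.2 _ hN
    have e4 : ∀ w, ν w ≠ w := by
      intro w hw
      obtain ⟨u, hu, -⟩ := hP1 (hP2 w)
      have h1 : P.spanningCoe.Adj w u := hu
      have h2 := (hNν w u).1 h1
      exact h2.2 (hw.symm.trans h2.1)
    have k1 : ∀ (p : Fin n → Prop) (inst : DecidablePred p), (∀ w, p w) → (@Finset.filter _ p inst univ).card = n := by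
      intro p inst hp
      rw [Finset.filter_true_of_mem (fun w _ => hp w), Finset.card_univ, Fintype.card_fin]
    have k2 : ∀ (p : Fin n → Prop) (inst : DecidablePred p) (x : Fin n), ¬ p x → (@Finset.filter _ p inst univ).card < n := by
      intro p inst x hp
      have h1 : (@Finset.filter _ p inst univ) ⊂ univ := Finset.filter_ssubset.2 ⟨x, Finset.mem_univ x, hp⟩
      have h2 := Finset.card_lt_card h1
      rwa [Finset.card_univ, Fintype.card_fin] at h2
    have e5 := e1.trans (k1 _ _ e4)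
    intro x
    refine ⟨m x, (hMm x (m x)).2 ⟨rfl, fun he => ?_⟩⟩
    have e6 := e2.trans_lt (k2 _ _ x (fun hx => hx he.symm))
    omega
  · intro hx
    refine ⟨⟨Set.univ, M.Adj, fun {a b} hab => h.1.1 hab, fun {a b} _ => Set.mem_univ a, ⟨fun a b hab => hab.symm⟩⟩, ?_, fun a => Set.mem_univ a⟩
    intro v _
    obtain ⟨y, hy⟩ := hx v
    exact ⟨y, hy, fun z hz => h.1.2 v z y hz hy⟩

/-- Job MND. (`tot_comp`, `fmax_adj`, `relSub_of_LComp`, `dtot`.) -/
theorem max_sub : RelSub 2 (fun n G x => (fmax n G).Adj (x 0) (x 1)) := by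
  exact relSub_of_LComp (c₀ := 262144) (LComp.congr (tot_comp 0) fun n G x => (fmax_adj n G x).symm) dtot

/-- Job MND. (`LComp.not`, `LComp.ex`, `LComp.comap`, `relSub_of_LComp`, `dtot`, `pm_iff`.) -/
theorem pm_sub : RelSub 0 (fun n G _ => ∃ P : G.Subgraph, P.IsPerfectMatching) := by
  have h0 : LComp (fun n => rt n ^ 8 + rt n ^ 5 + rt n ^ 3) GS GB (Fin 2) (fun n G x => (fmax n G).Adj (x 0) (x 1)) :=
    LComp.congr (tot_comp 0) fun n G x => (fmax_adj n G x).symm
  have h1 : LComp (fun n => rt n ^ 8 + rt n ^ 5 + rt n ^ 3) GS GB (Option (Option (Fin 0)))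
      (fun n G z => (fmax n G).Adj (z (some none)) (z none)) :=
    LComp.comap inferInstance (fun i : Fin 2 => if i = 0 then some none else none) h0
  have h2 : LComp (fun n => rt n ^ 8 + rt n ^ 5 + rt n ^ 3) GS GB (Option (Fin 0))
      (fun n G z => ¬ ∃ a : Fin n, (fmax n G).Adj (z none) a) := (LComp.ex h1).not
  have h3 : LComp (fun n => rt n ^ 8 + rt n ^ 5 + rt n ^ 3) GS GB (Fin 0)
      (fun n G _ => ¬ ∃ b : Fin n, ¬ ∃ a : Fin n, (fmax n G).Adj b a) := (LComp.ex h2).not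
  refine relSub_of_LComp (c₀ := 262144) (LComp.congr h3 fun n G x => ?_) dtot
  rw [pm_iff (fmax_max n G)]
  constructor
  · intro h y
    by_contra hy
    exact h ⟨y, hy⟩
  · rintro h ⟨y, hy⟩
    exact hy (h y)

end Pool.Agent.SUB
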