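import Pool.Agent.Lib.MP_0087d5_lc.SUB.Defs

/-!
# Augmenting paths with their vertex sets

Jobs APA (`ap_card` … `ap_mono`), APB (`ap_iff` … `k_parity`), APC (`rm_mate`, `ap_restrict`, `ap_extend`).
-/

namespace Pool.Agent.SUB

open Relation Finset Pool.Agent.AUG

variable {n : ℕ} {G G' : SimpleGraph (Fin n)} {m ν : Fin n → Fin n} {S : Finset (Fin n)} {k : ℕ} {Z : Fin n → Prop}

/-- The vertices of a walk and their mates are covered. -/
private theorem apa_cov (hm : Mate G m) {z : Fin n} {L : List (Fin n)} {d : ℕ} (hz : m z ≠ z)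
    (hW : WW m (one (EE G m)) z L d) {w : Fin n} (hw : w ∈ L.toFinset ∪ (L.map m).toFinset) : m w ≠ w := by
  have hcov := ba_covered hm.mm hz hW
  rw [Finset.mem_union, List.mem_toFinset, List.mem_toFinset] at hw
  rcases hw with hw | hw
  · exact hcov w hw
  · obtain ⟨v, hv, rfl⟩ := List.mem_map.1 hw
    rw [hm.invol]
    exact (hcov v hv).symm

/-- The number of vertices of a walk and their mates. -/
private theorem apa_len (hm : Mate G m) {z : Fin n} {L : List (Fin n)} {d : ℕ} (hz : m z ≠ z)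
    (hW : WW m (one (EE G m)) z L d) : (L.toFinset ∪ (L.map m).toFinset).card = 2 * (d + 1) := by
  have hinj : Function.Injective m := fun x y hxy => by
    have := congrArg m hxy
    rwa [hm.invol, hm.invol] at this
  rw [Finset.card_union_of_disjoint]
  · rw [List.toFinset_card_of_nodup hW.nodup, List.toFinset_card_of_nodup (hW.nodup.map hinj),
      List.length_map, hW.length]
    ring
  · rw [Finset.disjoint_left]
    intro a ha hb
    rw [List.mem_toFinset] at ha hb
    obtain ⟨v, hv, rfl⟩ := List.mem_map.1 hb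
    exact WW.mate_not_mem hm.mm.mt hz hW hv ha

/-- Job APA. The vertices of a walk in `EE G m` starting at a covered vertex are covered (see `ba_covered`), the lists `x :: L` and its image under `m` are disjoint (`WW.mate_not_mem`), of length `d + 1` (`WW.length`, `WW.nodup`). -/
theorem ap_card (hm : Mate G m) (h : AP G m S k) : S.card = 2 * k + 2 := by
  obtain ⟨s, t, hst, hs, ht, h | ⟨z, x, L, d, hk, hz, _, hW, _, hS⟩⟩ := h
  · obtain ⟨rfl, _, rfl⟩ := h
    rw [Finset.card_pair hst]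
  · rw [hS, Finset.union_assoc, Finset.card_union_of_disjoint, Finset.card_pair hst, apa_len hm hz hW, hk]
    · ring
    · rw [Finset.disjoint_left]
      intro a ha hb
      rw [Finset.mem_insert, Finset.mem_singleton] at ha
      have hc := apa_cov hm hz hW hb
      rcases ha with rfl | rfl
      · exact hc hs
      · exact hc ht

/-- Job APA. -/
theorem ap_mate (hm : Mate G m) (h : AP G m S k) {x : Fin n} (hx : x ∈ S) : m x ∈ S := by
  obtain ⟨s, t, hst, hs, ht, h | ⟨z, y, L, d, hk, hz, _, hW, _, hS⟩⟩ := h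
  · obtain ⟨_, _, rfl⟩ := h
    rw [Finset.mem_insert, Finset.mem_singleton] at hx ⊢
    rcases hx with rfl | rfl
    · exact Or.inl hs
    · exact Or.inr ht
  · rw [hS, Finset.union_assoc, Finset.mem_union, Finset.mem_union, List.mem_toFinset, List.mem_toFinset,
      Finset.mem_insert, Finset.mem_singleton] at hx ⊢
    rcases hx with (rfl | rfl) | hx | hx
    · exact Or.inl (Or.inl hs)
    · exact Or.inl (Or.inr ht)
    · exact Or.inr (Or.inr (List.mem_map_of_mem hx))
    · obtain ⟨v, hv, rfl⟩ := List.mem_map.1 hx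
      rw [hm.invol]
      exact Or.inr (Or.inl hv)

/-- Job APA. -/
theorem ap_fixed (hm : Mate G m) (h : AP G m S k) : (S.filter (fun x => m x = x)).card = 2 := by
  obtain ⟨s, t, hst, hs, ht, h | ⟨z, y, L, d, hk, hz, _, hW, _, hS⟩⟩ := h
  · obtain ⟨_, _, rfl⟩ := h
    rw [Finset.filter_true_of_mem, Finset.card_pair hst]
    intro x hx
    rw [Finset.mem_insert, Finset.mem_singleton] at hx
    rcases hx with rfl | rfl
    · exact hs
    · exact ht
  · have hf : S.filter (fun x => m x = x) = {s, t} := by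
      ext a
      rw [Finset.mem_filter, hS, Finset.union_assoc, Finset.mem_union, Finset.mem_insert, Finset.mem_singleton]
      constructor
      · rintro ⟨ha | ha, hb⟩
        · exact ha
        · exact absurd hb (apa_cov hm hz hW ha)
      · intro ha
        refine ⟨Or.inl ha, ?_⟩
        rcases ha with rfl | rfl
        · exact hs
        · exact ht
    rw [hf, Finset.card_pair hst]

/-- Job APA. (`bb_mono`; `EE G m a b → EE G' m a b`.) -/
theorem ap_mono (hG : G ≤ G') (h : AP G m S k) : AP G' m S k := by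
  obtain ⟨s, t, hst, hs, ht, h | ⟨z, y, L, d, hk, hz, h1, hW, h2, hS⟩⟩ := h
  · exact ⟨s, t, hst, hs, ht, Or.inl ⟨h.1, hG h.2.1, h.2.2⟩⟩
  · exact ⟨s, t, hst, hs, ht, Or.inr ⟨z, y, L, d, hk, hz, hG h1,
      bb_mono (fun a b hab => ⟨hG hab.1, hab.2⟩) hW, hG h2, hS⟩⟩

open Classical in
/-- Joining two exposed vertices. -/
private theorem apb_join {ν : Fin n → Fin n} {x t : Fin n} (h : Mate G ν) (hx : ν x = x) (ht : ν t = t) (hxt : G.Adj x t) :
    ∃ μ : Fin n → Fin n, Mate G μ ∧ (∀ w, w ≠ x → w ≠ t → μ w = ν w) ∧ cv μ = cv ν + 2 := by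
  have h1 : x ≠ t := hxt.ne
  have h3 := h.invol
  set μ : Fin n → Fin n := fun w => if w = x then t else if w = t then x else ν w with hμ
  have e1 : μ x = t := by simp [hμ]
  have e2 : μ t = x := by
    simp only [hμ]
    rw [if_neg h1.symm]
    simp
  have e4 : ∀ w, w ≠ x → w ≠ t → μ w = ν w := by
    intro w w1 w2
    simp only [hμ]
    rw [if_neg w1, if_neg w2]
  have e5 : ∀ w, w ≠ x → w ≠ t → ν w ≠ x ∧ ν w ≠ t := by
    intro w w1 w2
    refine ⟨fun h => w1 ?_, fun h => w2 ?_⟩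
    · rw [← h3 w, h, hx]
    · rw [← h3 w, h, ht]
  refine ⟨μ, ⟨?_, ?_⟩, e4, ?_⟩
  · intro w
    by_cases w1 : w = x
    · rw [w1, e1, e2]
    by_cases w2 : w = t
    · rw [w2, e2, e1]
    obtain ⟨a1, a2⟩ := e5 w w1 w2
    rw [e4 w w1 w2, e4 _ a1 a2, h3]
  · intro w hw
    by_cases w1 : w = x
    · rw [w1, e1]
      exact hxt
    by_cases w2 : w = t
    · rw [w2, e2]
      exact hxt.symm
    rw [e4 w w1 w2] at hw ⊢
    exact h.adj w hw
  · have hset : univ.filter (fun w => μ w ≠ w) = insert x (insert t (univ.filter (fun w => ν w ≠ w))) := by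
      ext w
      simp only [mem_filter, mem_univ, true_and, mem_insert]
      by_cases w1 : w = x
      · subst w1
        rw [e1]
        exact ⟨fun _ => Or.inl rfl, fun _ => h1.symm⟩
      by_cases w2 : w = t
      · subst w2
        rw [e2]
        exact ⟨fun _ => Or.inr (Or.inl rfl), fun _ => h1⟩
      rw [e4 w w1 w2]
      simp [w1, w2]
    unfold cv
    rw [hset, card_insert_of_notMem, card_insert_of_notMem]
    · simp [ht]
    · simp [h1, hx]

private theorem apb_cv (m : Fin n → Fin n) (inst : DecidablePred fun w => m w ≠ w) :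
    cv m = (@Finset.filter _ (fun w => m w ≠ w) inst univ).card := by
  unfold cv
  exact congrArg Finset.card (by ext w; simp only [mem_filter])

/-- Job APB. -/
theorem ap_iff : AugPath G m ↔ ∃ S k, AP G m S k := by
  constructor
  · rintro ⟨s, t, hst, hs, ht, h | ⟨z, x, hz, hsz, hd, hxt⟩⟩
    · exact ⟨{s, t}, 0, s, t, hst, hs, ht, Or.inl ⟨rfl, h, rfl⟩⟩
    · obtain ⟨L, hW⟩ := dd_walk hd
      exact ⟨_, _, s, t, hst, hs, ht, Or.inr ⟨z, x, L, _, rfl, hz, hsz, hW, hxt, rfl⟩⟩
  · rintro ⟨S, k, s, t, hst, hs, ht, ⟨-, h, -⟩ | ⟨z, x, L, d, -, hz, hsz, hW, hxt, -⟩⟩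
    · exact ⟨s, t, hst, hs, ht, Or.inl h⟩
    · exact ⟨s, t, hst, hs, ht, Or.inr ⟨z, x, hz, hsz, dd_lt_of_walk hW, hxt⟩⟩

/-- Job APB. -/
theorem mxl_iff : Mxl G m ↔ ¬ AugPath G m := by
  rw [ap_iff]
  unfold Mxl
  push Not
  rfl

/-- Job APB. (`berge`.) -/
theorem mxl_of_cv (hm : Mate G m) : Mxl G m ↔ ∀ ν, Mate G ν → cv ν ≤ cv m := by
  rw [mxl_iff]
  constructor
  · intro h ν hν
    by_contra hlt
    push Not at hlt
    rw [apb_cv m, apb_cv ν] at hlt
    exact h (berge hm hν hlt)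
  · intro h ha
    obtain ⟨ν, hν, hlt⟩ := aug_bigger hm ha
    have := h ν hν
    rw [apb_cv m, apb_cv ν] at this
    exact absurd hlt (not_lt.2 this)

/-- Job APB. (`isMaxMat_iff`.) -/
theorem isMaxMat_iff_mxl {M : SimpleGraph (Fin n)} (h : IsMat G M) : IsMaxMat G M ↔ Mxl G (mt M) := by
  rw [mxl_iff]
  exact isMaxMat_iff h (mt_mate h).1 (mt_mate h).2

/-- Job APB. (`two_edges`, `mt_mate`.) -/
theorem cv_mt {M : SimpleGraph (Fin n)} (h : IsMat G M) : cv (mt M) = 2 * M.edgeSet.ncard := by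
  rw [apb_cv (mt M)]
  exact (two_edges (mt_mate h).1 (mt_mate h).2).symm

/-- Job APB. -/
theorem lam_mem (h : ¬ Mxl G m) : ∃ S, AP G m S (lam G m) := by
  unfold Mxl at h
  push Not at h
  obtain ⟨S, k, hS⟩ := h
  exact Nat.sInf_mem (s := {k | ∃ S, AP G m S k}) ⟨k, S, hS⟩

/-- Job APB. -/
theorem lam_le (h : AP G m S k) : lam G m ≤ k := by
  exact Nat.sInf_le ⟨S, h⟩

/-- Job APB. (`ap_card`.) -/
theorem lam_lt (hm : Mate G m) (h : ¬ Mxl G m) : 2 * lam G m + 2 ≤ n := by
  obtain ⟨S, hS⟩ := lam_mem h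
  rw [← ap_card hm hS]
  exact (card_le_univ S).trans (by simp)

/-- Job APB. Augmentation: `swap_walk`/`swap_walk2` and `ba_join` (the case of an edge `{s, t}`: `ba_join`). Of `ba_join` one needs the exact number of covered vertices and that the other mates are not changed; `xs_join` in `AUG/Search.lean`
(private, can be copied) has this. -/
theorem ap_aug (hm : Mate G m) (h : AP G m S k) : ∃ ν, Mate G ν ∧ cv ν = cv m + 2 ∧ ∀ x, x ∉ S → ν x = m x := by
  obtain ⟨s, t, hst, hs, ht, ⟨-, hadj, rfl⟩ | ⟨z, x, L, d, -, hz, hsz, hW, hxt, rfl⟩⟩ := h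
  · obtain ⟨μ, h1, h2, h3⟩ := apb_join hm hs ht hadj
    refine ⟨μ, h1, h3, fun w hw => ?_⟩
    simp only [mem_insert, mem_singleton, not_or] at hw
    exact h2 w hw.1 hw.2
  · obtain ⟨ν, g1, g2, g3, g4, g5⟩ := swap_walk hm hs hz hsz hW
    have hcov := ba_covered hm.mm hz hW
    have htL : t ∉ x :: L := fun hm => hcov t hm ht
    have hνt : ν t = t := by
      rw [g4 t hst.symm htL (by rw [ht]; exact htL), ht]
    obtain ⟨μ, h1, h2, h3⟩ := apb_join g1 g2 hνt hxt
    refine ⟨μ, h1, ?_, fun w hw => ?_⟩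
    · rw [h3, apb_cv ν, apb_cv m]
      exact congrArg (· + 2) g5
    · simp only [mem_union, mem_insert, mem_singleton, List.mem_toFinset, not_or] at hw
      obtain ⟨⟨⟨hw1, hw2⟩, hw3⟩, hw4⟩ := hw
      have hw5 : m w ∉ x :: L := by
        intro hc
        apply hw4
        rw [List.mem_map]
        exact ⟨m w, hc, hm.invol w⟩
      have hwx : w ≠ x := by
        rintro rfl
        exact hw3 (by simp)
      rw [h2 w hwx hw2]
      exact g4 w hw1 hw3 hw5

private theorem apc_pos {Z : Fin n → Prop} {x : Fin n} (h : Z x) : rm m Z x = m x := by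
  unfold rm
  rw [if_pos h]

private theorem apc_neg {Z : Fin n → Prop} {x : Fin n} (h : ¬ Z x) : rm m Z x = x := by
  unfold rm
  rw [if_neg h]

private theorem apc_down (hZ : ∀ x, Z x → Z (m x)) {z : Fin n} {M : List (Fin n)} {d : ℕ}
    (h : WW m (one (EE G m)) z M d) (hM : ∀ w ∈ M, Z w) :
    WW (rm m Z) (one (EE (rG G Z) (rm m Z))) z M d := by
  induction h with
  | nil => exact WW.nil
  | @cons x y L s k hW hk h1 h2 ih =>
    have hx : Z x := hM x (by simp)
    have hy : Z y := hM y (by simp)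
    have ih' := ih fun w hw => hM w (List.mem_cons_of_mem _ hw)
    obtain ⟨⟨a1, a2, a3, a4⟩, a5⟩ := hk
    refine WW.cons ih' ⟨⟨⟨?_, hx, ?_⟩, ?_, ?_, ?_⟩, a5⟩ h1 ?_
    · rw [apc_pos hy]
      exact a1
    · rw [apc_pos hy]
      exact hZ y hy
    · rw [apc_pos hy, apc_pos hx]
      exact a2
    · rw [apc_pos hx]
      exact a3
    · rw [apc_pos hy, apc_pos (hZ y hy)]
      exact a4
    · rw [apc_pos hy]
      exact h2

private theorem apc_up (hZ : ∀ x, Z x → Z (m x)) {z : Fin n} {M : List (Fin n)} {d : ℕ}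
    (h : WW (rm m Z) (one (EE (rG G Z) (rm m Z))) z M d) (hz : Z z) :
    (∀ w ∈ M, Z w) ∧ WW m (one (EE G m)) z M d := by
  induction h with
  | nil => exact ⟨fun w hw => by rw [List.mem_singleton] at hw; rw [hw]; exact hz, WW.nil⟩
  | @cons x y L s k hW hk h1 h2 ih =>
    obtain ⟨ih1, ih2⟩ := ih
    obtain ⟨⟨⟨a0, a0', a1⟩, a2, a3, a4⟩, a5⟩ := hk
    have hx : Z x := a0'
    have hy : Z y := by
      by_contra hy
      rw [apc_neg hy] at a1
      exact hy a1
    rw [apc_pos hy] at a0 a1 a2 a4 h2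
    rw [apc_pos hx] at a2 a3
    rw [apc_pos a1] at a4
    refine ⟨fun w hw => ?_, WW.cons ih2 ⟨⟨a0, a2, a3, a4⟩, a5⟩ h1 h2⟩
    rcases List.mem_cons.1 hw with h3 | h3
    · rw [h3]
      exact hy
    · exact ih1 w h3

/-- Job APC. -/
theorem rm_mate (hm : Mate G m) (hZ : ∀ x, Z x → Z (m x)) : Mate (rG G Z) (rm m Z) := by
  constructor
  · intro x
    by_cases h : Z x
    · rw [apc_pos h, apc_pos (hZ x h), hm.invol]
    · rw [apc_neg h, apc_neg h]
  · intro x hx
    by_cases h : Z x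
    · rw [apc_pos h] at hx ⊢
      exact ⟨hm.adj x hx, h, hZ x h⟩
    · exact absurd (apc_neg h) hx

/-- Job APC. The walk is also a walk for `rm m Z` and `EE (rG G Z) (rm m Z)`, as all its vertices and their mates are in `Z`. -/
theorem ap_restrict (hm : Mate G m) (hZ : ∀ x, Z x → Z (m x)) (h : AP G m S k) (hS : ∀ x ∈ S, Z x) : AP (rG G Z) (rm m Z) S k := by
  obtain ⟨s, t, hst, hs, ht, ⟨hk, hadj, hSe⟩ | ⟨z, x, L, d, hk, hz, hsz, hW, hxt, hSe⟩⟩ := h
  · have h1 : Z s := hS s (by rw [hSe]; simp)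
    have h2 : Z t := hS t (by rw [hSe]; simp)
    exact ⟨s, t, hst, by rw [apc_pos h1]; exact hs, by rw [apc_pos h2]; exact ht,
      Or.inl ⟨hk, ⟨hadj, h1, h2⟩, hSe⟩⟩
  · have h1 : Z s := hS s (by rw [hSe]; simp)
    have h2 : Z t := hS t (by rw [hSe]; simp)
    have h3 : ∀ w ∈ x :: L, Z w := by
      intro w hw
      apply hS
      rw [hSe, mem_union, mem_union]
      exact Or.inl (Or.inr (List.mem_toFinset.2 hw))
    have h4 : Z z := h3 z hW.start_mem
    have h5 : Z x := h3 x (by simp)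
    have h6 : (x :: L).map (rm m Z) = (x :: L).map m :=
      List.map_congr_left fun w hw => apc_pos (h3 w hw)
    refine ⟨s, t, hst, by rw [apc_pos h1]; exact hs, by rw [apc_pos h2]; exact ht,
      Or.inr ⟨z, x, L, d, hk, ?_, ⟨?_, h1, ?_⟩, apc_down hZ hW h3, ⟨hxt, h5, h2⟩, ?_⟩⟩
    · rw [apc_pos h4]
      exact hz
    · rw [apc_pos h4]
      exact hsz
    · rw [apc_pos h4]
      exact hZ z h4
    · rw [h6]
      exact hSe

/-- Job APC. Vertices outside of `Z` are not covered by `rm m Z` and are isolated in `rG G Z`. -/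
theorem ap_extend (hm : Mate G m) (hZ : ∀ x, Z x → Z (m x)) (h : AP (rG G Z) (rm m Z) S k) : AP G m S k ∧ ∀ x ∈ S, Z x := by
  obtain ⟨s, t, hst, hs, ht, ⟨hk, hadj, hSe⟩ | ⟨z, x, L, d, hk, hz, hsz, hW, hxt, hSe⟩⟩ := h
  · obtain ⟨a1, h1, h2⟩ := hadj
    rw [apc_pos h1] at hs
    rw [apc_pos h2] at ht
    refine ⟨⟨s, t, hst, hs, ht, Or.inl ⟨hk, a1, hSe⟩⟩, fun w hw => ?_⟩
    rw [hSe, mem_insert, mem_singleton] at hw
    rcases hw with rfl | rfl
    · exact h1
    · exact h2
  · have h4 : Z z := by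
      by_contra h4
      exact hz (apc_neg h4)
    obtain ⟨h3, hW'⟩ := apc_up hZ hW h4
    obtain ⟨a1, h1, -⟩ := hsz
    obtain ⟨a2, h5, h2⟩ := hxt
    rw [apc_pos h1] at hs
    rw [apc_pos h2] at ht
    rw [apc_pos h4] at a1 hz
    have h6 : (x :: L).map (rm m Z) = (x :: L).map m :=
      List.map_congr_left fun w hw => apc_pos (h3 w hw)
    rw [h6] at hSe
    refine ⟨⟨s, t, hst, hs, ht, Or.inr ⟨z, x, L, d, hk, hz, a1, hW', a2, hSe⟩⟩, fun w hw => ?_⟩
    rw [hSe, mem_union, mem_union, mem_insert, mem_singleton, List.mem_toFinset, List.mem_toFinset] at hw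
    rcases hw with ((rfl | rfl) | hw) | hw
    · exact h1
    · exact h2
    · exact h3 w hw
    · rw [List.mem_map] at hw
      obtain ⟨v, hv, rfl⟩ := hw
      exact hZ v (h3 v hv)

end Pool.Agent.SUB
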