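import Pool.Agent.Lib.MP_0087d5_lc.SUB.VStar

/-!
# Shortest augmenting paths and chains of nodes

`θ = lam G m + 2` is the length of the shortest regular walks from the root to vertices `vc t`. Throughout `hm : Mate G m`, `hn : ¬ Mxl G m`.
Jobs CLA (`cla_*`, `nd_*`), CWA (`cla_walk`, `chain_walk`), F1 (`f1`), PSA (`pos_*`, `mirror`), F2A (`f2_pred`, `f2_chain`), F2B (`f2`).
-/

namespace Pool.Agent.SUB

open Relation Finset Pool.Agent.AUG

variable {n : ℕ} {G : SimpleGraph (Fin n)} {m : Fin n → Fin n} {S : Finset (Fin n)} {b b' c p q r s t x y : Fin n} {A A' X : List (Fin n)} {W W₁ W₂ : List (VS n)} {v w : VS n}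

/-- Job CLA. The class of a vertex of `G` consists of vertices of `G`: an edge of the threshold graph from `vv x` leads to some `vv y`; the pair `{vv x, vc x}` (`x` exposed) is not joined, since `ds (vv x) = 1` (`lv_exp`) and `ds (vc x) ≥ θ` (`ds_vc`). -/
theorem cla_vv (hm : Mate G m) (hn : ¬ Mxl G m) (h : Cn (ms m) (Es G m) (ds G m) (lam G m + 2) (vv b) v) : ∃ x, v = vv x ∧ Cla G m b x := by
  induction h with
  | refl => exact ⟨b, rfl, ReflTransGen.refl⟩
  | @tail u v _ huv ih =>
    obtain ⟨x, rfl, hx⟩ := ih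
    have huv' := huv
    rcases huv with ⟨hE, hle⟩ | ⟨hv, hle⟩
    · match v, hE with
      | Sum.inl (Sum.inl y), _ => exact ⟨y, rfl, hx.tail huv'⟩
      | Sum.inl (Sum.inr y), hE => exact absurd hE (by simp [Es])
      | Sum.inr c, hE => exact absurd hE (by cases c <;> simp [Es])
    · by_cases hxe : m x = x
      · exfalso
        rw [ms_vv_exp hxe] at hv
        have h1 : ds G m (vv x) = 1 := lv_exp hm hxe
        have h2 : lam G m + 2 ≤ ds G m (vc x) := ds_vc hm hxe hn
        rw [hv] at hle
        omega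
      · rw [ms_vv_cov hxe] at hv
        subst hv
        exact ⟨m x, rfl, hx.tail huv'⟩

private theorem cla_th (hm : Mate G m) (hn : ¬ Mxl G m) : lam G m + 2 < ZZ (VS n) := by
  have := th_lt hm hn
  omega

private theorem cla_dist (hm : Mate G m) (hn : ¬ Mxl G m) {v w : VS n} (h : Cn (ms m) (Es G m) (ds G m) (lam G m + 2) v w)
    (hv : Al (ms m) (ds G m) (lam G m + 2) v) (hw : Al (ms m) (ds G m) (lam G m + 2) w) : v = w :=
  dist_UU (vs_mm hm) ms_root (cla_th hm hn) v w h hv hw

private theorem cla_inj {x y : Fin n} (h : (vv x : VS n) = vv y) : x = y :=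
  Sum.inl_injective (Sum.inl_injective h)

/-- Job CLA. -/
theorem cla_refl : Cla G m b b := ReflTransGen.refl

/-- Job CLA. (`dist_UU`, `th_lt`, `Cn.symm`.) -/
theorem cla_uniq (hm : Mate G m) (hn : ¬ Mxl G m) (hb : Nd G m b) (hb' : Nd G m b') (h : Cla G m b x) (h' : Cla G m b' x) : b = b' :=
  cla_inj (cla_dist hm hn (h.trans (Cn.symm (vs_mm hm) h')) hb.2.1 hb'.2.1)

/-- Job CLA. An alive vertex is in the class of a node only if it is the node. -/
theorem cla_alive (hm : Mate G m) (hn : ¬ Mxl G m) (hb : Nd G m b) (hx : Al (ms m) (ds G m) (lam G m + 2) (vv x)) (h : Cla G m b x) : x = b :=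
  (cla_inj (cla_dist hm hn h hb.2.1 hx)).symm

/-- Job CLA. If `x` is in the class of `b`, `x ≠ b`, then so is its mate; `x` is covered, absorbed, and higher than `b` (`base_lt`). -/
theorem cla_mate (hm : Mate G m) (hn : ¬ Mxl G m) (hb : Nd G m b) (h : Cla G m b x) (hx : x ≠ b) :
    Cla G m b (m x) ∧ m x ≠ x ∧ ¬ Al (ms m) (ds G m) (lam G m + 2) (vv x) ∧ lv G m b < lv G m x := by
  have hna : ¬ Al (ms m) (ds G m) (lam G m + 2) (vv x) := fun ha => hx (cla_alive hm hn hb ha h)
  have hle : ds G m (vv x) + ds G m (ms m (vv x)) ≤ lam G m + 2 := not_lt.1 hna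
  have hcov : m x ≠ x := by
    intro hxe
    rw [ms_vv_exp hxe] at hle
    have h1 : ds G m (vv x) = 1 := lv_exp hm hxe
    have h2 : lam G m + 2 ≤ ds G m (vc x) := ds_vc hm hxe hn
    omega
  refine ⟨?_, hcov, hna, ?_⟩
  · refine ReflTransGen.tail h (Or.inr ⟨(ms_vv_cov hcov).symm, ?_⟩)
    rw [← ms_vv_cov hcov]
    exact hle
  · exact (base_lt (vs_mm hm) ms_root (cla_th hm hn) hle hb.2.1 h).1

/-- Job CLA. Not both vertices of a matched pair are nodes. -/
theorem nd_not_both (hm : Mate G m) (hb : Nd G m b) (hb' : Nd G m (m b)) : m b = b := by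
  have h1 := hb.2.2
  have h2 := hb'.2.2
  rw [hm.invol] at h2
  by_contra hne
  rcases h1 with h1 | h1 | ⟨h1, h1'⟩
  · exact hne h1
  · rcases h2 with h2 | h2 | ⟨h2, _⟩
    · exact hne h2.symm
    · omega
    · omega
  · rcases h2 with h2 | h2 | ⟨_, h2'⟩
    · exact hne h2.symm
    · omega
    · exact lt_asymm h1' h2'

/-- Job CLA. Exposed vertices are nodes. -/
theorem nd_exp (hm : Mate G m) (hn : ¬ Mxl G m) (h : m x = x) : Nd G m x := by
  have h1 : lv G m x = 1 := lv_exp hm h
  have h2 : lam G m + 2 ≤ ds G m (vc x) := ds_vc hm h hn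
  refine ⟨by omega, ?_, Or.inl h⟩
  show lam G m + 2 < ds G m (vv x) + ds G m (ms m (vv x))
  rw [ms_vv_exp h]
  have h3 : ds G m (vv x) = 1 := h1
  omega

/-- Job CLA. The classes together with the mates are disjoint for different nodes. (`cla_uniq`, `cla_mate`, `cla_alive`, `nd_not_both`.) -/
theorem zone_disj (hm : Mate G m) (hn : ¬ Mxl G m) (hb : Nd G m b) (hb' : Nd G m b') (h : Cla G m b x ∨ Cla G m b (m x)) (h' : Cla G m b' x ∨ Cla G m b' (m x)) : b = b' := by
  have key : ∀ {b b' : Fin n}, Nd G m b → Nd G m b' → ∀ {x : Fin n}, Cla G m b x → Cla G m b' (m x) → b = b' := by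
    intro b b' hb hb' x h h'
    by_cases hxb : x = b
    · by_cases hxb' : m x = b'
      · subst hxb
        subst hxb'
        exact (nd_not_both hm hb hb').symm
      · have h1 := (cla_mate hm hn hb' h' hxb').1
        rw [hm.invol] at h1
        exact cla_uniq hm hn hb hb' h h1
    · exact cla_uniq hm hn hb hb' (cla_mate hm hn hb h hxb).1 h'
  rcases h with h | h
  · rcases h' with h' | h'
    · exact cla_uniq hm hn hb hb' h h'
    · exact key hb hb' h h'
  · rcases h' with h' | h'
    · exact (key hb' hb h' h).symm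
    · exact cla_uniq hm hn hb hb' h h'

/-- Job CLA. -/
theorem up_lv (hm : Mate G m) (hn : ¬ Mxl G m) (hb : Nd G m b) (h : Upp G m b c) : lv G m b < lv G m c := by
  obtain ⟨x, hx, _, _, hlv⟩ := h
  by_cases hxb : x = b
  · subst hxb
    omega
  · have := (cla_mate hm hn hb hx hxb).2.2.2
    omega

/-- Job CWA. A vertex in the class of `b` is reached from `b` by a walk inside the class. (`x = b`: trivial. Otherwise `x` is absorbed, take a shortest walk from `rr` to `vv x` (`dd_walk`) and `pp_root` with `θ = lam + 2`; the base is `vv b` by `dist_UU`; `cla_vv`.) -/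
theorem cla_walk (hm : Mate G m) (hn : ¬ Mxl G m) (hb : Nd G m b) (h : Cla G m b x) :
    ∃ (L : List (Fin n)) (s₁ : ℕ), WW (ms m) (one (Es G m)) (vv b) ((x :: L).map vv) s₁ ∧ lv G m x = lv G m b + s₁ ∧ ∀ y ∈ x :: L, Cla G m b y := by
  by_cases hxb : x = b
  · subst hxb
    refine ⟨[], 0, WW.nil, rfl, ?_⟩
    intro y hy
    rw [List.mem_singleton] at hy
    rw [hy]
    exact ReflTransGen.refl
  · obtain ⟨_, hcov, hna, _⟩ := cla_mate hm hn hb h hxb
    have hle : ds G m (vv x) + ds G m (ms m (vv x)) ≤ lam G m + 2 := not_lt.1 hna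
    have hth := cla_th hm hn
    obtain ⟨L, hL⟩ := dd_walk (m := ms m) (E := Es G m) (u := (rr : VS n)) (x := vv x) (by
      show ds G m (vv x) < ZZ (VS n)
      omega)
    obtain ⟨L₁, b₀, L₂, s₁, s₂, e1, e2, e3, e4, e5, e6, e7, e8, _, e10⟩ := pp_root (vs_mm hm) ms_root hth hL hle
    obtain ⟨a, L₁', rfl⟩ := List.exists_cons_of_ne_nil e2
    rw [List.cons_append, List.cons.injEq] at e1
    obtain ⟨rfl, _⟩ := e1
    have hb₀ : b₀ = vv b := by
      have h1 := e10 (vv x) List.mem_cons_self
      have h2 : Cn (ms m) (Es G m) (ds G m) (lam G m + 2) (vv b) b₀ := ReflTransGen.trans h (Cn.symm (vs_mm hm) h1)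
      exact (cla_dist hm hn h2 hb.2.1 e3).symm
    subst hb₀
    have hlist : ∀ l : List (VS n), (∀ v ∈ l, ∃ y, v = vv y ∧ Cla G m b y) → ∃ l' : List (Fin n), l = l'.map vv ∧ ∀ y ∈ l', Cla G m b y := by
      intro l
      induction l with
      | nil => exact fun _ => ⟨[], rfl, by simp⟩
      | cons v l ih =>
        intro hl
        obtain ⟨l', h1, h2⟩ := ih fun w hw => hl w (List.mem_cons_of_mem _ hw)
        obtain ⟨y, rfl, hy⟩ := hl v List.mem_cons_self
        refine ⟨y :: l', by rw [h1]; rfl, ?_⟩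
        intro z hz
        rcases List.mem_cons.1 hz with rfl | hz
        · exact hy
        · exact h2 z hz
    obtain ⟨l', hl1, hl2⟩ := hlist (L₁' ++ [vv b]) (by
      intro v hv
      rcases List.mem_append.1 hv with hv | hv
      · exact cla_vv hm hn (e10 v (List.mem_cons_of_mem _ hv))
      · rw [List.mem_singleton] at hv
        exact ⟨b, hv, ReflTransGen.refl⟩)
    refine ⟨l', s₁, ?_, ?_, ?_⟩
    · rw [List.map_cons, ← hl1, ← List.cons_append]
      exact e4
    · show dd (ms m) (Es G m) rr (vv x) = dd (ms m) (Es G m) rr (vv b) + s₁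
      rw [e6, e7]
    · intro y hy
      rcases List.mem_cons.1 hy with rfl | hy
      · exact h
      · exact hl2 y hy

private theorem cwa_inj {x y : Fin n} (h : (vv x : VS n) = vv y) : x = y :=
  Sum.inl_injective (Sum.inl_injective h)

private theorem cwa_ms_rr (x : Fin n) : ms m (vv x) ≠ rr := by
  by_cases h : m x = x
  · rw [ms_vv_exp h]
    simp
  · rw [ms_vv_cov h]
    simp

private theorem cwa_ms_vv {x y : Fin n} (h : ms m (vv x) = vv y) : m x = y := by
  by_cases hx : m x = x
  · rw [ms_vv_exp hx] at h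
    simp at h
  · rw [ms_vv_cov hx] at h
    exact cwa_inj h

/-- Job CWA. Induction on the chain, for all `x`: the walk for the chain up to the previous node `b'` and a vertex `x'` of its class with `G.Adj x' (m c)`, `x' ≠ c`, `lv x' + 1 = lv c`, then the arc `vv x' → vv c` (`Es G m (vv x') (ms m (vv c))`; `c` is covered since `lv c = lv x' + 1 ≥ 2`), then
the walk inside the class of `c` (`cla_walk`); `WW.append_arc`. The vertices and their mates are disjoint by `zone_disj` and `nd_not_both` (the mates of the members of the class of `c` are in the class or the mate of `c`). -/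
theorem chain_walk (hm : Mate G m) (hn : ¬ Mxl G m) (hr : m r = r) (hA : Chn (Upp G m) r (p :: A)) (hN : ∀ b ∈ p :: A, Nd G m b) (hnd : (p :: A).Nodup)
    (hx : Cla G m p x) :
    ∃ W, WW (ms m) (one (Es G m)) rr (vv x :: W) (lv G m x) ∧ ∀ v ∈ vv x :: W, v = rr ∨ ∃ b ∈ p :: A, ∃ y, v = vv y ∧ Cla G m b y := by
  have key : ∀ L : List (Fin n), Chn (Upp G m) r L → ∀ p A, L = p :: A → (∀ b ∈ p :: A, Nd G m b) → (p :: A).Nodup → ∀ x, Cla G m p x →
      ∃ W, WW (ms m) (one (Es G m)) rr (vv x :: W) (lv G m x) ∧ ∀ v ∈ vv x :: W, v = rr ∨ ∃ b ∈ p :: A, ∃ y, v = vv y ∧ Cla G m b y := by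
    intro L hL
    induction hL with
    | nil =>
      intro p A hpA hN _ x hx
      rw [List.cons.injEq] at hpA
      obtain ⟨rfl, rfl⟩ := hpA
      obtain ⟨L₁, s₁, h1, h2, h3⟩ := cla_walk hm hn (hN r List.mem_cons_self) hx
      have h4 : one (Es G m) rr (ms m (vv r)) 1 := by
        rw [ms_vv_exp hr]
        exact ⟨hr, rfl⟩
      have h5 := WW.append_arc (WW.nil (m := ms m) (E := one (Es G m)) (u := (rr : VS n))) h4 h1 (by
        intro w hw
        obtain ⟨y, _, rfl⟩ := List.mem_map.1 hw
        constructor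
        · simp
        · rw [List.mem_singleton]
          exact cwa_ms_rr y)
      have h6 : 0 + 1 + s₁ = lv G m x := by
        rw [h2, lv_exp hm hr]
      rw [h6, List.map_cons, List.cons_append] at h5
      refine ⟨L₁.map vv ++ [rr], h5, ?_⟩
      intro v hv
      have hv' : v ∈ (x :: L₁).map vv ++ [rr] := hv
      rcases List.mem_append.1 hv' with hv | hv
      · obtain ⟨y, hy, rfl⟩ := List.mem_map.1 hv
        exact Or.inr ⟨r, List.mem_cons_self, y, rfl, h3 y hy⟩
      · exact Or.inl (List.mem_singleton.1 hv)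
    | @cons b' c L hL hU ih =>
      intro p A hpA hN hnd x hx
      rw [List.cons.injEq] at hpA
      obtain ⟨rfl, rfl⟩ := hpA
      obtain ⟨x', hx', hadj, hne, hlv⟩ := hU
      rw [List.nodup_cons] at hnd
      obtain ⟨W', hW', hmem⟩ := ih b' L rfl (fun b hb => hN b (List.mem_cons_of_mem _ hb)) hnd.2 x' hx'
      obtain ⟨L₁, s₁, h1, h2, h3⟩ := cla_walk hm hn (hN c List.mem_cons_self) hx
      have hcov : m c ≠ c := by
        intro hc
        have h4 := lv_exp hm hc
        have h5 := lv_pos (G := G) (x := x') hm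
        omega
      have h4 : one (Es G m) (vv x') (ms m (vv c)) 1 := by
        rw [ms_vv_cov hcov]
        refine ⟨⟨hadj, ?_⟩, rfl⟩
        intro he
        apply hne
        have := congrArg m he
        rwa [hm.invol, hm.invol] at this
      have h5 := WW.append_arc hW' h4 h1 (by
        intro w hw
        obtain ⟨y, hy, rfl⟩ := List.mem_map.1 hw
        have hcy := h3 y hy
        constructor
        · intro hc
          rcases hmem _ hc with h | ⟨b, hb, y', hy', hby⟩
          · simp at h
          · have e := cwa_inj hy'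
            subst e
            have := cla_uniq hm hn (hN c List.mem_cons_self) (hN b (List.mem_cons_of_mem _ hb)) hcy hby
            exact hnd.1 (this ▸ hb)
        · intro hc
          rcases hmem _ hc with h | ⟨b, hb, y', hy', hby⟩
          · exact cwa_ms_rr y h
          · have e := cwa_ms_vv hy'
            subst e
            have := zone_disj hm hn (hN c List.mem_cons_self) (hN b (List.mem_cons_of_mem _ hb)) (Or.inl hcy) (Or.inr hby)
            exact hnd.1 (this ▸ hb))
      have h6 : lv G m x' + 1 + s₁ = lv G m x := by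
        rw [h2, hlv]
      rw [h6, List.map_cons, List.cons_append] at h5
      refine ⟨L₁.map vv ++ vv x' :: W', h5, ?_⟩
      intro v hv
      have hv' : v ∈ (x :: L₁).map vv ++ vv x' :: W' := hv
      rcases List.mem_append.1 hv' with hv | hv
      · obtain ⟨y, hy, rfl⟩ := List.mem_map.1 hv
        exact Or.inr ⟨c, List.mem_cons_self, y, rfl, h3 y hy⟩
      · rcases hmem v hv with h | ⟨b, hb, y, hy⟩
        · exact Or.inl h
        · exact Or.inr ⟨b, List.mem_cons_of_mem _ hb, y, hy⟩
  exact key _ hA p A rfl hN hnd x hx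

/-- Job F1. Two disjoint chains with a bridge give a shortest augmenting path. Let `x`, `y` be the ends of the bridge; walks `X` from `rr` to `vv x` and `Y` from `rr` to `vv y` (`chain_walk`). `Y` without `rr` is a walk from `vv t` to `vv y` of weight `lv y - 1`; its mirror image (`WW.mirror`, `vs_mm`, `MM.mt`)
leads from `ms m (vv y)` to `ms m (vv t) = vc t`. The arc `vv x → ms m (vv y)` exists since `Es G m (vv x) (vv y)`. `WW.append_arc`: a walk from `rr` to `vc t` of weight `lv x + 1 + (lv y - 1) = lam + 2`. Disjointness by `zone_disj`. Then `vs_ap1`; the members of `S` are in the classes or mates of members. -/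
theorem f1 (hm : Mate G m) (hn : ¬ Mxl G m) (hr : m r = r) (ht : m t = t) (hA : Chn (Upp G m) r (p :: A)) (hB : Chn (Upp G m) t (q :: A'))
    (hN : ∀ b ∈ (p :: A) ++ (q :: A'), Nd G m b) (hnd : ((p :: A) ++ (q :: A')).Nodup) (hpq : Brr G m p q) :
    ∃ S, AP G m S (lam G m) ∧ ∀ x ∈ S, ∃ b ∈ (p :: A) ++ (q :: A'), Cla G m b x ∨ Cla G m b (m x) := by
  obtain ⟨x, y, hx, hy, hadj, hmxy, hsum⟩ := hpq
  rw [List.nodup_append] at hnd
  obtain ⟨hnd1, hnd2, hnd3⟩ := hnd
  have hN1 : ∀ b ∈ p :: A, Nd G m b := fun b hb => hN b (List.mem_append_left _ hb)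
  have hN2 : ∀ b ∈ q :: A', Nd G m b := fun b hb => hN b (List.mem_append_right _ hb)
  have hdisj : ∀ {b b' : Fin n}, b ∈ p :: A → b' ∈ q :: A' → ∀ {z : Fin n}, (Cla G m b z ∨ Cla G m b (m z)) → (Cla G m b' z ∨ Cla G m b' (m z)) → False := by
    intro b b' hb hb' z h h'
    exact hnd3 b hb b' hb' (zone_disj hm hn (hN1 b hb) (hN2 b' hb') h h')
  obtain ⟨X, hX, hXm⟩ := chain_walk hm hn hr hA hN1 hnd1 hx
  obtain ⟨Y, hY, hYm⟩ := chain_walk hm hn ht hB hN2 hnd2 hy
  -- the walk to `y` without the root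
  have hstr : ∃ s Z, m s = s ∧ vv y :: Y = Z ++ [vv s, rr] := by
    rcases vs_struct hm hY with ⟨h, _⟩ | ⟨s, hs, h | h | h | h⟩
    · rw [List.cons.injEq] at h
      exact absurd h.1 (by simp)
    · exact ⟨s, [], hs, h.1⟩
    · obtain ⟨z, x', L, d, _, _, _, h4, _⟩ := h
      exact ⟨s, (x' :: L).map vv, hs, h4⟩
    · obtain ⟨t', _, _, _, h4, _⟩ := h
      rw [List.cons.injEq] at h4
      exact absurd h4.1 (by simp)
    · obtain ⟨t', z, x', L, d, _, _, _, _, _, _, h4, _⟩ := h
      rw [List.cons.injEq] at h4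
      exact absurd h4.1 (by simp)
  obtain ⟨s, Z, hs, hZ⟩ := hstr
  have hYnd := hY.nodup
  rw [hZ] at hY hYm hYnd
  obtain ⟨s₁, s₂, hw1, hw2, hw3⟩ := WW.split (L₁ := Z) (b := vv s) (L₂ := [rr]) hY
  have hs2 : s₂ = 1 := by
    have := hw2.length
    simp at this
    omega
  -- the walk starts with `vv y`
  obtain ⟨L', hL'⟩ : ∃ L', Z ++ [vv s] = vv y :: L' := by
    cases Z with
    | nil =>
      rw [List.nil_append, List.cons.injEq] at hZ
      exact ⟨[], by rw [List.nil_append, ← hZ.1]⟩
    | cons z Z' =>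
      rw [List.cons_append, List.cons.injEq] at hZ
      exact ⟨Z' ++ [vv s], by rw [List.cons_append, ← hZ.1]⟩
  have hmem : ∀ v ∈ Z ++ [vv s], ∃ b ∈ q :: A', ∃ y', v = vv y' ∧ Cla G m b y' := by
    intro v hv
    have hv' : v ∈ Z ++ [vv s, rr] := by
      rcases List.mem_append.1 hv with h | h
      · exact List.mem_append_left _ h
      · exact List.mem_append_right _ (List.mem_cons.2 (Or.inl (List.mem_singleton.1 h)))
    rcases hYm v hv' with h | h
    · exfalso
      have h1 : (Z ++ [vv s]) ++ [rr] = Z ++ [vv s, rr] := by simp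
      rw [← h1, List.nodup_append] at hYnd
      exact hYnd.2.2 v hv rr (by simp) h
    · exact h
  rw [hL'] at hw1
  have hw4 := WW.mirror (vs_mm hm).mt hw1
  rw [← hL'] at hw4
  have hmemr : ∀ w ∈ ((Z ++ [vv s]).map (ms m)).reverse, ∃ b ∈ q :: A', ∃ y', w = ms m (vv y') ∧ Cla G m b y' := by
    intro w hw
    rw [List.mem_reverse] at hw
    obtain ⟨v, hv, rfl⟩ := List.mem_map.1 hw
    obtain ⟨b, hb, y', rfl, hy'⟩ := hmem v hv
    exact ⟨b, hb, y', rfl, hy'⟩
  have harc : one (Es G m) (vv x) (ms m (ms m (vv y))) 1 := by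
    rw [(vs_mm hm).invol]
    exact ⟨⟨hadj, hmxy⟩, rfl⟩
  have hwalk := WW.append_arc hX harc hw4 (by
    intro w hw
    obtain ⟨b, hb, y', rfl, hy'⟩ := hmemr w hw
    constructor
    · intro hc
      rcases hXm _ hc with h | ⟨b', hb', y'', hy'', hby⟩
      · exact cwa_ms_rr y' h
      · have e := cwa_ms_vv hy''
        subst e
        exact hdisj hb' hb (Or.inr hby) (Or.inl hy')
    · rw [(vs_mm hm).invol]
      intro hc
      rcases hXm _ hc with h | ⟨b', hb', y'', hy'', hby⟩
      · simp at h
      · have e := cwa_inj hy''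
        subst e
        exact hdisj hb' hb (Or.inl hby) (Or.inl hy'))
  have hlen : lv G m x + 1 + s₁ = lam G m + 2 := by
    omega
  rw [hlen] at hwalk
  have hrev : ((Z ++ [vv s]).map (ms m)).reverse = vc s :: (Z.map (ms m)).reverse := by
    rw [List.map_append, List.map_singleton, ms_vv_exp hs, List.reverse_append, List.reverse_singleton, List.singleton_append]
  have hwalk' : WW (ms m) (one (Es G m)) rr (vc s :: ((Z.map (ms m)).reverse ++ vv x :: X)) (lam G m + 2) := by
    rw [← List.cons_append, ← hrev]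
    exact hwalk
  obtain ⟨S, k, hk, hS, hSm⟩ := vs_ap1 hm hwalk'
  have hk' : k = lam G m := by omega
  subst hk'
  refine ⟨S, hS, ?_⟩
  intro z hz
  rw [hSm z, ← List.cons_append, ← hrev] at hz
  rcases hz with hz | hz
  · rcases List.mem_append.1 hz with hz | hz
    · obtain ⟨b, hb, y', he, hy'⟩ := hmemr _ hz
      have e := cwa_ms_vv he.symm
      refine ⟨b, List.mem_append_right _ hb, Or.inr ?_⟩
      rw [← e, hm.invol]
      exact hy'
    · rcases hXm _ hz with h | ⟨b, hb, y', he, hy'⟩
      · exact absurd h (by simp)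
      · have e := cwa_inj he
        subst e
        exact ⟨b, List.mem_append_left _ hb, Or.inl hy'⟩
  · rcases List.mem_append.1 hz with hz | hz
    · obtain ⟨b, hb, y', he, hy'⟩ := hmemr _ hz
      have e : (vv z : VS n) = vv y' := by
        have := congrArg (ms m) he
        rwa [(vs_mm hm).invol, (vs_mm hm).invol] at this
      have e' := cwa_inj e
      subst e'
      exact ⟨b, List.mem_append_right _ hb, Or.inl hy'⟩
    · rcases hXm _ hz with h | ⟨b, hb, y', he, hy'⟩
      · exact absurd h (cwa_ms_rr z)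
      · have e := cwa_ms_vv he
        refine ⟨b, List.mem_append_left _ hb, Or.inr ?_⟩
        rw [e]
        exact hy'

/-- Job PSA. The last two entries of a walk to some `vc t` (`vs_struct`). -/
theorem vc_last (hm : Mate G m) (hW : WW (ms m) (one (Es G m)) rr (vc t :: W) (lam G m + 2)) : ∃ X r, m r = r ∧ m t = t ∧ W = X ++ [vv r, rr] := by
  rcases vs_struct hm hW with ⟨h, -⟩ | ⟨s, hs, ⟨h, -⟩ | ⟨z, x, L, d, -, -, -, h, -⟩ |
    ⟨t', ht, -, -, h, -⟩ | ⟨t', z, x, L, d, ht, -, -, -, -, -, h, -⟩⟩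
  · simp at h
  · simp at h
  · simp at h
  · simp only [List.cons.injEq, Sum.inl.injEq, Sum.inr.injEq] at h
    obtain ⟨rfl, h⟩ := h
    exact ⟨[], s, hs, ht, h⟩
  · simp only [List.cons.injEq, Sum.inl.injEq, Sum.inr.injEq] at h
    obtain ⟨rfl, h⟩ := h
    exact ⟨_, s, hs, ht, h⟩

/-- Job PSA. The walk in the other direction (`WW.mirror_part` and the arc `rr → vv t = ms m (vc t)`). -/
theorem mirror (hm : Mate G m) {X : List (VS n)} (hW : WW (ms m) (one (Es G m)) rr (vc t :: X ++ [vv r, rr]) (lam G m + 2)) :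
    WW (ms m) (one (Es G m)) rr (((vc t :: X ++ [vv r]).map (ms m)).reverse ++ [rr]) (lam G m + 2) := by
  have hM := vs_mm (G := G) hm
  have hroot : ms m (rr : VS n) ≠ rr := ms_root
  have ht : m t = t := by
    obtain ⟨_, _, _, h, _⟩ := vc_last (t := t) (W := X ++ [vv r, rr]) hm hW
    exact h
  have e0 : vc t :: X ++ [vv r, rr] = (vc t :: X) ++ vv r :: [rr] := rfl
  have hnd := hW.nodup
  have hmate : ms m rr ∉ vc t :: X ++ [vv r, rr] := WW.mate_not_mem hM.mt hroot hW (by simp)
  rw [e0] at hW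
  obtain ⟨s₁, s₂, h1, h2, h3⟩ := hW.split
  have h4 := h2.length
  simp only [List.length_cons, List.length_nil] at h4
  have h5 : WW (ms m) (one (Es G m)) (vv r) (vc t :: (X ++ [vv r])) s₁ := h1
  have h6 := h5.mirror hM.mt
  have h7 : one (Es G m) rr (ms m (ms m (vc t))) 1 := by
    rw [hM.invol]
    exact ⟨ht, rfl⟩
  have h8 := WW.append_arc (WW.nil (m := ms m) (E := one (Es G m)) (u := rr)) h7 h6 (by
    intro w hw
    rw [List.mem_reverse, List.mem_map] at hw
    obtain ⟨v, hv, rfl⟩ := hw
    have hv' : v ∈ vc t :: X ++ [vv r] := hv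
    have e1 : vc t :: X ++ [vv r, rr] = (vc t :: X ++ [vv r]) ++ [rr] := by simp
    constructor
    · rw [List.mem_singleton]
      intro h9
      apply hmate
      have h10 := congrArg (ms m) h9
      rw [hM.invol] at h10
      rw [← h10, e1]
      exact List.mem_append_left _ hv'
    · rw [List.mem_singleton, hM.invol]
      intro h9
      rw [e1, List.nodup_append] at hnd
      exact hnd.2.2 v hv' rr (by simp) h9)
  have e2 : 0 + 1 + s₁ = lam G m + 2 := by omega
  rw [e2] at h8
  exact h8

/-- Job PSA. The walk without its start and the lengths. -/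
private theorem psa_front (hm : Mate G m) (hW : WW (ms m) (one (Es G m)) rr (vc t :: W) (lam G m + 2)) (hs : vc t :: W = W₁ ++ v :: W₂) (h2 : W₂ ≠ []) :
    ∃ X r W₂', W = X ++ [vv r, rr] ∧ vc t :: X ++ [vv r] = W₁ ++ v :: W₂' ∧ W₂ = W₂' ++ [rr] := by
  obtain ⟨X, r, -, -, rfl⟩ := vc_last hm hW
  refine ⟨X, r, W₂.dropLast, rfl, ?_⟩
  have e1 : W₂ = W₂.dropLast ++ [W₂.getLast h2] := (List.dropLast_append_getLast h2).symm
  have e2 : (vc t :: X ++ [vv r]) ++ [rr] = (W₁ ++ v :: W₂.dropLast) ++ [W₂.getLast h2] := by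
    have e3 : (vc t :: X ++ [vv r]) ++ [rr] = vc t :: (X ++ [vv r, rr]) := by simp
    rw [e3, hs]
    conv_lhs => rw [e1]
    simp
  obtain ⟨e4, e5⟩ := List.append_inj' e2 rfl
  refine ⟨e4, ?_⟩
  have e6 : rr = W₂.getLast h2 := by simpa using e5
  rw [e6]
  exact e1

/-- Job PSA. Positions on a shortest walk. (The initial part of the walk and of the mirror image.) -/
theorem pos_le (hm : Mate G m) (hW : WW (ms m) (one (Es G m)) rr (vc t :: W) (lam G m + 2)) (hs : vc t :: W = W₁ ++ v :: W₂) (h2 : W₂ ≠ []) :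
    ds G m v ≤ W₂.length ∧ ds G m (ms m v) + W₂.length ≤ lam G m + 3 := by
  obtain ⟨X, r, W₂', rfl, h3, h4⟩ := psa_front hm hW hs h2
  have hW0 := hW
  rw [hs] at hW
  have hlen := hW.length
  rw [List.length_append, List.length_cons] at hlen
  obtain ⟨s₁, s₂, k1, k2, k3⟩ := hW.split
  have k4 := dd_le_of_walk k2
  have k5 := k2.length
  rw [List.length_cons] at k5
  have hmir := mirror (t := t) (r := r) (X := X) hm hW0
  rw [h3, List.map_append, List.map_cons, List.reverse_append, List.reverse_cons, List.append_assoc,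
    List.append_assoc] at hmir
  have e : (W₂'.map (ms m)).reverse ++ ([ms m v] ++ ((W₁.map (ms m)).reverse ++ [rr])) =
      (W₂'.map (ms m)).reverse ++ ms m v :: ((W₁.map (ms m)).reverse ++ [rr]) := rfl
  rw [e] at hmir
  obtain ⟨s₃, s₄, l1, l2, l3⟩ := hmir.split
  have l4 := dd_le_of_walk l2
  have l5 := l2.length
  rw [List.length_cons, List.length_append, List.length_reverse, List.length_map,
    List.length_singleton] at l5
  constructor
  · have : ds G m v ≤ s₂ := k4
    omega
  · have : ds G m (ms m v) ≤ s₄ := l4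
    omega

/-- Job PSA. -/
theorem pos_alive (hm : Mate G m) (hW : WW (ms m) (one (Es G m)) rr (vc t :: W) (lam G m + 2)) (hs : vc t :: W = W₁ ++ v :: W₂) (h2 : W₂ ≠ [])
    (hv : Al (ms m) (ds G m) (lam G m + 2) v) : ds G m v = W₂.length ∧ ds G m (ms m v) + W₂.length = lam G m + 3 := by
  obtain ⟨h3, h4⟩ := pos_le hm hW hs h2
  have h5 : lam G m + 2 < ds G m v + ds G m (ms m v) := hv
  constructor <;> omega

/-- Job F2A. The end of the list. -/
private theorem f2a_suffix {α : Type*} {P : List α} {a c u : α} {W₁ W₂ : List α} (hs : P ++ [a, c] = W₁ ++ u :: W₂) (hu : u ≠ c) :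
    (W₂ = [c] ∧ u = a) ∨ ∃ v W₃, W₂ = v :: W₃ ∧ W₃ ≠ [] := by
  cases W₂ with
  | nil =>
    exfalso
    have h1 : (P ++ [a]) ++ [c] = W₁ ++ [u] := by
      rw [List.append_assoc]
      exact hs
    have h2 := List.append_inj_right' h1 rfl
    rw [List.cons.injEq] at h2
    exact hu h2.1.symm
  | cons v W₃ =>
    by_cases h3 : W₃ = []
    · left
      subst h3
      have h2 := List.append_inj_right' hs rfl
      rw [List.cons.injEq, List.cons.injEq] at h2
      exact ⟨by rw [h2.2.1], h2.1.symm⟩
    · right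
      exact ⟨v, W₃, rfl, h3⟩

/-- Job F2A. The predecessor `v` of a node `b` on a shortest walk: `ds v = (position of b) - 1`. Otherwise there is a shorter walk `Y` to `v` (`dd_walk`), of length `k < j - 1` where `j = lv b` is the position of `b` (`pos_alive`). `vv b ∉ Y` and `ms m (vv b) ∉ Y`
(by `dd_prefix` a vertex on `Y` has distance at most `k`, but `ds (vv b) = j`, and `ds (ms m (vv b)) = lam + 3 - j ≥ j` because `b` is a node), so `Y` can be extended by the arc `v → vv b` (`WW.edge`), and `ds (vv b) ≤ k + 1 < j`. -/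
theorem f2_pred (hm : Mate G m) (hn : ¬ Mxl G m) (hW : WW (ms m) (one (Es G m)) rr (vc t :: W) (lam G m + 2)) (hs : vc t :: W = W₁ ++ vv b :: v :: W₂) (hb : Nd G m b) :
    ds G m v = W₂.length := by
  have hM := vs_mm hm
  have hws : WW (ms m) (one (Es G m)) rr (W₁ ++ vv b :: v :: W₂) (lam G m + 2) := hs ▸ hW
  have hal := hb.2.1
  obtain ⟨h1, h2⟩ := pos_alive hm hW hs (List.cons_ne_nil _ _) hal
  rw [List.length_cons] at h1 h2
  obtain ⟨s₁, s₂, h3, h4, h5⟩ := hws.split
  have h4l := h4.length
  have h5' : WW (ms m) (one (Es G m)) rr ([vv b] ++ v :: W₂) s₂ := h4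
  obtain ⟨s₃, s₄, h6, h7, h8⟩ := h5'.split
  have h7l := h7.length
  rw [List.length_cons] at h7l
  have hle : ds G m v ≤ W₂.length := by
    have h10 : dd (ms m) (Es G m) rr v = ds G m v := rfl
    have := dd_le_of_walk h7
    omega
  by_contra hne
  have hlt : ds G m v < W₂.length := lt_of_le_of_ne hle hne
  obtain ⟨L, hL⟩ := dd_walk (dd_lt_of_walk h7)
  have hb1 : vv b ∉ v :: L := by
    intro hmem
    obtain ⟨L₁, L₂, he⟩ := List.append_of_mem hmem
    rw [he] at hL
    have h9 := dd_prefix hL
    have h10 : dd (ms m) (Es G m) rr v = ds G m v := rfl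
    have h11 : dd (ms m) (Es G m) rr (vv b) = ds G m (vv b) := rfl
    omega
  have hcov : m b ≠ b := by
    intro hmb
    have h9 := lv_exp (G := G) hm hmb
    have h10 : lv G m b = ds G m (vv b) := rfl
    omega
  have hlv : lv G m b ≤ lv G m (m b) := by
    rcases hb.2.2 with h9 | h9 | h9
    · exact absurd h9 hcov
    · omega
    · omega
  have hb2 : ms m (vv b) ∉ v :: L := by
    rw [ms_vv_cov hcov]
    intro hmem
    obtain ⟨L₁, L₂, he⟩ := List.append_of_mem hmem
    rw [he] at hL
    have h9 := dd_prefix hL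
    have h10 : dd (ms m) (Es G m) rr v = ds G m v := rfl
    have h11 : dd (ms m) (Es G m) rr (vv (m b)) = lv G m (m b) := rfl
    have h12 : lv G m b = ds G m (vv b) := rfl
    omega
  have hE : Es G m v (ms m (vv b)) := WW.edge hws
  have h9 := dd_le_of_walk (hL.snoc hE hb1 hb2)
  have h10 : dd (ms m) (Es G m) rr v = ds G m v := rfl
  have h11 : dd (ms m) (Es G m) rr (vv b) = ds G m (vv b) := rfl
  omega

/-- Job F2A. The nodes below a node `b` on a shortest walk form a chain. Strong induction on the length of `W₂`. If `W₂ = [rr]` then `b = r` is exposed. Otherwise `W₂ = v :: W₃`, `W₃ ≠ []`, `b` is covered (an exposed vertex has `lv = 1`), `v = vv x` (`vs_struct`),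
`ds v = W₃.length` (`f2_pred`), `G.Adj x (m b)`, `x ≠ b`, so `lv x + 1 = lv b`. If `v` is alive let `c = x`; otherwise by `pp_root` (for the walk `v :: W₃`, which is a shortest one) there is an alive vertex `vv c` on it with `Cla c x`. (`vv c ≠ rr` as `x` is in its class: `rr` is isolated in the threshold graph, cf. `cla_vv` with `Cn.symm`.)
In both cases `Upp c b`, `lv c < lv b`, and `c` is a node, because `2 lv c < 2 lv b ≤ lam + 3` and `lv c + lv (m c) = lam + 3` (`pos_alive`). Apply the induction hypothesis to `c`. -/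
theorem f2_chain (hm : Mate G m) (hn : ¬ Mxl G m) {X : List (VS n)} (hW : WW (ms m) (one (Es G m)) rr (vc t :: (X ++ [vv r, rr])) (lam G m + 2))
    (hs : vc t :: (X ++ [vv r, rr]) = W₁ ++ vv b :: W₂) (hb : Nd G m b) :
    ∃ A, Chn (Upp G m) r (b :: A) ∧ ∀ c ∈ b :: A, Nd G m c ∧ vv c ∈ vv b :: W₂ := by
  have hM := vs_mm hm
  have hθ : lam G m + 2 < ZZ (VS n) := by
    have := th_lt hm hn
    omega
  generalize hk : W₂.length = k
  induction k using Nat.strong_induction_on generalizing W₁ b W₂ with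
  | _ k ih =>
    have hs' : (vc t :: X) ++ [vv r, rr] = W₁ ++ vv b :: W₂ := hs
    rcases f2a_suffix hs' (by simp) with ⟨h1, h2⟩ | ⟨v, W₃, h1, h2⟩
    · have hbr : b = r := by
        have h3 : (Sum.inl (Sum.inl b) : VS n) = Sum.inl (Sum.inl r) := h2
        rw [Sum.inl.injEq, Sum.inl.injEq] at h3
        exact h3
      subst hbr
      refine ⟨[], Chn.nil, fun c hc => ?_⟩
      rw [List.mem_singleton] at hc
      rw [hc]
      exact ⟨hb, List.mem_cons_self⟩
    · subst h1
      rw [List.length_cons] at hk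
      have hws : WW (ms m) (one (Es G m)) rr (W₁ ++ vv b :: v :: W₃) (lam G m + 2) := hs ▸ hW
      have hlen3 : 1 ≤ W₃.length := by
        cases W₃ with
        | nil => exact absurd rfl h2
        | cons _ _ => simp
      obtain ⟨h3, h4⟩ := pos_alive hm hW hs (List.cons_ne_nil _ _) hb.2.1
      rw [List.length_cons] at h3 h4
      have hlb : lv G m b = ds G m (vv b) := rfl
      have hcov : m b ≠ b := by
        intro hmb
        have h9 := lv_exp (G := G) hm hmb
        omega
      have hlv : lv G m b ≤ lv G m (m b) := by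
        rcases hb.2.2 with h9 | h9 | h9
        · exact absurd h9 hcov
        · omega
        · omega
      rw [ms_vv_cov hcov] at h4
      have hlmb : lv G m (m b) = ds G m (vv (m b)) := rfl
      have hE : Es G m v (ms m (vv b)) := WW.edge hws
      rw [ms_vv_cov hcov] at hE
      obtain ⟨x, hx⟩ : ∃ x, v = vv x := by
        rcases v with (x | x) | c
        · exact ⟨x, rfl⟩
        · exact hE.elim
        · cases c
          · exact hE.elim
          · exact hE.elim
      subst hx
      have hE' : G.Adj x (m b) ∧ m x ≠ m b := hE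
      have hxb : x ≠ b := fun h => hE'.2 (by rw [h])
      have hpred : ds G m (vv x) = W₃.length := f2_pred hm hn hW hs hb
      have hlx : lv G m x = ds G m (vv x) := rfl
      have hs2 : vc t :: (X ++ [vv r, rr]) = (W₁ ++ [vv b]) ++ vv x :: W₃ := by
        rw [hs, List.append_assoc]
        rfl
      have hws2 : WW (ms m) (one (Es G m)) rr ((W₁ ++ [vv b]) ++ vv x :: W₃) (lam G m + 2) := hs2 ▸ hW
      obtain ⟨s₁, s₂, h5, h6, h7⟩ := hws2.split
      have h6l := h6.length
      rw [List.length_cons] at h6l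
      have hs₂ : s₂ = ds G m (vv x) := by omega
      -- the node below
      have main : ∀ (L₁ L₂ : List (VS n)) (c : Fin n), vv x :: W₃ = L₁ ++ vv c :: L₂ →
          Al (ms m) (ds G m) (lam G m + 2) (vv c) → Cla G m c x →
          ∃ A, Chn (Upp G m) r (b :: A) ∧ ∀ c ∈ b :: A, Nd G m c ∧ vv c ∈ vv b :: vv x :: W₃ := by
        intro L₁ L₂ c hc hal hcl
        have hs3 : vc t :: (X ++ [vv r, rr]) = (W₁ ++ [vv b] ++ L₁) ++ vv c :: L₂ := by
          rw [hs2, hc, List.append_assoc (W₁ ++ [vv b]) L₁]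
        have hs3' : (vc t :: X) ++ [vv r, rr] = (W₁ ++ [vv b] ++ L₁) ++ vv c :: L₂ := hs3
        have hL2 : L₂ ≠ [] := by
          rcases f2a_suffix hs3' (by simp) with ⟨h8, _⟩ | ⟨v', W', h8, _⟩
          · rw [h8]
            simp
          · rw [h8]
            simp
        obtain ⟨h8, h9⟩ := pos_alive hm hW hs3 hL2 hal
        have hlenc : L₂.length ≤ W₃.length := by
          have h10 := congrArg List.length hc
          rw [List.length_cons, List.length_append, List.length_cons] at h10
          omega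
        have hlc : lv G m c = ds G m (vv c) := rfl
        have hNc : Nd G m c := by
          refine ⟨by omega, hal, ?_⟩
          by_cases hmc : m c = c
          · exact Or.inl hmc
          · right
            left
            rw [ms_vv_cov hmc] at h9
            have hlmc : lv G m (m c) = ds G m (vv (m c)) := rfl
            omega
        obtain ⟨A, hA, hA'⟩ := ih L₂.length (by omega) hs3 hNc rfl
        refine ⟨c :: A, Chn.cons hA ⟨x, hcl, hE'.1, hxb, by omega⟩, fun d hd => ?_⟩
        rw [List.mem_cons] at hd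
        rcases hd with hd | hd
        · rw [hd]
          exact ⟨hb, List.mem_cons_self⟩
        · refine ⟨(hA' d hd).1, List.mem_cons_of_mem _ ?_⟩
          rw [hc]
          exact List.mem_append_right _ (hA' d hd).2
      by_cases hal : Al (ms m) (ds G m) (lam G m + 2) (vv x)
      · exact main [] W₃ x rfl hal cla_refl
      · have hx' : dd (ms m) (Es G m) rr (vv x) + dd (ms m) (Es G m) rr (ms m (vv x)) ≤ lam G m + 2 := by
          unfold Al at hal
          exact not_lt.1 hal
        have h6' : WW (ms m) (one (Es G m)) rr (vv x :: W₃) (dd (ms m) (Es G m) rr (vv x)) := by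
          have h10 : dd (ms m) (Es G m) rr (vv x) = s₂ := hs₂.symm
          rw [h10]
          exact h6
        obtain ⟨L₁, b', L₂, r₁, r₂, g1, g2, g3, g4, g5, g6, g7, g8, g9, g10⟩ := pp_root hM ms_root hθ h6' hx'
        have hmem : vv x ∈ L₁ := by
          cases L₁ with
          | nil => exact absurd rfl g2
          | cons y l =>
            rw [List.cons_append, List.cons.injEq] at g1
            rw [g1.1]
            exact List.mem_cons_self
        have hcn := g10 _ hmem
        obtain ⟨c, hc1, hc2⟩ := cla_vv hm hn (Cn.symm hM hcn)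
        subst hc1
        exact main L₁ L₂ c g1 g3 hcn

/-- Job F2A. An alive vertex of `G` on a shortest walk, or its mate, is a node. (`pos_alive`; if `x` is exposed `nd_exp`; otherwise the positions of `x` is `i` with `2 ≤ i ≤ lam + 1`, `lv x = i`, `lv (m x) = lam + 3 - i`.) -/
theorem nd_or (hm : Mate G m) (hn : ¬ Mxl G m) (hW : WW (ms m) (one (Es G m)) rr (vc t :: W) (lam G m + 2)) (hs : vc t :: W = W₁ ++ vv x :: W₂)
    (hx : Al (ms m) (ds G m) (lam G m + 2) (vv x)) : Nd G m x ∨ Nd G m (m x) := by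
  have hws : WW (ms m) (one (Es G m)) rr (W₁ ++ vv x :: W₂) (lam G m + 2) := hs ▸ hW
  have h2 : W₂ ≠ [] := by
    intro h
    subst h
    obtain ⟨L', hL'⟩ := hws.last
    have h3 := List.append_inj_right' hL' rfl
    rw [List.cons.injEq] at h3
    have h4 : (Sum.inl (Sum.inl x) : VS n) = Sum.inr true := h3.1
    cases h4
  obtain ⟨h3, h4⟩ := pos_alive hm hW hs h2 hx
  by_cases hmx : m x = x
  · exact Or.inl (nd_exp hm hn hmx)
  · have h4' := h4
    rw [ms_vv_cov hmx] at h4
    have hlx : lv G m x = ds G m (vv x) := rfl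
    have hlmx : lv G m (m x) = ds G m (vv (m x)) := rfl
    have hpos : 1 ≤ W₂.length := by
      cases W₂ with
      | nil => exact absurd rfl h2
      | cons _ _ => simp
    have hmm : m (m x) = x := hm.invol x
    have hal' : Al (ms m) (ds G m) (lam G m + 2) (vv (m x)) := by
      unfold Al at hx ⊢
      rw [ms_vv_cov hmx] at hx
      rw [ms_vv_cov (by rw [hmm]; exact fun h => hmx h.symm), hmm]
      omega
    rcases lt_trichotomy (lv G m x) (lv G m (m x)) with h5 | h5 | h5
    · left
      exact ⟨by omega, hx, Or.inr (Or.inl h5)⟩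
    · rcases lt_or_gt_of_ne hmx with h6 | h6
      · right
        refine ⟨by omega, hal', Or.inr (Or.inr ⟨?_, ?_⟩)⟩
        · rw [hmm]
          exact h5.symm
        · rw [hmm]
          exact h6
      · left
        exact ⟨by omega, hx, Or.inr (Or.inr ⟨h5, h6⟩)⟩
    · right
      refine ⟨by omega, hal', Or.inr (Or.inl ?_)⟩
      rw [hmm]
      exact h5

private theorem f2b_scan {V : Type*} [Fintype V] {μ : V → V} {E : V → V → Prop} {a : V → ℕ} {θ : ℕ} {u : V} (hM : MM μ E) (P : List V) :
    ∀ (g : V) (Q : List V) (s : ℕ), WW μ (one E) u (P ++ g :: Q) s → (∃ v ∈ P, Al μ a θ v) →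
    ∃ P₁ b g' Q', P ++ g :: Q = P₁ ++ b :: g' :: Q' ∧ (∃ P₂, g' :: Q' = P₂ ++ g :: Q) ∧ Cn μ E a θ g g' ∧ b ∈ P ∧ (∀ v ∈ P₁, v ∈ P) ∧
      (Al μ a θ b ∨ θ < a g' + a (μ b) + 1) := by
  induction P using List.reverseRecOn with
  | nil =>
    intro g Q s _ h
    obtain ⟨v, hv, _⟩ := h
    exact absurd hv (by simp)
  | append_singleton P' b ih =>
    intro g Q s hW h
    have e1 : (P' ++ [b]) ++ g :: Q = P' ++ b :: g :: Q := by simp
    rw [e1] at hW ⊢
    by_cases hc : Al μ a θ b ∨ θ < a g + a (μ b) + 1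
    · exact ⟨P', b, g, Q, rfl, ⟨[], rfl⟩, ReflTransGen.refl, by simp, fun v hv => by simp [hv], hc⟩
    · have hb : ¬ Al μ a θ b := fun h1 => hc (Or.inl h1)
      have hb2 : a g + a (μ b) + 1 ≤ θ := by
        by_contra h1
        exact hc (Or.inr (not_le.1 h1))
      have hE := WW.edge hW
      obtain ⟨v, hv, hvA⟩ := h
      have hv' : v ∈ P' := by
        rcases List.mem_append.1 hv with h1 | h1
        · exact h1
        · rw [List.mem_singleton] at h1
          exact absurd (h1 ▸ hvA) hb
      obtain ⟨P₁, b', g', Q', h1, ⟨P₂, h2⟩, h3, h4, h5, h6⟩ := ih b (g :: Q) s hW ⟨v, hv', hvA⟩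
      refine ⟨P₁, b', g', Q', h1, ⟨P₂ ++ [b], by rw [h2]; simp⟩, ?_, by simp [h4], fun w hw => by simp [h5 w hw], h6⟩
      have g1 : GA μ E a θ g (μ b) := Or.inl ⟨hE, hb2⟩
      have g2 : GA μ E a θ (μ b) b := by
        refine Or.inr ⟨(hM.invol b).symm, ?_⟩
        unfold Al at hb
        omega
      exact (ReflTransGen.head g1 (ReflTransGen.single g2)).trans h3

private theorem f2b_first {V : Type*} (p : V → Prop) (L : List V) (h : ∃ v ∈ L, p v) :
    ∃ L₁ v L₂, L = L₁ ++ v :: L₂ ∧ p v ∧ ∀ w ∈ L₁, ¬ p w := by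
  induction L with
  | nil =>
    obtain ⟨v, hv, _⟩ := h
    exact absurd hv (by simp)
  | cons x L ih =>
    by_cases hx : p x
    · exact ⟨[], x, L, rfl, hx, by simp⟩
    · obtain ⟨v, hv, hpv⟩ := h
      have hv' : v ∈ L := by
        rcases List.mem_cons.1 hv with h1 | h1
        · exact absurd (h1 ▸ hpv) hx
        · exact h1
      obtain ⟨L₁, w, L₂, h1, h2, h3⟩ := ih ⟨v, hv', hpv⟩
      refine ⟨x :: L₁, w, L₂, by rw [h1]; rfl, h2, ?_⟩
      intro z hz
      rcases List.mem_cons.1 hz with h4 | h4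
      · rw [h4]
        exact hx
      · exact h3 z h4

private theorem f2b_nodup (hm : Mate G m) (hn : ¬ Mxl G m) {L : List (Fin n)} (h : Chn (Upp G m) r L) :
    (∀ c ∈ L, Nd G m c) → L.Nodup ∧ ∀ c L', L = c :: L' → ∀ d ∈ L', lv G m d < lv G m c := by
  induction h with
  | nil =>
    intro _
    refine ⟨by simp, ?_⟩
    intro c L' h
    simp only [List.cons.injEq] at h
    rw [← h.2]
    simp
  | @cons b c L hL hbc ih =>
    intro hN
    obtain ⟨h1, h2⟩ := ih (fun d hd => hN d (List.mem_cons_of_mem _ hd))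
    have h3 := h2 b L rfl
    have h4 : lv G m b < lv G m c := up_lv hm hn (hN b (by simp)) hbc
    have h5 : ∀ d ∈ b :: L, lv G m d < lv G m c := by
      intro d hd
      rcases List.mem_cons.1 hd with h6 | h6
      · rw [h6]
        exact h4
      · exact (h3 d h6).trans h4
    refine ⟨List.nodup_cons.2 ⟨fun hc => lt_irrefl _ (h5 c hc), h1⟩, ?_⟩
    intro c' L' h
    simp only [List.cons.injEq] at h
    obtain ⟨rfl, rfl⟩ := h
    exact h5

/-- The mirror list. -/
private theorem f2b_mirror_list {X : List (VS n)} (hr : m r = r) (ht : m t = t) :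
    ((vc t :: X ++ [vv r]).map (ms m)).reverse ++ [rr] = vc r :: ((X.map (ms m)).reverse ++ [vv t, rr]) := by
  simp [ms, hr, ht]

/-- Node from an alive vertex whose mate is above `p`. -/
private theorem f2b_node (hm : Mate G m) (hn : ¬ Mxl G m) {P : List (VS n)} (hW : WW (ms m) (one (Es G m)) rr (vc t :: W) (lam G m + 2))
    (hP : ∀ w, vv w ∈ P → ¬ Nd G m w) (hPW : ∀ v ∈ P, v ∈ vc t :: W) (hq : ms m (vv q) ∈ P)
    (hA : Al (ms m) (ds G m) (lam G m + 2) (vv q)) : Nd G m q := by
  by_cases hqq : m q = q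
  · exact nd_exp hm hn hqq
  · have e1 : ms m (vv q) = vv (m q) := ms_vv_cov hqq
    rw [e1] at hq
    have h1 := hP _ hq
    obtain ⟨W₁, W₂, h2⟩ := List.append_of_mem (hPW _ hq)
    have hM := vs_mm (G := G) hm
    have h3 : Al (ms m) (ds G m) (lam G m + 2) (vv (m q)) := by
      rw [← e1]
      unfold Al at hA ⊢
      rw [hM.invol]
      omega
    rcases nd_or hm hn hW h2 h3 with h4 | h4
    · exact absurd h4 h1
    · have h5 : m (m q) = q := by
        have h6 := hM.invol (vv q)
        rw [e1] at h6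
        by_cases h7 : m (m q) = m q
        · rw [ms_vv_exp h7] at h6
          exact absurd h6 (by simp)
        · rw [ms_vv_cov h7] at h6
          simpa using h6
      rwa [h5] at h4

/-- Job F2B. A shortest augmenting path gives two disjoint chains with a bridge. Let `x_0 = rr, x_1 = vv r, …, x_θ = vc t` be the walk (`vs_ap2`, `vc_last`; `θ = lam + 2`; the list is in reversed order), `ms` the mates.
Let `j` be the largest position such that `x_j = vv p` with `Nd p` (`x_1 = vv r` is one, `nd_exp`). Let `i > j` be least such that `x_i` is alive or the edge `{x_{i-1}, ms x_i}` is crossing (`θ < ds x_{i-1} + ds (ms x_i) + 1`); it exists since `x_θ = vc t` is alive (`ds_vc`).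
The vertices `x_{i'}`, `j < i' < i`, are absorbed and connected with `vv p` in the threshold graph (induction: `x_{i'-1} - ms x_{i'} - x_{i'}`). The edge `{x_{i-1}, ms x_i}` is crossing: otherwise `x_i` is alive, so is `ms x_i`, and `ms x_i` is connected with `vv p`, hence `ms x_i = vv p` (`dist_UU`),
but `ms x_i` is not on the walk (`WW.mate_not_mem`). By `pos_le`: `ds x_{i-1} ≤ i - 1`, `ds (ms x_i) ≤ θ + 1 - i`, and the sum is at least `θ`, so both are equalities. So `x_{i-1} = vv x` with `Cla p x` (`cla_vv`), `ms x_i = vv y` (`y = t` if `x_i = vc t`), `G.Adj x y`, `m x ≠ y`, `lv x + lv y = θ`.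
The node `q`: if `x_i` is alive, `q = y` is a node (if `x_i = vc t`: `nd_exp`; if `x_i = vv w`, `y = m w`: `nd_or`, and `w` is not a node by the choice of `j`). If `x_i` is absorbed: the mirror walk (`mirror`) up to `ms x_i` is a shortest walk, and `ms x_i` is absorbed; `pp_root`: there is an alive vertex `v'` on it, connected with `vv y`;
`v' ≠ rr` (`cla_vv` and `Cn.symm`: a vertex connected with `vv y` is some `vv q`), `v' = vv q = ms x_{i''}`, `i'' > i`, and `q` is a node as before. So `Cla q y`, `Brr p q`.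
The chains: `f2_chain` for the walk and `p`, and for the mirror walk and `q` (`vc r :: (X' ++ [vv t, rr])`). The members of the first are in positions at most `j` of the walk, those of the second are mates of vertices in positions at least `i > j`: they are different by `WW.mate_not_mem`. All are in `S` (`vs_ap2`). `r ≠ t` for the same reason. -/
theorem f2 (hm : Mate G m) (hn : ¬ Mxl G m) (h : AP G m S (lam G m)) :
    ∃ r t p q A B, r ≠ t ∧ m r = r ∧ m t = t ∧ Chn (Upp G m) r (p :: A) ∧ Chn (Upp G m) t (q :: B) ∧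
      (∀ b ∈ (p :: A) ++ (q :: B), Nd G m b ∧ b ∈ S) ∧ ((p :: A) ++ (q :: B)).Nodup ∧ Brr G m p q := by
  classical
  have hM : MM (ms m) (Es G m) := vs_mm hm
  have hu : ms m (rr : VS n) ≠ rr := ms_root
  have hθ0 := th_lt hm hn
  have hθ : lam G m + 2 < ZZ (VS n) := by omega
  obtain ⟨t, W, ht, hW, hS⟩ := vs_ap2 hm h
  obtain ⟨X, r, hr, _, rfl⟩ := vc_last hm hW
  -- the node `p`
  obtain ⟨P, v, Q, hPQ, ⟨p, rfl, hp⟩, hPn⟩ := f2b_first (fun v => ∃ p, v = vv p ∧ Nd G m p) (vc t :: (X ++ [vv r, rr]))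
    ⟨vv r, by simp, r, rfl, nd_exp hm hn hr⟩
  have hP : ∀ w, vv w ∈ P → ¬ Nd G m w := fun w hw hw2 => hPn _ hw ⟨w, rfl, hw2⟩
  have hPW : ∀ v ∈ P, v ∈ vc t :: (X ++ [vv r, rr]) := fun v hv => by
    rw [hPQ]
    exact List.mem_append_left _ hv
  have hpA : Al (ms m) (ds G m) (lam G m + 2) (vv p) := hp.2.1
  have hvcA : Al (ms m) (ds G m) (lam G m + 2) (vc t) := by
    have h1 := ds_vc (G := G) hm ht hn
    have h2 : ms m (vc t) = vv t := ms_vc_exp ht
    have h3 : ds G m (vv t) = 1 := lv_exp (G := G) hm ht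
    unfold Al
    rw [h2, h3]
    omega
  have hvcP : vc t ∈ P := by
    cases P with
    | nil =>
      rw [List.nil_append] at hPQ
      have h1 := (List.cons.inj hPQ).1
      exact absurd h1 (by simp)
    | cons a P =>
      rw [List.cons_append] at hPQ
      have h1 := (List.cons.inj hPQ).1
      rw [h1]
      exact List.mem_cons_self
  have hQ : Q ≠ [] := by
    rintro rfl
    have h1 : (vc t :: (X ++ [vv r, rr])).getLast? = some (vv p) := by
      rw [hPQ]
      simp
    have h2 : (vc t :: (X ++ [vv r, rr])).getLast? = some rr := by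
      have e : vc t :: (X ++ [vv r, rr]) = (vc t :: X ++ [vv r]) ++ [rr] := by simp
      rw [e, List.getLast?_append]
      simp
    rw [h1] at h2
    exact absurd h2 (by simp)
  have hWP := hW
  rw [hPQ] at hWP
  obtain ⟨P₁, b, g', Q', h1, ⟨P₂, h2⟩, h3, h4, h5, h6⟩ := f2b_scan (a := ds G m) (θ := lam G m + 2) hM P (vv p) Q _ hWP ⟨_, hvcP, hvcA⟩
  have hsplit : vc t :: (X ++ [vv r, rr]) = P₁ ++ b :: g' :: Q' := by rw [hPQ, h1]
  have hQ' : Q' ≠ [] := by
    rintro rfl
    have e := congrArg List.length h2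
    have e2 : 0 < Q.length := List.length_pos_iff.2 hQ
    simp at e
    omega
  have hW2 := hW
  rw [hsplit] at hW2
  have hlen := hW2.length
  rw [List.length_append, List.length_cons, List.length_cons] at hlen
  have hEdge := WW.edge hW2
  have hbW : b ∈ vc t :: (X ++ [vv r, rr]) := hPW _ h4
  have hcross : lam G m + 2 < ds G m g' + ds G m (ms m b) + 1 := by
    rcases h6 with h6 | h6
    · by_contra hc
      have g1 : GA (ms m) (Es G m) (ds G m) (lam G m + 2) g' (ms m b) := Or.inl ⟨hEdge, not_lt.1 hc⟩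
      have g2 : Cn (ms m) (Es G m) (ds G m) (lam G m + 2) (vv p) (ms m b) := h3.tail g1
      have g3 : Al (ms m) (ds G m) (lam G m + 2) (ms m b) := by
        unfold Al at h6 ⊢
        rw [hM.invol]
        omega
      have g4 := dist_UU hM hu hθ _ _ g2 hpA g3
      refine WW.mate_not_mem hM.mt hu hW hbW ?_
      rw [← g4, hPQ]
      simp
    · exact h6
  have hps1 := pos_le hm hW (v := g') (W₁ := P₁ ++ [b]) (W₂ := Q') (by rw [hsplit]; simp) hQ'
  have hps2 := pos_le hm hW (v := b) (W₁ := P₁) (W₂ := g' :: Q') hsplit (by simp)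
  rw [List.length_cons] at hps2
  obtain ⟨x, hgx, hpx⟩ := cla_vv hm hn h3
  subst hgx
  obtain ⟨y, hby, hxy, hmxy⟩ : ∃ y, ms m b = vv y ∧ G.Adj x y ∧ m x ≠ y := by
    generalize ms m b = z at hEdge
    rcases z with (y | y) | y
    · exact ⟨y, rfl, hEdge.1, hEdge.2⟩
    · exact absurd hEdge (by simp [Es])
    · exact absurd hEdge (by simp [Es])
  have hb : b = ms m (vv y) := by rw [← hby, hM.invol]
  have hlx : lv G m x = Q'.length := by
    unfold lv
    have := hps1.1
    have := hps2.2
    omega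
  have hly : lv G m y + Q'.length = lam G m + 2 := by
    unfold lv
    rw [← hby]
    have := hps1.1
    have := hps2.2
    omega
  -- the list without the root
  obtain ⟨Q'', z, hQz⟩ := List.eq_nil_or_concat Q' |>.resolve_left hQ'
  have hLL : vc t :: X ++ [vv r] = P₁ ++ b :: vv x :: Q'' ∧ z = rr := by
    have e : (vc t :: X ++ [vv r]) ++ [rr] = (P₁ ++ b :: vv x :: Q'') ++ [z] := by
      have e1 : (vc t :: X ++ [vv r]) ++ [rr] = vc t :: (X ++ [vv r, rr]) := by simp
      rw [e1, hsplit, hQz]
      simp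
    have e2 := List.append_inj' e rfl
    exact ⟨e2.1, (List.cons.inj e2.2).1.symm⟩
  have hmir := mirror hm hW
  -- the node `q`
  obtain ⟨q, hq, hqy, hqP⟩ : ∃ q, Nd G m q ∧ Cla G m q y ∧ ms m (vv q) ∈ P₁ ++ [b] := by
    have hsub : ∀ v ∈ P₁ ++ [b], v ∈ P := by
      intro v hv
      rcases List.mem_append.1 hv with h7 | h7
      · exact h5 v h7
      · rw [List.mem_singleton] at h7
        rw [h7]
        exact h4
    by_cases hbA : Al (ms m) (ds G m) (lam G m + 2) b
    · have hyP : ms m (vv y) ∈ P₁ ++ [b] := by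
        rw [← hb]
        simp
      refine ⟨y, ?_, cla_refl, hyP⟩
      refine f2b_node hm hn hW hP hPW (hsub _ hyP) ?_
      unfold Al at hbA ⊢
      rw [← hb, ← hby]
      omega
    · have hbA' : ds G m b + ds G m (ms m b) ≤ lam G m + 2 := not_lt.1 hbA
      have e3 : ((vc t :: X ++ [vv r]).map (ms m)).reverse ++ [rr] =
          ((vv x :: Q'').map (ms m)).reverse ++ (vv y) :: ((P₁.map (ms m)).reverse ++ [rr]) := by
        rw [hLL.1, ← hby]
        simp
      rw [e3] at hmir
      obtain ⟨s₁, s₂, _, h8, _⟩ := WW.split hmir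
      have hl8 := h8.length
      rw [List.length_cons, List.length_append, List.length_reverse, List.length_map, List.length_singleton] at hl8
      have hs₂ : s₂ = ds G m (vv y) := by
        have : lv G m y = ds G m (vv y) := rfl
        omega
      rw [hs₂] at h8
      have hyabs : ds G m (vv y) + ds G m (ms m (vv y)) ≤ lam G m + 2 := by
        rw [← hb, ← hby]
        omega
      obtain ⟨L₁, b', L₂, s₃, s₄, k1, k2, k3, _, _, _, _, _, _, k10⟩ := pp_root hM hu hθ h8 hyabs
      have k11 : Cn (ms m) (Es G m) (ds G m) (lam G m + 2) b' (vv y) := by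
        cases L₁ with
        | nil => exact absurd rfl k2
        | cons a L₁ =>
          rw [List.cons_append] at k1
          have := (List.cons.inj k1).1
          rw [this]
          exact k10 a (by simp)
      obtain ⟨q, rfl, hqc⟩ := cla_vv hm hn (Cn.symm hM k11)
      have hqm : ms m (vv q) ∈ P₁ ++ [b] := by
        have k12 : (vv q : VS n) ∈ vv y :: ((P₁.map (ms m)).reverse ++ [rr]) := by
          rw [k1]
          simp
        rcases List.mem_cons.1 k12 with k13 | k13
        · rw [k13, ← hb]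
          simp
        · rcases List.mem_append.1 k13 with k14 | k14
          · rw [List.mem_reverse, List.mem_map] at k14
            obtain ⟨w, hw, hw2⟩ := k14
            rw [← hw2, hM.invol]
            exact List.mem_append_left _ hw
          · rw [List.mem_singleton] at k14
            exact absurd k14 (by simp)
      exact ⟨q, f2b_node hm hn hW hP hPW (hsub _ hqm) k3, k11, hqm⟩
  -- the chains
  obtain ⟨A, hA, hA2⟩ := f2_chain hm hn hW hPQ hp
  obtain ⟨R₁, R₂, hR⟩ := List.append_of_mem hqP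
  have hmir2 := mirror hm hW
  have e4 : ((vc t :: X ++ [vv r]).map (ms m)).reverse ++ [rr] =
      ((R₂ ++ vv x :: Q'').map (ms m)).reverse ++ (vv q) :: ((R₁.map (ms m)).reverse ++ [rr]) := by
    have e5 : P₁ ++ b :: vv x :: Q'' = R₁ ++ ms m (vv q) :: (R₂ ++ vv x :: Q'') := by
      have : P₁ ++ b :: vv x :: Q'' = (P₁ ++ [b]) ++ vv x :: Q'' := by simp
      rw [this, hR]
      simp
    rw [hLL.1, e5]
    simp [hM.invol]
  have e6 := e4
  rw [f2b_mirror_list hr ht] at e6 hmir2
  obtain ⟨B, hB, hB2⟩ := f2_chain hm hn hmir2 e6 hq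
  have hAW : ∀ c ∈ p :: A, vv c ∈ vc t :: (X ++ [vv r, rr]) := by
    intro c hc
    rw [hPQ]
    exact List.mem_append_right _ (hA2 c hc).2
  have hBW : ∀ c ∈ q :: B, ms m (vv c) ∈ vc t :: (X ++ [vv r, rr]) := by
    intro c hc
    have k1 : ∀ v ∈ P₁ ++ [b], v ∈ vc t :: (X ++ [vv r, rr]) := by
      intro v hv
      rw [hsplit]
      rcases List.mem_append.1 hv with h7 | h7
      · exact List.mem_append_left _ h7
      · rw [List.mem_singleton] at h7
        rw [h7]
        simp
    apply k1
    rw [hR]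
    rcases List.mem_cons.1 (hB2 c hc).2 with k2 | k2
    · rw [k2]
      simp
    · rcases List.mem_append.1 k2 with k3 | k3
      · rw [List.mem_reverse, List.mem_map] at k3
        obtain ⟨w, hw, hw2⟩ := k3
        rw [← hw2, hM.invol]
        exact List.mem_append_left _ hw
      · rw [List.mem_singleton] at k3
        exact absurd k3 (by simp)
  have hdis : ∀ c ∈ p :: A, c ∉ q :: B := by
    intro c hc hc'
    exact WW.mate_not_mem hM.mt hu hW (hAW c hc) (hBW c hc')
  refine ⟨r, t, p, q, A, B, ?_, hr, ht, hA, hB, ?_, ?_, ⟨x, y, hpx, hqy, hxy, hmxy, by omega⟩⟩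
  · rintro rfl
    refine WW.mate_not_mem hM.mt hu hW (x := vv r) (by simp) ?_
    rw [ms_vv_exp hr]
    simp
  · intro c hc
    rcases List.mem_append.1 hc with h7 | h7
    · exact ⟨(hA2 c h7).1, (hS c).2 (Or.inl (hAW c h7))⟩
    · exact ⟨(hB2 c h7).1, (hS c).2 (Or.inr (hBW c h7))⟩
  · rw [List.nodup_append]
    refine ⟨(f2b_nodup hm hn hA (fun c hc => (hA2 c hc).1)).1, (f2b_nodup hm hn hB (fun c hc => (hB2 c hc).1)).1, ?_⟩
    intro c hc d hd hcd
    exact hdis c hc (hcd ▸ hd)

end Pool.Agent.SUB
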