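import Pool.Agent.Lib.MP_0087d5_lc.SUB.AP

/-!
# The decomposition of the difference of two matchings

Jobs DCA (`dec_one`), DCB (`dec`).
-/

namespace Pool.Agent.SUB

open Relation Finset Pool.Agent.AUG

variable {n : ℕ} {G : SimpleGraph (Fin n)} {m ν : Fin n → Fin n}

/-- The graph with the edges `{x, ν x}` and `{x, m x}`. -/
private def dcaG (m ν : Fin n → Fin n) : SimpleGraph (Fin n) := SimpleGraph.fromRel fun x y => ν x = y ∨ m x = y

private theorem dca_card (p : Fin n → Prop) (i j : DecidablePred p) : (@Finset.filter _ p i univ).card = (@Finset.filter _ p j univ).card := by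
  congr

private theorem dca_adj (hm : Mate G m) (hν : Mate G ν) {x y : Fin n} : (dcaG m ν).Adj x y ↔ x ≠ y ∧ (ν x = y ∨ m x = y) := by
  unfold dcaG
  rw [SimpleGraph.fromRel_adj]
  constructor
  · rintro ⟨h1, (h2 | h2) | (h2 | h2)⟩
    · exact ⟨h1, Or.inl h2⟩
    · exact ⟨h1, Or.inr h2⟩
    · exact ⟨h1, Or.inl (by rw [← h2, hν.invol])⟩
    · exact ⟨h1, Or.inr (by rw [← h2, hm.invol])⟩
  · rintro ⟨h1, h2⟩
    exact ⟨h1, Or.inl h2⟩

private theorem dca_le (hm : Mate G m) (hν : Mate G ν) : dcaG m ν ≤ G := by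
  intro x y hxy
  obtain ⟨h1, h2 | h2⟩ := (dca_adj hm hν).1 hxy
  · rw [← h2]
    exact hν.adj x (by rw [h2]; exact h1.symm)
  · rw [← h2]
    exact hm.adj x (by rw [h2]; exact h1.symm)

private theorem dca_walk (hm : Mate G m) (hν : Mate G ν) {z : Fin n} {W : List (Fin n)} {d : ℕ} (hW : WW m (one (EE (dcaG m ν) m)) z W d) :
    (∀ v ∈ W.tail, ∃ b ∈ W, ν v = m b ∧ m v ≠ m b ∧ v ≠ m b) ∧ ∀ v ∈ W, v = z ∨ ∃ a ∈ W, ν a = m v ∧ m a ≠ m v ∧ a ≠ m v := by
  induction hW with
  | nil =>
    refine ⟨fun v hv => ?_, fun v hv => Or.inl (List.mem_singleton.1 hv)⟩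
    simp at hv
  | @cons x y L s k h hk h1 h2 ih =>
    obtain ⟨⟨hE1, hE2, _⟩, _⟩ := hk
    obtain ⟨hne, hor⟩ := (dca_adj hm hν).1 hE1
    have hνx : ν x = m y := by
      rcases hor with h3 | h3
      · exact h3
      · exact absurd h3 hE2
    obtain ⟨ih1, ih2⟩ := ih
    constructor
    · intro v hv
      rw [List.tail_cons] at hv
      rcases List.mem_cons.1 hv with rfl | hv
      · exact ⟨y, List.mem_cons_self, hνx, hE2, hne⟩
      · obtain ⟨b, hb, hb2⟩ := ih1 v hv
        exact ⟨b, List.mem_cons_of_mem _ hb, hb2⟩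
    · intro v hv
      rcases List.mem_cons.1 hv with rfl | hv
      · exact Or.inr ⟨x, List.mem_cons_of_mem _ List.mem_cons_self, hνx, hE2, hne⟩
      · rcases ih2 v hv with h3 | ⟨a, ha, ha2⟩
        · exact Or.inl h3
        · exact Or.inr ⟨a, List.mem_cons_of_mem _ ha, ha2⟩

/-- Job DCA. Let `G'` be the graph with the edges `{x, ν x}` and `{x, m x}` (`SimpleGraph.fromRel fun x y => ν x = y ∨ m x = y`), `G' ≤ G`. `m`, `ν` are mate maps of matchings of `G'`. By `berge` there is an augmenting path for `m` in `G'`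
(`ap_iff`), hence in `G` (`ap_mono`). An edge `{x, y}` of `G'` with `m x ≠ y` satisfies `ν x = y`. So in the data of the path: `ν s = m z`; `ν a = m b` if `b` comes directly after `a` in the walk; `ν x = t`.
Hence the set of vertices is closed under `ν`, and `m`, `ν` differ at all its vertices: `m s = s ≠ ν s`; `ν a = m b ≠ m a`; `ν (m b) = a ≠ b = m (m b)`. (The predecessor and successor of a member of a list: see `xg_pred`, `xg_succ` in `AUG/Search.lean`.) -/
theorem dec_one (hm : Mate G m) (hν : Mate G ν) (h : cv m < cv ν) :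
    ∃ S k, AP G m S k ∧ (∀ x ∈ S, ν x ∈ S) ∧ ∀ x ∈ S, m x ≠ ν x ∧ ν x ≠ x := by
  have hle := dca_le hm hν
  have hm' : Mate (dcaG m ν) m := ⟨hm.invol, fun x hx => (dca_adj hm hν).2 ⟨hx.symm, Or.inr rfl⟩⟩
  have hν' : Mate (dcaG m ν) ν := ⟨hν.invol, fun x hx => (dca_adj hm hν).2 ⟨hx.symm, Or.inl rfl⟩⟩
  have hcv : AugPath (dcaG m ν) m :=
    berge hm' hν' (lt_of_eq_of_lt (dca_card _ _ _) (lt_of_lt_of_eq h (dca_card _ _ _)))
  obtain ⟨S, k, hAP⟩ := ap_iff.1 hcv
  refine ⟨S, k, ap_mono hle hAP, ?_⟩
  obtain ⟨s, t, hst, hs, ht, hc⟩ := hAP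
  rcases hc with ⟨_, hadj, rfl⟩ | ⟨z, x, L, d, _, hz, hsz, hW, hxt, rfl⟩
  · have h1 : ν s = t := by
      rcases ((dca_adj hm hν).1 hadj).2 with h2 | h2
      · exact h2
      · exact absurd (hs.symm.trans h2) hst
    have h2 : ν t = s := by rw [← h1, hν.invol]
    constructor
    · intro w hw
      rw [Finset.mem_insert, Finset.mem_singleton] at hw
      rcases hw with rfl | rfl
      · rw [h1]; simp
      · rw [h2]; simp
    · intro w hw
      rw [Finset.mem_insert, Finset.mem_singleton] at hw
      rcases hw with rfl | rfl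
      · rw [hs, h1]; exact ⟨hst, hst.symm⟩
      · rw [ht, h2]; exact ⟨hst.symm, hst⟩
  · obtain ⟨hsz1, hsz2⟩ := (dca_adj hm hν).1 hsz
    obtain ⟨hxt1, hxt2⟩ := (dca_adj hm hν).1 hxt
    have hνs : ν s = m z := by
      rcases hsz2 with h2 | h2
      · exact h2
      · exact absurd (hs.symm.trans h2) hsz1
    have hνx : ν x = t := by
      rcases hxt2 with h2 | h2
      · exact h2
      · exfalso
        apply hxt1
        rw [← hm.invol x, h2, ht]
    have hνt : ν t = x := by rw [← hνx, hν.invol]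
    have hνmz : ν (m z) = s := by rw [← hνs, hν.invol]
    have hzmem : z ∈ x :: L := hW.start_mem
    obtain ⟨hA, hB⟩ := dca_walk hm hν hW
    rw [List.tail_cons] at hA
    have hmx : m x ≠ t := by
      intro h2
      apply hxt1
      rw [← hm.invol x, h2, ht]
    have hzs : z ≠ s := by
      rintro rfl
      exact hz hs
    constructor
    · intro w hw
      simp only [Finset.mem_union, Finset.mem_insert, Finset.mem_singleton, List.mem_toFinset, List.mem_map] at hw ⊢
      rcases hw with ((rfl | rfl) | hw) | ⟨v, hv, rfl⟩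
      · exact Or.inr ⟨z, hzmem, hνs.symm⟩
      · rw [hνt]; exact Or.inl (Or.inr List.mem_cons_self)
      · rcases List.mem_cons.1 hw with rfl | hw
        · exact Or.inl (Or.inl (Or.inr hνx))
        · obtain ⟨b, hb, hb2, _⟩ := hA w hw
          exact Or.inr ⟨b, hb, hb2.symm⟩
      · rcases hB v hv with rfl | ⟨a, ha, ha2, _⟩
        · exact Or.inl (Or.inl (Or.inl hνmz))
        · have : ν (m v) = a := by rw [← ha2, hν.invol]
          rw [this]
          exact Or.inl (Or.inr ha)
    · intro w hw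
      simp only [Finset.mem_union, Finset.mem_insert, Finset.mem_singleton, List.mem_toFinset, List.mem_map] at hw
      rcases hw with ((rfl | rfl) | hw) | ⟨v, hv, rfl⟩
      · rw [hs, hνs]; exact ⟨hsz1, hsz1.symm⟩
      · rw [ht, hνt]; exact ⟨hxt1.symm, hxt1⟩
      · rcases List.mem_cons.1 hw with rfl | hw
        · rw [hνx]; exact ⟨hmx, hxt1.symm⟩
        · obtain ⟨b, _, hb2, hb3, hb4⟩ := hA w hw
          rw [hb2]
          exact ⟨hb3, hb4.symm⟩
      · rcases hB v hv with rfl | ⟨a, _, ha2, ha3, ha4⟩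
        · rw [hm.invol, hνmz]; exact ⟨hzs, hsz1⟩
        · have : ν (m v) = a := by rw [← ha2, hν.invol]
          rw [hm.invol, this]
          refine ⟨?_, ha4⟩
          rintro rfl
          exact ha3 rfl

private theorem dcb_mate {S : Finset (Fin n)} {j : ℕ} (hm : Mate G m) (hν : Mate G ν) (hS : AP G m S j)
    (hcl : ∀ x ∈ S, ν x ∈ S) : Mate G (fun x => if x ∈ S then m x else ν x) := by
  refine ⟨fun x => ?_, fun x hx => ?_⟩
  · by_cases h : x ∈ S
    · have h2 : m x ∈ S := ap_mate hm hS h
      simp only [h, h2, if_true, hm.invol]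
    · have h2 : ν x ∉ S := by
        intro h3
        apply h
        have h4 := hcl _ h3
        rwa [hν.invol] at h4
      simp only [h, h2, if_false, hν.invol]
  · by_cases h : x ∈ S
    · simp only [h, if_true] at hx ⊢
      exact hm.adj x hx
    · simp only [h, if_false] at hx ⊢
      exact hν.adj x hx

private theorem dcb_cv {S : Finset (Fin n)} {j : ℕ} (hm : Mate G m) (hS : AP G m S j)
    (hne : ∀ x ∈ S, m x ≠ ν x ∧ ν x ≠ x) : cv (fun x => if x ∈ S then m x else ν x) + 2 = cv ν := by
  have h2 : ∑ w : Fin n, (if w ∈ S ∧ m w = w then 1 else 0) = 2 := by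
    rw [← Finset.card_filter, ← ap_fixed hm hS]
    congr 1
    ext w
    simp
  unfold cv
  rw [Finset.card_filter, Finset.card_filter]
  conv_lhs => rw [← h2]
  rw [← Finset.sum_add_distrib]
  refine Finset.sum_congr rfl fun w _ => ?_
  by_cases h : w ∈ S
  · have h3 := (hne w h).2
    by_cases h4 : m w = w
    · simp [h, h3, h4]
    · simp [h, h3, h4]
  · simp [h]

/-- Job DCB. Induction on `k` for all `ν`. `k + 1`: take `S` from `dec_one`; `ν₂ x = m x` for `x ∈ S`, `ν x` otherwise (`S` is closed under `m`, `ν`: `ap_mate`). `cv ν₂ = cv ν - 2` since `ν` moves all vertices of `S`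
and `m` all but two (`ap_fixed`). The sets for `ν₂` are disjoint from `S` since `m x = ν₂ x` for `x ∈ S`. -/
theorem dec (hm : Mate G m) (hν : Mate G ν) (k : ℕ) (h : cv ν = cv m + 2 * k) :
    ∃ (S : Fin k → Finset (Fin n)) (l : Fin k → ℕ), (∀ i, AP G m (S i) (l i)) ∧ (∀ i j, i ≠ j → Disjoint (S i) (S j)) ∧
      ∀ i, ∀ x ∈ S i, m x ≠ ν x := by
  induction k generalizing ν with
  | zero =>
    exact ⟨fun i => i.elim0, fun i => i.elim0, fun i => i.elim0, fun i => i.elim0, fun i => i.elim0⟩
  | succ k ih =>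
    obtain ⟨S, j, hS, hcl, hne⟩ := dec_one hm hν (by omega)
    have hc := dcb_cv hm hS hne
    obtain ⟨S', l, h1, h2, h3⟩ := ih (dcb_mate hm hν hS hcl) (by omega)
    have hd : ∀ i, ∀ x ∈ S' i, x ∉ S := by
      intro i x hx hxS
      have h4 := h3 i x hx
      simp only [hxS, if_true] at h4
      exact h4 rfl
    refine ⟨Fin.cons S S', Fin.cons j l, ?_, ?_, ?_⟩
    · intro i
      refine Fin.cases ?_ (fun i => ?_) i
      · simpa using hS
      · simpa using h1 i
    · intro i i'
      refine Fin.cases ?_ (fun i => ?_) i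
      · refine Fin.cases ?_ (fun i' => ?_) i'
        · intro h4
          exact absurd rfl h4
        · intro _
          simp only [Fin.cons_zero, Fin.cons_succ]
          rw [Finset.disjoint_left]
          intro x hx hx2
          exact hd i' x hx2 hx
      · refine Fin.cases ?_ (fun i' => ?_) i'
        · intro _
          simp only [Fin.cons_zero, Fin.cons_succ]
          rw [Finset.disjoint_left]
          intro x hx hx2
          exact hd i x hx hx2
        · intro h4
          simp only [Fin.cons_succ]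
          exact h2 i i' (fun h5 => h4 (by rw [h5]))
    · intro i
      refine Fin.cases ?_ (fun i => ?_) i
      · intro x hx
        simp only [Fin.cons_zero] at hx
        exact (hne x hx).1
      · intro x hx
        simp only [Fin.cons_succ] at hx
        have h4 := h3 i x hx
        have h5 := hd i x hx
        simpa only [h5, if_false] using h4

end Pool.Agent.SUB
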