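import Pool.Agent.Lib.MP_0087d5_lc.AUG.SearchProg

/-!
# Definitions

A matching of a graph `G` on `Fin n` is given by its mate map `m` (`Mate G m`; exposed vertices are fixed points). `cv m` = number of covered vertices, `df m ν` = number of vertices where
`m`, `ν` differ. `AP G m S k`: `S` is the vertex set of an augmenting path with `2 k + 2` vertices. `lam G m`: the least such `k`. `Mxl G m`: there is no augmenting path.

The extended graph `VS n` with mate map `ms m` and edges `Es G m`: an additional vertex `vc x` for every exposed vertex `x`, matched with `x`, and two vertices `rr` (the root) and its mate; `rr` is adjacent to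
all `vc x`. Regular walks from `rr` to `vc t` are the augmenting paths. `lv G m x` = distance from `rr` to `x` (1 for exposed vertices).
At the threshold `lam G m + 2` (the length of the shortest walks to vertices `vc t`) the components of the threshold graph are the classes, `Cla G m b x`: `x` is in the class of `b`.
Nodes `Nd G m b`: the alive vertices on levels at most `lam G m + 1`, the lower one of the two vertices of a pair.
-/

namespace Pool.Agent.SUB

open Relation Finset Pool.Agent.AUG

variable {n : ℕ}

open Classical in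
/-- The number of covered vertices. -/
noncomputable def cv (m : Fin n → Fin n) : ℕ := (univ.filter (fun w => m w ≠ w)).card

open Classical in
/-- The number of vertices where two maps differ. -/
noncomputable def df (m ν : Fin n → Fin n) : ℕ := (univ.filter (fun w => m w ≠ ν w)).card

/-- `S` is the vertex set of an augmenting path with `2 k + 2` vertices. -/
def AP (G : SimpleGraph (Fin n)) (m : Fin n → Fin n) (S : Finset (Fin n)) (k : ℕ) : Prop :=
  ∃ s t, s ≠ t ∧ m s = s ∧ m t = t ∧
    ((k = 0 ∧ G.Adj s t ∧ S = {s, t}) ∨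
      ∃ z x L d, k = d + 1 ∧ m z ≠ z ∧ G.Adj s (m z) ∧ WW m (one (EE G m)) z (x :: L) d ∧ G.Adj x t ∧
        S = {s, t} ∪ (x :: L).toFinset ∪ ((x :: L).map m).toFinset)

/-- The length of the shortest augmenting paths. -/
noncomputable def lam (G : SimpleGraph (Fin n)) (m : Fin n → Fin n) : ℕ := sInf {k | ∃ S, AP G m S k}

/-- There is no augmenting path. -/
def Mxl (G : SimpleGraph (Fin n)) (m : Fin n → Fin n) : Prop := ∀ S k, ¬ AP G m S k

/-- `m'` is obtained from `m` by `g` disjoint shortest augmentations (as far as the sizes are concerned). -/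
def Sp (G : SimpleGraph (Fin n)) (m m' : Fin n → Fin n) (g : ℕ) : Prop :=
  Mate G m' ∧ cv m' = cv m + 2 * g ∧ df m m' ≤ g * (2 * lam G m + 2)

open Classical in
/-- The largest number of disjoint shortest augmenting paths. -/
noncomputable def pk (G : SimpleGraph (Fin n)) (m : Fin n → Fin n) : ℕ :=
  Nat.findGreatest (fun k => ∃ ν, Sp G m ν k) n

/-- The graph restricted to a set of vertices. -/
def rG (G : SimpleGraph (Fin n)) (Z : Fin n → Prop) : SimpleGraph (Fin n) where
  Adj x y := G.Adj x y ∧ Z x ∧ Z y
  symm := ⟨fun _ _ h => ⟨h.1.symm, h.2.2, h.2.1⟩⟩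
  loopless := ⟨fun _ h => h.1.ne rfl⟩

open Classical in
/-- The mate map restricted to a set of vertices. -/
noncomputable def rm (m : Fin n → Fin n) (Z : Fin n → Prop) (x : Fin n) : Fin n := if Z x then m x else x

/-! ### The extended graph -/

/-- The vertices of the extended graph. -/
abbrev VS (n : ℕ) : Type := (Fin n ⊕ Fin n) ⊕ Bool

/-- The vertex `x`. -/
abbrev vv (x : Fin n) : VS n := Sum.inl (Sum.inl x)

/-- The mate of an exposed vertex `x`. -/
abbrev vc (x : Fin n) : VS n := Sum.inl (Sum.inr x)

/-- The root. -/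
abbrev rr : VS n := Sum.inr true

/-- The mate map of the extended graph. -/
def ms (m : Fin n → Fin n) : VS n → VS n
  | Sum.inl (Sum.inl x) => if m x = x then Sum.inl (Sum.inr x) else Sum.inl (Sum.inl (m x))
  | Sum.inl (Sum.inr x) => if m x = x then Sum.inl (Sum.inl x) else Sum.inl (Sum.inr x)
  | Sum.inr b => Sum.inr (!b)

/-- The edges of the extended graph. -/
def Es (G : SimpleGraph (Fin n)) (m : Fin n → Fin n) : VS n → VS n → Prop
  | Sum.inl (Sum.inl x), Sum.inl (Sum.inl y) => G.Adj x y ∧ m x ≠ y
  | Sum.inl (Sum.inr x), Sum.inr true => m x = x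
  | Sum.inr true, Sum.inl (Sum.inr x) => m x = x
  | _, _ => False

/-- The distances from the root. -/
noncomputable abbrev ds (G : SimpleGraph (Fin n)) (m : Fin n → Fin n) : VS n → ℕ := dd (ms m) (Es G m) rr

/-- The level of a vertex. -/
noncomputable def lv (G : SimpleGraph (Fin n)) (m : Fin n → Fin n) (x : Fin n) : ℕ := ds G m (vv x)

/-- `x` is in the class of `b`. -/
def Cla (G : SimpleGraph (Fin n)) (m : Fin n → Fin n) (b x : Fin n) : Prop :=
  Cn (ms m) (Es G m) (ds G m) (lam G m + 2) (vv b) (vv x)

/-- Nodes. -/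
def Nd (G : SimpleGraph (Fin n)) (m : Fin n → Fin n) (b : Fin n) : Prop :=
  lv G m b ≤ lam G m + 1 ∧ Al (ms m) (ds G m) (lam G m + 2) (vv b) ∧
    (m b = b ∨ lv G m b < lv G m (m b) ∨ (lv G m b = lv G m (m b) ∧ b < m b))

/-- There is an edge from the class of `b` up to `c`. -/
def Upp (G : SimpleGraph (Fin n)) (m : Fin n → Fin n) (b c : Fin n) : Prop :=
  ∃ x, Cla G m b x ∧ G.Adj x (m c) ∧ x ≠ c ∧ lv G m x + 1 = lv G m c

/-- There is an edge between the classes of `p` and `q` in the middle of a shortest augmenting path. -/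
def Brr (G : SimpleGraph (Fin n)) (m : Fin n → Fin n) (p q : Fin n) : Prop :=
  ∃ x y, Cla G m p x ∧ Cla G m q y ∧ G.Adj x y ∧ m x ≠ y ∧ lv G m x + lv G m y = lam G m + 2

/-- Chains from `r` upwards; the list is in reversed order. -/
inductive Chn {V : Type*} (U : V → V → Prop) (r : V) : List V → Prop
  | nil : Chn U r [r]
  | cons {b c : V} {L : List V} : Chn U r (b :: L) → U b c → Chn U r (c :: b :: L)

/-! ### Maximal matchings -/

/-- `M` is a maximal matching of `H` (with respect to inclusion). -/
def MaxlM (H M : SimpleGraph (Fin n)) : Prop :=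
  IsMat H M ∧ ∀ x y, H.Adj x y → (∃ z, M.Adj x z) ∨ ∃ z, M.Adj y z

/-! ### The growth of structures -/

/-- The states: `σ.1 b r`: `b` was visited by the structure of `r`; `σ.2 b`: `b` is active. -/
abbrev St (n : ℕ) : Type := (Fin n → Fin n → Prop) × (Fin n → Prop)

/-- The initial state. -/
def g0 (rt : Fin n → Prop) : St n := (fun b r => b = r ∧ rt r, rt)

/-- The head of a structure: the highest active node. -/
def hd (le : Fin n → Fin n → Prop) (σ : St n) (h : Fin n) : Prop :=
  σ.2 h ∧ ∃ r, σ.1 h r ∧ ∀ h', σ.2 h' → σ.1 h' r → le h' h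

/-- The node `c` is wanted by the head `h`. -/
def wt (nd : Fin n → Prop) (le up : Fin n → Fin n → Prop) (σ : St n) (h c : Fin n) : Prop :=
  hd le σ h ∧ nd c ∧ (∀ r, ¬ σ.1 c r) ∧ up h c

/-- The head `h` is extended by the node `c`. -/
def qt (mx : SimpleGraph (Fin n) → SimpleGraph (Fin n)) (nd : Fin n → Prop) (le up : Fin n → Fin n → Prop) (σ : St n) (h c : Fin n) : Prop :=
  wt nd le up σ h c ∧ (mx (SimpleGraph.fromRel (wt nd le up σ))).Adj h c

/-- One step: a maximal matching between heads and wanted nodes; the matched heads are extended, the other heads are deactivated. -/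
def gst (mx : SimpleGraph (Fin n) → SimpleGraph (Fin n)) (nd : Fin n → Prop) (le up : Fin n → Fin n → Prop) (σ : St n) : St n :=
  (fun c r => σ.1 c r ∨ ∃ h, qt mx nd le up σ h c ∧ σ.1 h r,
    fun b => (σ.2 b ∧ ¬ (hd le σ b ∧ ∀ c, ¬ qt mx nd le up σ b c)) ∨ ∃ h, qt mx nd le up σ h b)

end Pool.Agent.SUB
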