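import Pool.Agent.Lib.MP_0087d5_lc.SUB.Circ
import Pool.Agent.Lib.MP_0087d5_lc.UPM.NCP

/-!
# First-order definable wires

Job FO.
-/

namespace Pool.Agent.SUB

variable {ι κ : Type} {P Q : ∀ n : ℕ, (ι → Fin n) → Prop}

theorem fm_congr (h : FOM ι P) (hPQ : ∀ n x, P n x ↔ Q n x) : FOM ι Q := by
  have : P = Q := by funext n x; exact propext (hPQ n x)
  exact this ▸ h

/-- Curried form of `FOM.ex`. -/
theorem fm_ex1 {R : ∀ n : ℕ, (ι → Fin n) → Fin n → Prop}
    (h : FOM (Option ι) (fun n z => R n (fun i => z (some i)) (z none))) :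
    FOM ι (fun n x => ∃ a : Fin n, R n x a) :=
  FOM.ex h

/-- Job FO. Renaming variables (induction on the definition, for all `e`). -/
theorem FOM.comap (e : ι → κ) (h : FOM ι P) : FOM κ (fun n x => P n (fun i => x (e i))) := by
  induction h generalizing κ with
  | le i j => exact FOM.le (e i) (e j)
  | add i j k => exact FOM.add (e i) (e j) (e k)
  | not _ ih => exact FOM.not (ih e)
  | and _ _ ih1 ih2 => exact FOM.and (ih1 e) (ih2 e)
  | mul i j k => exact FOM.mul (e i) (e j) (e k)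
  | ex _ ih =>
    refine fm_congr (FOM.ex (ih (Option.map e))) (fun n x => ?_)
    apply exists_congr
    intro a
    have : (fun o : Option _ => (Option.map e o).elim a x) = fun o => o.elim a (fun i => x (e i)) := by
      funext o
      cases o <;> rfl
    rw [← this]

theorem FOM.or (hP : FOM ι P) (hQ : FOM ι Q) : FOM ι (fun n x => P n x ∨ Q n x) := by
  refine fm_congr (FOM.not (FOM.and (FOM.not hP) (FOM.not hQ))) (fun n x => ?_)
  tauto

theorem FOM.imp (hP : FOM ι P) (hQ : FOM ι Q) : FOM ι (fun n x => P n x → Q n x) := by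
  refine fm_congr (FOM.not (FOM.and hP (FOM.not hQ))) (fun n x => ?_)
  tauto

theorem FOM.all {P : ∀ n : ℕ, (Option ι → Fin n) → Prop} (hP : FOM (Option ι) P) :
    FOM ι (fun n x => ∀ a : Fin n, P n (fun o => o.elim a x)) := by
  refine fm_congr (FOM.not (FOM.ex (FOM.not hP))) (fun n x => ?_)
  push Not
  rfl

/-- Curried form of `FOM.all`. -/
theorem fm_all1 {R : ∀ n : ℕ, (ι → Fin n) → Fin n → Prop}
    (h : FOM (Option ι) (fun n z => R n (fun i => z (some i)) (z none))) :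
    FOM ι (fun n x => ∀ a : Fin n, R n x a) :=
  FOM.all h

/-- Constant propositions. (For empty `ι` one still has sentences, e.g. the sentence ∃ a, a ≤ a; constants are obtained by combining.) -/
theorem FOM.const (p : Prop) : FOM ι (fun _ _ => p) := by
  have h0 : FOM ι (fun n _ => ∃ a : Fin n, a ≤ a) := fm_ex1 (R := fun n _ a => a ≤ a) (FOM.le none none)
  by_cases hp : p
  · refine fm_congr (FOM.or h0 (FOM.not h0)) (fun n x => ?_)
    tauto
  · refine fm_congr (FOM.and h0 (FOM.not h0)) (fun n x => ?_)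
    tauto

theorem FOM.eq (i j : ι) : FOM ι (fun _ x => x i = x j) := by
  refine fm_congr (FOM.and (FOM.le i j) (FOM.le j i)) (fun n x => ?_)
  exact ⟨fun h => le_antisymm h.1 h.2, fun h => ⟨h.le, h.ge⟩⟩

theorem FOM.lt (i j : ι) : FOM ι (fun _ x => x i < x j) := by
  refine fm_congr (FOM.not (FOM.le j i)) (fun n x => ?_)
  exact not_le

theorem FOM.allFin {J : Type} [Finite J] {P : J → ∀ n : ℕ, (ι → Fin n) → Prop} (h : ∀ j, FOM ι (P j)) :
    FOM ι (fun n x => ∀ j, P j n x) := by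
  classical
  have := Fintype.ofFinite J
  have key : ∀ t : Finset J, FOM ι (fun n x => ∀ j ∈ t, P j n x) := by
    intro t
    induction t using Finset.induction_on with
    | empty =>
      refine fm_congr (FOM.const True) (fun n x => ?_)
      simp
    | insert a t _ ih =>
      refine fm_congr (FOM.and (h a) ih) (fun n x => ?_)
      rw [Finset.forall_mem_insert]
  refine fm_congr (key Finset.univ) (fun n x => ?_)
  simp

theorem FOM.exFin {J : Type} [Finite J] {P : J → ∀ n : ℕ, (ι → Fin n) → Prop} (h : ∀ j, FOM ι (P j)) :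
    FOM ι (fun n x => ∃ j, P j n x) := by
  refine fm_congr (FOM.not (FOM.allFin (fun j => FOM.not (h j)))) (fun n x => ?_)
  push Not
  rfl

theorem FOM.zero (i : ι) : FOM ι (fun _ x => (x i : ℕ) = 0) := by
  refine fm_congr (FOM.add i i i) (fun n x => ?_)
  omega

theorem FOM.succ (i j : ι) : FOM ι (fun _ x => (x i : ℕ) = (x j : ℕ) + 1) := by
  have h1 : FOM (Option ι) (fun n z => ¬ (z (some j) < z none ∧ z none < z (some i))) :=
    FOM.not (FOM.and (FOM.lt _ _) (FOM.lt _ _))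
  refine fm_congr (FOM.and (FOM.lt j i) (fm_all1 (R := fun n x a => ¬ (x j < a ∧ a < x i)) h1))
    (fun n x => ?_)
  constructor
  · rintro ⟨h2, h3⟩
    by_contra hne
    have h4 : (x j : ℕ) < (x i : ℕ) := h2
    have h5 : (x j : ℕ) + 1 < (x i : ℕ) := by omega
    exact h3 ⟨(x j : ℕ) + 1, h5.trans (x i).2⟩ ⟨Fin.lt_def.2 (Nat.lt_succ_self _), Fin.lt_def.2 h5⟩
  · intro h2
    refine ⟨Fin.lt_def.2 (by omega), ?_⟩
    rintro a ⟨h3, h4⟩
    have h3' : (x j : ℕ) < (a : ℕ) := h3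
    have h4' : (a : ℕ) < (x i : ℕ) := h4
    omega

theorem FOM.max (i : ι) : FOM ι (fun n x => (x i : ℕ) + 1 = n) := by
  refine fm_congr (fm_all1 (R := fun n x a => a ≤ x i) (FOM.le none (some i))) (fun n x => ?_)
  constructor
  · intro h
    have h1 := (x i).2
    have h2 : (⟨n - 1, by omega⟩ : Fin n) ≤ x i := h _
    have h3 : n - 1 ≤ (x i : ℕ) := h2
    omega
  · intro h a
    rw [Fin.le_def]
    have := a.2
    omega

theorem FOM.dbl (i j : ι) : FOM ι (fun _ x => (x i : ℕ) = 2 * (x j : ℕ)) := by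
  refine fm_congr (FOM.add j j i) (fun n x => ?_)
  omega

theorem FOM.dblsucc (i j : ι) : FOM ι (fun _ x => (x i : ℕ) = 2 * (x j : ℕ) + 1) := by
  refine fm_congr (fm_ex1 (R := fun n x a => (a : ℕ) = 2 * (x j : ℕ) ∧ (x i : ℕ) = (a : ℕ) + 1)
    (FOM.and (FOM.dbl none (some j)) (FOM.succ (some i) none))) (fun n x => ?_)
  constructor
  · rintro ⟨a, h1, h2⟩
    omega
  · intro h
    exact ⟨⟨2 * (x j : ℕ), by have := (x i).2; omega⟩, rfl, h⟩

theorem FOM.half (i j : ι) : FOM ι (fun _ x => (x i : ℕ) = (x j : ℕ) / 2) := by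
  refine fm_congr (FOM.or (FOM.dbl j i) (FOM.dblsucc j i)) (fun n x => ?_)
  omega

/-- a + n = 2 i, for the leaves of the tree: with d = (n-1) - i this says a + d + 1 = i. -/
theorem FOM.leaf0 (a i : ι) : FOM ι (fun n x => (x a : ℕ) + n = 2 * (x i : ℕ)) := by
  have h1 : FOM (Option (Option (Option ι))) (fun n z => ((z (some (some none)) : ℕ) + 1 = n ∧
      (z (some none) : ℕ) + (z (some (some (some i))) : ℕ) = (z (some (some none)) : ℕ)) ∧
      ((z (some (some (some a))) : ℕ) + (z (some none) : ℕ) = (z none : ℕ) ∧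
        (z (some (some (some i))) : ℕ) = (z none : ℕ) + 1)) :=
    FOM.and (FOM.and (FOM.max _) (FOM.add _ _ _)) (FOM.and (FOM.add _ _ _) (FOM.succ _ _))
  have h2 := fm_ex1 (R := fun n (z : Option (Option ι) → Fin n) (e : Fin n) => ((z (some none) : ℕ) + 1 = n ∧
      (z none : ℕ) + (z (some (some i)) : ℕ) = (z (some none) : ℕ)) ∧
      ((z (some (some a)) : ℕ) + (z none : ℕ) = (e : ℕ) ∧
        (z (some (some i)) : ℕ) = (e : ℕ) + 1)) h1
  have h3 := fm_ex1 (R := fun n (z : Option ι → Fin n) (d : Fin n) => ∃ e : Fin n, ((z none : ℕ) + 1 = n ∧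
      (d : ℕ) + (z (some i) : ℕ) = (z none : ℕ)) ∧
      ((z (some a) : ℕ) + (d : ℕ) = (e : ℕ) ∧ (z (some i) : ℕ) = (e : ℕ) + 1)) h2
  have h4 := fm_ex1 (R := fun n (z : ι → Fin n) (m : Fin n) => ∃ d e : Fin n, ((m : ℕ) + 1 = n ∧
      (d : ℕ) + (z i : ℕ) = (m : ℕ)) ∧ ((z a : ℕ) + (d : ℕ) = (e : ℕ) ∧ (z i : ℕ) = (e : ℕ) + 1)) h3
  refine fm_congr h4 (fun n x => ?_)
  constructor
  · rintro ⟨m, d, e, ⟨g1, g2⟩, g3, g4⟩
    omega
  · intro h
    have g1 := (x i).2
    have g2 := (x a).2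
    exact ⟨⟨n - 1, by omega⟩, ⟨n - 1 - (x i : ℕ), by omega⟩, ⟨(x i : ℕ) - 1, by omega⟩,
      ⟨by simp only; omega, by simp only; omega⟩, by simp only; omega, by simp only; omega⟩

theorem FOM.leaf1 (a i : ι) : FOM ι (fun n x => (x a : ℕ) + n = 2 * (x i : ℕ) + 1) := by
  have h2 : FOM (Option (Option ι)) (fun n z => ((z (some none) : ℕ) + 1 = n ∧
      (z none : ℕ) + (z (some (some i)) : ℕ) = (z (some none) : ℕ)) ∧
      ((z (some (some a)) : ℕ) + (z none : ℕ) = (z (some (some i)) : ℕ))) :=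
    FOM.and (FOM.and (FOM.max _) (FOM.add _ _ _)) (FOM.add _ _ _)
  have h3 := fm_ex1 (R := fun n (z : Option ι → Fin n) (d : Fin n) => ((z none : ℕ) + 1 = n ∧
      (d : ℕ) + (z (some i) : ℕ) = (z none : ℕ)) ∧
      ((z (some a) : ℕ) + (d : ℕ) = (z (some i) : ℕ))) h2
  have h4 := fm_ex1 (R := fun n (z : ι → Fin n) (m : Fin n) => ∃ d : Fin n, ((m : ℕ) + 1 = n ∧
      (d : ℕ) + (z i : ℕ) = (m : ℕ)) ∧ ((z a : ℕ) + (d : ℕ) = (z i : ℕ))) h3
  refine fm_congr h4 (fun n x => ?_)
  constructor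
  · rintro ⟨m, d, ⟨g1, g2⟩, g3⟩
    omega
  · intro h
    have g1 := (x i).2
    have g2 := (x a).2
    exact ⟨⟨n - 1, by omega⟩, ⟨n - 1 - (x i : ℕ), by omega⟩,
      ⟨by simp only; omega, by simp only; omega⟩, by simp only; omega⟩

theorem fm_val (i : ι) (k : ℕ) : FOM ι (fun _ x => (x i : ℕ) = k) := by
  induction k generalizing ι with
  | zero => exact FOM.zero i
  | succ k ih =>
    refine fm_congr (fm_ex1 (R := fun n x a => (a : ℕ) = k ∧ (x i : ℕ) = (a : ℕ) + 1)
      (FOM.and (ih none) (FOM.succ (some i) none))) (fun n x => ?_)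
    constructor
    · rintro ⟨a, h1, h2⟩
      omega
    · intro h
      exact ⟨⟨k, by have := (x i).2; omega⟩, rfl, h⟩

theorem FOM.nLe (k : ℕ) : FOM ι (fun n _ => k ≤ n) := by
  cases k with
  | zero =>
    refine fm_congr (FOM.const True) (fun n x => ?_)
    simp
  | succ k =>
    refine fm_congr (fm_ex1 (R := fun n _ a => (a : ℕ) = k) (fm_val none k)) (fun n x => ?_)
    constructor
    · rintro ⟨a, ha⟩
      have := a.2
      omega
    · intro h
      exact ⟨⟨k, by omega⟩, rfl⟩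

theorem FOM.nEq (k : ℕ) : FOM ι (fun n _ => n = k) := by
  refine fm_congr (FOM.and (FOM.nLe k) (FOM.not (FOM.nLe (k + 1)))) (fun n x => ?_)
  omega

end Pool.Agent.SUB
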