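import Pool.Agent.Lib.MP_0087d5_lc.SUB.Dec

/-!
# The analysis of Hopcroft and Karp with the distance `df` of matchings

Jobs HKA (`df_*`, `dec_lb`, `dec_tight`, `k_bound`), HKB (`sp_*`, `pk_*`).
-/

namespace Pool.Agent.SUB

open Relation Finset Pool.Agent.AUG

variable {n : ℕ} {G : SimpleGraph (Fin n)} {m m' m₁ m₂ m₃ ν : Fin n → Fin n} {k g g' : ℕ}

/-- Job HKA. -/
theorem df_triangle : df m₁ m₃ ≤ df m₁ m₂ + df m₂ m₃ := by
  classical
  unfold df
  refine le_trans (Finset.card_le_card ?_) (Finset.card_union_le _ _)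
  intro w hw
  simp only [Finset.mem_union, Finset.mem_filter, Finset.mem_univ, true_and] at hw ⊢
  by_contra hcon
  push Not at hcon
  exact hw (hcon.1.trans hcon.2)

/-- Job HKA. -/
theorem df_self : df m m = 0 := by
  simp [df]

private theorem hka_df_le : df m ν ≤ n := by
  classical
  unfold df
  exact le_trans (Finset.card_le_univ _) (by simp)

/-- The sets of a decomposition are disjoint subsets of the set of differences. -/
private theorem hka_sum (hm : Mate G m) {S : Fin k → Finset (Fin n)} {l : Fin k → ℕ} (h1 : ∀ i, AP G m (S i) (l i))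
    (h2 : ∀ i j, i ≠ j → Disjoint (S i) (S j)) (h3 : ∀ i, ∀ x ∈ S i, m x ≠ ν x) :
    ∑ i, (2 * l i + 2) ≤ df m ν := by
  classical
  have hcard : (Finset.univ.biUnion S).card = ∑ i, (S i).card := by
    apply Finset.card_biUnion
    intro i _ j _ hij
    exact h2 i j hij
  have hs : ∑ i, (2 * l i + 2) = ∑ i, (S i).card :=
    Finset.sum_congr rfl fun i _ => (ap_card hm (h1 i)).symm
  rw [hs, ← hcard]
  unfold df
  apply Finset.card_le_card
  intro x hx
  obtain ⟨i, _, hi⟩ := Finset.mem_biUnion.1 hx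
  exact Finset.mem_filter.2 ⟨Finset.mem_univ _, h3 i x hi⟩

/-- Job HKA. The sets of `dec` are disjoint subsets of `{x | m x ≠ ν x}`, of cardinality `2 l i + 2` (`ap_card`), `lam G m ≤ l i` (`lam_le`). -/
theorem dec_lb (hm : Mate G m) (hν : Mate G ν) (h : cv ν = cv m + 2 * k) : k * (2 * lam G m + 2) ≤ df m ν := by
  obtain ⟨S, l, h1, h2, h3⟩ := dec hm hν k h
  refine le_trans ?_ (hka_sum hm h1 h2 h3)
  have : ∑ _i : Fin k, (2 * lam G m + 2) ≤ ∑ i, (2 * l i + 2) := by
    apply Finset.sum_le_sum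
    intro i _
    have := lam_le (h1 i)
    omega
  simpa using this

/-- Job HKA. If `df m ν ≤ k * (2 * lam G m + 2)` then all `l i` are equal to `lam G m`. -/
theorem dec_tight (hm : Mate G m) (h : Sp G m ν k) :
    ∃ S : Fin k → Finset (Fin n), (∀ i, AP G m (S i) (lam G m)) ∧ ∀ i j, i ≠ j → Disjoint (S i) (S j) := by
  obtain ⟨hν, hc, hd⟩ := h
  obtain ⟨S, l, h1, h2, h3⟩ := dec hm hν k hc
  have hsum := hka_sum hm h1 h2 h3
  have hk : ∑ _i : Fin k, (2 * lam G m + 2) = k * (2 * lam G m + 2) := by simp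
  have hle : ∀ i ∈ (Finset.univ : Finset (Fin k)), 2 * lam G m + 2 ≤ 2 * l i + 2 := by
    intro i _
    have := lam_le (h1 i)
    omega
  have heq : ∑ _i : Fin k, (2 * lam G m + 2) = ∑ i, (2 * l i + 2) := by
    apply le_antisymm (Finset.sum_le_sum hle)
    rw [hk]
    exact hsum.trans hd
  have hall := (Finset.sum_eq_sum_iff_of_le hle).1 heq
  refine ⟨S, fun i => ?_, h2⟩
  have h4 := hall i (Finset.mem_univ i)
  have h5 : l i = lam G m := by omega
  exact h5 ▸ h1 i

/-- Job HKA. (`df m ν ≤ n`.) -/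
theorem k_bound (hm : Mate G m) (hν : Mate G ν) (h : cv ν = cv m + 2 * k) : k * (2 * lam G m + 2) ≤ n :=
  (dec_lb hm hν h).trans hka_df_le

/-- Job HKB. -/
theorem sp_zero (hm : Mate G m) : Sp G m m 0 := by
  refine ⟨hm, by simp, ?_⟩
  rw [df_self]
  exact Nat.zero_le _

/-- Job HKB. Augment `m'` along a shortest path (`lam_mem`, `ap_aug`, `ap_card`: `df m' ν ≤ 2 * lam G m' + 2`): `cv ν = cv m + 2 (g + 1)`, so `(g + 1) * (2 * lam G m + 2) ≤ df m ν` (`dec_lb`) `≤ g * (2 * lam G m + 2) + (2 * lam G m' + 2)`. -/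
theorem sp_lam (hm : Mate G m) (h : Sp G m m' g) (h' : ¬ Mxl G m') : lam G m ≤ lam G m' := by
  classical
  obtain ⟨hm', hc, hd⟩ := h
  obtain ⟨S, hS⟩ := lam_mem h'
  obtain ⟨ν, hν, hcν, hfix⟩ := ap_aug hm' hS
  have hdf : df m' ν ≤ 2 * lam G m' + 2 := by
    rw [← ap_card hm' hS]
    unfold df
    apply Finset.card_le_card
    intro x hx
    by_contra hxS
    exact (Finset.mem_filter.1 hx).2 (hfix x hxS).symm
  have h1 : (g + 1) * (2 * lam G m + 2) ≤ df m ν := dec_lb hm hν (by omega)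
  have h2 : df m ν ≤ df m m' + df m' ν := df_triangle
  have h3 : (g + 1) * (2 * lam G m + 2) = g * (2 * lam G m + 2) + (2 * lam G m + 2) := by ring
  rw [h3] at h1
  generalize g * (2 * lam G m + 2) = q at hd h1
  omega

/-- Job HKB. -/
theorem sp_trans (h : Sp G m m₁ g) (h₁ : Sp G m₁ m₂ g') (he : lam G m₁ = lam G m) : Sp G m m₂ (g + g') := by
  obtain ⟨_, hc, hd⟩ := h
  obtain ⟨hm₂, hc₁, hd₁⟩ := h₁
  rw [he] at hd₁
  refine ⟨hm₂, by omega, ?_⟩
  rw [add_mul]
  exact df_triangle.trans (Nat.add_le_add hd hd₁)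

/-- Job HKB. -/
theorem sp_le (h : Sp G m m' g) : 2 * g ≤ n := by
  classical
  obtain ⟨_, hc, _⟩ := h
  have h1 : cv m' ≤ n := by
    unfold cv
    exact le_trans (Finset.card_le_univ _) (by simp)
  omega

/-- Job HKB. (`Nat.findGreatest_spec`.) -/
theorem pk_spec (hm : Mate G m) : ∃ ν, Sp G m ν (pk G m) := by
  classical
  unfold pk
  exact Nat.findGreatest_spec (P := fun k => ∃ ν, Sp G m ν k) (Nat.zero_le n) ⟨m, sp_zero hm⟩

/-- Job HKB. -/
theorem le_pk (h : Sp G m m' g) : g ≤ pk G m := by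
  classical
  have h1 : g ≤ n := by
    have := sp_le h
    omega
  unfold pk
  exact Nat.le_findGreatest h1 ⟨m', h⟩

/-- Job HKB. -/
theorem sp_pk (h : Sp G m m' g) (hm' : Mate G m') (he : lam G m' = lam G m) : pk G m' + g ≤ pk G m := by
  obtain ⟨ν, hν⟩ := pk_spec hm'
  have h1 := le_pk (sp_trans h hν he)
  omega

end Pool.Agent.SUB
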