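import Pool.Agent.Lib.MP_0087d5_lc.SUB.Zone
import Pool.Agent.Lib.MP_0087d5_lc.SUB.Chain
import Pool.Agent.Lib.MP_0087d5_lc.SUB.Grow
import Pool.Agent.Lib.MP_0087d5_lc.LF.Param

/-!
# The relations as computed

`s = (G, M)`. `lvK x k`: the level of `x` is `k + 1`. `lamK k`: `lam G (mt M) = k` (and there is an augmenting path). `claK`, `ndK`, `upK`, `leK'`: classes, nodes, edges upwards, comparison of levels. `sAug`: augmentation along a shortest path.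
`mxo`: a maximal matching (exists by `exists_mx`). `growK`: one growth step. `finG`: the matching after a round.
-/

namespace Pool.Agent.SUB

open Relation Finset Pool.Agent.AUG Pool.Agent.UPM

/-- Candidates for the level (minus one) of a covered vertex. -/
def cdK (n : ℕ) (s : GS2 n) (x k : Fin n) : Prop :=
  ∃ a z j : Fin n, mt s.2 a = a ∧ mt s.2 z ≠ z ∧ s.1.Adj a (mt s.2 z) ∧ DK n s z x j ∧ (k : ℕ) = j + 1

/-- The level of `x` is `k + 1`. -/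
def lvK (n : ℕ) (s : GS2 n) (x k : Fin n) : Prop :=
  (mt s.2 x = x ∧ (k : ℕ) = 0) ∨ (mt s.2 x ≠ x ∧ cdK n s x k ∧ ∀ k', cdK n s x k' → k ≤ k')

/-- Candidates for `lam` (not direct). -/
def ldK (n : ℕ) (s : GS2 n) (k : Fin n) : Prop := ∃ a b z x j : Fin n, datK n s a b z x ∧ DK n s z x j ∧ (k : ℕ) = j + 1

/-- `lam = k`. -/
def lamK (n : ℕ) (s : GS2 n) (k : Fin n) : Prop :=
  ((∃ a b, dirK n s a b) ∧ (k : ℕ) = 0) ∨ ((¬ ∃ a b, dirK n s a b) ∧ ldK n s k ∧ ∀ k', ldK n s k' → k ≤ k')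

/-- Adjacency in the threshold graph. -/
def gcK (n : ℕ) (s : GS2 n) (x y : Fin n) : Prop :=
  (s.1.Adj x y ∧ mt s.2 x ≠ y ∧ ∃ i j k : Fin n, lvK n s x i ∧ lvK n s y j ∧ lamK n s k ∧ (i : ℕ) + j + 1 ≤ k) ∨
  (mt s.2 x = y ∧ ∃ i j k : Fin n, lvK n s x i ∧ lvK n s y j ∧ lamK n s k ∧ (i : ℕ) + j ≤ k)

/-- Classes. -/
def claK (n : ℕ) (s : GS2 n) (b x : Fin n) : Prop := ReflTransGen (gcK n s) b x

/-- Nodes. -/
def ndK (n : ℕ) (s : GS2 n) (b : Fin n) : Prop :=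
  ∃ i k : Fin n, lvK n s b i ∧ lamK n s k ∧ i ≤ k ∧
    (mt s.2 b = b ∨ ∀ j, lvK n s (mt s.2 b) j → (k : ℕ) < i + j ∧ (i < j ∨ (i = j ∧ b < mt s.2 b)))

/-- Edges upwards. -/
def upK (n : ℕ) (s : GS2 n) (b c : Fin n) : Prop :=
  ∃ x i j : Fin n, claK n s b x ∧ s.1.Adj x (mt s.2 c) ∧ x ≠ c ∧ lvK n s x i ∧ lvK n s c j ∧ (j : ℕ) = i + 1

/-- Comparison of levels. -/
def leK' (n : ℕ) (s : GS2 n) (b c : Fin n) : Prop := ∃ i j : Fin n, lvK n s b i ∧ lvK n s c j ∧ i ≤ j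

/-- The data of a shortest augmenting path. -/
def datS (n : ℕ) (s : GS2 n) (a b z x : Fin n) : Prop :=
  datK n s a b z x ∧ ∃ j, DK n s z x j ∧ ∀ a' b' z' x' j', datK n s a' b' z' x' → DK n s z' x' j' → j ≤ j'

/-- The edges of the new matching, in one direction (as `stepE`, with `datS` instead of `datK`). -/
def sstepE (n : ℕ) (s : GS2 n) (p q : Fin n) : Prop :=
  (¬ IsMat s.1 s.2 ∧ s.2.Adj p q) ∨
  (IsMat s.1 s.2 ∧ ∃ a b, dirK n s a b ∧ (∀ a' b', dirK n s a' b' → a < a' ∨ (a = a' ∧ b ≤ b')) ∧ (s.2.Adj p q ∨ (p = a ∧ q = b))) ∨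
  (IsMat s.1 s.2 ∧ (¬ ∃ a b, dirK n s a b) ∧ ∃ a b z x, datS n s a b z x ∧
    (∀ a' b' z' x', datS n s a' b' z' x' → a < a' ∨ (a = a' ∧ (b < b' ∨ (b = b' ∧ (z < z' ∨ (z = z' ∧ x ≤ x')))))) ∧
    newE s.2 (mt s.2) (OnK n s z x) (NxK n s z x) a b z x p q) ∨
  (IsMat s.1 s.2 ∧ (¬ ∃ a b, dirK n s a b) ∧ (¬ ∃ a b z x, datS n s a b z x) ∧ s.2.Adj p q)

/-- One augmentation along a shortest path. -/
def sAug (n : ℕ) (G M : SimpleGraph (Fin n)) : SimpleGraph (Fin n) := SimpleGraph.fromRel (sstepE n (G, M))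

/-- The zone of the structure of `r`. -/
def zK (n : ℕ) (s : GS2 n) (Ow : Fin n → Fin n → Prop) (r x : Fin n) : Prop :=
  ∃ b, Ow b r ∧ (claK n s b x ∨ claK n s b (mt s.2 x))

/-- The zone of two structures. -/
def z2 (n : ℕ) (s : GS2 n) (Ow : Fin n → Fin n → Prop) (r r' x : Fin n) : Prop := zK n s Ow r x ∨ zK n s Ow r' x

/-- The graph and the matching restricted to a zone. -/
def rs (n : ℕ) (s : GS2 n) (Ow : Fin n → Fin n → Prop) (r r' : Fin n) : GS2 n :=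
  (rG s.1 (z2 n s Ow r r'), rG s.2 (z2 n s Ow r r'))

/-- The zone of two structures contains a shortest augmenting path. -/
def hK (n : ℕ) (s : GS2 n) (Ow : Fin n → Fin n → Prop) (r r' : Fin n) : Prop :=
  mt s.2 r = r ∧ mt s.2 r' = r' ∧ ∃ k : Fin n, lamK n s k ∧ lamK n (rs n s Ow r r') k

/-- The graph on the roots. -/
def hG (n : ℕ) (s : GS2 n) (Ow : Fin n → Fin n → Prop) : SimpleGraph (Fin n) := SimpleGraph.fromRel (hK n s Ow)

variable (mx : ∀ n : ℕ, SimpleGraph (Fin n) → SimpleGraph (Fin n))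

/-- The edges of the matching after the round, in one direction. -/
def finK (n : ℕ) (s : GS2 n) (Ow : Fin n → Fin n → Prop) (p q : Fin n) : Prop :=
  (∃ r r', (mx n (hG n s Ow)).Adj r r' ∧ z2 n s Ow r r' p ∧ (sAug n (rs n s Ow r r').1 (rs n s Ow r r').2).Adj p q) ∨
  (s.2.Adj p q ∧ ∀ r r', (mx n (hG n s Ow)).Adj r r' → ¬ z2 n s Ow r r' p)

/-- The matching after the round. -/
def finG (n : ℕ) (s : GS2 n) (Ow : Fin n → Fin n → Prop) : SimpleGraph (Fin n) := SimpleGraph.fromRel (finK mx n s Ow)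

/-- One growth step. -/
def growK (n : ℕ) (s : GS2 n) (σ : St n) : St n := gst (mx n) (ndK n s) (leK' n s) (upK n s) σ

/-- One round with `T + 1` growth steps. -/
def rndG (T n : ℕ) (G M : SimpleGraph (Fin n)) : SimpleGraph (Fin n) :=
  finG mx n (G, M) ((growK mx n (G, M))^[T + 1] (g0 (fun x => mt M x = x))).1

end Pool.Agent.SUB
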