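import Pool.Agent.Lib.MP_0087d5_lc.SUB.Defs
import Pool.Agent.Lib.MP_0087d5_lc.MaxMat
import Pool.Agent.Lib.MP_0087d5_lc.WBridge
import Pool.Agent.Lib.MP_0087d5_lc.LF.Param

/-!
# A maximal matching of every graph in NC

The bipartite case is `PMNC.MM` (`mm_spec`). Jobs MXA (`mm_ncp`), MXB (`bm_spec`), MXC (`bm_ncp`), MXD (`mx0_maxl`), MXE (`mx0_ncp`, `mx_ncp`).
-/

namespace Pool.Agent.SUB

open Relation Finset Pool.Agent.AUG Pool.Agent.UPM

variable {n : ℕ} {S : ℕ → Type} {B : Readers S}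

/-- The lexicographic order. -/
def lex4 (b b' : Fin 4 → Fin n) : Prop :=
  b 0 < b' 0 ∨ (b 0 = b' 0 ∧ (b 1 < b' 1 ∨ (b 1 = b' 1 ∧ (b 2 < b' 2 ∨ (b 2 = b' 2 ∧ b 3 ≤ b' 3)))))

/-- The parameters `b` give a maximal matching between `L` and its complement. -/
def vbK (G : SimpleGraph (Fin n)) (L : Fin n → Prop) (b : Fin 4 → Fin n) : Prop :=
  PMNC.PMat G L (PMNC.MM G L b) ∧ ∀ u v, ¬ PMNC.Av G L (PMNC.MM G L b) u v

/-- A maximal matching of the bipartite graph of the edges between `L` and its complement, with the least parameters. -/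
def bm (G : SimpleGraph (Fin n)) (L : Fin n → Prop) : SimpleGraph (Fin n) :=
  SimpleGraph.fromRel (fun u v => ∃ b, vbK G L b ∧ (∀ b', vbK G L b' → lex4 b b') ∧ PMNC.MM G L b (u, v))

/-- A matching enlarged by a maximal matching between the exposed vertices in `L` and those not in `L`. -/
def mstp (H : SimpleGraph (Fin n)) (L : Fin n → Prop) (M : SimpleGraph (Fin n)) : SimpleGraph (Fin n) :=
  M ⊔ bm (rG H (fun x => ∀ y, ¬ M.Adj x y)) L

/-- The matching after `i` steps; in step `i` the set `L` is given by the binary digit `i` of the vertices. -/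
def mxs (H : SimpleGraph (Fin n)) : ℕ → SimpleGraph (Fin n)
  | 0 => ⊥
  | i + 1 => mstp H (fun x => (x : ℕ) / 2 ^ i % 2 = 1) (mxs H i)

/-- A maximal matching. -/
def mx0 (n : ℕ) (H : SimpleGraph (Fin n)) : SimpleGraph (Fin n) := mxs H (Nat.size (n - 1))

private theorem mxa_vec {n : ℕ} (b : Fin 4 → Fin n) (e : Fin n × Fin n) (j : Fin 6) :
    (PMNC.vec (E := fun n => (Fin 4 → Fin n) × (Fin n × Fin n)) n (b, e) : Fin 6 → Fin n) j
      = ![b 0, b 1, b 2, b 3, e.1, e.2] j := by
  fin_cases j <;> rfl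

private theorem mxa_rv : PMNC.DefP (E := fun n => (Fin 4 → Fin n) × Fin n) (fun n G X y =>
      PMNC.rv (S := fun n => Fin n) X 0 y.2) :=
  PMNC.DefP.rv (E := fun n => (Fin 4 → Fin n) × Fin n) (S := fun n => Fin n) (f := fun n y => y.2) 0
      (PMNC.Tm.snd (E := fun n => (Fin 4 → Fin n) × Fin n) (F := fun n => Fin 4 → Fin n) (H := fun n => Fin n)
        (f := fun n y => y) PMNC.Tm.id)

private theorem mxa_def : PMNC.DefP (E := fun n => (Fin 4 → Fin n) × (Fin n × Fin n)) (fun n G X y =>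
      PMNC.MM G (fun v => PMNC.rv (S := fun n => Fin n) X 0 v) y.1 y.2) :=
  PMNC.DefP.mm (E := fun n => Fin 4 → Fin n)
      (L := fun n G X _ v => PMNC.rv (S := fun n => Fin n) X 0 v) (b := fun n b => b) mxa_rv PMNC.Tm.id

private theorem mxa_code {n : ℕ} (v : Fin n) : PMNC.code (S := fun n => Fin n) v = [v] := by
  unfold PMNC.code
  exact List.ofFn_succ

private theorem mxa_fm : ∃ φ : PMNC.Fm 6, ∀ n (G : SimpleGraph (Fin n)) (X : PMNC.Ctx n)
    (b : Fin 4 → Fin n) (e : Fin n × Fin n) (w : Fin 6 → Fin n),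
    w = ![b 0, b 1, b 2, b 3, e.1, e.2] → (φ.eval G X w ↔ PMNC.MM G (fun v => X 0 [v]) b e) := by
  obtain ⟨φ, hφ⟩ := mxa_def
  refine ⟨φ, fun n G X b e w hw => ?_⟩
  have h := hφ n G X (b, e)
  have e1 : (fun v => PMNC.rv (S := fun n => Fin n) X 0 v) = fun v => X 0 [v] := by
    funext v
    unfold PMNC.rv
    rw [mxa_code]
  have e2 : w = (PMNC.vec (E := fun n => (Fin 4 → Fin n) × (Fin n × Fin n)) n (b, e) : Fin 6 → Fin n) := by
    rw [hw]
    funext j
    exact (mxa_vec b e j).symm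
  rw [e2]
  simp only [e1] at h
  exact h

private theorem mxa_hX {L : ∀ n, S n → Fin n → Prop} (hL : NCP S B (Fin 1) (fun n s x => L n s (x 0)))
    (i r : ℕ) : NCP S B (Empty ⊕ Fin r) (fun n s x => i = 0 ∧ ∃ a, List.ofFn (fun j => x (Sum.inr j)) = [a] ∧ L n s a) := by
  by_cases h : i = 0 ∧ r = 1
  · obtain ⟨rfl, rfl⟩ := h
    refine (NCP.comap (κ := Empty ⊕ Fin 1) inferInstance (fun _ : Fin 1 => Sum.inr 0) hL).congr
      fun n s x => ?_
    constructor
    · intro h
      exact ⟨rfl, x (Sum.inr 0), by simp, h⟩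
    · rintro ⟨-, a, ha, hl⟩
      have : x (Sum.inr 0) = a := by simpa using ha
      rw [this]
      exact hl
  · refine (NCP.const inferInstance False).congr fun n s x => ?_
    constructor
    · exact False.elim
    · rintro ⟨h2, a, ha, _⟩
      apply h
      refine ⟨h2, ?_⟩
      have := congrArg List.length ha
      simpa using this

/-- Job MXA. `PMNC.DefP.mm` for the parameter space `fun n => Fin 4 → Fin n` and `L n G X y = PMNC.rv X 0 a` (the relation variable 0) gives a formula `φ`; translate it with `PMNC.Br.br`, where the value of the relation variable 0 is `fun l => ∃ a, l = [a] ∧ L n s a`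
(the others are false); its argument `hX` for `(i, r) = (0, 1)` is `hL`, otherwise it is false. The variables are rearranged with `NCP.comap` (`PMNC.vec`, `PMNC.Env`). -/
theorem mm_ncp {G : ∀ n, S n → SimpleGraph (Fin n)} {L : ∀ n, S n → Fin n → Prop} (hG : NCP S B (Fin 2) (fun n s x => (G n s).Adj (x 0) (x 1)))
    (hL : NCP S B (Fin 1) (fun n s x => L n s (x 0))) :
    NCP S B (Fin 6) (fun n s x => PMNC.MM (G n s) (L n s) ![x 2, x 3, x 4, x 5] (x 0, x 1)) := by
  obtain ⟨φ, hφ⟩ := mxa_fm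
  have h1 := PMNC.Br.br φ S B Empty inferInstance G
    (fun n s _ i l => i = 0 ∧ ∃ a, l = [a] ∧ L n s a) hG (mxa_hX hL)
  have h2 := NCP.comap (κ := Fin 6) inferInstance
    (Sum.elim Empty.elim (![2, 3, 4, 5, 0, 1] : Fin 6 → Fin 6)) h1
  refine h2.congr fun n s x => ?_
  have h3 := hφ n (G n s) (fun i l => i = 0 ∧ ∃ a, l = [a] ∧ L n s a) ![x 2, x 3, x 4, x 5] (x 0, x 1)
    (fun j => x ((![2, 3, 4, 5, 0, 1] : Fin 6 → Fin 6) j)) (by
      funext j
      fin_cases j <;> rfl)
  have e2 : (fun v => (0 : ℕ) = 0 ∧ ∃ a, [v] = [a] ∧ L n s a) = L n s := by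
    funext v
    apply propext
    constructor
    · rintro ⟨-, a, ha, hl⟩
      have : v = a := by simpa using ha
      rw [this]
      exact hl
    · intro h
      exact ⟨rfl, v, rfl, h⟩
  rw [e2] at h3
  exact h3

private theorem mxb_lex_of {b b' : Fin 4 → Fin n} (h : toLex b ≤ toLex b') : lex4 b b' := by
  rcases h.lt_or_eq with h | h
  · obtain ⟨i, h1, h2⟩ := h
    unfold lex4
    fin_cases i
    · exact Or.inl h2
    · exact Or.inr ⟨h1 0 (by decide), Or.inl h2⟩
    · exact Or.inr ⟨h1 0 (by decide), Or.inr ⟨h1 1 (by decide), Or.inl h2⟩⟩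
    · exact Or.inr ⟨h1 0 (by decide), Or.inr ⟨h1 1 (by decide), Or.inr ⟨h1 2 (by decide), le_of_lt h2⟩⟩⟩
  · have h' : b = b' := toLex.injective h
    subst h'
    exact Or.inr ⟨rfl, Or.inr ⟨rfl, Or.inr ⟨rfl, le_rfl⟩⟩⟩

private theorem mxb_antisymm {b b' : Fin 4 → Fin n} (h : lex4 b b') (h' : lex4 b' b) : b = b' := by
  unfold lex4 at h h'
  have h0 : b 0 = b' 0 := by
    rcases h with h | ⟨h, -⟩
    · rcases h' with h' | ⟨h', -⟩
      · exact absurd h (not_lt.2 h'.le)
      · exact h'.symm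
    · exact h
  have k1 : b 1 < b' 1 ∨ (b 1 = b' 1 ∧ (b 2 < b' 2 ∨ (b 2 = b' 2 ∧ b 3 ≤ b' 3))) := by
    rcases h with h | ⟨-, h⟩
    · rw [h0] at h
      exact absurd h (lt_irrefl _)
    · exact h
  have k1' : b' 1 < b 1 ∨ (b' 1 = b 1 ∧ (b' 2 < b 2 ∨ (b' 2 = b 2 ∧ b' 3 ≤ b 3))) := by
    rcases h' with h | ⟨-, h⟩
    · rw [h0] at h
      exact absurd h (lt_irrefl _)
    · exact h
  have h1 : b 1 = b' 1 := by
    rcases k1 with h | ⟨h, -⟩
    · rcases k1' with h' | ⟨h', -⟩
      · exact absurd h (not_lt.2 h'.le)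
      · exact h'.symm
    · exact h
  have k2 : b 2 < b' 2 ∨ (b 2 = b' 2 ∧ b 3 ≤ b' 3) := by
    rcases k1 with h | ⟨-, h⟩
    · rw [h1] at h
      exact absurd h (lt_irrefl _)
    · exact h
  have k2' : b' 2 < b 2 ∨ (b' 2 = b 2 ∧ b' 3 ≤ b 3) := by
    rcases k1' with h | ⟨-, h⟩
    · rw [h1] at h
      exact absurd h (lt_irrefl _)
    · exact h
  have h2 : b 2 = b' 2 := by
    rcases k2 with h | ⟨h, -⟩
    · rcases k2' with h' | ⟨h', -⟩
      · exact absurd h (not_lt.2 h'.le)
      · exact h'.symm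
    · exact h
  have k3 : b 3 ≤ b' 3 := by
    rcases k2 with h | ⟨-, h⟩
    · rw [h2] at h
      exact absurd h (lt_irrefl _)
    · exact h
  have k3' : b' 3 ≤ b 3 := by
    rcases k2' with h | ⟨-, h⟩
    · rw [h2] at h
      exact absurd h (lt_irrefl _)
    · exact h
  funext i
  fin_cases i
  · exact h0
  · exact h1
  · exact h2
  · exact le_antisymm k3 k3'

private theorem mxb_least {P : (Fin 4 → Fin n) → Prop} (h : ∃ b, P b) :
    ∃ b, P b ∧ ∀ b', P b' → lex4 b b' := by
  obtain ⟨b, hb, hmin⟩ := Set.exists_min_image {b | P b} (fun b => toLex b) (Set.toFinite _) h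
  exact ⟨b, hb, fun b' hb' => mxb_lex_of (hmin b' hb')⟩

/-- Job MXB. If `n ≤ 1` there are no edges. Otherwise valid parameters exist (`PMNC.exists_good`, `PMNC.mm_spec`), so there are least ones, and they are unique. (If no parameters are valid then `bm G L = ⊥`.) -/
theorem bm_spec (G : SimpleGraph (Fin n)) (L : Fin n → Prop) :
    IsMat G (bm G L) ∧ ∀ x y, G.Adj x y → L x → ¬ L y → (∃ z, (bm G L).Adj x z) ∨ ∃ z, (bm G L).Adj y z := by
  by_cases hv : ∃ b, vbK G L b
  · obtain ⟨b, hb, hmin⟩ := mxb_least hv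
    have key : ∀ u v, (∃ b, vbK G L b ∧ (∀ b', vbK G L b' → lex4 b b') ∧ PMNC.MM G L b (u, v))
        ↔ PMNC.MM G L b (u, v) := by
      intro u v
      constructor
      · rintro ⟨b', hb', hm', h⟩
        rw [mxb_antisymm (hmin b' hb') (hm' b hb)]
        exact h
      · intro h
        exact ⟨b, hb, hmin, h⟩
    have hadj : ∀ u v, (bm G L).Adj u v ↔ (PMNC.MM G L b (u, v) ∨ PMNC.MM G L b (v, u)) := by
      intro u v
      unfold bm
      rw [SimpleGraph.fromRel_adj, key, key]
      constructor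
      · rintro ⟨_, h⟩
        exact h
      · intro h
        refine ⟨?_, h⟩
        rintro rfl
        rcases h with h | h
        · exact (hb.1.edge _ _ h).2.2.ne rfl
        · exact (hb.1.edge _ _ h).2.2.ne rfl
    refine ⟨⟨?_, ?_⟩, ?_⟩
    · intro u v h
      rcases (hadj u v).1 h with h | h
      · exact (hb.1.edge _ _ h).2.2
      · exact (hb.1.edge _ _ h).2.2.symm
    · intro v w w' h h'
      rcases (hadj v w).1 h with h | h
      · rcases (hadj v w').1 h' with h' | h'
        · exact hb.1.inj1 _ _ _ h h'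
        · exact absurd (hb.1.edge _ _ h).1 (hb.1.edge _ _ h').2.1
      · rcases (hadj v w').1 h' with h' | h'
        · exact absurd (hb.1.edge _ _ h').1 (hb.1.edge _ _ h).2.1
        · exact hb.1.inj2 _ _ _ h h'
    · intro x y hxy hx hy
      by_contra hc
      push Not at hc
      refine hb.2 x y ⟨⟨hx, fun v h => hc.1 v ((hadj x v).2 (Or.inl h))⟩,
        ⟨hy, fun u h => hc.2 u ((hadj y u).2 (Or.inr h))⟩, hxy⟩
  · have hn : n ≤ 1 := by
      by_contra hn
      obtain ⟨b, hb⟩ := PMNC.exists_good (n := n) (by omega)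
      exact hv ⟨b, PMNC.mm_spec hb⟩
    have hadj : ∀ u v, ¬ (bm G L).Adj u v := by
      intro u v h
      unfold bm at h
      rw [SimpleGraph.fromRel_adj] at h
      rcases h.2 with ⟨b, hb, _⟩ | ⟨b, hb, _⟩
      · exact hv ⟨b, hb⟩
      · exact hv ⟨b, hb⟩
    refine ⟨⟨fun u v h => absurd h (hadj u v), fun v w w' h => absurd h (hadj v w)⟩, ?_⟩
    intro x y hxy
    exfalso
    apply hxy.ne
    apply Fin.ext
    have := x.2
    have := y.2
    omega

section MXC

variable {G : ∀ n, S n → SimpleGraph (Fin n)} {L : ∀ n, S n → Fin n → Prop}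

private theorem mxc_mm (hG : NCP S B (Fin 2) (fun n s x => (G n s).Adj (x 0) (x 1)))
    (hL : NCP S B (Fin 1) (fun n s x => L n s (x 0))) {ι : Type} (hι : Finite ι) (i j : ι) (b : Fin 4 → ι) :
    NCP S B ι (fun n s x => PMNC.MM (G n s) (L n s) (fun k => x (b k)) (x i, x j)) := by
  refine (NCP.comap hι ![i, j, b 0, b 1, b 2, b 3] (mm_ncp hG hL)).congr fun n s x => ?_
  have e : (![x ((![i, j, b 0, b 1, b 2, b 3] : Fin 6 → ι) 2), x ((![i, j, b 0, b 1, b 2, b 3] : Fin 6 → ι) 3),
      x ((![i, j, b 0, b 1, b 2, b 3] : Fin 6 → ι) 4), x ((![i, j, b 0, b 1, b 2, b 3] : Fin 6 → ι) 5)] : Fin 4 → Fin n)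
      = fun k => x (b k) := by
    funext k
    fin_cases k <;> rfl
  rw [e]
  exact Iff.rfl

private theorem mxc_L (hL : NCP S B (Fin 1) (fun n s x => L n s (x 0))) {ι : Type} (hι : Finite ι) (i : ι) :
    NCP S B ι (fun n s x => L n s (x i)) :=
  NCP.comap hι (fun _ : Fin 1 => i) hL

private theorem mxc_pmat (hG : NCP S B (Fin 2) (fun n s x => (G n s).Adj (x 0) (x 1)))
    (hL : NCP S B (Fin 1) (fun n s x => L n s (x 0))) {ι : Type} (hι : Finite ι) (b : Fin 4 → ι) :
    NCP S B ι (fun n s x => PMNC.PMat (G n s) (L n s) (PMNC.MM (G n s) (L n s) (fun k => x (b k)))) := by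
  have h1 : NCP S B ι (fun n s x => ∀ u v : Fin n, PMNC.MM (G n s) (L n s) (fun k => x (b k)) (u, v) →
      L n s u ∧ ¬ L n s v ∧ (G n s).Adj u v) := by
    refine NCP.all1 (R := fun n s x u => ∀ v : Fin n, PMNC.MM (G n s) (L n s) (fun k => x (b k)) (u, v) →
      L n s u ∧ ¬ L n s v ∧ (G n s).Adj u v) ?_
    refine NCP.all1 (ι := Option ι) (R := fun n s z v => PMNC.MM (G n s) (L n s) (fun k => z (some (b k))) (z none, v) →
      L n s (z none) ∧ ¬ L n s v ∧ (G n s).Adj (z none) v) ?_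
    exact NCP.imp (mxc_mm hG hL inferInstance (some none) none (fun k => some (some (b k))))
      (NCP.and (mxc_L hL inferInstance (some none)) (NCP.and (NCP.not (mxc_L hL inferInstance none))
        (NCP.rel2 (R := fun n s a c => (G n s).Adj a c) inferInstance hG (some none) none)))
  have h2 : NCP S B ι (fun n s x => ∀ u v v' : Fin n, PMNC.MM (G n s) (L n s) (fun k => x (b k)) (u, v) →
      PMNC.MM (G n s) (L n s) (fun k => x (b k)) (u, v') → v = v') := by
    refine NCP.all1 (R := fun n s x u => ∀ v v' : Fin n, PMNC.MM (G n s) (L n s) (fun k => x (b k)) (u, v) →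
      PMNC.MM (G n s) (L n s) (fun k => x (b k)) (u, v') → v = v') ?_
    refine NCP.all1 (ι := Option ι) (R := fun n s z v => ∀ v' : Fin n,
      PMNC.MM (G n s) (L n s) (fun k => z (some (b k))) (z none, v) →
      PMNC.MM (G n s) (L n s) (fun k => z (some (b k))) (z none, v') → v = v') ?_
    refine NCP.all1 (ι := Option (Option ι)) (R := fun n s z v' =>
      PMNC.MM (G n s) (L n s) (fun k => z (some (some (b k)))) (z (some none), z none) →
      PMNC.MM (G n s) (L n s) (fun k => z (some (some (b k)))) (z (some none), v') → z none = v') ?_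
    exact NCP.imp (mxc_mm hG hL inferInstance (some (some none)) (some none) (fun k => some (some (some (b k)))))
      (NCP.imp (mxc_mm hG hL inferInstance (some (some none)) none (fun k => some (some (some (b k)))))
        (NCP.eq inferInstance (some none) none))
  have h3 : NCP S B ι (fun n s x => ∀ u u' v : Fin n, PMNC.MM (G n s) (L n s) (fun k => x (b k)) (u, v) →
      PMNC.MM (G n s) (L n s) (fun k => x (b k)) (u', v) → u = u') := by
    refine NCP.all1 (R := fun n s x u => ∀ u' v : Fin n, PMNC.MM (G n s) (L n s) (fun k => x (b k)) (u, v) →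
      PMNC.MM (G n s) (L n s) (fun k => x (b k)) (u', v) → u = u') ?_
    refine NCP.all1 (ι := Option ι) (R := fun n s z u' => ∀ v : Fin n,
      PMNC.MM (G n s) (L n s) (fun k => z (some (b k))) (z none, v) →
      PMNC.MM (G n s) (L n s) (fun k => z (some (b k))) (u', v) → z none = u') ?_
    refine NCP.all1 (ι := Option (Option ι)) (R := fun n s z v =>
      PMNC.MM (G n s) (L n s) (fun k => z (some (some (b k)))) (z (some none), v) →
      PMNC.MM (G n s) (L n s) (fun k => z (some (some (b k)))) (z none, v) → z (some none) = z none) ?_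
    exact NCP.imp (mxc_mm hG hL inferInstance (some (some none)) none (fun k => some (some (some (b k)))))
      (NCP.imp (mxc_mm hG hL inferInstance (some none) none (fun k => some (some (some (b k)))))
        (NCP.eq inferInstance (some (some none)) (some none)))
  refine (NCP.and h1 (NCP.and h2 h3)).congr fun n s x => ?_
  constructor
  · rintro ⟨a1, a2, a3⟩
    exact ⟨a1, a2, a3⟩
  · rintro ⟨a1, a2, a3⟩
    exact ⟨a1, a2, a3⟩

private theorem mxc_vb (hG : NCP S B (Fin 2) (fun n s x => (G n s).Adj (x 0) (x 1)))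
    (hL : NCP S B (Fin 1) (fun n s x => L n s (x 0))) {ι : Type} (hι : Finite ι) (b : Fin 4 → ι) :
    NCP S B ι (fun n s x => vbK (G n s) (L n s) (fun k => x (b k))) := by
  refine NCP.and (mxc_pmat hG hL hι b) ?_
  refine NCP.all1 (R := fun n s x u => ∀ v : Fin n,
    ¬ PMNC.Av (G n s) (L n s) (PMNC.MM (G n s) (L n s) (fun k => x (b k))) u v) ?_
  refine NCP.all1 (ι := Option ι) (R := fun n s z v =>
    ¬ PMNC.Av (G n s) (L n s) (PMNC.MM (G n s) (L n s) (fun k => z (some (b k)))) (z none) v) ?_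
  refine NCP.not ?_
  have h1 : NCP S B (Option (Option ι)) (fun n s z => ∀ v : Fin n,
      ¬ PMNC.MM (G n s) (L n s) (fun k => z (some (some (b k)))) (z (some none), v)) := by
    refine NCP.all1 (ι := Option (Option ι)) (R := fun n s z v =>
      ¬ PMNC.MM (G n s) (L n s) (fun k => z (some (some (b k)))) (z (some none), v)) ?_
    exact NCP.not (mxc_mm hG hL inferInstance (some (some none)) none (fun k => some (some (some (b k)))))
  have h2 : NCP S B (Option (Option ι)) (fun n s z => ∀ u : Fin n,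
      ¬ PMNC.MM (G n s) (L n s) (fun k => z (some (some (b k)))) (u, z none)) := by
    refine NCP.all1 (ι := Option (Option ι)) (R := fun n s z u =>
      ¬ PMNC.MM (G n s) (L n s) (fun k => z (some (some (b k)))) (u, z none)) ?_
    exact NCP.not (mxc_mm hG hL inferInstance none (some none) (fun k => some (some (some (b k)))))
  exact NCP.and (NCP.and (mxc_L hL inferInstance (some none)) h1)
    (NCP.and (NCP.and (NCP.not (mxc_L hL inferInstance none)) h2)
      (NCP.rel2 (R := fun n s a c => (G n s).Adj a c) inferInstance hG (some none) none))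

private theorem mxc_lex {ι : Type} (hι : Finite ι) (b b' : Fin 4 → ι) :
    NCP S B ι (fun n s x => lex4 (fun k => x (b k)) (fun k => x (b' k))) :=
  NCP.or (NCP.lt hι _ _) (NCP.and (NCP.eq hι _ _) (NCP.or (NCP.lt hι _ _) (NCP.and (NCP.eq hι _ _)
    (NCP.or (NCP.lt hι _ _) (NCP.and (NCP.eq hι _ _) (NCP.le hι _ _))))))

private theorem mxc_rel (hG : NCP S B (Fin 2) (fun n s x => (G n s).Adj (x 0) (x 1)))
    (hL : NCP S B (Fin 1) (fun n s x => L n s (x 0))) (i j : Fin 2) :
    NCP S B (Fin 2) (fun n s x => ∃ b, vbK (G n s) (L n s) b ∧ (∀ b', vbK (G n s) (L n s) b' → lex4 b b') ∧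
      PMNC.MM (G n s) (L n s) b (x i, x j)) := by
  have h1 : NCP S B (Fin 2 ⊕ Fin 4) (fun n s z => ∀ b', vbK (G n s) (L n s) b' →
      lex4 (fun k => z (Sum.inr k)) b') := by
    have h2 := LF.exTuple (S := S) (B := B) (Fin 4) (Fin 2 ⊕ Fin 4) _
      (NCP.and (mxc_vb hG hL (ι := (Fin 2 ⊕ Fin 4) ⊕ Fin 4) inferInstance (fun k => Sum.inr k))
        (NCP.not (mxc_lex (ι := (Fin 2 ⊕ Fin 4) ⊕ Fin 4) inferInstance (fun k => Sum.inl (Sum.inr k))
          (fun k => Sum.inr k))))
    refine (NCP.not h2).congr fun n s z => ?_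
    constructor
    · intro h b' hb'
      by_contra hc
      exact h ⟨b', hb', hc⟩
    · rintro h ⟨b', hb', hc⟩
      exact hc (h b' hb')
  exact LF.exTuple (S := S) (B := B) (Fin 4) (Fin 2)
    (fun n s z => vbK (G n s) (L n s) (fun k => z (Sum.inr k)) ∧ (∀ b', vbK (G n s) (L n s) b' →
      lex4 (fun k => z (Sum.inr k)) b') ∧
      PMNC.MM (G n s) (L n s) (fun k => z (Sum.inr k)) (z (Sum.inl i), z (Sum.inl j)))
    (NCP.and (mxc_vb hG hL (ι := Fin 2 ⊕ Fin 4) inferInstance (fun k => Sum.inr k))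
      (NCP.and h1 (mxc_mm hG hL inferInstance (Sum.inl i) (Sum.inl j) (fun k => Sum.inr k))))

end MXC

/-- Job MXC. (`mm_ncp`; `PMNC.PMat`, `PMNC.Av`, `PMNC.ExL`, `PMNC.ExR` unfolded; quantifiers over `b : Fin 4 → Fin n` are four quantifiers, or `LF.exTuple`.) -/
theorem bm_ncp {G : ∀ n, S n → SimpleGraph (Fin n)} {L : ∀ n, S n → Fin n → Prop} (hG : NCP S B (Fin 2) (fun n s x => (G n s).Adj (x 0) (x 1)))
    (hL : NCP S B (Fin 1) (fun n s x => L n s (x 0))) :
    NCP S B (Fin 2) (fun n s x => (bm (G n s) (L n s)).Adj (x 0) (x 1)) := by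
  refine (NCP.and (NCP.not (NCP.eq inferInstance 0 1)) (NCP.or (mxc_rel hG hL 0 1) (mxc_rel hG hL 1 0))).congr
    fun n s x => ?_
  unfold bm
  rw [SimpleGraph.fromRel_adj]

private theorem mxd_digit : ∀ (m x y : ℕ), x < 2 ^ m → y < 2 ^ m →
    (∀ j, j < m → x / 2 ^ j % 2 = y / 2 ^ j % 2) → x = y
  | 0, x, y, hx, hy, _ => by
    simp at hx hy
    omega
  | m + 1, x, y, hx, hy, h => by
    have h0 := h 0 (by omega)
    simp only [pow_zero, Nat.div_one] at h0
    have h1 : x / 2 = y / 2 := by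
      refine mxd_digit m (x / 2) (y / 2) ?_ ?_ fun j hj => ?_
      · rw [pow_succ] at hx
        omega
      · rw [pow_succ] at hy
        omega
      · have h2 := h (j + 1) (by omega)
        rw [pow_succ, mul_comm, ← Nat.div_div_eq_div_mul, ← Nat.div_div_eq_div_mul] at h2
        exact h2
    omega

private theorem mxd_step (H : SimpleGraph (Fin n)) (L : Fin n → Prop) (M : SimpleGraph (Fin n))
    (hM : IsMat H M) : IsMat H (mstp H L M) ∧ M ≤ mstp H L M ∧
      ∀ x y, H.Adj x y → L x → ¬ L y → (∃ z, (mstp H L M).Adj x z) ∨ ∃ z, (mstp H L M).Adj y z := by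
  obtain ⟨⟨h1, h2⟩, h3⟩ := bm_spec (rG H (fun x => ∀ y, ¬ M.Adj x y)) L
  refine ⟨⟨?_, ?_⟩, le_sup_left, ?_⟩
  · refine sup_le hM.1 fun u v h => (h1 h).1
  · intro v w w' h h'
    rcases h with h | h
    · rcases h' with h' | h'
      · exact hM.2 _ _ _ h h'
      · exact absurd h ((h1 h').2.1 w)
    · rcases h' with h' | h'
      · exact absurd h' ((h1 h).2.1 w')
      · exact h2 _ _ _ h h'
  · intro x y hxy hx hy
    by_cases ex : ∃ z, M.Adj x z
    · obtain ⟨z, hz⟩ := ex
      exact Or.inl ⟨z, Or.inl hz⟩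
    · by_cases ey : ∃ z, M.Adj y z
      · obtain ⟨z, hz⟩ := ey
        exact Or.inr ⟨z, Or.inl hz⟩
      · push Not at ex ey
        rcases h3 x y ⟨hxy, ex, ey⟩ hx hy with ⟨z, hz⟩ | ⟨z, hz⟩
        · exact Or.inl ⟨z, Or.inr hz⟩
        · exact Or.inr ⟨z, Or.inr hz⟩

private theorem mxd_ind (H : SimpleGraph (Fin n)) : ∀ i, IsMat H (mxs H i) ∧
    ∀ x y : Fin n, H.Adj x y → (∃ j, j < i ∧ (x : ℕ) / 2 ^ j % 2 ≠ (y : ℕ) / 2 ^ j % 2) →
      (∃ z, (mxs H i).Adj x z) ∨ ∃ z, (mxs H i).Adj y z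
  | 0 => by
    refine ⟨⟨bot_le, fun v w w' h => absurd h (by simp [mxs])⟩, ?_⟩
    rintro x y _ ⟨j, hj, _⟩
    omega
  | i + 1 => by
    obtain ⟨ih1, ih2⟩ := mxd_ind H i
    obtain ⟨h1, h2, h3⟩ := mxd_step H (fun x => (x : ℕ) / 2 ^ i % 2 = 1) (mxs H i) ih1
    refine ⟨h1, ?_⟩
    rintro x y hxy ⟨j, hj, hne⟩
    rcases Nat.lt_or_ge j i with hji | hji
    · rcases ih2 x y hxy ⟨j, hji, hne⟩ with ⟨z, hz⟩ | ⟨z, hz⟩
      · exact Or.inl ⟨z, h2 hz⟩
      · exact Or.inr ⟨z, h2 hz⟩
    · have hj' : j = i := by omega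
      subst hj'
      rcases Nat.mod_two_eq_zero_or_one ((x : ℕ) / 2 ^ j) with hx | hx
      · have hy : (y : ℕ) / 2 ^ j % 2 = 1 := by omega
        exact (h3 y x hxy.symm hy (by omega)).symm
      · exact h3 x y hxy hx (by omega)

/-- Job MXD. Induction on `i`: `mxs H i` is a matching, and if `H.Adj x y` and `x`, `y` differ in one of the first `i` binary digits then `x` or `y` is covered. Different numbers less than `n` differ in one of the first `Nat.size (n - 1)` digits. -/
theorem mx0_maxl (n : ℕ) (H : SimpleGraph (Fin n)) : MaxlM H (mx0 n H) := by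
  obtain ⟨h1, h2⟩ := mxd_ind H (Nat.size (n - 1))
  refine ⟨h1, fun x y hxy => h2 x y hxy ?_⟩
  by_contra hc
  push Not at hc
  apply hxy.ne
  apply Fin.ext
  have h3 : n - 1 < 2 ^ Nat.size (n - 1) := Nat.lt_size_self _
  have hx := x.2
  have hy := y.2
  exact mxd_digit (Nat.size (n - 1)) x y (by omega) (by omega) hc

/-- The graph restricted to the exposed vertices. -/
private def mxeG (n : ℕ) (s : GS n × RelF (Fin 2) Bool n) : SimpleGraph (Fin n) :=
  rG s.1 (fun x => ∀ y, ¬ s.2 true ![x, y])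

/-- The current label is odd. -/
private def mxeL (n : ℕ) (s : GS n × RelF (Fin 2) Bool n) (x : Fin n) : Prop :=
  ∃ c d : Fin n, s.2 false ![x, c] ∧ (c : ℕ) = 2 * (d : ℕ) + 1

private def mxeF : Bool → RF (fun n => GS n × RelF (Fin 2) Bool n) (Fin 2)
  | true => fun n s x => s.2 true x ∨ (bm (mxeG n s) (mxeL n s)).Adj (x 0) (x 1)
  | false => fun n s x => ∃ c : Fin n, s.2 false ![x 0, c] ∧ (x 1 : ℕ) = (c : ℕ) / 2

private def mxeH : Bool → RF GS (Fin 2)
  | true => fun _ _ _ => False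
  | false => fun _ _ x => x 1 = x 0

private theorem mxe_new (f : Bool) {ι : Type} (hι : Finite ι) (i j : ι) :
    NCP (fun n => GS n × RelF (Fin 2) Bool n) (Ext GB (Fin 2) Bool) ι (fun n s x => s.2 f ![x i, x j]) := by
  have h := NCP.comap hι ![i, j] (NCP.base (S := fun n => GS n × RelF (Fin 2) Bool n)
    (B := Ext GB (Fin 2) Bool) inferInstance (Ext.new (B := GB) (κ := Fin 2) (Fl := Bool) f))
  refine h.congr fun n s x => ?_
  have e : (fun k : Fin 2 => x ((![i, j] : Fin 2 → ι) k)) = ![x i, x j] := by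
    funext k
    fin_cases k <;> rfl
  rw [e]

private theorem mxe_G : NCP (fun n => GS n × RelF (Fin 2) Bool n) (Ext GB (Fin 2) Bool) (Fin 2)
    (fun n s x => (mxeG n s).Adj (x 0) (x 1)) := by
  have h1 : NCP (fun n => GS n × RelF (Fin 2) Bool n) (Ext GB (Fin 2) Bool) (Fin 2)
      (fun n s x => s.1.Adj (x 0) (x 1)) := NCP.base inferInstance (Ext.old GB.adj)
  have h2 : ∀ i : Fin 2, NCP (fun n => GS n × RelF (Fin 2) Bool n) (Ext GB (Fin 2) Bool) (Fin 2)
      (fun n s x => ∀ y : Fin n, ¬ s.2 true ![x i, y]) := by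
    intro i
    refine NCP.all1 (S := fun n => GS n × RelF (Fin 2) Bool n) (R := fun n s x y => ¬ s.2 true ![x i, y]) ?_
    exact NCP.not (mxe_new true inferInstance (some i) none)
  exact NCP.and h1 (NCP.and (h2 0) (h2 1))

private theorem mxe_L : NCP (fun n => GS n × RelF (Fin 2) Bool n) (Ext GB (Fin 2) Bool) (Fin 1)
    (fun n s x => mxeL n s (x 0)) := by
  refine NCP.ex1 (S := fun n => GS n × RelF (Fin 2) Bool n)
    (R := fun n s x c => ∃ d : Fin n, s.2 false ![x 0, c] ∧ (c : ℕ) = 2 * (d : ℕ) + 1) ?_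
  refine NCP.ex1 (S := fun n => GS n × RelF (Fin 2) Bool n) (ι := Option (Fin 1)) (R := fun n s z d =>
    s.2 false ![z (some 0), z none] ∧ (z none : ℕ) = 2 * (d : ℕ) + 1) ?_
  exact NCP.and (mxe_new false inferInstance (some (some 0)) (some none))
    (NCP.dblsucc inferInstance (some none) none)

private theorem mxe_F (f : Bool) : NCP (fun n => GS n × RelF (Fin 2) Bool n) (Ext GB (Fin 2) Bool) (Fin 2)
    (mxeF f) := by
  cases f with
  | true =>
    exact NCP.or (NCP.base inferInstance (Ext.new true)) (bm_ncp mxe_G mxe_L)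
  | false =>
    refine NCP.ex1 (S := fun n => GS n × RelF (Fin 2) Bool n)
      (R := fun n s x c => s.2 false ![x 0, c] ∧ (x 1 : ℕ) = (c : ℕ) / 2) ?_
    exact NCP.and (mxe_new false inferInstance (some 0) none) (NCP.half inferInstance (some 1) none)

private theorem mxe_H (f : Bool) : NCP GS GB (Fin 2) (mxeH f) := by
  cases f with
  | true => exact NCP.const inferInstance False
  | false => exact NCP.eq inferInstance 1 0

private theorem mxe_inv (n : ℕ) (H : SimpleGraph (Fin n)) : ∀ i : ℕ,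
    ∀ (f : Bool) (x : Fin 2 → Fin n),
      ((fun (R : RelF (Fin 2) Bool n) (f : Bool) (x : Fin 2 → Fin n) => mxeF f n (H, R) x)^[i]
        (fun f x => mxeH f n H x)) f x ↔
      (match f with
        | true => (mxs H i).Adj (x 0) (x 1)
        | false => (x 1 : ℕ) = (x 0 : ℕ) / 2 ^ i) := by
  intro i
  induction i with
  | zero =>
    intro f x
    cases f with
    | true =>
      constructor
      · exact fun h => False.elim h
      · intro h
        exact absurd h (by simp [mxs])
    | false =>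
      simp only [pow_zero, Nat.div_one]
      constructor
      · intro h
        exact congrArg Fin.val h
      · intro h
        exact Fin.ext h
  | succ i ih =>
    intro f x
    rw [Function.iterate_succ_apply']
    set R := ((fun (R : RelF (Fin 2) Bool n) (f : Bool) (x : Fin 2 → Fin n) => mxeF f n (H, R) x)^[i]
        (fun f x => mxeH f n H x)) with hR
    have ht : ∀ x, R true x ↔ (mxs H i).Adj (x 0) (x 1) := fun x => ih true x
    have hf : ∀ x, R false x ↔ (x 1 : ℕ) = (x 0 : ℕ) / 2 ^ i := fun x => ih false x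
    cases f with
    | true =>
      have e1 : mxeG n (H, R) = rG H (fun x => ∀ y, ¬ (mxs H i).Adj x y) := by
        unfold mxeG
        congr 1
        funext x
        apply propext
        refine forall_congr' fun y => not_congr ?_
        exact ht ![x, y]
      have e2 : mxeL n (H, R) = fun x : Fin n => (x : ℕ) / 2 ^ i % 2 = 1 := by
        funext x
        apply propext
        unfold mxeL
        constructor
        · rintro ⟨c, d, h1, h2⟩
          have h3 := (hf ![x, c]).1 h1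
          simp only [Matrix.cons_val_one, Matrix.cons_val_zero] at h3
          omega
        · intro h
          have h4 : (x : ℕ) / 2 ^ i ≤ (x : ℕ) := Nat.div_le_self _ _
          have h5 := x.2
          refine ⟨⟨(x : ℕ) / 2 ^ i, by omega⟩, ⟨(x : ℕ) / 2 ^ i / 2, by omega⟩, ?_, ?_⟩
          · exact (hf _).2 rfl
          · simp only
            omega
      change (R true x ∨ (bm (mxeG n (H, R)) (mxeL n (H, R))).Adj (x 0) (x 1)) ↔ _
      rw [e1, e2, ht]
      exact Iff.rfl
    | false =>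
      change (∃ c : Fin n, R false ![x 0, c] ∧ (x 1 : ℕ) = (c : ℕ) / 2) ↔ _
      have e3 : (x 0 : ℕ) / 2 ^ (i + 1) = (x 0 : ℕ) / 2 ^ i / 2 := by
        rw [pow_succ, Nat.div_div_eq_div_mul]
      constructor
      · rintro ⟨c, h1, h2⟩
        have h3 := (hf ![x 0, c]).1 h1
        simp only [Matrix.cons_val_one, Matrix.cons_val_zero] at h3
        simp only
        rw [e3, ← h3]
        exact h2
      · intro h
        simp only at h
        rw [e3] at h
        have h4 : (x 0 : ℕ) / 2 ^ i ≤ (x 0 : ℕ) := Nat.div_le_self _ _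
        have h5 := (x 0).2
        exact ⟨⟨(x 0 : ℕ) / 2 ^ i, by omega⟩, (hf _).2 rfl, h⟩

/-- Job MXE. `NCP.iter` with `κ = Fin 2`, `Fl = Bool`: after `i` steps `R true x` iff `(mxs H i).Adj (x 0) (x 1)` and `R false x` iff `(x 1 : ℕ) = x 0 / 2 ^ i`; the step uses `bm_ncp` (`G`: the restricted graph, `L x`: the current label of `x` is odd). -/
theorem mx0_ncp : NCP GS GB (Fin 2) (fun n H x => (mx0 n H).Adj (x 0) (x 1)) := by
  have h := NCP.iter (S := GS) (B := GB) (κ := Fin 2) (Fl := Bool) inferInstance (H := mxeH) (F := mxeF)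
    mxe_H mxe_F true
  refine h.congr fun n H x => ?_
  exact mxe_inv n H (Nat.size (n - 1)) true x

/-- Job MXE. (`NCP.pull`.) -/
theorem mx_ncp {H : ∀ n, S n → SimpleGraph (Fin n)} (hH : NCP S B (Fin 2) (fun n s x => (H n s).Adj (x 0) (x 1))) :
    NCP S B (Fin 2) (fun n s x => (mx0 n (H n s)).Adj (x 0) (x 1)) := by
  refine NCP.pull (S := GS) (B := GB) (fun n s => H n s) ?_ mx0_ncp
  intro ι hι P hP
  cases hP with
  | adj => exact hH

end Pool.Agent.SUB
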