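import Pool.Agent.Lib.MP_0087d5_lc.SUB.KDefs
import Pool.Agent.Lib.MP_0087d5_lc.SUB.MXM

/-!
# Programs for the relations

Jobs KPA (`q_lv`, `q_lam`), KPB (`q_cla`), KPC (`q_nd`, `q_up`, `q_le`), KPD (`q_sAug`). The programs for `DK`, `datK`, `dirK`, `mt`, `EE` are in `AUG/SearchProg.lean` and `AUG/Final.lean` (some are private and can be copied).
-/

namespace Pool.Agent.SUB

open Relation Finset Pool.Agent.AUG Pool.Agent.UPM

private theorem kp_fst {ι : Type} (hι : Finite ι) (i j : ι) :
    NCP GS2 GB2 ι (fun _ s x => s.1.Adj (x i) (x j)) :=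
  NCP.comap hι ![i, j] (NCP.base inferInstance GB2.fst)

private theorem kp_adjm {ι : Type} (hι : Finite ι) (i j : ι) :
    NCP GS2 GB2 ι (fun _ s x => s.1.Adj (x i) (mt s.2 (x j))) := by
  have h : NCP GS2 GB2 ι (fun n s x => ∃ y : Fin n, mt s.2 (x j) = y ∧ s.1.Adj (x i) y) :=
    NCP.ex1 (NCP.and (fa_mt (ι := Option ι) inferInstance (some j) none)
      (kp_fst (ι := Option ι) inferInstance (some i) none))
  refine h.congr fun n s x => ?_
  simp only [exists_eq_left']

private theorem kp_K {ι : Type} (hι : Finite ι) (i j k : ι) :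
    NCP GS2 GB2 ι (fun n s x => DK n s (x i) (x j) (x k)) :=
  NCP.comap hι ![i, j, k] q2_dist

private theorem kp_sum {S : ℕ → Type} {B : Readers S} {ι : Type} (hι : Finite ι) (i j c : ι) :
    NCP S B ι (fun _ _ x => (x i : ℕ) + (x j : ℕ) ≤ (x c : ℕ)) := by
  have h : NCP S B ι (fun n _ x => ∃ a : Fin n, (x i : ℕ) + (x j : ℕ) = (a : ℕ) ∧ a ≤ x c) :=
    NCP.ex1 (NCP.and (NCP.add (ι := Option ι) inferInstance (some i) (some j) none)
      (NCP.le (ι := Option ι) inferInstance none (some c)))
  refine h.congr fun n s x => ⟨?_, fun h => ?_⟩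
  · rintro ⟨a, h1, h2⟩
    have h3 : (a : ℕ) ≤ (x c : ℕ) := h2
    omega
  · have h4 := (x c).2
    exact ⟨⟨(x i : ℕ) + (x j : ℕ), by omega⟩, rfl, Fin.le_def.2 h⟩

private theorem kp_sum1 {S : ℕ → Type} {B : Readers S} {ι : Type} (hι : Finite ι) (i j c : ι) :
    NCP S B ι (fun _ _ x => (x i : ℕ) + (x j : ℕ) + 1 ≤ (x c : ℕ)) := by
  have h : NCP S B ι (fun n _ x => ∃ a : Fin n, (x i : ℕ) + (x j : ℕ) = (a : ℕ) ∧ a < x c) :=
    NCP.ex1 (NCP.and (NCP.add (ι := Option ι) inferInstance (some i) (some j) none)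
      (NCP.lt (ι := Option ι) inferInstance none (some c)))
  refine h.congr fun n s x => ⟨?_, fun h => ?_⟩
  · rintro ⟨a, h1, h2⟩
    have h3 : (a : ℕ) < (x c : ℕ) := h2
    omega
  · have h4 := (x c).2
    exact ⟨⟨(x i : ℕ) + (x j : ℕ), by omega⟩, rfl, Fin.lt_def.2 h⟩

private theorem kp_cd {ι : Type} (hι : Finite ι) (i k : ι) :
    NCP GS2 GB2 ι (fun n s x => cdK n s (x i) (x k)) := by
  have h : NCP GS2 GB2 ι (fun n s x => ∃ a z j : Fin n, mt s.2 a = a ∧ ¬ (mt s.2 z = z) ∧
      s.1.Adj a (mt s.2 z) ∧ DK n s z (x i) j ∧ (x k : ℕ) = j + 1) := by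
    refine NCP.ex1 (NCP.ex1 (NCP.ex1 ?_))
    exact NCP.and (fa_mt (ι := Option (Option (Option ι))) inferInstance (some (some none)) (some (some none)))
      (NCP.and (NCP.not (fa_mt inferInstance (some none) (some none)))
      (NCP.and (kp_adjm inferInstance (some (some none)) (some none))
      (NCP.and (kp_K inferInstance (some none) (some (some (some i))) none)
        (NCP.succ inferInstance (some (some (some k))) none))))
  exact h

/-- Job KPA. -/
theorem q_lv : NCP GS2 GB2 (Fin 2) (fun n s x => lvK n s (x 0) (x 1)) := by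
  have h : NCP GS2 GB2 (Fin 2) (fun n s x => (mt s.2 (x 0) = x 0 ∧ (x 1 : ℕ) = 0) ∨
      (¬ (mt s.2 (x 0) = x 0) ∧ cdK n s (x 0) (x 1) ∧ ∀ k' : Fin n, cdK n s (x 0) k' → x 1 ≤ k')) := by
    refine NCP.or (NCP.and (fa_mt inferInstance 0 0) (NCP.zero inferInstance 1))
      (NCP.and (NCP.not (fa_mt inferInstance 0 0)) (NCP.and (kp_cd inferInstance 0 1) (NCP.all1 ?_)))
    exact NCP.imp (kp_cd (ι := Option (Fin 2)) inferInstance (some 0) none)
      (NCP.le inferInstance (some 1) none)
  exact h

private theorem kp_dir {ι : Type} (hι : Finite ι) :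
    NCP GS2 GB2 ι (fun n s _ => ∃ a b : Fin n, dirK n s a b) := by
  have h : NCP GS2 GB2 ι (fun n s _ => ∃ a b : Fin n, mt s.2 a = a ∧ mt s.2 b = b ∧ s.1.Adj a b) :=
    NCP.ex1 (NCP.ex1 (NCP.and (fa_mt (ι := Option (Option ι)) inferInstance (some none) (some none))
      (NCP.and (fa_mt inferInstance none none) (kp_fst inferInstance (some none) none))))
  exact h

private theorem kp_reach {ι : Type} (hι : Finite ι) (i j : ι) : NCP GS2 GB2 ι (fun n s x => reachK n s (x i) (x j)) := by
  have h : NCP GS2 GB2 ι (fun n s x => ∃ k : Fin n, distK n (qs n s) (x i) (x j) k) :=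
    NCP.ex1 (NCP.comap (κ := Option ι) inferInstance ![some i, some j, none] q2_dist)
  exact h

private theorem kp_dat {ι : Type} (hι : Finite ι) (a b z y : ι) :
    NCP GS2 GB2 ι (fun n s x => datK n s (x a) (x b) (x z) (x y)) := by
  have h : NCP GS2 GB2 ι (fun n s x => ¬ (x a = x b) ∧ mt s.2 (x a) = x a ∧ mt s.2 (x b) = x b ∧
      ¬ (mt s.2 (x z) = x z) ∧ s.1.Adj (x a) (mt s.2 (x z)) ∧ reachK n s (x z) (x y) ∧ s.1.Adj (x y) (x b)) :=
    NCP.and (NCP.not (NCP.eq hι a b)) (NCP.and (fa_mt hι a a) (NCP.and (fa_mt hι b b)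
      (NCP.and (NCP.not (fa_mt hι z z)) (NCP.and (kp_adjm hι a z) (NCP.and (kp_reach hι z y) (kp_fst hι y b))))))
  exact h

private theorem kp_ld {ι : Type} (hι : Finite ι) (k : ι) :
    NCP GS2 GB2 ι (fun n s x => ldK n s (x k)) := by
  have h : NCP GS2 GB2 ι (fun n s x => ∃ a b z y j : Fin n, datK n s a b z y ∧ DK n s z y j ∧ (x k : ℕ) = j + 1) := by
    refine NCP.ex1 (NCP.ex1 (NCP.ex1 (NCP.ex1 (NCP.ex1 ?_))))
    exact NCP.and (kp_dat (ι := Option (Option (Option (Option (Option ι))))) inferInstance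
        (some (some (some (some none)))) (some (some (some none))) (some (some none)) (some none))
      (NCP.and (kp_K inferInstance (some (some none)) (some none) none)
        (NCP.succ inferInstance (some (some (some (some (some k))))) none))
  exact h

/-- Job KPA. -/
theorem q_lam : NCP GS2 GB2 (Fin 1) (fun n s x => lamK n s (x 0)) := by
  have h : NCP GS2 GB2 (Fin 1) (fun n s x => ((∃ a b : Fin n, dirK n s a b) ∧ (x 0 : ℕ) = 0) ∨
      ((¬ ∃ a b : Fin n, dirK n s a b) ∧ ldK n s (x 0) ∧ ∀ k' : Fin n, ldK n s k' → x 0 ≤ k')) := by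
    refine NCP.or (NCP.and (kp_dir inferInstance) (NCP.zero inferInstance 0))
      (NCP.and (NCP.not (kp_dir inferInstance)) (NCP.and (kp_ld inferInstance 0) (NCP.all1 ?_)))
    exact NCP.imp (kp_ld (ι := Option (Fin 1)) inferInstance none)
      (NCP.le inferInstance (some 0) none)
  exact h

private theorem kp_lv {ι : Type} (hι : Finite ι) (i j : ι) :
    NCP GS2 GB2 ι (fun n s x => lvK n s (x i) (x j)) :=
  NCP.comap hι ![i, j] q_lv

private theorem kp_lam {ι : Type} (hι : Finite ι) (i : ι) :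
    NCP GS2 GB2 ι (fun n s x => lamK n s (x i)) :=
  NCP.comap hι ![i] q_lam

/-- Job KPB. (`rtcP` or `NCP.tc1`.) -/
theorem q_cla : NCP GS2 GB2 (Fin 2) (fun n s x => claK n s (x 0) (x 1)) := by
  have h : NCP GS2 GB2 (Fin 3) (fun n s x =>
      (s.1.Adj (x 1) (x 2) ∧ ¬ (mt s.2 (x 1) = x 2) ∧ ∃ i j k : Fin n, lvK n s (x 1) i ∧ lvK n s (x 2) j ∧
        lamK n s k ∧ (i : ℕ) + j + 1 ≤ k) ∨
      (mt s.2 (x 1) = x 2 ∧ ∃ i j k : Fin n, lvK n s (x 1) i ∧ lvK n s (x 2) j ∧ lamK n s k ∧ (i : ℕ) + j ≤ k)) := by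
    refine NCP.or (NCP.and (kp_fst inferInstance 1 2) (NCP.and (NCP.not (fa_mt inferInstance 1 2))
      (NCP.ex1 (NCP.ex1 (NCP.ex1 ?_))))) (NCP.and (fa_mt inferInstance 1 2) (NCP.ex1 (NCP.ex1 (NCP.ex1 ?_))))
    · exact NCP.and (kp_lv (ι := Option (Option (Option (Fin 3)))) inferInstance (some (some (some 1))) (some (some none)))
        (NCP.and (kp_lv inferInstance (some (some (some 2))) (some none))
        (NCP.and (kp_lam inferInstance none) (kp_sum1 inferInstance (some (some none)) (some none) none)))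
    · exact NCP.and (kp_lv (ι := Option (Option (Option (Fin 3)))) inferInstance (some (some (some 1))) (some (some none)))
        (NCP.and (kp_lv inferInstance (some (some (some 2))) (some none))
        (NCP.and (kp_lam inferInstance none) (kp_sum inferInstance (some (some none)) (some none) none)))
  exact NCP.comap (κ := Fin 2) inferInstance ![0, 0, 1]
    (rtc1 (S := GS2) (R := fun n s _ => gcK n s) h)

private theorem kp_lvm {ι : Type} (hι : Finite ι) (i j : ι) :
    NCP GS2 GB2 ι (fun n s x => lvK n s (mt s.2 (x i)) (x j)) := by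
  have h : NCP GS2 GB2 ι (fun n s x => ∃ y : Fin n, mt s.2 (x i) = y ∧ lvK n s y (x j)) :=
    NCP.ex1 (NCP.and (fa_mt (ι := Option ι) inferInstance (some i) none)
      (kp_lv (ι := Option ι) inferInstance none (some j)))
  refine h.congr fun n s x => ?_
  simp only [exists_eq_left']

private theorem kp_ltm {ι : Type} (hι : Finite ι) (i : ι) :
    NCP GS2 GB2 ι (fun n s x => x i < mt s.2 (x i)) := by
  have h : NCP GS2 GB2 ι (fun n s x => ∃ y : Fin n, mt s.2 (x i) = y ∧ x i < y) :=
    NCP.ex1 (NCP.and (fa_mt (ι := Option ι) inferInstance (some i) none)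
      (NCP.lt (ι := Option ι) inferInstance (some i) none))
  refine h.congr fun n s x => ?_
  simp only [exists_eq_left']

/-- Job KPC. -/
theorem q_nd : NCP GS2 GB2 (Fin 1) (fun n s x => ndK n s (x 0)) := by
  have h : NCP GS2 GB2 (Fin 1) (fun n s x => ∃ i k : Fin n, lvK n s (x 0) i ∧ lamK n s k ∧ i ≤ k ∧
      (mt s.2 (x 0) = x 0 ∨ ∀ j : Fin n, lvK n s (mt s.2 (x 0)) j → ¬ ((i : ℕ) + j ≤ k) ∧
        (i < j ∨ (i = j ∧ x 0 < mt s.2 (x 0))))) := by
    refine NCP.ex1 (NCP.ex1 ?_)
    refine NCP.and (kp_lv (ι := Option (Option (Fin 1))) inferInstance (some (some 0)) (some none))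
      (NCP.and (kp_lam inferInstance none) (NCP.and (NCP.le inferInstance (some none) none)
      (NCP.or (fa_mt inferInstance (some (some 0)) (some (some 0))) (NCP.all1 ?_))))
    exact NCP.imp (kp_lvm (ι := Option (Option (Option (Fin 1)))) inferInstance (some (some (some 0))) none)
      (NCP.and (NCP.not (kp_sum inferInstance (some (some none)) none (some none)))
        (NCP.or (NCP.lt inferInstance (some (some none)) none)
          (NCP.and (NCP.eq inferInstance (some (some none)) none) (kp_ltm inferInstance (some (some (some 0)))))))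
  refine h.congr fun n s x => ?_
  unfold ndK
  simp only [not_le]

/-- Job KPC. -/
theorem q_up : NCP GS2 GB2 (Fin 2) (fun n s x => upK n s (x 0) (x 1)) := by
  have h : NCP GS2 GB2 (Fin 2) (fun n s x => ∃ y i j : Fin n, claK n s (x 0) y ∧ s.1.Adj y (mt s.2 (x 1)) ∧
      ¬ (y = x 1) ∧ lvK n s y i ∧ lvK n s (x 1) j ∧ (j : ℕ) = i + 1) := by
    refine NCP.ex1 (NCP.ex1 (NCP.ex1 ?_))
    exact NCP.and (NCP.comap (κ := Option (Option (Option (Fin 2)))) inferInstance
        ![some (some (some 0)), some (some none)] q_cla)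
      (NCP.and (kp_adjm inferInstance (some (some none)) (some (some (some 1))))
      (NCP.and (NCP.not (NCP.eq inferInstance (some (some none)) (some (some (some 1)))))
      (NCP.and (kp_lv inferInstance (some (some none)) (some none))
      (NCP.and (kp_lv inferInstance (some (some (some 1))) none)
        (NCP.succ inferInstance none (some none))))))
  exact h

/-- Job KPC. -/
theorem q_le : NCP GS2 GB2 (Fin 2) (fun n s x => leK' n s (x 0) (x 1)) := by
  have h : NCP GS2 GB2 (Fin 2) (fun n s x => ∃ i j : Fin n, lvK n s (x 0) i ∧ lvK n s (x 1) j ∧ i ≤ j) := by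
    refine NCP.ex1 (NCP.ex1 ?_)
    exact NCP.and (kp_lv (ι := Option (Option (Fin 2))) inferInstance (some (some 0)) (some none))
      (NCP.and (kp_lv inferInstance (some (some 1)) none) (NCP.le inferInstance (some none) none))
  exact h

private theorem kpd_fst {ι : Type} (hι : Finite ι) (i j : ι) :
    NCP GS2 GB2 ι (fun _ s x => s.1.Adj (x i) (x j)) :=
  NCP.comap hι ![i, j] (NCP.base inferInstance GB2.fst)

private theorem kpd_snd {ι : Type} (hι : Finite ι) (i j : ι) :
    NCP GS2 GB2 ι (fun _ s x => s.2.Adj (x i) (x j)) :=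
  NCP.comap hι ![i, j] (NCP.base inferInstance GB2.snd)

private theorem kpd_mat {ι : Type} (hι : Finite ι) : NCP GS2 GB2 ι (fun _ s _ => IsMat s.1 s.2) := by
  have h1 : NCP GS2 GB2 ι (fun n s x => ∀ a : Fin n, ∀ b : Fin n, (s.2.Adj a b → s.1.Adj a b)) :=
    NCP.all1 (NCP.all1 (NCP.imp (kpd_snd (ι := Option (Option ι)) inferInstance (some none) none)
      (kpd_fst (ι := Option (Option ι)) inferInstance (some none) none)))
  have h2 : NCP GS2 GB2 ι (fun n s x => ∀ v : Fin n, ∀ w : Fin n, ∀ w' : Fin n, (s.2.Adj v w → s.2.Adj v w' → w = w')) :=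
    NCP.all1 (NCP.all1 (NCP.all1 (NCP.imp (kpd_snd (ι := Option (Option (Option ι))) inferInstance (some (some none)) (some none))
      (NCP.imp (kpd_snd (ι := Option (Option (Option ι))) inferInstance (some (some none)) none)
        (NCP.eq inferInstance (some none) none)))))
  refine (NCP.and h1 h2).congr fun n s x => ?_
  unfold IsMat
  refine and_congr ?_ Iff.rfl
  rw [SimpleGraph.le_iff_adj]

private theorem kpd_rel4 {S : ℕ → Type} {B : Readers S} {ι : Type} {R : ∀ n, S n → Fin n → Fin n → Fin n → Fin n → Prop} (hι : Finite ι)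
    (h : NCP S B (Fin 4) (fun n s x => R n s (x 0) (x 1) (x 2) (x 3))) (i j k l : ι) :
    NCP S B ι (fun n s x => R n s (x i) (x j) (x k) (x l)) :=
  NCP.comap hι ![i, j, k, l] h

private theorem kpd_dir {ι : Type} (hι : Finite ι) (i j : ι) : NCP GS2 GB2 ι (fun n s x => dirK n s (x i) (x j)) := by
  have h : NCP GS2 GB2 ι (fun n s x => mt s.2 (x i) = x i ∧ mt s.2 (x j) = x j ∧ s.1.Adj (x i) (x j)) :=
    NCP.and (fa_mt hι i i) (NCP.and (fa_mt hι j j) (kpd_fst hι i j))
  exact h.congr fun n s x => Iff.rfl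

private theorem kpd_reach {ι : Type} (hι : Finite ι) (i j : ι) : NCP GS2 GB2 ι (fun n s x => reachK n s (x i) (x j)) := by
  have h : NCP GS2 GB2 ι (fun n s x => ∃ k : Fin n, distK n (qs n s) (x i) (x j) k) :=
    NCP.ex1 (NCP.rel3 (S := GS2) (B := GB2) (ι := Option ι) (R := fun n s a b c => distK n (qs n s) a b c) inferInstance q2_dist
      (some i) (some j) none)
  exact h.congr fun n s x => Iff.rfl

private theorem kpd_dat {ι : Type} (hι : Finite ι) (a b z x : ι) :
    NCP GS2 GB2 ι (fun n s y => datK n s (y a) (y b) (y z) (y x)) := by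
  have h0 : NCP GS2 GB2 ι (fun n s y => ∃ v : Fin n, mt s.2 (y z) = v ∧ s.1.Adj (y a) v) :=
    NCP.ex1 (NCP.and (fa_mt (ι := Option ι) inferInstance (some z) none) (kpd_fst (ι := Option ι) inferInstance (some a) none))
  have h : NCP GS2 GB2 ι (fun n s y => ¬ (y a = y b) ∧ mt s.2 (y a) = y a ∧ mt s.2 (y b) = y b ∧ ¬ (mt s.2 (y z) = y z) ∧
      (∃ v : Fin n, mt s.2 (y z) = v ∧ s.1.Adj (y a) v) ∧ reachK n s (y z) (y x) ∧ s.1.Adj (y x) (y b)) :=
    NCP.and (NCP.not (NCP.eq hι a b)) (NCP.and (fa_mt hι a a) (NCP.and (fa_mt hι b b) (NCP.and (NCP.not (fa_mt hι z z))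
      (NCP.and h0 (NCP.and (kpd_reach hι z x) (kpd_fst hι x b))))))
  refine h.congr fun n s y => ?_
  rw [exists_eq_left']
  rfl

private theorem kpd_on {ι : Type} (hι : Finite ι) (z x v : ι) : NCP GS2 GB2 ι (fun n s y => OnK n s (y z) (y x) (y v)) :=
  kpd_rel4 (S := GS2) (B := GB2) (R := fun n s a b c d => ReflTransGen (chdK (mt s.2) (EE s.1 (mt s.2)) (DK n s)) (a, b) (c, d)) hι q3_chd z x v v

private theorem kpd_nx {ι : Type} (hι : Finite ι) (z x a b : ι) : NCP GS2 GB2 ι (fun n s y => NxK n s (y z) (y x) (y a) (y b)) := by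
  have h : NCP GS2 GB2 ι (fun n s y => ∃ u' : Fin n, ∃ x' : Fin n,
      ReflTransGen (chdK (mt s.2) (EE s.1 (mt s.2)) (DK n s)) (y z, y x) (u', x') ∧
        chsK (mt s.2) (EE s.1 (mt s.2)) (DK n s) u' x' (y a) (y b)) :=
    NCP.ex1 (NCP.ex1 (NCP.and
      (kpd_rel4 (S := GS2) (B := GB2) (ι := Option (Option ι))
        (R := fun n s a b c d => ReflTransGen (chdK (mt s.2) (EE s.1 (mt s.2)) (DK n s)) (a, b) (c, d)) inferInstance q3_chd
        (some (some z)) (some (some x)) (some none) none)
      (kpd_rel4 (S := GS2) (B := GB2) (ι := Option (Option ι))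
        (R := fun n s a b c d => chsK (mt s.2) (EE s.1 (mt s.2)) (DK n s) a b c d) inferInstance q3_chs
        (some none) none (some (some a)) (some (some b)))))
  exact h.congr fun n s x => Iff.rfl

private theorem kpd_new : NCP GS2 GB2 (Option (Option (Option (Option (Fin 2))))) (fun n s y =>
    newE s.2 (mt s.2) (OnK n s (y (some none)) (y none)) (NxK n s (y (some none)) (y none)) (y (some (some (some none))))
      (y (some (some none))) (y (some none)) (y none) (y (some (some (some (some 0))))) (y (some (some (some (some 1)))))) := by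
  have hJ : Finite (Option (Option (Option (Option (Fin 2))))) := inferInstance
  have h1 := NCP.and (kpd_snd hJ (some (some (some (some 0)))) (some (some (some (some 1)))))
    (NCP.and (NCP.not (kpd_on hJ (some none) none (some (some (some (some 0))))))
      (NCP.not (kpd_on hJ (some none) none (some (some (some (some 1)))))))
  have h2 := NCP.and (NCP.eq (S := GS2) (B := GB2) hJ (some (some (some (some 0)))) (some (some (some none))))
    (fa_mt hJ (some none) (some (some (some (some 1)))))
  have h3 := NCP.and (NCP.eq (S := GS2) (B := GB2) hJ (some (some (some (some 0)))) none)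
    (NCP.eq (S := GS2) (B := GB2) hJ (some (some (some (some 1)))) (some (some none)))
  have h4 : NCP GS2 GB2 (Option (Option (Option (Option (Fin 2))))) (fun n s y => ∃ b : Fin n,
      NxK n s (y (some none)) (y none) (y (some (some (some (some 0))))) b ∧ mt s.2 b = y (some (some (some (some 1))))) :=
    NCP.ex1 (NCP.and (kpd_nx (ι := Option (Option (Option (Option (Option (Fin 2)))))) inferInstance (some (some none)) (some none)
        (some (some (some (some (some 0))))) none)
      (fa_mt (ι := Option (Option (Option (Option (Option (Fin 2)))))) inferInstance none (some (some (some (some (some 1)))))))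
  refine (NCP.or h1 (NCP.or h2 (NCP.or h3 h4))).congr fun n s y => ?_
  unfold newE
  refine or_congr Iff.rfl (or_congr (and_congr_right fun _ => eq_comm) (or_congr Iff.rfl ?_))
  exact exists_congr fun b => and_congr_right fun _ => eq_comm

/-- `a, b` is the least adjacent exposed pair. -/
private def kpd_dirMin (n : ℕ) (s : GS2 n) (a b : Fin n) : Prop :=
  dirK n s a b ∧ ∀ a' b', dirK n s a' b' → a < a' ∨ (a = a' ∧ b ≤ b')

private theorem kpd_dirMinP {ι : Type} (hι : Finite ι) (i j : ι) : NCP GS2 GB2 ι (fun n s x => kpd_dirMin n s (x i) (x j)) := by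
  have h : NCP GS2 GB2 ι (fun n s x => dirK n s (x i) (x j) ∧ ∀ a' : Fin n, ∀ b' : Fin n,
      (dirK n s a' b' → x i < a' ∨ (x i = a' ∧ x j ≤ b'))) :=
    NCP.and (kpd_dir hι i j) (NCP.all1 (NCP.all1 (NCP.imp (kpd_dir (ι := Option (Option ι)) inferInstance (some none) none)
      (NCP.or (NCP.lt (ι := Option (Option ι)) inferInstance (some (some i)) (some none))
        (NCP.and (NCP.eq (ι := Option (Option ι)) inferInstance (some (some i)) (some none))
          (NCP.le (ι := Option (Option ι)) inferInstance (some (some j)) none))))))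
  exact h.congr fun n s x => Iff.rfl

private theorem kpd_K {ι : Type} (hι : Finite ι) (i j k : ι) :
    NCP GS2 GB2 ι (fun n s x => DK n s (x i) (x j) (x k)) :=
  NCP.comap hι ![i, j, k] q2_dist

private theorem kpd_datS {ι : Type} (hι : Finite ι) (a b z x : ι) :
    NCP GS2 GB2 ι (fun n s y => datS n s (y a) (y b) (y z) (y x)) := by
  have hJ : Finite (Option (Option (Option (Option (Option (Option ι)))))) := inferInstance
  have h : NCP GS2 GB2 ι (fun n s y => datK n s (y a) (y b) (y z) (y x) ∧ ∃ j : Fin n, DK n s (y z) (y x) j ∧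
      ∀ a' : Fin n, ∀ b' : Fin n, ∀ z' : Fin n, ∀ x' : Fin n, ∀ j' : Fin n,
        (datK n s a' b' z' x' → DK n s z' x' j' → j ≤ j')) :=
    NCP.and (kpd_dat hι a b z x) (NCP.ex1 (NCP.and (kpd_K (ι := Option ι) inferInstance (some z) (some x) none)
      (NCP.all1 (NCP.all1 (NCP.all1 (NCP.all1 (NCP.all1
        (NCP.imp (kpd_dat hJ (some (some (some (some none)))) (some (some (some none))) (some (some none)) (some none))
          (NCP.imp (kpd_K hJ (some (some none)) (some none) none)
            (NCP.le hJ (some (some (some (some (some none))))) none))))))))))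
  exact h.congr fun n s x => Iff.rfl

/-- The least data of a shortest augmenting path. -/
private def kpd_datMin (n : ℕ) (s : GS2 n) (a b z x : Fin n) : Prop :=
  datS n s a b z x ∧ ∀ a' b' z' x', datS n s a' b' z' x' →
    a < a' ∨ (a = a' ∧ (b < b' ∨ (b = b' ∧ (z < z' ∨ (z = z' ∧ x ≤ x')))))

private theorem kpd_datMinP {ι : Type} (hι : Finite ι) (a b z x : ι) :
    NCP GS2 GB2 ι (fun n s y => kpd_datMin n s (y a) (y b) (y z) (y x)) := by
  have hJ : Finite (Option (Option (Option (Option ι)))) := inferInstance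
  have h : NCP GS2 GB2 ι (fun n s y => datS n s (y a) (y b) (y z) (y x) ∧
      ∀ a' : Fin n, ∀ b' : Fin n, ∀ z' : Fin n, ∀ x' : Fin n, (datS n s a' b' z' x' →
        y a < a' ∨ (y a = a' ∧ (y b < b' ∨ (y b = b' ∧ (y z < z' ∨ (y z = z' ∧ y x ≤ x'))))))) :=
    NCP.and (kpd_datS hι a b z x) (NCP.all1 (NCP.all1 (NCP.all1 (NCP.all1
      (NCP.imp (kpd_datS hJ (some (some (some none))) (some (some none)) (some none) none)
        (NCP.or (NCP.lt hJ (some (some (some (some a)))) (some (some (some none))))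
          (NCP.and (NCP.eq hJ (some (some (some (some a)))) (some (some (some none))))
            (NCP.or (NCP.lt hJ (some (some (some (some b)))) (some (some none)))
              (NCP.and (NCP.eq hJ (some (some (some (some b)))) (some (some none)))
                (NCP.or (NCP.lt hJ (some (some (some (some z)))) (some none))
                  (NCP.and (NCP.eq hJ (some (some (some (some z)))) (some none))
                    (NCP.le hJ (some (some (some (some x)))) none))))))))))))
  exact h.congr fun n s x => Iff.rfl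

private theorem kpd_step : NCP GS2 GB2 (Fin 2) (fun n s x => sstepE n s (x 0) (x 1)) := by
  have hmat := kpd_mat (ι := Fin 2) inferInstance
  have hdir : NCP GS2 GB2 (Fin 2) (fun n s x => ∃ a : Fin n, ∃ b : Fin n, dirK n s a b) :=
    NCP.ex1 (NCP.ex1 (kpd_dir (ι := Option (Option (Fin 2))) inferInstance (some none) none))
  have hdat : NCP GS2 GB2 (Fin 2) (fun n s x => ∃ a : Fin n, ∃ b : Fin n, ∃ z : Fin n, ∃ x : Fin n, datS n s a b z x) :=
    NCP.ex1 (NCP.ex1 (NCP.ex1 (NCP.ex1 (kpd_datS (ι := Option (Option (Option (Option (Fin 2))))) inferInstance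
      (some (some (some none))) (some (some none)) (some none) none))))
  have h2 : NCP GS2 GB2 (Fin 2) (fun n s x => ∃ a : Fin n, ∃ b : Fin n, kpd_dirMin n s a b ∧
      (s.2.Adj (x 0) (x 1) ∨ (x 0 = a ∧ x 1 = b))) :=
    NCP.ex1 (NCP.ex1 (NCP.and (kpd_dirMinP (ι := Option (Option (Fin 2))) inferInstance (some none) none)
      (NCP.or (kpd_snd (ι := Option (Option (Fin 2))) inferInstance (some (some 0)) (some (some 1)))
        (NCP.and (NCP.eq (ι := Option (Option (Fin 2))) inferInstance (some (some 0)) (some none))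
          (NCP.eq (ι := Option (Option (Fin 2))) inferInstance (some (some 1)) none)))))
  have h3 : NCP GS2 GB2 (Fin 2) (fun n s y => ∃ a : Fin n, ∃ b : Fin n, ∃ z : Fin n, ∃ x : Fin n, kpd_datMin n s a b z x ∧
      newE s.2 (mt s.2) (OnK n s z x) (NxK n s z x) a b z x (y 0) (y 1)) :=
    NCP.ex1 (NCP.ex1 (NCP.ex1 (NCP.ex1 (NCP.and (kpd_datMinP (ι := Option (Option (Option (Option (Fin 2))))) inferInstance
      (some (some (some none))) (some (some none)) (some none) none) kpd_new))))
  refine (NCP.or (NCP.and (NCP.not hmat) (kpd_snd inferInstance 0 1))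
    (NCP.or (NCP.and hmat h2) (NCP.or (NCP.and hmat (NCP.and (NCP.not hdir) h3))
      (NCP.and hmat (NCP.and (NCP.not hdir) (NCP.and (NCP.not hdat) (kpd_snd inferInstance 0 1))))))).congr fun n s x => ?_
  unfold sstepE kpd_dirMin kpd_datMin
  simp only [and_assoc]

/-- Job KPD. As `q3_aug` in `AUG/SearchProg.lean`, with `datS` for `datK`. -/
theorem q_sAug : NCP GS2 GB2 (Fin 2) (fun n s x => (sAug n s.1 s.2).Adj (x 0) (x 1)) := by
  refine (NCP.and (NCP.not (NCP.eq inferInstance 0 1)) (NCP.or kpd_step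
    (NCP.rel2 (S := GS2) (B := GB2) (R := fun n s a b => sstepE n s a b) inferInstance kpd_step 1 0))).congr fun n s x => ?_
  unfold sAug
  rw [SimpleGraph.fromRel_adj]

end Pool.Agent.SUB
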