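import Pool.Agent.Lib.MP_0087d5_lc.SUB.FOM
import Pool.Agent.Lib.MP_0087d5_lc.UPM.Compile

/-!
# Circuits with depth c (log n)^k D(n)

Adapted from `UPM/Compile.lean`: the wires are first-order definable with multiplication, and the depth has an additional factor `D n`.
-/

namespace Pool.Agent.SUB

open Pool.Agent.UPM (RF Readers RelF Ext)

/-- Open circuits: the gates may read the basic relations of `B`. -/
structure OM (S : ℕ → Type) (B : Readers S) where
  T : Type
  finT : Finite T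
  A : T → Type
  finA : ∀ t, Finite (A t)
  inp : ∀ t, Option ((ι : Type) ×' (P : RF S ι) ×' (_ : B ι P) ×' (ι → A t))
  wire : ∀ (a b : T) (n : ℕ), (A a → Fin n) → (A b → Fin n) → Prop
  uniform : ∀ a b, FOM (A a ⊕ A b) (fun n z => wire a b n (fun i => z (Sum.inl i)) (fun i => z (Sum.inr i)))

variable {S : ℕ → Type} {B : Readers S} {ι κ : Type} {D : ℕ → ℕ}

def OM.Gate (C : OM S B) (n : ℕ) : Type := Σ t : C.T, (C.A t → Fin n)

def OM.Wire (C : OM S B) (n : ℕ) (g h : C.Gate n) : Prop := C.wire g.1 h.1 n g.2 h.2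

def OM.Consistent (C : OM S B) (n : ℕ) (s : S n) (v : C.Gate n → Prop) : Prop :=
  ∀ g : C.Gate n, v g ↔
    match C.inp g.1 with
    | some ⟨_, P, _, e⟩ => P n s (fun i => g.2 (e i))
    | none => ¬ ∀ h, C.Wire n g h → v h

def OM.FanInTwo (C : OM S B) (n : ℕ) : Prop :=
  ∀ g h₁ h₂ h₃ : C.Gate n, C.Wire n g h₁ → C.Wire n g h₂ → C.Wire n g h₃ → h₁ = h₂ ∨ h₁ = h₃ ∨ h₂ = h₃

def OM.DepthLE (C : OM S B) (n d : ℕ) : Prop :=
  ∃ lev : C.Gate n → ℕ, (∀ g, lev g ≤ d) ∧ ∀ g h, C.Wire n g h → lev h < lev g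

/-- `F` is computed by an open circuit of depth `c (log n)^k D(n)`: the value `F n s x` is the value of the gate `(o, x ∘ e)`. -/
def LComp (D : ℕ → ℕ) (S : ℕ → Type) (B : Readers S) (ι : Type) (F : RF S ι) : Prop :=
  Finite ι ∧ ∃ (C : OM S B) (o : C.T) (e : C.A o → ι) (c k : ℕ),
    (∀ n, C.FanInTwo n ∧ C.DepthLE n (c * (Nat.log 2 n + 1) ^ k * (D n + 1))) ∧
    ∀ n s, ∃ v, C.Consistent n s v ∧ ∀ x, v ⟨o, fun i => x (e i)⟩ ↔ F n s x

/-- Job CB. One tag with A = ι and inp = the reader. -/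
theorem LComp.base (hι : Finite ι) {P : RF S ι} (h : B ι P) : LComp D S B ι P := by
  refine ⟨hι, ⟨Unit, inferInstance, fun _ => ι, fun _ => hι, fun _ => some ⟨ι, P, h, id⟩,
    fun _ _ _ _ _ => False, fun _ _ => FOM.const False⟩, (), id, 0, 0, fun n => ⟨?_, ?_⟩,
    fun n s => ⟨fun g => P n s g.2, fun g => Iff.rfl, fun x => Iff.rfl⟩⟩
  · intro g h₁ h₂ h₃ hw
    exact hw.elim
  · exact ⟨fun _ => 0, fun _ => Nat.zero_le _, fun g h hw => hw.elim⟩

/-- Job CB. Same circuit, output map composed with `e`. -/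
theorem LComp.comap {P : RF S ι} (hκ : Finite κ) (e : ι → κ) (h : LComp D S B ι P) :
    LComp D S B κ (fun n s x => P n s (fun i => x (e i))) := by
  obtain ⟨_, C, o, e', c, k, h1, h2⟩ := h
  refine ⟨hκ, C, o, fun i => e (e' i), c, k, h1, fun n s => ?_⟩
  obtain ⟨v, hv, hvx⟩ := h2 n s
  exact ⟨v, hv, fun x => hvx (fun i => x (e i))⟩

private def cbA (ι : Type) : Bool → Type
  | true => ι
  | false => Empty

private def cbWire {ι : Type} (P : ∀ n : ℕ, (ι → Fin n) → Prop) :
    ∀ (a b : Bool) (n : ℕ), (cbA ι a → Fin n) → (cbA ι b → Fin n) → Prop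
  | true, false => fun n x _ => P n x
  | true, true => fun _ _ _ => False
  | false, true => fun _ _ _ => False
  | false, false => fun _ _ _ => False

private def cbOC (S : ℕ → Type) (B : Readers S) {ι : Type} (hι : Finite ι)
    {P : ∀ n : ℕ, (ι → Fin n) → Prop} (h : FOM ι P) : OM S B where
  T := Bool
  finT := inferInstance
  A := cbA ι
  finA := fun t => match t with
    | true => hι
    | false => (inferInstance : Finite Empty)
  inp := fun _ => none
  wire := cbWire P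
  uniform := fun a b => match a, b with
    | true, false => FOM.comap (P := P) (fun i : ι => (Sum.inl i : ι ⊕ Empty)) h
    | true, true => FOM.const False
    | false, true => FOM.const False
    | false, false => FOM.const False

/-- Job CB. Two tags: `a` with A = ι and `z` with A = Empty; no inputs for z (value False); z is an input of (a, x) iff P n x. So the value of (a, x) is P n x. -/
theorem LComp.ofFO (hι : Finite ι) {P : ∀ n : ℕ, (ι → Fin n) → Prop} (h : FOM ι P) : LComp D S B ι (fun n _ x => P n x) := by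
  have hw : ∀ (n : ℕ) (g k : (cbOC S B hι h).Gate n), (cbOC S B hι h).Wire n g k →
      (∃ x : ι → Fin n, g = ⟨true, x⟩ ∧ P n x) ∧ k = ⟨false, fun i : Empty => i.elim⟩ := by
    rintro n ⟨a, x⟩ ⟨b, y⟩ hgk
    cases a with
    | true =>
      cases b with
      | true => exact hgk.elim
      | false =>
        refine ⟨⟨x, rfl, hgk⟩, ?_⟩
        have : y = fun i : Empty => i.elim := by
          funext i
          exact (i : Empty).elim
        rw [this]
    | false =>
      cases b with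
      | true => exact hgk.elim
      | false => exact hgk.elim
  refine ⟨hι, cbOC S B hι h, true, id, 1, 0, fun n => ⟨?_, ?_⟩, fun n s => ?_⟩
  · intro g h₁ h₂ h₃ hw1 hw2 _
    exact Or.inl ((hw n _ _ hw1).2.trans (hw n _ _ hw2).2.symm)
  · refine ⟨fun g => Bool.toNat g.1, fun g => ?_, fun g k hgk => ?_⟩
    · refine (Bool.toNat_le g.1).trans ?_
      rw [pow_zero, mul_one, one_mul]
      exact Nat.succ_le_succ (Nat.zero_le _)
    · obtain ⟨⟨x, hx, -⟩, hk⟩ := hw n g k hgk
      rw [hx, hk]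
      exact Nat.zero_lt_one
  · refine ⟨fun g => ∃ x : ι → Fin n, g = ⟨true, x⟩ ∧ P n x, fun g => ?_, fun x => ?_⟩
    · show (∃ x : ι → Fin n, g = ⟨true, x⟩ ∧ P n x) ↔
        ¬ ∀ k, (cbOC S B hι h).Wire n g k → ∃ x : ι → Fin n, k = ⟨true, x⟩ ∧ P n x
      constructor
      · rintro ⟨x, rfl, hx⟩ hall
        obtain ⟨y, hy, -⟩ := hall ⟨false, fun i : Empty => i.elim⟩ hx
        have h4 : false = true := congrArg Sigma.fst hy
        exact Bool.noConfusion h4
      · intro hn
        push Not at hn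
        obtain ⟨k, hk, -⟩ := hn
        exact (hw n g k hk).1
    · constructor
      · rintro ⟨y, hy, hP⟩
        have h3 : (fun i => x (id i)) = y := eq_of_heq (Sigma.mk.inj hy).2
        rw [← h3] at hP
        exact hP
      · intro hP
        exact ⟨x, rfl, hP⟩

theorem cn_congr {ι : Type} {P Q : ∀ n : ℕ, (ι → Fin n) → Prop} (h : FOM ι P) (hPQ : ∀ n x, P n x ↔ Q n x) : FOM ι Q := by
  have e : P = Q := by
    funext n x
    exact propext (hPQ n x)
  rwa [← e]

/-- New gates on top of a circuit. -/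
structure CnNew (C : OM S B) where
  T : Type
  finT : Finite T
  A : T → Type
  finA : ∀ t, Finite (A t)
  inp : ∀ t, Option ((ι : Type) ×' (P : RF S ι) ×' (_ : B ι P) ×' (ι → A t))
  w1 : ∀ (a : T) (b : C.T) (n : ℕ), (A a → Fin n) → (C.A b → Fin n) → Prop
  w2 : ∀ (a b : T) (n : ℕ), (A a → Fin n) → (A b → Fin n) → Prop
  u1 : ∀ a b, FOM (A a ⊕ C.A b) (fun n z => w1 a b n (fun i => z (Sum.inl i)) (fun i => z (Sum.inr i)))
  u2 : ∀ a b, FOM (A a ⊕ A b) (fun n z => w2 a b n (fun i => z (Sum.inl i)) (fun i => z (Sum.inr i)))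

/-- The circuit with the new gates. -/
def CnNew.ext {C : OM S B} (N : CnNew C) : OM S B where
  T := C.T ⊕ N.T
  finT := by
    have h1 := C.finT
    have h2 := N.finT
    infer_instance
  A := Sum.elim C.A N.A
  finA := by
    rintro (t | t)
    · exact C.finA t
    · exact N.finA t
  inp := fun t => match t with
    | Sum.inl t => C.inp t
    | Sum.inr t => N.inp t
  wire := fun a b n => match a, b with
    | Sum.inl a, Sum.inl b => C.wire a b n
    | Sum.inl _, Sum.inr _ => fun _ _ => False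
    | Sum.inr a, Sum.inl b => N.w1 a b n
    | Sum.inr a, Sum.inr b => N.w2 a b n
  uniform := by
    rintro (a | a) (b | b)
    · exact C.uniform a b
    · exact FOM.const False
    · exact N.u1 a b
    · exact N.u2 a b

/-- Values for the circuit with the new gates. -/
def CnNew.val {C : OM S B} (N : CnNew C) {n : ℕ} (v : C.Gate n → Prop) (v₂ : ∀ a, (N.A a → Fin n) → Prop) : N.ext.Gate n → Prop
  | ⟨Sum.inl t, x⟩ => v ⟨t, x⟩
  | ⟨Sum.inr a, x⟩ => v₂ a x

theorem CnNew.bounds {C : OM S B} (N : CnNew C) {n d₁ d₂ : ℕ} (h1 : C.FanInTwo n) (h2 : C.DepthLE n d₁)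
    (lev : ∀ a, (N.A a → Fin n) → ℕ) (hl : ∀ a x, lev a x ≤ d₂) (hw : ∀ a b x y, N.w2 a b n x y → lev b y < lev a x)
    (hfan : ∀ a x, ∀ h₁ h₂ h₃ : N.ext.Gate n, N.ext.Wire n ⟨Sum.inr a, x⟩ h₁ → N.ext.Wire n ⟨Sum.inr a, x⟩ h₂ →
      N.ext.Wire n ⟨Sum.inr a, x⟩ h₃ → h₁ = h₂ ∨ h₁ = h₃ ∨ h₂ = h₃) :
    N.ext.FanInTwo n ∧ N.ext.DepthLE n (d₁ + 1 + d₂) := by
  constructor
  · rintro ⟨a | a, x⟩ h₁ h₂ h₃ w₁ w₂ w₃
    · obtain ⟨b₁ | b₁, y₁⟩ := h₁
      · obtain ⟨b₂ | b₂, y₂⟩ := h₂
        · obtain ⟨b₃ | b₃, y₃⟩ := h₃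
          · have inj : ∀ (b b' : C.T) (y : C.A b → Fin n) (y' : C.A b' → Fin n), (⟨b, y⟩ : C.Gate n) = ⟨b', y'⟩ →
                (⟨Sum.inl b, y⟩ : N.ext.Gate n) = ⟨Sum.inl b', y'⟩ := by
              intro b b' y y' he
              cases he
              rfl
            rcases h1 ⟨a, x⟩ ⟨b₁, y₁⟩ ⟨b₂, y₂⟩ ⟨b₃, y₃⟩ w₁ w₂ w₃ with h | h | h
            · exact Or.inl (inj _ _ _ _ h)
            · exact Or.inr (Or.inl (inj _ _ _ _ h))
            · exact Or.inr (Or.inr (inj _ _ _ _ h))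
          · exact absurd w₃ id
        · exact absurd w₂ id
      · exact absurd w₁ id
    · exact hfan a x h₁ h₂ h₃ w₁ w₂ w₃
  · obtain ⟨l, hl1, hl2⟩ := h2
    refine ⟨fun g => match g with
      | ⟨Sum.inl t, x⟩ => l ⟨t, x⟩
      | ⟨Sum.inr a, x⟩ => d₁ + 1 + lev a x, ?_, ?_⟩
    · rintro ⟨a | a, x⟩
      · have h := hl1 ⟨a, x⟩
        show l ⟨a, x⟩ ≤ _
        omega
      · have h := hl a x
        show d₁ + 1 + lev a x ≤ _
        omega
    · rintro ⟨a | a, x⟩ ⟨b | b, y⟩ w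
      · exact hl2 ⟨a, x⟩ ⟨b, y⟩ w
      · exact absurd w id
      · have h := hl1 ⟨b, y⟩
        show l ⟨b, y⟩ < d₁ + 1 + lev a x
        omega
      · have h := hw a b x y w
        show d₁ + 1 + lev b y < d₁ + 1 + lev a x
        omega

theorem cn_consistent_iff {C : OM S B} {n : ℕ} {s : S n} {v : C.Gate n → Prop} : C.Consistent n s v ↔
    ∀ (a : C.T) (x : C.A a → Fin n), (∀ r, C.inp a = some r → (v ⟨a, x⟩ ↔ r.2.1 n s (fun i => x (r.2.2.2 i)))) ∧
      (C.inp a = none → (v ⟨a, x⟩ ↔ ¬ ∀ (b : C.T) (y : C.A b → Fin n), C.wire a b n x y → v ⟨b, y⟩)) := by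
  constructor
  · intro h a x
    have h1 := h ⟨a, x⟩
    constructor
    · intro r hr
      dsimp only at h1
      rw [hr] at h1
      exact h1
    · intro hr
      dsimp only at h1
      rw [hr] at h1
      refine h1.trans (not_congr ?_)
      exact ⟨fun h2 b y w => h2 ⟨b, y⟩ w, fun h2 g w => h2 g.1 g.2 w⟩
  · intro h g
    obtain ⟨a, x⟩ := g
    obtain ⟨h1, h2⟩ := h a x
    dsimp only
    cases hr : C.inp a with
    | some r => exact h1 r hr
    | none =>
      refine (h2 hr).trans (not_congr ?_)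
      exact ⟨fun h2 g w => h2 g.1 g.2 w, fun h2 b y w => h2 ⟨b, y⟩ w⟩

theorem CnNew.consistent {C : OM S B} (N : CnNew C) {n : ℕ} {s : S n} {v : C.Gate n → Prop} {v₂ : ∀ a, (N.A a → Fin n) → Prop}
    (hv : C.Consistent n s v)
    (h₂s : ∀ a x r, N.inp a = some r → (v₂ a x ↔ r.2.1 n s (fun i => x (r.2.2.2 i))))
    (h₂n : ∀ a x, N.inp a = none → (v₂ a x ↔ ¬ ((∀ b y, N.w1 a b n x y → v ⟨b, y⟩) ∧ ∀ b y, N.w2 a b n x y → v₂ b y))) :
    N.ext.Consistent n s (N.val v v₂) := by
  rw [cn_consistent_iff] at hv ⊢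
  rintro (a | a) x
  · obtain ⟨h1, h2⟩ := hv a x
    refine ⟨fun r hr => h1 r hr, fun hr => (h2 hr).trans (not_congr ?_)⟩
    constructor
    · rintro h' (b | b) y w
      · exact h' b y w
      · exact absurd w id
    · intro h' b y w
      exact h' (Sum.inl b) y w
  · refine ⟨fun r hr => h₂s a x r hr, fun hr => (h₂n a x hr).trans (not_congr ?_)⟩
    constructor
    · rintro ⟨h1, h2⟩ (b | b) y w
      · exact h1 b y w
      · exact h2 b y w
    · intro h'
      exact ⟨fun b y w => h' (Sum.inl b) y w, fun b y w => h' (Sum.inr b) y w⟩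

theorem cn_pigeon {α : Type*} {p q h₁ h₂ h₃ : α} (w₁ : h₁ = p ∨ h₁ = q) (w₂ : h₂ = p ∨ h₂ = q) (w₃ : h₃ = p ∨ h₃ = q) :
    h₁ = h₂ ∨ h₁ = h₃ ∨ h₂ = h₃ := by
  rcases w₁ with w₁ | w₁ <;> rcases w₂ with w₂ | w₂ <;> rcases w₃ with w₃ | w₃ <;> subst w₁ <;> simp_all

/-- Definability of the wire to an output gate. -/
theorem cn_fo_out (C : OM S B) (o b : C.T) {κ : Type} (e : C.A o → κ) :
    FOM (κ ⊕ C.A b) (fun n z => (⟨b, fun i => z (Sum.inr i)⟩ : C.Gate n) = ⟨o, fun i => z (Sum.inl (e i))⟩) := by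
  have hf := C.finA o
  by_cases hb : b = o
  · subst hb
    refine cn_congr (FOM.allFin (J := C.A b) (P := fun i n z => z (Sum.inr i) = z (Sum.inl (e i)))
      (fun i => FOM.eq (Sum.inr i) (Sum.inl (e i)))) ?_
    intro n z
    constructor
    · intro h
      congr 1
      funext i
      exact h i
    · intro h i
      have h2 := eq_of_heq (Sigma.mk.inj h).2
      exact congrFun h2 i
  · refine cn_congr (FOM.const False) ?_
    intro n z
    constructor
    · exact fun h => h.elim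
    · intro h
      exact absurd (Sigma.mk.inj h).1 hb

theorem cn_depth {c k n d : ℕ} : c * (Nat.log 2 n + 1) ^ k * (d + 1) + 1 + 1 ≤ (c + 2) * (Nat.log 2 n + 1) ^ k * (d + 1) := by
  have h : 1 ≤ (Nat.log 2 n + 1) ^ k := Nat.one_le_pow _ _ (by omega)
  have h2 : 1 ≤ (Nat.log 2 n + 1) ^ k * (d + 1) := Nat.mul_pos h (Nat.succ_pos d)
  have h3 : (c + 2) * (Nat.log 2 n + 1) ^ k * (d + 1) = c * (Nat.log 2 n + 1) ^ k * (d + 1) + 2 * ((Nat.log 2 n + 1) ^ k * (d + 1)) := by ring
  omega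

/-- The disjoint union of two circuits. -/
def cnUnion (C₁ C₂ : OM S B) : CnNew C₁ where
  T := C₂.T
  finT := C₂.finT
  A := C₂.A
  finA := C₂.finA
  inp := C₂.inp
  w1 := fun _ _ _ _ _ => False
  w2 := C₂.wire
  u1 := fun _ _ => FOM.const False
  u2 := C₂.uniform

theorem cn_union_bounds {C₁ C₂ : OM S B} {n d₁ d₂ : ℕ} (h1 : C₁.FanInTwo n) (h2 : C₁.DepthLE n d₁) (h3 : C₂.FanInTwo n)
    (h4 : C₂.DepthLE n d₂) : (cnUnion C₁ C₂).ext.FanInTwo n ∧ (cnUnion C₁ C₂).ext.DepthLE n (d₁ + 1 + d₂) := by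
  obtain ⟨l, hl1, hl2⟩ := h4
  refine (cnUnion C₁ C₂).bounds h1 h2 (fun a x => l ⟨a, x⟩) (fun a x => hl1 _) (fun a b x y w => hl2 ⟨a, x⟩ ⟨b, y⟩ w) ?_
  rintro a x ⟨b₁ | b₁, y₁⟩ ⟨b₂ | b₂, y₂⟩ ⟨b₃ | b₃, y₃⟩ w₁ w₂ w₃
  · exact absurd w₁ id
  · exact absurd w₁ id
  · exact absurd w₁ id
  · exact absurd w₁ id
  · exact absurd w₂ id
  · exact absurd w₂ id
  · exact absurd w₃ id
  · have inj : ∀ (b b' : C₂.T) (y : C₂.A b → Fin n) (y' : C₂.A b' → Fin n), (⟨b, y⟩ : C₂.Gate n) = ⟨b', y'⟩ →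
        (⟨Sum.inr b, y⟩ : (cnUnion C₁ C₂).ext.Gate n) = ⟨Sum.inr b', y'⟩ := by
      intro b b' y y' he
      cases he
      rfl
    rcases h3 ⟨a, x⟩ ⟨b₁, y₁⟩ ⟨b₂, y₂⟩ ⟨b₃, y₃⟩ w₁ w₂ w₃ with h | h | h
    · exact Or.inl (inj _ _ _ _ h)
    · exact Or.inr (Or.inl (inj _ _ _ _ h))
    · exact Or.inr (Or.inr (inj _ _ _ _ h))

theorem cn_union_consistent {C₁ C₂ : OM S B} {n : ℕ} {s : S n} {v₁ : C₁.Gate n → Prop} {v₂ : C₂.Gate n → Prop}
    (h1 : C₁.Consistent n s v₁) (h2 : C₂.Consistent n s v₂) :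
    (cnUnion C₁ C₂).ext.Consistent n s ((cnUnion C₁ C₂).val v₁ (fun a x => v₂ ⟨a, x⟩)) := by
  rw [cn_consistent_iff] at h2
  refine (cnUnion C₁ C₂).consistent h1 (fun a x r hr => (h2 a x).1 r hr) (fun a x hr => ((h2 a x).2 hr).trans (not_congr ?_))
  constructor
  · intro h'
    exact ⟨fun _ _ hf => absurd hf id, fun b y w => h' b y w⟩
  · rintro ⟨_, h'⟩ b y w
    exact h' b y w

/-- Job CN. New tag with A = ι; its only input is the output gate (o, x ∘ e). -/
theorem LComp.not {P : RF S ι} (h : LComp D S B ι P) : LComp D S B ι (fun n s x => ¬ P n s x) := by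
  obtain ⟨hι, C, o, e, c, k, hC, hv⟩ := h
  let N : CnNew C :=
    { T := Unit
      finT := inferInstance
      A := fun _ => ι
      finA := fun _ => hι
      inp := fun _ => none
      w1 := fun _ b n x y => (⟨b, y⟩ : C.Gate n) = ⟨o, fun i => x (e i)⟩
      w2 := fun _ _ _ _ _ => False
      u1 := fun _ b => cn_fo_out C o b e
      u2 := fun _ _ => FOM.const False }
  refine ⟨hι, N.ext, Sum.inr (), id, c + 2, k, ?_, ?_⟩
  · intro n
    have hb := N.bounds (n := n) (d₂ := 0) (hC n).1 (hC n).2 (fun _ _ => 0) (fun _ _ => le_rfl) (fun _ _ _ _ w => absurd w id) (by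
      rintro a x ⟨b₁ | b₁, y₁⟩ ⟨b₂ | b₂, y₂⟩ ⟨b₃ | b₃, y₃⟩ w₁ w₂ w₃
      · left
        have h1 : (⟨b₁, y₁⟩ : C.Gate n) = ⟨b₂, y₂⟩ := Eq.trans w₁ (Eq.symm w₂)
        cases h1
        rfl
      · exact absurd w₃ id
      · exact absurd w₂ id
      · exact absurd w₂ id
      · exact absurd w₁ id
      · exact absurd w₁ id
      · exact absurd w₁ id
      · exact absurd w₁ id)
    refine ⟨hb.1, ?_⟩
    obtain ⟨l, hl1, hl2⟩ := hb.2
    refine ⟨l, fun g => (hl1 g).trans ?_, hl2⟩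
    have := cn_depth (c := c) (k := k) (n := n) (d := D n)
    omega
  · intro n s
    obtain ⟨v, hcons, hval⟩ := hv n s
    refine ⟨N.val v (fun _ x => ¬ v ⟨o, fun i => x (e i)⟩), N.consistent hcons (fun a x r hr => ?_) (fun a x _ => ?_), ?_⟩
    · exact absurd hr (by simp [N])
    · show ¬ v ⟨o, fun i => x (e i)⟩ ↔ ¬ ((∀ b y, (⟨b, y⟩ : C.Gate n) = ⟨o, fun i => x (e i)⟩ → v ⟨b, y⟩) ∧
        ∀ (_ : Unit) (y : ι → Fin n), False → ¬ v ⟨o, fun i => y (e i)⟩)
      apply not_congr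
      constructor
      · intro h1
        refine ⟨fun b y hby => ?_, fun _ _ hf => hf.elim⟩
        rw [hby]
        exact h1
      · rintro ⟨h1, _⟩
        exact h1 _ _ rfl
    · intro x
      exact not_congr (hval x)

/-- Job CN. Tags of both circuits and two new ones: NAND of both outputs, and its negation. -/
theorem LComp.and {P Q : RF S ι} (hP : LComp D S B ι P) (hQ : LComp D S B ι Q) : LComp D S B ι (fun n s x => P n s x ∧ Q n s x) := by
  obtain ⟨hι, C₁, o₁, e₁, c₁, k₁, hC₁, hv₁⟩ := hP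
  obtain ⟨_, C₂, o₂, e₂, c₂, k₂, hC₂, hv₂⟩ := hQ
  let C : OM S B := (cnUnion C₁ C₂).ext
  let f₁ : ∀ n, (ι → Fin n) → C.Gate n := fun n x => ⟨Sum.inl o₁, fun i => x (e₁ i)⟩
  let f₂ : ∀ n, (ι → Fin n) → C.Gate n := fun n x => ⟨Sum.inr o₂, fun i => x (e₂ i)⟩
  let N : CnNew C :=
    { T := Bool
      finT := inferInstance
      A := fun _ => ι
      finA := fun _ => hι
      inp := fun _ => none
      w1 := fun a b n x y => a = false ∧ ((⟨b, y⟩ : C.Gate n) = f₁ n x ∨ (⟨b, y⟩ : C.Gate n) = f₂ n x)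
      w2 := fun a b n x y => a = true ∧ b = false ∧ ∀ i, y i = x i
      u1 := fun a b => (FOM.const (a = false)).and
        ((cn_fo_out C (Sum.inl o₁) b e₁).or (cn_fo_out C (Sum.inr o₂) b e₂))
      u2 := fun a b => (FOM.const (a = true)).and ((FOM.const (b = false)).and
        (FOM.allFin (J := ι) (P := fun i n z => z (Sum.inr i) = z (Sum.inl i)) (fun i => FOM.eq _ _))) }
  refine ⟨hι, N.ext, Sum.inr true, id, c₁ + c₂ + 4, k₁ + k₂, ?_, ?_⟩
  · intro n
    have hu := cn_union_bounds (hC₁ n).1 (hC₁ n).2 (hC₂ n).1 (hC₂ n).2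
    have hb := N.bounds (n := n) (d₂ := 1) hu.1 hu.2 (fun a _ => if a = true then 1 else 0)
      (fun a _ => by
        show (if a = true then 1 else 0) ≤ 1
        split_ifs <;> omega)
      (fun a b _ _ w => by
        obtain ⟨wa, wb, _⟩ := w
        show (if b = true then 1 else 0) < (if a = true then 1 else 0)
        rw [wa, wb]
        simp) (by
      intro a x h₁ h₂ h₃ w₁ w₂ w₃
      have key1 : a = false → ∀ h : N.ext.Gate n, N.ext.Wire n ⟨Sum.inr a, x⟩ h →
          h = ⟨Sum.inl (Sum.inl o₁), fun i => x (e₁ i)⟩ ∨ h = ⟨Sum.inl (Sum.inr o₂), fun i => x (e₂ i)⟩ := by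
        rintro ha ⟨b | b, y⟩ w
        · obtain ⟨wa, w⟩ := w
          rcases w with w | w
          · left
            have w' : (⟨b, y⟩ : C.Gate n) = ⟨Sum.inl o₁, fun i => x (e₁ i)⟩ := w
            cases w'
            rfl
          · right
            have w' : (⟨b, y⟩ : C.Gate n) = ⟨Sum.inr o₂, fun i => x (e₂ i)⟩ := w
            cases w'
            rfl
        · obtain ⟨wa, wb, w⟩ := w
          exact (Bool.false_ne_true (ha.symm.trans wa)).elim
      have key2 : a = true → ∀ h : N.ext.Gate n, N.ext.Wire n ⟨Sum.inr a, x⟩ h → h = ⟨Sum.inr false, x⟩ := by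
        rintro ha ⟨b | b, y⟩ w
        · obtain ⟨wa, w⟩ := w
          exact (Bool.false_ne_true (ha.symm.trans wa).symm).elim
        · obtain ⟨wa, wb, w⟩ := w
          have wb' : b = false := wb
          subst wb'
          have e : y = x := funext w
          rw [e]
      cases ha : a with
      | false => exact cn_pigeon (key1 ha _ w₁) (key1 ha _ w₂) (key1 ha _ w₃)
      | true => exact Or.inl ((key2 ha _ w₁).trans (key2 ha _ w₂).symm))
    refine ⟨hb.1, ?_⟩
    obtain ⟨l, hl1, hl2⟩ := hb.2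
    refine ⟨l, fun g => (hl1 g).trans ?_, hl2⟩
    have hp1 : 1 ≤ (Nat.log 2 n + 1) ^ k₁ := Nat.one_le_pow _ _ (by omega)
    have hp2 : 1 ≤ (Nat.log 2 n + 1) ^ k₂ := Nat.one_le_pow _ _ (by omega)
    have hp : (Nat.log 2 n + 1) ^ (k₁ + k₂) = (Nat.log 2 n + 1) ^ k₁ * (Nat.log 2 n + 1) ^ k₂ := pow_add _ _ _
    rw [hp]
    have i1 : c₁ * (Nat.log 2 n + 1) ^ k₁ ≤ c₁ * ((Nat.log 2 n + 1) ^ k₁ * (Nat.log 2 n + 1) ^ k₂) := by
      apply Nat.mul_le_mul_left
      exact Nat.le_mul_of_pos_right _ hp2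
    have i2 : c₂ * (Nat.log 2 n + 1) ^ k₂ ≤ c₂ * ((Nat.log 2 n + 1) ^ k₁ * (Nat.log 2 n + 1) ^ k₂) := by
      apply Nat.mul_le_mul_left
      exact Nat.le_mul_of_pos_left _ hp1
    have i3 : 1 ≤ (Nat.log 2 n + 1) ^ k₁ * (Nat.log 2 n + 1) ^ k₂ * (D n + 1) := Nat.mul_pos (Nat.mul_pos hp1 hp2) (Nat.succ_pos _)
    have i4 := Nat.mul_le_mul_right (D n + 1) i1
    have i5 := Nat.mul_le_mul_right (D n + 1) i2
    have i6 : (c₁ + c₂ + 4) * ((Nat.log 2 n + 1) ^ k₁ * (Nat.log 2 n + 1) ^ k₂) * (D n + 1) =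
        c₁ * ((Nat.log 2 n + 1) ^ k₁ * (Nat.log 2 n + 1) ^ k₂) * (D n + 1) +
        c₂ * ((Nat.log 2 n + 1) ^ k₁ * (Nat.log 2 n + 1) ^ k₂) * (D n + 1) +
        4 * ((Nat.log 2 n + 1) ^ k₁ * (Nat.log 2 n + 1) ^ k₂ * (D n + 1)) := by ring
    omega
  · intro n s
    obtain ⟨v₁, hcons₁, hval₁⟩ := hv₁ n s
    obtain ⟨v₂, hcons₂, hval₂⟩ := hv₂ n s
    have hcu := cn_union_consistent hcons₁ hcons₂
    set v : C.Gate n → Prop := (cnUnion C₁ C₂).val v₁ (fun a x => v₂ ⟨a, x⟩) with hvdef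
    refine ⟨N.val v (fun a x => match a with
      | true => P n s x ∧ Q n s x
      | false => ¬ (P n s x ∧ Q n s x)), N.consistent hcu (fun a x r hr => ?_) (fun a x _ => ?_), ?_⟩
    · exact absurd hr (by simp [N])
    · have hf₁ : v (f₁ n x) ↔ P n s x := hval₁ x
      have hf₂ : v (f₂ n x) ↔ Q n s x := hval₂ x
      cases a with
      | false =>
        show ¬ (P n s x ∧ Q n s x) ↔ _
        apply not_congr
        constructor
        · rintro ⟨h1, h2⟩
          refine ⟨?_, ?_⟩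
          · rintro b y ⟨_, hby | hby⟩
            · rw [hby]
              exact hf₁.2 h1
            · rw [hby]
              exact hf₂.2 h2
          · rintro b y ⟨hf, _⟩
            exact absurd hf (by decide)
        · rintro ⟨h', _⟩
          exact ⟨hf₁.1 (h' _ _ ⟨rfl, Or.inl rfl⟩), hf₂.1 (h' _ _ ⟨rfl, Or.inr rfl⟩)⟩
      | true =>
        show (P n s x ∧ Q n s x) ↔ _
        constructor
        · rintro h1 ⟨_, h'⟩
          exact h' false x ⟨rfl, rfl, fun _ => rfl⟩ h1
        · intro h'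
          by_contra hcon
          apply h'
          refine ⟨?_, ?_⟩
          · rintro b y ⟨hf, _⟩
            exact absurd hf (by decide)
          · rintro b y ⟨_, hb, hy⟩
            have hb' : b = false := hb
            subst hb'
            have e : y = x := funext hy
            rw [e]
            exact hcon
    · intro x
      exact Iff.rfl

/-- node i lies above the leaf with number j -/
def CxBel (i j : ℕ) : Prop := 1 ≤ i ∧ ∃ k, j / 2 ^ k = i

theorem cx_bel_root {j : ℕ} (hj : 1 ≤ j) : CxBel 1 j := by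
  refine ⟨le_rfl, Nat.log 2 j, ?_⟩
  have h1 : 2 ^ Nat.log 2 j ≤ j := Nat.pow_log_le_self 2 (by omega)
  have h2 : j < 2 ^ (Nat.log 2 j + 1) := Nat.lt_pow_succ_log_self (by norm_num) j
  have h3 : 0 < 2 ^ Nat.log 2 j := by positivity
  rw [Nat.div_eq_iff h3]
  rw [pow_succ] at h2
  omega

theorem cx_bel_step {n i j : ℕ} (hi : i < n) (hj : n ≤ j) (hj2 : j < 2 * n) : CxBel i j ↔
    1 ≤ i ∧ ((∃ c, (c = 2 * i ∨ c = 2 * i + 1) ∧ c < n ∧ CxBel c j) ∨ (j = 2 * i ∨ j = 2 * i + 1)) := by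
  constructor
  · rintro ⟨h1, k, hk⟩
    refine ⟨h1, ?_⟩
    cases k with
    | zero =>
      rw [pow_zero, Nat.div_one] at hk
      omega
    | succ k =>
      rw [pow_succ, ← Nat.div_div_eq_div_mul] at hk
      have h2 : j / 2 ^ k = 2 * i ∨ j / 2 ^ k = 2 * i + 1 := by omega
      by_cases hc : j / 2 ^ k < n
      · exact Or.inl ⟨j / 2 ^ k, h2, hc, by omega, k, rfl⟩
      · right
        cases k with
        | zero =>
          rw [pow_zero, Nat.div_one] at h2
          exact h2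
        | succ k =>
          exfalso
          rw [pow_succ, ← Nat.div_div_eq_div_mul] at hc
          have h3 : j / 2 ^ k ≤ j := Nat.div_le_self _ _
          omega
  · rintro ⟨h1, h2⟩
    refine ⟨h1, ?_⟩
    rcases h2 with ⟨c, hc, _, _, k, hk⟩ | h2
    · refine ⟨k + 1, ?_⟩
      rw [pow_succ, ← Nat.div_div_eq_div_mul, hk]
      omega
    · refine ⟨1, ?_⟩
      rw [pow_one]
      omega

theorem cx_fo_one (i : ι) : FOM ι (fun _ x => (x i : ℕ) = 1) := by
  refine cn_congr (FOM.ex (ι := ι) (P := fun _ z => (z none : ℕ) = 0 ∧ (z (some i) : ℕ) = (z none : ℕ) + 1)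
    ((FOM.zero none).and (FOM.succ (some i) none))) ?_
  intro n x
  constructor
  · rintro ⟨a, h1, h2⟩
    have h1' : (a : ℕ) = 0 := h1
    have h2' : (x i : ℕ) = (a : ℕ) + 1 := h2
    omega
  · intro h
    have hn : 0 < n := lt_of_le_of_lt (Nat.zero_le _) (x i).2
    refine ⟨⟨0, hn⟩, rfl, ?_⟩
    show (x i : ℕ) = 0 + 1
    omega

theorem cx_size_dbl {i : ℕ} (hi : 1 ≤ i) : Nat.size (2 * i) = Nat.size i + 1 ∧ Nat.size (2 * i + 1) = Nat.size i + 1 := by
  constructor
  · have h : Nat.size (Nat.bit false i) = (Nat.size i).succ := Nat.size_bit (by simp [Nat.bit]; omega)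
    simpa [Nat.bit] using h
  · have h : Nat.size (Nat.bit true i) = (Nat.size i).succ := Nat.size_bit (by simp [Nat.bit])
    simpa [Nat.bit] using h

/-- The gates of the tree: 0 = leaves, 1 = negations, 2 = inner nodes. -/
def cxTree (C : OM S B) (hι : Finite (Option ι)) (o : C.T) (e : C.A o → Option ι) : CnNew C where
  T := Fin 3
  finT := inferInstance
  A := fun _ => Option ι
  finA := fun _ => hι
  inp := fun _ => none
  w1 := fun a b n x y => a = 0 ∧ (⟨b, y⟩ : C.Gate n) = ⟨o, fun i => x (e i)⟩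
  w2 := fun a b n x y => (∀ i : ι, y (some i) = x (some i)) ∧
    ((a = 1 ∧ b = 2 ∧ y none = x none) ∨
      ((a = 2 ∧ b = 1 ∧ ¬ (x none : ℕ) = 0 ∧ ((y none : ℕ) = 2 * (x none : ℕ) ∨ (y none : ℕ) = 2 * (x none : ℕ) + 1)) ∨
      (a = 2 ∧ b = 0 ∧ ¬ (x none : ℕ) = 0 ∧ ((y none : ℕ) + n = 2 * (x none : ℕ) ∨ (y none : ℕ) + n = 2 * (x none : ℕ) + 1))))
  u1 := fun a b => (FOM.const (a = 0)).and (cn_fo_out C o b e)
  u2 := fun a b => by
    have hι' : Finite ι := Finite.of_injective (some : ι → Option ι) (Option.some_injective ι)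
    exact (FOM.allFin (J := ι) (P := fun i n z => z (Sum.inr (some i)) = z (Sum.inl (some i))) (fun i => FOM.eq _ _)).and
      (((FOM.const (a = 1)).and ((FOM.const (b = 2)).and (FOM.eq (Sum.inr none) (Sum.inl none)))).or
      (((FOM.const (a = 2)).and ((FOM.const (b = 1)).and ((FOM.zero (Sum.inl none)).not.and
        ((FOM.dbl (Sum.inr none) (Sum.inl none)).or (FOM.dblsucc (Sum.inr none) (Sum.inl none)))))).or
      ((FOM.const (a = 2)).and ((FOM.const (b = 0)).and ((FOM.zero (Sum.inl none)).not.and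
        ((FOM.leaf0 (Sum.inr none) (Sum.inl none)).or (FOM.leaf1 (Sum.inr none) (Sum.inl none))))))))

/-- tuple with first coordinate a -/
def cxCons {n : ℕ} (a : Fin n) (x : ι → Fin n) : Option ι → Fin n := fun o => o.elim a x

theorem cx_cons_eta {n : ℕ} (x : Option ι → Fin n) : cxCons (x none) (fun i => x (some i)) = x := by
  funext o
  cases o <;> rfl

/-- values of the gates of the tree -/
def cxVal (P : RF S (Option ι)) (n : ℕ) (s : S n) (a : Fin 3) (x : Option ι → Fin n) : Prop :=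
  (a = 0 ∧ ¬ P n s x) ∨ (a = 1 ∧ ¬ ∃ c : Fin n, CxBel (x none) (c + n) ∧ P n s (cxCons c (fun i => x (some i)))) ∨
    (a = 2 ∧ ∃ c : Fin n, CxBel (x none) (c + n) ∧ P n s (cxCons c (fun i => x (some i))))

theorem cx_val0 (P : RF S (Option ι)) (n : ℕ) (s : S n) (x : Option ι → Fin n) : cxVal P n s 0 x ↔ ¬ P n s x := by
  unfold cxVal
  constructor
  · rintro (⟨_, h⟩ | ⟨h, _⟩ | ⟨h, _⟩)
    · exact h
    · exact absurd h (by decide)
    · exact absurd h (by decide)
  · intro h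
    exact Or.inl ⟨rfl, h⟩

theorem cx_val1 (P : RF S (Option ι)) (n : ℕ) (s : S n) (x : Option ι → Fin n) :
    cxVal P n s 1 x ↔ ¬ ∃ c : Fin n, CxBel (x none) (c + n) ∧ P n s (cxCons c (fun i => x (some i))) := by
  unfold cxVal
  constructor
  · rintro (⟨h, _⟩ | ⟨_, h⟩ | ⟨h, _⟩)
    · exact absurd h (by decide)
    · exact h
    · exact absurd h (by decide)
  · intro h
    exact Or.inr (Or.inl ⟨rfl, h⟩)

theorem cx_val2 (P : RF S (Option ι)) (n : ℕ) (s : S n) (x : Option ι → Fin n) :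
    cxVal P n s 2 x ↔ ∃ c : Fin n, CxBel (x none) (c + n) ∧ P n s (cxCons c (fun i => x (some i))) := by
  unfold cxVal
  constructor
  · rintro (⟨h, _⟩ | ⟨h, _⟩ | ⟨_, h⟩)
    · exact absurd h (by decide)
    · exact absurd h (by decide)
    · exact h
  · intro h
    exact Or.inr (Or.inr ⟨rfl, h⟩)

theorem cx_tree_consistent {C : OM S B} {hι : Finite (Option ι)} {o : C.T} {e : C.A o → Option ι} {P : RF S (Option ι)} {n : ℕ} {s : S n}
    {v : C.Gate n → Prop} (hv : C.Consistent n s v) (hval : ∀ x, v ⟨o, fun i => x (e i)⟩ ↔ P n s x) :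
    (cxTree C hι o e).ext.Consistent n s ((cxTree C hι o e).val v (cxVal P n s)) := by
  refine (cxTree C hι o e).consistent hv (fun a x r hr => absurd hr (by simp [cxTree])) (fun a x _ => ?_)
  have ha : a = (0 : Fin 3) ∨ a = (1 : Fin 3) ∨ a = (2 : Fin 3) := by
    have : ∀ a : Fin 3, a = 0 ∨ a = 1 ∨ a = 2 := by decide
    exact this a
  rcases ha with rfl | rfl | rfl
  · refine (cx_val0 P n s x).trans (not_congr ?_)
    constructor
    · intro h1
      refine ⟨?_, ?_⟩
      · rintro b y ⟨_, hby⟩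
        rw [hby]
        exact (hval x).2 h1
      · rintro b y ⟨_, ⟨hf, _⟩ | ⟨hf, _⟩ | ⟨hf, _⟩⟩
        · exact absurd hf (by decide)
        · exact absurd hf (by decide)
        · exact absurd hf (by decide)
    · rintro ⟨h1, _⟩
      exact (hval x).1 (h1 _ _ ⟨rfl, rfl⟩)
  · refine (cx_val1 P n s x).trans (not_congr ?_)
    constructor
    · intro h1
      refine ⟨?_, ?_⟩
      · rintro b y ⟨hf, _⟩
        exact absurd hf (by decide)
      · rintro b y ⟨hy, ⟨_, hb, hn⟩ | ⟨hf, _⟩ | ⟨hf, _⟩⟩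
        · have hb' : b = (2 : Fin 3) := hb
          subst hb'
          have e1 : y = x := by
            funext j
            cases j with
            | none => exact hn
            | some j => exact hy j
          rw [e1]
          exact (cx_val2 P n s x).2 h1
        · exact absurd hf (by decide)
        · exact absurd hf (by decide)
    · rintro ⟨_, h1⟩
      exact (cx_val2 P n s x).1 (h1 (2 : Fin 3) x ⟨fun _ => rfl, Or.inl ⟨rfl, rfl, rfl⟩⟩)
  · refine (cx_val2 P n s x).trans ?_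
    constructor
    · rintro ⟨c, hc, hP⟩ ⟨_, h1⟩
      have hstep := (cx_bel_step (n := n) (i := x none) (j := c + n) (x none).2 (by omega) (by have := c.2; omega)).1 hc
      obtain ⟨hpos, ⟨q, hq, hqn, hqb⟩ | hq⟩ := hstep
      · have h2 := h1 (1 : Fin 3) (cxCons ⟨q, hqn⟩ (fun i => x (some i))) ⟨fun _ => rfl, Or.inr (Or.inl ⟨rfl, rfl, by omega, hq⟩)⟩
        rw [cx_val1] at h2
        exact h2 ⟨c, hqb, hP⟩
      · have h2 := h1 (0 : Fin 3) (cxCons c (fun i => x (some i))) ⟨fun _ => rfl, Or.inr (Or.inr ⟨rfl, rfl, by omega, hq⟩)⟩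
        rw [cx_val0] at h2
        exact h2 hP
    · intro h'
      by_contra hcon
      apply h'
      refine ⟨?_, ?_⟩
      · rintro b y ⟨hf, _⟩
        exact absurd hf (by decide)
      · rintro b y ⟨hy, ⟨hf, _⟩ | ⟨_, hb, h0, hn⟩ | ⟨_, hb, h0, hn⟩⟩
        · exact absurd hf (by decide)
        · have hb' : b = (1 : Fin 3) := hb
          subst hb'
          refine (cx_val1 P n s y).2 ?_
          rintro ⟨c, hc, hP⟩
          apply hcon
          have e1 : (fun i => y (some i)) = (fun i => x (some i)) := funext hy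
          rw [e1] at hP
          refine ⟨c, ?_, hP⟩
          rw [cx_bel_step (n := n) (x none).2 (by omega) (by have := c.2; omega)]
          exact ⟨by omega, Or.inl ⟨y none, hn, (y none).2, hc⟩⟩
        · have hb' : b = (0 : Fin 3) := hb
          subst hb'
          refine (cx_val0 P n s y).2 ?_
          intro hP
          apply hcon
          have e1 : (fun i => x (some i)) = (fun i => y (some i)) := (funext hy).symm
          refine ⟨y none, ?_, ?_⟩
          · rw [cx_bel_step (n := n) (x none).2 (by omega) (by have := (y none).2; omega)]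
            exact ⟨by omega, Or.inr hn⟩
          · have e2 : P n s (cxCons ((show Option ι → Fin n from y) none) (fun i => (show Option ι → Fin n from y) (some i))) := by
              rw [cx_cons_eta]
              exact hP
            exact Eq.mpr (congrArg (fun f => P n s (cxCons ((show Option ι → Fin n from y) none) f)) e1) e2

/-- levels of the gates of the tree -/
def cxLev (n : ℕ) (a : Fin 3) (x : Option ι → Fin n) : ℕ :=
  if a = 0 then 0 else if a = 1 then 2 + 2 * (Nat.size n + 1 - Nat.size (x none)) else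
    1 + 2 * (Nat.size n + 1 - Nat.size (x none))

theorem cx_lev_le (n : ℕ) (a : Fin 3) (x : Option ι → Fin n) : cxLev n a x ≤ 2 + 2 * (Nat.size n + 1) := by
  unfold cxLev
  split_ifs <;> omega

theorem cx_lev0 (n : ℕ) (x : Option ι → Fin n) : cxLev n 0 x = 0 := by simp [cxLev]

theorem cx_lev1 (n : ℕ) (x : Option ι → Fin n) : cxLev n 1 x = 2 + 2 * (Nat.size n + 1 - Nat.size (x none)) := by simp [cxLev]

theorem cx_lev2 (n : ℕ) (x : Option ι → Fin n) : cxLev n 2 x = 1 + 2 * (Nat.size n + 1 - Nat.size (x none)) := by simp [cxLev]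

theorem cx_tree_bounds {C : OM S B} {hι : Finite (Option ι)} {o : C.T} {e : C.A o → Option ι} {n d₁ : ℕ}
    (h1 : C.FanInTwo n) (h2 : C.DepthLE n d₁) :
    (cxTree C hι o e).ext.FanInTwo n ∧ (cxTree C hι o e).ext.DepthLE n (d₁ + 1 + (2 + 2 * (Nat.size n + 1))) := by
  refine (cxTree C hι o e).bounds h1 h2
    (fun a x => cxLev n a x) (fun a x => cx_lev_le n a x) ?_ ?_
  · rintro a b x y ⟨_, ⟨wa, wb, hn⟩ | ⟨wa, wb, h0, hn⟩ | ⟨wa, wb, h0, hn⟩⟩
    · have wa' : a = (1 : Fin 3) := wa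
      have wb' : b = (2 : Fin 3) := wb
      subst wa' wb'
      have hn' : (show Option ι → Fin n from y) none = (show Option ι → Fin n from x) none := hn
      have e1 := cx_lev2 n (show Option ι → Fin n from y)
      have e2 := cx_lev1 n (show Option ι → Fin n from x)
      rw [hn'] at e1
      refine lt_of_eq_of_lt e1 (lt_of_lt_of_eq ?_ e2.symm)
      omega
    · have wa' : a = (2 : Fin 3) := wa
      have wb' : b = (1 : Fin 3) := wb
      subst wa' wb'
      have hi : 1 ≤ (((show Option ι → Fin n from x) none : Fin n) : ℕ) := Nat.one_le_iff_ne_zero.2 h0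
      have hs : Nat.size (((show Option ι → Fin n from y) none : Fin n) : ℕ) = Nat.size (((show Option ι → Fin n from x) none : Fin n) : ℕ) + 1 := by
        rcases hn with hn | hn
        · exact (congrArg Nat.size hn).trans (cx_size_dbl hi).1
        · exact (congrArg Nat.size hn).trans (cx_size_dbl hi).2
      have hle : Nat.size (((show Option ι → Fin n from y) none : Fin n) : ℕ) ≤ Nat.size n :=
        Nat.size_le_size ((show Option ι → Fin n from y) none).2.le
      have e1 := cx_lev1 n (show Option ι → Fin n from y)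
      have e2 := cx_lev2 n (show Option ι → Fin n from x)
      refine lt_of_eq_of_lt e1 (lt_of_lt_of_eq ?_ e2.symm)
      omega
    · have wa' : a = (2 : Fin 3) := wa
      have wb' : b = (0 : Fin 3) := wb
      subst wa' wb'
      refine lt_of_eq_of_lt (cx_lev0 n y) (lt_of_lt_of_eq ?_ (cx_lev2 n x).symm)
      omega
  · intro a x h₁ h₂ h₃ w₁ w₂ w₃
    have ha : a = (0 : Fin 3) ∨ a = (1 : Fin 3) ∨ a = (2 : Fin 3) := by
      have : ∀ a : Fin 3, a = 0 ∨ a = 1 ∨ a = 2 := by decide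
      exact this a
    rcases ha with rfl | rfl | rfl
    · have key : ∀ h : (cxTree C hι o e).ext.Gate n, (cxTree C hι o e).ext.Wire n ⟨Sum.inr (0 : Fin 3), x⟩ h →
          h = ⟨Sum.inl o, fun i => x (e i)⟩ := by
        rintro ⟨b | b, y⟩ w
        · obtain ⟨_, w⟩ := w
          have w' : (⟨b, y⟩ : C.Gate n) = ⟨o, fun i => x (e i)⟩ := w
          cases w'
          rfl
        · obtain ⟨_, ⟨hf, _⟩ | ⟨hf, _⟩ | ⟨hf, _⟩⟩ := w
          · exact absurd hf (by decide)
          · exact absurd hf (by decide)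
          · exact absurd hf (by decide)
      exact Or.inl ((key _ w₁).trans (key _ w₂).symm)
    · have key : ∀ h : (cxTree C hι o e).ext.Gate n, (cxTree C hι o e).ext.Wire n ⟨Sum.inr (1 : Fin 3), x⟩ h →
          h = ⟨Sum.inr (2 : Fin 3), x⟩ := by
        rintro ⟨b | b, y⟩ w
        · obtain ⟨hf, _⟩ := w
          exact absurd hf (by decide)
        · obtain ⟨hy, ⟨_, hb, hn⟩ | ⟨hf, _⟩ | ⟨hf, _⟩⟩ := w
          · have hb' : b = (2 : Fin 3) := hb
            subst hb'
            have e1 : y = x := by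
              funext j
              cases j with
              | none => exact hn
              | some j => exact hy j
            rw [e1]
          · exact absurd hf (by decide)
          · exact absurd hf (by decide)
      exact Or.inl ((key _ w₁).trans (key _ w₂).symm)
    · -- the number of the child determines the gate
      have key : ∀ h : (cxTree C hι o e).ext.Gate n, (cxTree C hι o e).ext.Wire n ⟨Sum.inr (2 : Fin 3), x⟩ h →
          ∃ (b : Fin 3) (y : Option ι → Fin n), h = ⟨Sum.inr b, y⟩ ∧ (∀ i, y (some i) = x (some i)) ∧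
            ((b = 1 ∧ ((y none : ℕ) = 2 * (x none : ℕ) ∨ (y none : ℕ) = 2 * (x none : ℕ) + 1)) ∨
              (b = 0 ∧ ((y none : ℕ) + n = 2 * (x none : ℕ) ∨ (y none : ℕ) + n = 2 * (x none : ℕ) + 1))) := by
        rintro ⟨b | b, y⟩ w
        · obtain ⟨hf, _⟩ := w
          exact absurd hf (by decide)
        · obtain ⟨hy, ⟨hf, _⟩ | ⟨_, hb, _, hn⟩ | ⟨_, hb, _, hn⟩⟩ := w
          · exact absurd hf (by decide)
          · exact ⟨b, y, rfl, hy, Or.inl ⟨hb, hn⟩⟩
          · exact ⟨b, y, rfl, hy, Or.inr ⟨hb, hn⟩⟩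
      obtain ⟨b₁, y₁, rfl, hy₁, hc₁⟩ := key _ w₁
      obtain ⟨b₂, y₂, rfl, hy₂, hc₂⟩ := key _ w₂
      obtain ⟨b₃, y₃, rfl, hy₃, hc₃⟩ := key _ w₃
      have glue : ∀ (b b' : Fin 3) (y y' : Option ι → Fin n), (∀ i, y (some i) = x (some i)) → (∀ i, y' (some i) = x (some i)) →
          b = b' → (y none : ℕ) = y' none → (⟨Sum.inr b, y⟩ : (cxTree C hι o e).ext.Gate n) = ⟨Sum.inr b', y'⟩ := by
        intro b b' y y' hy hy' hb hn
        subst hb
        have e1 : y = y' := by
          funext j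
          cases j with
          | none => exact Fin.ext hn
          | some j => rw [hy, hy']
        rw [e1]
      have l1 := (y₁ none).2
      have l2 := (y₂ none).2
      have l3 := (y₃ none).2
      rcases hc₁ with ⟨k₁, hc₁⟩ | ⟨k₁, hc₁⟩ <;> rcases hc₂ with ⟨k₂, hc₂⟩ | ⟨k₂, hc₂⟩ <;> rcases hc₃ with ⟨k₃, hc₃⟩ | ⟨k₃, hc₃⟩ <;>
        by_cases e12 : (b₁ = b₂ ∧ (y₁ none : ℕ) = y₂ none) <;> by_cases e13 : (b₁ = b₃ ∧ (y₁ none : ℕ) = y₃ none) <;>
        by_cases e23 : (b₂ = b₃ ∧ (y₂ none : ℕ) = y₃ none) <;>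
        first
        | exact Or.inl (glue _ _ _ _ hy₁ hy₂ e12.1 e12.2)
        | exact Or.inr (Or.inl (glue _ _ _ _ hy₁ hy₃ e13.1 e13.2))
        | exact Or.inr (Or.inr (glue _ _ _ _ hy₂ hy₃ e23.1 e23.2))
        | (exfalso
           simp only [k₁, k₂, k₃, true_and, not_and] at e12 e13 e23
           omega)

/-- The root. -/
def cxRoot (C : OM S B) (hι : Finite (Option ι)) (hι' : Finite ι) (o : C.T) (e : C.A o → Option ι) : CnNew (cxTree C hι o e).ext where
  T := Unit
  finT := inferInstance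
  A := fun _ => ι
  finA := fun _ => hι'
  inp := fun _ => none
  w1 := fun _ b n x => match b with
    | Sum.inl _ => fun _ => False
    | Sum.inr t => fun y => (t = (1 : Fin 3) ∧ 2 ≤ n ∧ (y none : ℕ) = 1 ∧ ∀ i, y (some i) = x i) ∨
        (t = (0 : Fin 3) ∧ n = 1 ∧ ∀ i, y (some i) = x i)
  w2 := fun _ _ _ _ _ => False
  u1 := by
    rintro _ (b | b)
    · exact FOM.const False
    · exact ((FOM.const (b = (1 : Fin 3))).and ((FOM.nLe 2).and ((cx_fo_one (Sum.inr none)).and
        (FOM.allFin (J := ι) (P := fun i n z => z (Sum.inr (some i)) = z (Sum.inl i)) (fun i => FOM.eq _ _))))).or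
        ((FOM.const (b = (0 : Fin 3))).and ((FOM.nEq 1).and
        (FOM.allFin (J := ι) (P := fun i n z => z (Sum.inr (some i)) = z (Sum.inl i)) (fun i => FOM.eq _ _))))
  u2 := fun _ _ => FOM.const False

/-- Job CX. Existential quantification by a binary tree: leaves a ∈ [0,n), inner nodes i ∈ [1,n), the children of i are 2i and 2i+1, where c < n is an inner node and c ≥ n the leaf c - n.
New tags: `root` (A = ι), `tr`, `ng`, `lf` (A = Option ι, the coordinate none is the node i, resp. the leaf a).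
lf(a,x): negation of the output gate for the tuple a :: x. ng(i,x): negation of tr(i,x). tr(i,x) for i ≥ 1: NAND of ng(c,x), c ∈ {2i, 2i+1}, c < n, and lf(a,x), a + n ∈ {2i, 2i+1}.
tr(0,x): no inputs. root(x): input ng(1,x) if n ≥ 2, lf(0,x) if n = 1, none if n = 0.
Value of tr(i,x): some leaf a below i satisfies P. Levels: d₀ for the old circuit, lf: d₀ + 1, tr i: d₀ + 2 + 2 * (Nat.size n + 1 - Nat.size i), ng: one more (Nat.size (2i) = Nat.size i + 1 for i ≥ 1), root: top. -/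
theorem LComp.ex {P : RF S (Option ι)} (h : LComp D S B (Option ι) P) :
    LComp D S B ι (fun n s x => ∃ a : Fin n, P n s (fun o => o.elim a x)) := by
  obtain ⟨hι, C, o, e, c, k, hC, hv⟩ := h
  have hι' : Finite ι := Finite.of_injective (some : ι → Option ι) (Option.some_injective ι)
  refine ⟨hι', (cxRoot C hι hι' o e).ext, Sum.inr (), id, c + 10, k + 1, ?_, ?_⟩
  · intro n
    have ht := cx_tree_bounds (C := C) (hι := hι) (o := o) (e := e) (hC n).1 (hC n).2
    have hb := (cxRoot C hι hι' o e).bounds (n := n) (d₂ := 0) ht.1 ht.2 (fun _ _ => 0) (fun _ _ => le_rfl)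
      (fun _ _ _ _ w => absurd w id) (by
      intro a x h₁ h₂ h₃ w₁ w₂ w₃
      have key : ∀ h h' : (cxRoot C hι hι' o e).ext.Gate n, (cxRoot C hι hι' o e).ext.Wire n ⟨Sum.inr a, x⟩ h →
          (cxRoot C hι hι' o e).ext.Wire n ⟨Sum.inr a, x⟩ h' → h = h' := by
        have glue : ∀ (b b' : Fin 3) (y y' : Option ι → Fin n), b = b' → (∀ i, y (some i) = x i) → (∀ i, y' (some i) = x i) →
            (y none : ℕ) = y' none → (⟨Sum.inl (Sum.inr b), y⟩ : (cxRoot C hι hι' o e).ext.Gate n) = ⟨Sum.inl (Sum.inr b'), y'⟩ := by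
          intro b b' y y' hb hy hy' hn
          subst hb
          have e1 : y = y' := by
            funext j
            cases j with
            | none => exact Fin.ext hn
            | some j => rw [hy, hy']
          rw [e1]
        rintro ⟨(b | b) | b, y⟩ ⟨(b' | b') | b', y'⟩ w w'
        · exact absurd w id
        · exact absurd w id
        · exact absurd w id
        · exact absurd w' id
        · have l := (show Option ι → Fin n from y) none
          rcases w with ⟨wb, wn, w0, wi⟩ | ⟨wb, wn, wi⟩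
          · rcases w' with ⟨wb', wn', w0', wi'⟩ | ⟨wb', wn', wi'⟩
            · exact glue b b' y y' (wb.trans wb'.symm) wi wi' (w0.trans w0'.symm)
            · omega
          · rcases w' with ⟨wb', wn', w0', wi'⟩ | ⟨wb', wn', wi'⟩
            · omega
            · refine glue b b' y y' (wb.trans wb'.symm) wi wi' ?_
              have l1 := ((show Option ι → Fin n from y) none).2
              have l2 := ((show Option ι → Fin n from y') none).2
              omega
        · exact absurd w' id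
        · exact absurd w id
        · exact absurd w id
        · exact absurd w id
      exact Or.inl (key _ _ w₁ w₂))
    refine ⟨hb.1, ?_⟩
    obtain ⟨l, hl1, hl2⟩ := hb.2
    refine ⟨l, fun g => (hl1 g).trans ?_, hl2⟩
    have hs : Nat.size n ≤ Nat.log 2 n + 1 := by
      rw [Nat.size_le]
      exact Nat.lt_pow_succ_log_self (by norm_num) n
    have hp1 : 1 ≤ (Nat.log 2 n + 1) ^ k := Nat.one_le_pow _ _ (by omega)
    have hp : (Nat.log 2 n + 1) ^ (k + 1) = (Nat.log 2 n + 1) ^ k * (Nat.log 2 n + 1) := pow_succ _ _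
    rw [hp]
    have i1 : c * (Nat.log 2 n + 1) ^ k ≤ c * ((Nat.log 2 n + 1) ^ k * (Nat.log 2 n + 1)) := by
      apply Nat.mul_le_mul_left
      exact Nat.le_mul_of_pos_right _ (by omega)
    have i2 : Nat.log 2 n + 1 ≤ (Nat.log 2 n + 1) ^ k * (Nat.log 2 n + 1) := Nat.le_mul_of_pos_left _ hp1
    have i4 := Nat.mul_le_mul_right (D n + 1) i1
    have i5 : Nat.log 2 n + 1 ≤ (Nat.log 2 n + 1) ^ k * (Nat.log 2 n + 1) * (D n + 1) := i2.trans (Nat.le_mul_of_pos_right _ (Nat.succ_pos _))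
    have i6 : (c + 10) * ((Nat.log 2 n + 1) ^ k * (Nat.log 2 n + 1)) * (D n + 1) =
        c * ((Nat.log 2 n + 1) ^ k * (Nat.log 2 n + 1)) * (D n + 1) +
        10 * ((Nat.log 2 n + 1) ^ k * (Nat.log 2 n + 1) * (D n + 1)) := by ring
    omega
  · intro n s
    obtain ⟨v, hcons, hval⟩ := hv n s
    have ht := cx_tree_consistent (hι := hι) (P := P) hcons hval
    refine ⟨(cxRoot C hι hι' o e).val ((cxTree C hι o e).val v (cxVal P n s)) (fun _ x => ∃ a : Fin n, P n s (cxCons a x)),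
      (cxRoot C hι hι' o e).consistent ht (fun a x r hr => absurd hr (by simp [cxRoot])) (fun a x _ => ?_), fun x => Iff.rfl⟩
    constructor
    · rintro ⟨q, hq⟩ ⟨h1, _⟩
      have hn : 0 < n := lt_of_le_of_lt (Nat.zero_le _) q.2
      by_cases hn2 : 2 ≤ n
      · have h2 : cxVal P n s 1 (cxCons ⟨1, hn2⟩ x) :=
          h1 (Sum.inr (1 : Fin 3)) (cxCons ⟨1, hn2⟩ x) (Or.inl ⟨rfl, hn2, rfl, fun _ => rfl⟩)
        rw [cx_val1] at h2
        exact h2 ⟨q, cx_bel_root (by omega), hq⟩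
      · have hn1 : n = 1 := by omega
        have h2 : cxVal P n s 0 (cxCons q x) := h1 (Sum.inr (0 : Fin 3)) (cxCons q x) (Or.inr ⟨rfl, hn1, fun _ => rfl⟩)
        rw [cx_val0] at h2
        exact h2 hq
    · intro h'
      by_contra hcon
      apply h'
      refine ⟨?_, fun _ _ w => absurd w id⟩
      rintro (b | b) y w
      · exact absurd w id
      · rcases w with ⟨wb, wn, w0, wi⟩ | ⟨wb, wn, wi⟩
        · have wb' : b = (1 : Fin 3) := wb
          subst wb'
          refine (cx_val1 P n s y).2 ?_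
          rintro ⟨q, _, hq⟩
          apply hcon
          have e1 : (fun i => (show Option ι → Fin n from y) (some i)) = x := funext wi
          rw [e1] at hq
          exact ⟨q, hq⟩
        · have wb' : b = (0 : Fin 3) := wb
          subst wb'
          refine (cx_val0 P n s y).2 ?_
          intro hq
          apply hcon
          have e1 : (fun i => (show Option ι → Fin n from y) (some i)) = x := funext wi
          refine ⟨(show Option ι → Fin n from y) none, ?_⟩
          rw [← e1, cx_cons_eta]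
          exact hq

/-- Job CI: congruence for first-order definability. -/
theorem ci_congr {ι : Type} {P Q : ∀ n : ℕ, (ι → Fin n) → Prop} (h : FOM ι P) (hPQ : ∀ n x, P n x ↔ Q n x) : FOM ι Q := by
  have : P = Q := by
    funext n x
    exact propext (hPQ n x)
  exact this ▸ h

/-- Job CI: consistency without matching. -/
theorem ci_cons_iff (C : OM S B) (n : ℕ) (s : S n) (v : C.Gate n → Prop) : C.Consistent n s v ↔
    ∀ g : C.Gate n, (∀ w, C.inp g.1 = some w → (v g ↔ w.2.1 n s (fun i => g.2 (w.2.2.2 i)))) ∧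
      (C.inp g.1 = none → (v g ↔ ¬ ∀ h, C.Wire n g h → v h)) := by
  unfold OM.Consistent
  refine forall_congr' fun g => ?_
  cases hi : C.inp g.1 with
  | none => simp
  | some w => simp

/-- Job CI: wires of a disjoint union of circuits. -/
inductive CiUWire {Fl : Type} (C : Fl → OM S B) :
    (a b : Σ f, (C f).T) → (n : ℕ) → ((C a.1).A a.2 → Fin n) → ((C b.1).A b.2 → Fin n) → Prop
  | mk {f : Fl} {t t' : (C f).T} {n : ℕ} {x : (C f).A t → Fin n} {y : (C f).A t' → Fin n} :
      (C f).wire t t' n x y → CiUWire C ⟨f, t⟩ ⟨f, t'⟩ n x y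

/-- Job CI: the disjoint union of finitely many circuits. -/
def ciUnion {Fl : Type} (hFl : Finite Fl) (C : Fl → OM S B) : OM S B where
  T := Σ f, (C f).T
  finT := by
    have := fun f => (C f).finT
    infer_instance
  A := fun a => (C a.1).A a.2
  finA := fun a => (C a.1).finA a.2
  inp := fun a => (C a.1).inp a.2
  wire := CiUWire C
  uniform := by
    rintro ⟨f, t⟩ ⟨f', t'⟩
    by_cases hf : f = f'
    · subst hf
      refine ci_congr ((C f).uniform t t') fun n x => ⟨fun h => CiUWire.mk h, fun h => ?_⟩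
      cases h with
      | mk h => exact h
    · refine ci_congr (FOM.const False) fun n x => ⟨fun h => h.elim, fun h => ?_⟩
      cases h with
      | mk h => exact hf rfl

theorem ciUnion_wire {Fl : Type} (hFl : Finite Fl) (C : Fl → OM S B) {n : ℕ} {f : Fl} {t : (C f).T} {x : (C f).A t → Fin n}
    {g : (ciUnion hFl C).Gate n} (h : (ciUnion hFl C).Wire n ⟨⟨f, t⟩, x⟩ g) :
    ∃ k : (C f).Gate n, g = ⟨⟨f, k.1⟩, k.2⟩ ∧ (C f).Wire n ⟨t, x⟩ k := by
  obtain ⟨⟨f', t'⟩, y⟩ := g
  have h' : CiUWire C ⟨f, t⟩ ⟨f', t'⟩ n x y := h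
  cases h' with
  | mk h => exact ⟨⟨_, _⟩, rfl, h⟩

/-- Job CI: finitely many relations are computed by one circuit. -/
theorem ci_family {Fl : Type} (hFl : Finite Fl) {H : Fl → RF S κ} (hH : ∀ f, LComp D S B κ (H f)) :
    ∃ (C : OM S B) (o : Fl → C.T) (e : ∀ f, C.A (o f) → κ) (c k : ℕ),
      (∀ n, C.FanInTwo n ∧ C.DepthLE n (c * (Nat.log 2 n + 1) ^ k * (D n + 1))) ∧
      ∀ n s, ∃ v, C.Consistent n s v ∧ ∀ f x, v ⟨o f, fun i => x (e f i)⟩ ↔ H f n s x := by
  choose _ C o e c k hC hv using hH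
  obtain ⟨c', hc'⟩ : ∃ c', ∀ f, c f ≤ c' := by
    obtain ⟨M, hM⟩ := (Set.finite_range c).bddAbove
    exact ⟨M, fun f => hM ⟨f, rfl⟩⟩
  obtain ⟨k', hk'⟩ : ∃ k', ∀ f, k f ≤ k' := by
    obtain ⟨M, hM⟩ := (Set.finite_range k).bddAbove
    exact ⟨M, fun f => hM ⟨f, rfl⟩⟩
  refine ⟨ciUnion hFl C, fun f => ⟨f, o f⟩, fun f => e f, c', k', fun n => ⟨?_, ?_⟩, fun n s => ?_⟩
  · rintro ⟨⟨f, t⟩, x⟩ g₁ g₂ g₃ h₁ h₂ h₃
    obtain ⟨k₁, hk₁, w₁⟩ := ciUnion_wire hFl C h₁
    obtain ⟨k₂, hk₂, w₂⟩ := ciUnion_wire hFl C h₂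
    obtain ⟨k₃, hk₃, w₃⟩ := ciUnion_wire hFl C h₃
    subst hk₁ hk₂ hk₃
    rcases (hC f n).1 _ k₁ k₂ k₃ w₁ w₂ w₃ with h | h | h
    · subst h
      exact Or.inl rfl
    · subst h
      exact Or.inr (Or.inl rfl)
    · subst h
      exact Or.inr (Or.inr rfl)
  · have h := fun f => (hC f n).2
    choose lev hle hlt using h
    refine ⟨fun g => lev g.1.1 ⟨g.1.2, g.2⟩, fun g => ?_, ?_⟩
    · refine (hle _ _).trans (Nat.mul_le_mul_right _ (Nat.mul_le_mul (hc' _) (Nat.pow_le_pow_right (Nat.succ_pos _) (hk' _))))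
    · rintro ⟨⟨f, t⟩, x⟩ g h
      obtain ⟨k, rfl, w⟩ := ciUnion_wire hFl C h
      exact hlt f _ _ w
  · have h := fun f => hv f n s
    choose v hv1 hv2 using h
    refine ⟨fun g => v g.1.1 ⟨g.1.2, g.2⟩, ?_, fun f x => hv2 f x⟩
    rw [ci_cons_iff]
    rintro ⟨⟨f, t⟩, x⟩
    obtain ⟨h1, h2⟩ := (ci_cons_iff (C f) n s (v f)).1 (hv1 f) ⟨t, x⟩
    refine ⟨fun w hw => h1 w hw, fun hw => (h2 hw).trans (not_congr ⟨fun h g hg => ?_, fun h g hg => ?_⟩)⟩
    · obtain ⟨k, rfl, hk⟩ := ciUnion_wire hFl C hg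
      exact h k hk
    · exact h ⟨⟨f, g.1⟩, g.2⟩ (CiUWire.mk hg)

end Pool.Agent.SUB
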