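import Pool.Agent.Lib.MP_0087d5_lc.SUB.LComp

/-!
# Long loops

Adapted from the iteration circuit in `UPM/Compile.lean`.
-/

namespace Pool.Agent.SUB

open Pool.Agent.UPM (RF Readers RelF Ext)

variable {S : ℕ → Type} {B : Readers S} {ι κ : Type} {D : ℕ → ℕ}

/-- Job CI: the kinds of gates of a circuit reading an input with additional relations. -/
inductive CiKind (S : ℕ → Type) (B : Readers S) (κ Fl A : Type) : Type 1
  | old (ι : Type) (P : RF S ι) (hP : B ι P) (e : ι → A) : CiKind S B κ Fl A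
  | new (g : Fl) (e : κ → A) : CiKind S B κ Fl A
  | nand : CiKind S B κ Fl A

/-- Job CI: the value of a gate of given kind. -/
def CiKind.Val {Fl A : Type} (K : CiKind S B κ Fl A) (n : ℕ) (s : S n) (R : RelF κ Fl n) (x : A → Fin n) (q : Prop) : Prop :=
  match K with
  | .old _ P _ e => P n s (fun i => x (e i))
  | .new g e => R g (fun i => x (e i))
  | .nand => q

/-- Job CI: the reader of a gate of given kind in the new circuit. -/
def CiKind.Inp {Fl A : Type} (K : CiKind S B κ Fl A) : Option ((ι : Type) ×' (P : RF S ι) ×' (_ : B ι P) ×' (ι → Option A)) :=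
  match K with
  | .old ι P hP e => some ⟨ι, P, hP, fun i => some (e i)⟩
  | .new _ _ => none
  | .nand => none

theorem ci_kind1 {Fl A : Type} {ι : Type} {P : RF (fun n => S n × RelF κ Fl n) ι} (h : Ext B κ Fl ι P) (e : ι → A) :
    ∃ K : CiKind S B κ Fl A, ∀ n s R x q, K.Val n s R x q ↔ P n (s, R) (fun i => x (e i)) := by
  cases h with
  | old h => exact ⟨.old _ _ h e, fun n s R x q => Iff.rfl⟩
  | new f => exact ⟨.new f e, fun n s R x q => Iff.rfl⟩

theorem ci_kind {Fl : Type} (C : OM (fun n => S n × RelF κ Fl n) (Ext B κ Fl)) :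
    ∃ K : ∀ t, CiKind S B κ Fl (C.A t), ∀ n (s : S n) (R : RelF κ Fl n) (v : C.Gate n → Prop), C.Consistent n (s, R) v →
      ∀ g : C.Gate n, v g ↔ (K g.1).Val n s R g.2 (¬ ∀ h, C.Wire n g h → v h) := by
  have h : ∀ t, ∃ K : CiKind S B κ Fl (C.A t), ∀ n (s : S n) (R : RelF κ Fl n) (x : C.A t → Fin n) (q : Prop),
      (∀ w, C.inp t = some w → (K.Val n s R x q ↔ w.2.1 n (s, R) (fun i => x (w.2.2.2 i)))) ∧
      (C.inp t = none → (K.Val n s R x q ↔ q)) := by
    intro t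
    cases hi : C.inp t with
    | none =>
      refine ⟨.nand, fun n s R x q => ⟨fun w hw => ?_, fun _ => Iff.rfl⟩⟩
      exact absurd hw (by simp)
    | some w =>
      obtain ⟨ι, P, hP, e⟩ := w
      obtain ⟨K, hK⟩ := ci_kind1 hP e
      refine ⟨K, fun n s R x q => ⟨fun w hw => ?_, fun h => absurd h (by simp)⟩⟩
      cases hw
      exact hK n s R x q
  choose K hK using h
  refine ⟨K, fun n s R v hv g => ?_⟩
  obtain ⟨h1, h2⟩ := (ci_cons_iff C n (s, R) v).1 hv g
  obtain ⟨h3, h4⟩ := hK g.1 n s R g.2 (¬ ∀ h, C.Wire n g h → v h)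
  cases hi : C.inp g.1 with
  | none => exact (h2 hi).trans (h4 hi).symm
  | some w => exact (h1 w hi).trans (h3 w hi).symm

/-- Job CI: the tags of the iteration circuit. -/
inductive CiT (TH TF : Type) : Type
  | hh (t : TH) : CiT TH TF
  | ff (t : TF) : CiT TH TF
  | nt (t : TF) : CiT TH TF
  | fin : CiT TH TF
  | fin2 : CiT TH TF

theorem ciT_finite {TH TF : Type} (h1 : Finite TH) (h2 : Finite TF) : Finite (CiT TH TF) := by
  refine Finite.of_surjective (fun w : (TH ⊕ (TF ⊕ (TF ⊕ Bool))) => (match w with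
    | .inl t => CiT.hh t
    | .inr (.inl t) => CiT.ff t
    | .inr (.inr (.inl t)) => CiT.nt t
    | .inr (.inr (.inr true)) => CiT.fin
    | .inr (.inr (.inr false)) => CiT.fin2 : CiT TH TF)) ?_
  rintro (t | t | t | _ | _)
  · exact ⟨.inl t, rfl⟩
  · exact ⟨.inr (.inl t), rfl⟩
  · exact ⟨.inr (.inr (.inl t)), rfl⟩
  · exact ⟨.inr (.inr (.inr true)), rfl⟩
  · exact ⟨.inr (.inr (.inr false)), rfl⟩

/-- Job CI: the data of the iteration circuit. -/
structure CiD (S : ℕ → Type) (B : Readers S) (κ Fl : Type) where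
  hκ : Finite κ
  CH : OM S B
  CF : OM (fun n => S n × RelF κ Fl n) (Ext B κ Fl)
  oH : Fl → CH.T
  eH : ∀ f, CH.A (oH f) → κ
  oF : Fl → CF.T
  eF : ∀ f, CF.A (oF f) → κ
  K : ∀ t, CiKind S B κ Fl (CF.A t)
  f : Fl
  T : ℕ → ℕ
  hT : FOM Unit (fun n x => (x () : ℕ) = T n)
  hTn : ∀ n, 0 < n → T n < n

/-- Job CI: the coordinates of the gates of the iteration circuit. -/
def CiD.A {Fl : Type} (D : CiD S B κ Fl) : CiT D.CH.T D.CF.T → Type
  | .hh t => D.CH.A t
  | .ff t => Option (D.CF.A t)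
  | .nt t => Option (D.CF.A t)
  | .fin => κ
  | .fin2 => κ

/-- Job CI: the wires of the iteration circuit. -/
inductive CiWire {Fl : Type} (D : CiD S B κ Fl) :
    (a b : CiT D.CH.T D.CF.T) → (n : ℕ) → (D.A a → Fin n) → (D.A b → Fin n) → Prop
  | hh {t t' : D.CH.T} {n : ℕ} {x : D.CH.A t → Fin n} {y : D.CH.A t' → Fin n} (h : D.CH.wire t t' n x y) :
      CiWire D (.hh t) (.hh t') n x y
  | ff {t t' : D.CF.T} {n : ℕ} {x : Option (D.CF.A t) → Fin n} {y : Option (D.CF.A t') → Fin n} (hK : D.K t = .nand)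
      (h0 : x none = y none) (h : D.CF.wire t t' n (fun i => x (some i)) (fun i => y (some i))) :
      CiWire D (.ff t) (.ff t') n x y
  | fn {t : D.CF.T} {n : ℕ} {x : Option (D.CF.A t) → Fin n} {g : Fl} {e : κ → D.CF.A t} (hK : D.K t = .new g e) :
      CiWire D (.ff t) (.nt t) n x x
  | nf {t : D.CF.T} {n : ℕ} {x : Option (D.CF.A t) → Fin n} {g : Fl} {e : κ → D.CF.A t} (hK : D.K t = .new g e)
      {y : Option (D.CF.A (D.oF g)) → Fin n} (h0 : (x none : ℕ) ≤ D.T n) (h1 : (x none : ℕ) = (y none : ℕ) + 1)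
      (h : ∀ i, y (some i) = x (some (e (D.eF g i)))) :
      CiWire D (.nt t) (.ff (D.oF g)) n x y
  | nh {t : D.CF.T} {n : ℕ} {x : Option (D.CF.A t) → Fin n} {g : Fl} {e : κ → D.CF.A t} (hK : D.K t = .new g e)
      {y : D.CH.A (D.oH g) → Fin n} (h0 : (x none : ℕ) = 0)
      (h : ∀ i, y i = x (some (e (D.eH g i)))) :
      CiWire D (.nt t) (.hh (D.oH g)) n x y
  | f1 {n : ℕ} {x : κ → Fin n} : CiWire D .fin .fin2 n x x
  | f2 {n : ℕ} {x : κ → Fin n} {y : Option (D.CF.A (D.oF D.f)) → Fin n} (h1 : (y none : ℕ) = D.T n)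
      (h : ∀ i, y (some i) = x (D.eF D.f i)) :
      CiWire D .fin2 (.ff (D.oF D.f)) n x y

section
variable {Fl : Type} (D : CiD S B κ Fl)

theorem ci_inv_fn {t t' : D.CF.T} {n : ℕ} {u : Option (D.CF.A t) → Fin n} {w : Option (D.CF.A t') → Fin n}
    (h : CiWire D (.ff t) (.nt t') n u w) : ∃ ht : t' = t, (∃ g e, D.K t = .new g e) ∧ ∀ i, u i = w (ht ▸ i) := by
  cases h with
  | fn hK => exact ⟨rfl, ⟨_, _, hK⟩, fun i => rfl⟩

theorem ci_inv_nf {t t' : D.CF.T} {n : ℕ} {u : Option (D.CF.A t) → Fin n} {w : Option (D.CF.A t') → Fin n}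
    (h : CiWire D (.nt t) (.ff t') n u w) : ∃ (g : Fl) (e : κ → D.CF.A t) (ht : t' = D.oF g), D.K t = .new g e ∧
      (u none : ℕ) ≤ D.T n ∧ (u none : ℕ) = (w none : ℕ) + 1 ∧ ∀ i : D.CF.A (D.oF g), w (some (ht ▸ i)) = u (some (e (D.eF g i))) := by
  cases h with
  | nf hK h0 h1 h => exact ⟨_, _, rfl, hK, h0, h1, h⟩

theorem ci_inv_nh {t : D.CF.T} {t' : D.CH.T} {n : ℕ} {u : Option (D.CF.A t) → Fin n} {w : D.CH.A t' → Fin n}
    (h : CiWire D (.nt t) (.hh t') n u w) : ∃ (g : Fl) (e : κ → D.CF.A t) (ht : t' = D.oH g), D.K t = .new g e ∧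
      (u none : ℕ) = 0 ∧
      ∀ i : D.CH.A (D.oH g), w (ht ▸ i) = u (some (e (D.eH g i))) := by
  cases h with
  | nh hK h0 h => exact ⟨_, _, rfl, hK, h0, h⟩

theorem ci_inv_f1 {n : ℕ} {u w : κ → Fin n} (h : CiWire D .fin .fin2 n u w) : ∀ i, u i = w i := by
  cases h with
  | f1 => exact fun i => rfl

theorem ci_inv_f2 {t' : D.CF.T} {n : ℕ} {u : κ → Fin n} {w : Option (D.CF.A t') → Fin n}
    (h : CiWire D .fin2 (.ff t') n u w) : ∃ (ht : t' = D.oF D.f), (w none : ℕ) = D.T n ∧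
      ∀ i : D.CF.A (D.oF D.f), w (some (ht ▸ i)) = u (D.eF D.f i) := by
  cases h with
  | f2 h1 h => exact ⟨rfl, h1, h⟩

/-- Job CI: comparison with the number of iterations. -/
theorem ci_le_T {T : ℕ → ℕ} (hT : FOM Unit (fun n x => (x () : ℕ) = T n)) (hTn : ∀ n, 0 < n → T n < n) {ι : Type} (i : ι) :
    FOM ι (fun n x => (x i : ℕ) ≤ T n) := by
  have h1 : FOM (Option ι) (fun n z => (z none : ℕ) = T n) := hT.comap (fun _ : Unit => (none : Option ι))
  refine fm_congr (fm_ex1 (R := fun n x a => (a : ℕ) = T n ∧ x i ≤ a) (FOM.and h1 (FOM.le (some i) none))) fun n x => ?_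
  constructor
  · rintro ⟨a, h2, h3⟩
    rw [← h2]
    exact h3
  · intro h
    have h2 := (x i).2
    exact ⟨⟨T n, hTn n (by omega)⟩, rfl, h⟩

theorem ci_uniform (a b : CiT D.CH.T D.CF.T) :
    FOM (D.A a ⊕ D.A b) (fun n z => CiWire D a b n (fun i => z (Sum.inl i)) (fun i => z (Sum.inr i))) := by
  have hκ := D.hκ
  rcases a with t | t | t | _ | _ <;> rcases b with t' | t' | t' | _ | _
  -- hh
  · refine ci_congr (D.CH.uniform t t') fun n x => ⟨fun h => CiWire.hh h, fun h => ?_⟩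
    cases h with
    | hh h => exact h
  · exact ci_congr (FOM.const False) fun n x => ⟨fun h => h.elim, fun h => nomatch h⟩
  · exact ci_congr (FOM.const False) fun n x => ⟨fun h => h.elim, fun h => nomatch h⟩
  · exact ci_congr (FOM.const False) fun n x => ⟨fun h => h.elim, fun h => nomatch h⟩
  · exact ci_congr (FOM.const False) fun n x => ⟨fun h => h.elim, fun h => nomatch h⟩
  -- ff
  · exact ci_congr (FOM.const False) fun n x => ⟨fun h => h.elim, fun h => nomatch h⟩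
  · refine ci_congr ((FOM.const (D.K t = .nand)).and ((FOM.eq (Sum.inl none) (Sum.inr none)).and
      ((D.CF.uniform t t').comap (Sum.map some some)))) fun n x => ⟨fun h => CiWire.ff h.1 h.2.1 h.2.2, fun h => ?_⟩
    cases h with
    | ff hK h0 h => exact ⟨hK, h0, h⟩
  · by_cases htt : t' = t
    · subst htt
      have := D.CF.finA t'
      refine ci_congr ((FOM.const (∃ g e, D.K t' = .new g e)).and (FOM.allFin (J := Option (D.CF.A t'))
        (P := fun j n x => x (Sum.inl j) = x (Sum.inr j)) fun j => FOM.eq (Sum.inl j) (Sum.inr j))) fun n x =>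
        ⟨fun h => ?_, fun h => ?_⟩
      · obtain ⟨⟨g, e, hK⟩, h⟩ := h
        have h' : (fun i : Option (D.CF.A t') => x (Sum.inl i)) = (fun i => x (Sum.inr i)) := funext h
        have h2 : CiWire D (.ff t') (.nt t') n (fun i : Option (D.CF.A t') => x (Sum.inl i))
          (fun i : Option (D.CF.A t') => x (Sum.inl i)) := CiWire.fn hK
        exact Eq.mp (congrArg (CiWire D (.ff t') (.nt t') n (fun i : Option (D.CF.A t') => x (Sum.inl i))) h') h2
      · obtain ⟨_, h1, h2⟩ := ci_inv_fn D h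
        exact ⟨h1, h2⟩
    · refine ci_congr (FOM.const False) fun n x => ⟨fun h => h.elim, fun h => ?_⟩
      obtain ⟨h1, _⟩ := ci_inv_fn D h
      exact htt h1
  · exact ci_congr (FOM.const False) fun n x => ⟨fun h => h.elim, fun h => nomatch h⟩
  · exact ci_congr (FOM.const False) fun n x => ⟨fun h => h.elim, fun h => nomatch h⟩
  -- nt
  · by_cases hK : ∃ g e, D.K t = .new g e ∧ t' = D.oH g
    · obtain ⟨g, e, hK, rfl⟩ := hK
      have := D.CH.finA (D.oH g)
      refine ci_congr (FOM.and (FOM.zero (Sum.inl none))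
        (FOM.allFin (J := D.CH.A (D.oH g)) (P := fun j n x => x (Sum.inr j) = x (Sum.inl (some (e (D.eH g j)))))
          fun j => FOM.eq _ _)) fun n x => ⟨fun h => ?_, fun h => ?_⟩
      · exact CiWire.nh hK h.1 h.2
      · obtain ⟨g', e', ht, hK', h0, h1⟩ := ci_inv_nh D h
        rw [hK] at hK'
        cases hK'
        exact ⟨h0, h1⟩
    · refine ci_congr (FOM.const False) fun n x => ⟨fun h => h.elim, fun h => ?_⟩
      obtain ⟨g', e', ht, hK', h0, h1⟩ := ci_inv_nh D h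
      exact hK ⟨_, _, hK', ht⟩
  · by_cases hK : ∃ g e, D.K t = .new g e ∧ t' = D.oF g
    · obtain ⟨g, e, hK, rfl⟩ := hK
      have := D.CF.finA (D.oF g)
      refine ci_congr (FOM.and (ci_le_T D.hT D.hTn (Sum.inl none)) (FOM.and (FOM.succ (Sum.inl none) (Sum.inr none))
        (FOM.allFin (J := D.CF.A (D.oF g)) (P := fun j n x => x (Sum.inr (some j)) = x (Sum.inl (some (e (D.eF g j)))))
          fun j => FOM.eq _ _))) fun n x => ⟨fun h => ?_, fun h => ?_⟩
      · exact CiWire.nf hK h.1 h.2.1 h.2.2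
      · obtain ⟨g', e', ht, hK', h0, h1, h2⟩ := ci_inv_nf D h
        rw [hK] at hK'
        cases hK'
        exact ⟨h0, h1, h2⟩
    · refine ci_congr (FOM.const False) fun n x => ⟨fun h => h.elim, fun h => ?_⟩
      obtain ⟨g', e', ht, hK', h0, h1⟩ := ci_inv_nf D h
      exact hK ⟨_, _, hK', ht⟩
  · exact ci_congr (FOM.const False) fun n x => ⟨fun h => h.elim, fun h => nomatch h⟩
  · exact ci_congr (FOM.const False) fun n x => ⟨fun h => h.elim, fun h => nomatch h⟩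
  · exact ci_congr (FOM.const False) fun n x => ⟨fun h => h.elim, fun h => nomatch h⟩
  -- fin
  · exact ci_congr (FOM.const False) fun n x => ⟨fun h => h.elim, fun h => nomatch h⟩
  · exact ci_congr (FOM.const False) fun n x => ⟨fun h => h.elim, fun h => nomatch h⟩
  · exact ci_congr (FOM.const False) fun n x => ⟨fun h => h.elim, fun h => nomatch h⟩
  · exact ci_congr (FOM.const False) fun n x => ⟨fun h => h.elim, fun h => nomatch h⟩
  · refine ci_congr (FOM.allFin (J := κ)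
        (P := fun j n x => x (Sum.inl j) = x (Sum.inr j)) fun j => FOM.eq (Sum.inl j) (Sum.inr j)) fun n x =>
        ⟨fun h => ?_, fun h => ci_inv_f1 D h⟩
    have h' : (fun i : κ => x (Sum.inl i)) = (fun i => x (Sum.inr i)) := funext h
    have h2 : CiWire D .fin .fin2 n (fun i : κ => x (Sum.inl i)) (fun i : κ => x (Sum.inl i)) := CiWire.f1
    exact Eq.mp (congrArg (CiWire D .fin .fin2 n (fun i : κ => x (Sum.inl i))) h') h2
  -- fin2
  · exact ci_congr (FOM.const False) fun n x => ⟨fun h => h.elim, fun h => nomatch h⟩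
  · by_cases hK : t' = D.oF D.f
    · subst hK
      have := D.CF.finA (D.oF D.f)
      refine ci_congr (FOM.and (D.hT.comap (fun _ : Unit => (Sum.inr none : κ ⊕ Option (D.CF.A (D.oF D.f)))))
        (FOM.allFin (J := D.CF.A (D.oF D.f)) (P := fun j n x => x (Sum.inr (some j)) = x (Sum.inl (D.eF D.f j)))
          fun j => FOM.eq _ _)) fun n x => ⟨fun h => CiWire.f2 h.1 h.2, fun h => ?_⟩
      obtain ⟨_, h1, h2⟩ := ci_inv_f2 D h
      exact ⟨h1, h2⟩
    · refine ci_congr (FOM.const False) fun n x => ⟨fun h => h.elim, fun h => ?_⟩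
      obtain ⟨h1, _⟩ := ci_inv_f2 D h
      exact hK h1
  · exact ci_congr (FOM.const False) fun n x => ⟨fun h => h.elim, fun h => nomatch h⟩
  · exact ci_congr (FOM.const False) fun n x => ⟨fun h => h.elim, fun h => nomatch h⟩
  · exact ci_congr (FOM.const False) fun n x => ⟨fun h => h.elim, fun h => nomatch h⟩

theorem ci_finA (a : CiT D.CH.T D.CF.T) : Finite (D.A a) := by
  have h1 := D.hκ
  have h2 := D.CH.finA
  have h3 := D.CF.finA
  rcases a with t | t | t | _ | _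
  · exact h2 t
  · exact inferInstanceAs (Finite (Option (D.CF.A t)))
  · exact inferInstanceAs (Finite (Option (D.CF.A t)))
  · exact h1
  · exact h1

/-- Job CI: the readers of the iteration circuit. -/
def CiD.inp : ∀ t : CiT D.CH.T D.CF.T, Option ((ι : Type) ×' (P : RF S ι) ×' (_ : B ι P) ×' (ι → D.A t))
  | .hh t => D.CH.inp t
  | .ff t => (D.K t).Inp
  | .nt _ => none
  | .fin => none
  | .fin2 => none

/-- Job CI: the iteration circuit. -/
def ciIter : OM S B where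
  T := CiT D.CH.T D.CF.T
  finT := ciT_finite D.CH.finT D.CF.finT
  A := D.A
  finA := ci_finA D
  inp := D.inp
  wire := CiWire D
  uniform := ci_uniform D

end

section
variable {Fl : Type} (D : CiD S B κ Fl)

/-- Job CI: the gate with counter `a`. -/
def ciC {n : ℕ} {A : Type} (a : Fin n) (x : A → Fin n) : Option A → Fin n := fun o => o.elim a x

theorem ci_eta {n : ℕ} {A : Type} (y : Option A → Fin n) : y = ciC (y none) (fun i => y (some i)) := by
  funext o
  cases o <;> rfl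

theorem ci_w_hh {n : ℕ} {t : D.CH.T} {x : D.CH.A t → Fin n} {h : (ciIter D).Gate n} (hw : (ciIter D).Wire n ⟨.hh t, x⟩ h) :
    ∃ k : D.CH.Gate n, h = ⟨.hh k.1, k.2⟩ ∧ D.CH.Wire n ⟨t, x⟩ k := by
  obtain ⟨b, y⟩ := h
  have h' : CiWire D (.hh t) b n x y := hw
  cases h' with
  | hh h => exact ⟨⟨_, _⟩, rfl, h⟩

theorem ci_w_ff {n : ℕ} {t : D.CF.T} {x : Option (D.CF.A t) → Fin n} {h : (ciIter D).Gate n}
    (hw : (ciIter D).Wire n ⟨.ff t, x⟩ h) :
    (D.K t = .nand ∧ ∃ k : D.CF.Gate n, h = ⟨.ff k.1, ciC (x none) k.2⟩ ∧ D.CF.Wire n ⟨t, fun i => x (some i)⟩ k) ∨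
    ((∃ g e, D.K t = .new g e) ∧ h = ⟨.nt t, x⟩) := by
  obtain ⟨b, y⟩ := h
  have h' : CiWire D (.ff t) b n x y := hw
  cases h' with
  | @ff _ t' _ _ y hK h0 h =>
    refine Or.inl ⟨hK, ⟨t', fun i => y (some i)⟩, ?_, h⟩
    rw [h0]
    exact congrArg (fun y => (⟨.ff t', y⟩ : (ciIter D).Gate n)) (ci_eta y)
  | fn hK => exact Or.inr ⟨⟨_, _, hK⟩, rfl⟩

/-- Job CI: the counter j-1. -/
def ciPred {n : ℕ} (a : Fin n) : Fin n := ⟨a - 1, lt_of_le_of_lt (Nat.sub_le _ _) a.2⟩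

theorem ci_w_nt {n : ℕ} {t : D.CF.T} {x : Option (D.CF.A t) → Fin n} {h : (ciIter D).Gate n}
    (hw : (ciIter D).Wire n ⟨.nt t, x⟩ h) : ∃ (g : Fl) (e : κ → D.CF.A t), D.K t = .new g e ∧
    ((¬ (x none : ℕ) = 0 ∧ (x none : ℕ) ≤ D.T n ∧ h = ⟨.ff (D.oF g), ciC (ciPred (x none)) (fun i => x (some (e (D.eF g i))))⟩) ∨
    ((x none : ℕ) = 0 ∧ h = ⟨.hh (D.oH g), fun i => x (some (e (D.eH g i)))⟩)) := by
  obtain ⟨b, y⟩ := h
  have h' : CiWire D (.nt t) b n x y := hw
  cases h' with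
  | @nf _ _ _ g e hK y h0 h1 h =>
    refine ⟨g, e, hK, Or.inl ⟨by omega, h0, ?_⟩⟩
    have : y = ciC (ciPred (x none)) (fun i => x (some (e (D.eF g i)))) := by
      rw [ci_eta y]
      congr 1
      · refine Fin.ext ?_
        change (y none : ℕ) = (x none : ℕ) - 1
        omega
      · funext i
        exact h i
    exact congrArg (fun y => (⟨.ff (D.oF g), y⟩ : (ciIter D).Gate n)) this
  | @nh _ _ _ g e hK y h0 h =>
    refine ⟨g, e, hK, Or.inr ⟨h0, ?_⟩⟩
    have : y = (fun i => x (some (e (D.eH g i)))) := funext h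
    exact congrArg (fun y => (⟨.hh (D.oH g), y⟩ : (ciIter D).Gate n)) this

theorem ci_w_f1 {n : ℕ} {x : κ → Fin n} {h : (ciIter D).Gate n} (hw : (ciIter D).Wire n ⟨.fin, x⟩ h) : h = ⟨.fin2, x⟩ := by
  obtain ⟨b, y⟩ := h
  have h' : CiWire D .fin b n x y := hw
  cases h' with
  | f1 => rfl

/-- Job CI: the last counter. -/
def ciLast {n : ℕ} (h : D.T n < n) : Fin n := ⟨D.T n, h⟩

theorem ci_w_f2 {n : ℕ} {x : κ → Fin n} {h : (ciIter D).Gate n} (hw : (ciIter D).Wire n ⟨.fin2, x⟩ h) :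
    ∃ h2 : D.T n < n, h = ⟨.ff (D.oF D.f), ciC (ciLast D h2) (fun i => x (D.eF D.f i))⟩ := by
  obtain ⟨b, y⟩ := h
  have h' : CiWire D .fin2 b n x y := hw
  cases h' with
  | @f2 _ _ y h1 h =>
    have h2 : D.T n < n := h1 ▸ (y none).2
    refine ⟨h2, ?_⟩
    have : y = ciC (ciLast D h2) (fun i => x (D.eF D.f i)) := by
      rw [ci_eta y]
      congr 1
      · exact Fin.ext h1
      · funext i
        exact h i
    exact congrArg (fun y => (⟨.ff (D.oF D.f), y⟩ : (ciIter D).Gate n)) this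

theorem ci_fanin {n : ℕ} (h1 : D.CH.FanInTwo n) (h2 : D.CF.FanInTwo n) : (ciIter D).FanInTwo n := by
  rintro ⟨a, x⟩ g₁ g₂ g₃ w₁ w₂ w₃
  rcases a with t | t | t | _ | _
  · obtain ⟨k₁, rfl, u₁⟩ := ci_w_hh D w₁
    obtain ⟨k₂, rfl, u₂⟩ := ci_w_hh D w₂
    obtain ⟨k₃, rfl, u₃⟩ := ci_w_hh D w₃
    rcases h1 _ k₁ k₂ k₃ u₁ u₂ u₃ with h | h | h
    · exact Or.inl (h ▸ rfl)
    · exact Or.inr (Or.inl (h ▸ rfl))
    · exact Or.inr (Or.inr (h ▸ rfl))
  · rcases ci_w_ff D w₁ with ⟨hK, k₁, rfl, u₁⟩ | ⟨⟨g, e, hK⟩, rfl⟩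
    · rcases ci_w_ff D w₂ with ⟨_, k₂, rfl, u₂⟩ | ⟨⟨g, e, hK'⟩, rfl⟩
      · rcases ci_w_ff D w₃ with ⟨_, k₃, rfl, u₃⟩ | ⟨⟨g, e, hK'⟩, rfl⟩
        · rcases h2 _ k₁ k₂ k₃ u₁ u₂ u₃ with h | h | h
          · exact Or.inl (h ▸ rfl)
          · exact Or.inr (Or.inl (h ▸ rfl))
          · exact Or.inr (Or.inr (h ▸ rfl))
        · rw [hK] at hK'
          cases hK'
      · rw [hK] at hK'
        cases hK'
    · rcases ci_w_ff D w₂ with ⟨hK', k₂, rfl, w₂⟩ | ⟨⟨g, e, hK'⟩, rfl⟩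
      · rw [hK] at hK'
        cases hK'
      · exact Or.inl rfl
  · obtain ⟨g, e, hK, h₁⟩ := ci_w_nt D w₁
    obtain ⟨g', e', hK', h₂⟩ := ci_w_nt D w₂
    rw [hK] at hK'
    cases hK'
    rcases h₁ with ⟨h0, _, rfl⟩ | ⟨h0, rfl⟩
    · rcases h₂ with ⟨h0', _, rfl⟩ | ⟨h0', rfl⟩
      · exact Or.inl rfl
      · exact absurd h0' h0
    · rcases h₂ with ⟨h0', _, rfl⟩ | ⟨h0', rfl⟩
      · exact absurd h0 h0'
      · exact Or.inl rfl
  · obtain rfl := ci_w_f1 D w₁
    obtain rfl := ci_w_f1 D w₂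
    exact Or.inl rfl
  · obtain ⟨h0, rfl⟩ := ci_w_f2 D w₁
    obtain ⟨h0', rfl⟩ := ci_w_f2 D w₂
    exact Or.inl rfl

/-- Job CI: the levels. The counters above `T n` are not used. -/
def ciLev {n : ℕ} (lH : D.CH.Gate n → ℕ) (lF : D.CF.Gate n → ℕ) (dH dF : ℕ) : (ciIter D).Gate n → ℕ
  | ⟨.hh t, x⟩ => lH ⟨t, x⟩
  | ⟨.ff t, x⟩ => dH + 2 + min ((x none : Fin n) : ℕ) (D.T n) * (dF + 3) + lF ⟨t, fun i => x (some i)⟩
  | ⟨.nt _, x⟩ => dH + 1 + min ((x none : Fin n) : ℕ) (D.T n) * (dF + 3)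
  | ⟨.fin, _⟩ => dH + 3 + (D.T n + 1) * (dF + 3)
  | ⟨.fin2, _⟩ => dH + 2 + (D.T n + 1) * (dF + 3)

theorem ci_depth {n dH dF : ℕ} (h1 : D.CH.DepthLE n dH) (h2 : D.CF.DepthLE n dF) :
    (ciIter D).DepthLE n (dH + 3 + (D.T n + 1) * (dF + 3)) := by
  obtain ⟨lH, hH, hH'⟩ := h1
  obtain ⟨lF, hF, hF'⟩ := h2
  refine ⟨ciLev D lH lF dH dF, ?_, ?_⟩
  · rintro ⟨a, x⟩
    rcases a with t | t | t | _ | _
    · change lH ⟨t, x⟩ ≤ _
      have := hH ⟨t, x⟩
      omega
    · change dH + 2 + min ((x none : Fin n) : ℕ) (D.T n) * (dF + 3) + lF ⟨t, fun i => x (some i)⟩ ≤ _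
      have h3 := hF ⟨t, fun i => x (some i)⟩
      have h5 : min ((x none : Fin n) : ℕ) (D.T n) * (dF + 3) ≤ D.T n * (dF + 3) := Nat.mul_le_mul_right _ (min_le_right _ _)
      rw [Nat.add_mul]
      omega
    · change dH + 1 + min ((x none : Fin n) : ℕ) (D.T n) * (dF + 3) ≤ _
      have h5 : min ((x none : Fin n) : ℕ) (D.T n) * (dF + 3) ≤ D.T n * (dF + 3) := Nat.mul_le_mul_right _ (min_le_right _ _)
      rw [Nat.add_mul]
      omega
    · exact le_rfl
    · change dH + 2 + (D.T n + 1) * (dF + 3) ≤ _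
      omega
  · rintro ⟨a, x⟩ g w
    rcases a with t | t | t | _ | _
    · obtain ⟨k, rfl, u⟩ := ci_w_hh D w
      exact hH' _ _ u
    · rcases ci_w_ff D w with ⟨hK, k, rfl, u⟩ | ⟨⟨g, e, hK⟩, rfl⟩
      · change dH + 2 + min ((x none : Fin n) : ℕ) (D.T n) * (dF + 3) + lF k <
          dH + 2 + min ((x none : Fin n) : ℕ) (D.T n) * (dF + 3) + lF ⟨t, fun i => x (some i)⟩
        have := hF' _ _ u
        omega
      · change dH + 1 + min ((x none : Fin n) : ℕ) (D.T n) * (dF + 3) <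
          dH + 2 + min ((x none : Fin n) : ℕ) (D.T n) * (dF + 3) + lF ⟨t, fun i => x (some i)⟩
        omega
    · obtain ⟨g, e, hK, ⟨h0, h0', rfl⟩ | ⟨h0, rfl⟩⟩ := ci_w_nt D w
      · change dH + 2 + min (((x none : Fin n) : ℕ) - 1) (D.T n) * (dF + 3) + lF ⟨D.oF g, fun i => x (some (e (D.eF g i)))⟩ <
          dH + 1 + min ((x none : Fin n) : ℕ) (D.T n) * (dF + 3)
        have h3 := hF ⟨D.oF g, fun i => x (some (e (D.eF g i)))⟩
        have h4 : min ((x none : Fin n) : ℕ) (D.T n) = min (((x none : Fin n) : ℕ) - 1) (D.T n) + 1 := by omega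
        rw [h4, Nat.add_mul]
        omega
      · change lH ⟨D.oH g, fun i => x (some (e (D.eH g i)))⟩ < dH + 1 + min ((x none : Fin n) : ℕ) (D.T n) * (dF + 3)
        have := hH ⟨D.oH g, fun i => x (some (e (D.eH g i)))⟩
        omega
    · obtain rfl := ci_w_f1 D w
      change dH + 2 + (D.T n + 1) * (dF + 3) < dH + 3 + (D.T n + 1) * (dF + 3)
      omega
    · obtain ⟨h0, rfl⟩ := ci_w_f2 D w
      change dH + 2 + min (D.T n) (D.T n) * (dF + 3) + lF ⟨D.oF D.f, fun i => x (D.eF D.f i)⟩ <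
          dH + 2 + (D.T n + 1) * (dF + 3)
      have h3 := hF ⟨D.oF D.f, fun i => x (D.eF D.f i)⟩
      rw [min_self, Nat.add_mul]
      omega

/-- Job CI: the j-th relation (for the counters above `T n` everything is true). -/
def ciR {n : ℕ} (T : ℕ) (step : RelF κ Fl n → RelF κ Fl n) (H : RelF κ Fl n) (j : ℕ) : RelF κ Fl n :=
  if j ≤ T then step^[j] H else fun _ _ => True

theorem ciR_zero {n : ℕ} (T : ℕ) (step : RelF κ Fl n → RelF κ Fl n) (H : RelF κ Fl n) : ciR T step H 0 = H := by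
  unfold ciR
  rw [if_pos (Nat.zero_le _)]
  rfl

theorem ciR_succ {n : ℕ} (T : ℕ) (step : RelF κ Fl n → RelF κ Fl n) (H : RelF κ Fl n) {j : ℕ} (hj : j ≠ 0) (hT : j ≤ T) :
    ciR T step H j = step (ciR T step H (j - 1)) := by
  unfold ciR
  rw [if_pos hT, if_pos (by omega)]
  obtain ⟨i, rfl⟩ := Nat.exists_eq_succ_of_ne_zero hj
  rw [Function.iterate_succ_apply']
  rfl

theorem ciR_top {n : ℕ} (T : ℕ) (step : RelF κ Fl n → RelF κ Fl n) (H : RelF κ Fl n) {j : ℕ} (hT : ¬ j ≤ T) (f : Fl) (x : κ → Fin n) :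
    ciR T step H j f x := by
  unfold ciR
  rw [if_neg hT]
  trivial

/-- Job CI: the values of the gates. -/
def ciVal {n : ℕ} (vH : D.CH.Gate n → Prop) (vF : RelF κ Fl n → D.CF.Gate n → Prop) (R : ℕ → RelF κ Fl n) (F : RelF κ Fl n → RelF κ Fl n) :
    (ciIter D).Gate n → Prop
  | ⟨.hh t, x⟩ => vH ⟨t, x⟩
  | ⟨.ff t, x⟩ => vF (R (x none : Fin n)) ⟨t, fun i => x (some i)⟩
  | ⟨.nt t, x⟩ => ∃ g e, D.K t = .new g e ∧ ¬ R (x none : Fin n) g (fun k => x (some (e k)))
  | ⟨.fin, x⟩ => F (R (D.T n)) D.f x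
  | ⟨.fin2, x⟩ => ¬ F (R (D.T n)) D.f x

theorem ci_consistent (hne : Nonempty κ) {n : ℕ} (s : S n) (H : RelF κ Fl n) (F : RelF κ Fl n → RelF κ Fl n)
    (vH : D.CH.Gate n → Prop) (vF : RelF κ Fl n → D.CF.Gate n → Prop)
    (hH : D.CH.Consistent n s vH) (hHv : ∀ f x, vH ⟨D.oH f, fun i => x (D.eH f i)⟩ ↔ H f x)
    (hF : ∀ R, ∀ g : D.CF.Gate n, vF R g ↔ (D.K g.1).Val n s R g.2 (¬ ∀ h, D.CF.Wire n g h → vF R h))
    (hFv : ∀ R f x, vF R ⟨D.oF f, fun i => x (D.eF f i)⟩ ↔ F R f x) :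
    (ciIter D).Consistent n s (ciVal D vH vF (ciR (D.T n) F H) F) := by
  rw [ci_cons_iff]
  rintro ⟨a, x⟩
  rcases a with t | t | t | _ | _
  · obtain ⟨h1, h2⟩ := (ci_cons_iff D.CH n s vH).1 hH ⟨t, x⟩
    refine ⟨fun w hw => h1 w hw, fun hw => (h2 hw).trans (not_congr ⟨fun h g hg => ?_, fun h g hg => ?_⟩)⟩
    · obtain ⟨k, rfl, hk⟩ := ci_w_hh D hg
      exact h k hk
    · exact h ⟨.hh g.1, g.2⟩ (CiWire.hh hg)
  · have key : ciVal D vH vF (ciR (D.T n) F H) F ⟨.ff t, x⟩ ↔ (D.K t).Val n s (ciR (D.T n) F H (x none : Fin n)) (fun i => x (some i))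
      (¬ ∀ h, D.CF.Wire n ⟨t, fun i => x (some i)⟩ h → vF (ciR (D.T n) F H (x none : Fin n)) h) :=
      hF (ciR (D.T n) F H (x none : Fin n)) ⟨t, fun i => x (some i)⟩
    refine ⟨fun w hw => key.trans ?_, fun hw => key.trans ?_⟩
    · have hw' : (D.K t).Inp = some w := hw
      cases hK : D.K t with
      | old ι P hP e =>
        rw [hK] at hw'
        cases hw'
        exact Iff.rfl
      | new g e =>
        rw [hK] at hw'
        cases hw'
      | nand =>
        rw [hK] at hw'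
        cases hw'
    · have hw' : (D.K t).Inp = none := hw
      cases hK : D.K t with
      | old ι P hP e =>
        rw [hK] at hw'
        cases hw'
      | new g e =>
        change ciR (D.T n) F H (x none : Fin n) g (fun k => x (some (e k))) ↔ _
        rw [← not_iff_not, not_not]
        constructor
        · intro h k hk
          rcases ci_w_ff D hk with ⟨hK', _⟩ | ⟨_, rfl⟩
          · rw [hK] at hK'
            cases hK'
          · exact ⟨g, e, hK, h⟩
        · intro h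
          obtain ⟨g', e', hK', h'⟩ := h ⟨.nt t, x⟩ (CiWire.fn hK)
          rw [hK] at hK'
          cases hK'
          exact h'
      | nand =>
        change (¬ ∀ h, D.CF.Wire n ⟨t, fun i => x (some i)⟩ h → vF (ciR (D.T n) F H (x none : Fin n)) h) ↔ _
        refine not_congr ⟨fun h g hg => ?_, fun h g hg => ?_⟩
        · rcases ci_w_ff D hg with ⟨_, k, rfl, hk⟩ | ⟨⟨g', e', hK'⟩, _⟩
          · exact h k hk
          · rw [hK] at hK'
            cases hK'
        · exact h ⟨.ff g.1, ciC (x none) g.2⟩ (CiWire.ff hK rfl hg)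
  · refine ⟨fun w hw => absurd hw ?_, fun _ => ?_⟩
    · exact fun h => by cases h
    · rw [← not_iff_not, not_not]
      constructor
      · intro h k hk
        obtain ⟨g, e, hK, ⟨h0, h0', rfl⟩ | ⟨h0, rfl⟩⟩ := ci_w_nt D hk
        · have h1 : ciR (D.T n) F H (x none : Fin n) g (fun k => x (some (e k))) := by
            by_contra hc
            exact h ⟨g, e, hK, hc⟩
          rw [ciR_succ (D.T n) F H h0 h0'] at h1
          exact (hFv _ g _).2 h1
        · have h1 : ciR (D.T n) F H (x none : Fin n) g (fun k => x (some (e k))) := by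
            by_contra hc
            exact h ⟨g, e, hK, hc⟩
          rw [h0, ciR_zero] at h1
          exact (hHv g _).2 h1
      · rintro h ⟨g, e, hK, h'⟩
        apply h'
        by_cases h0 : ((x none : Fin n) : ℕ) = 0
        · have h1 := h ⟨.hh (D.oH g), fun i => x (some (e (D.eH g i)))⟩
            (CiWire.nh hK h0 fun i => rfl)
          rw [h0, ciR_zero]
          exact (hHv g (fun k => x (some (e k)))).1 h1
        · by_cases h0' : ((x none : Fin n) : ℕ) ≤ D.T n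
          · have h1 := h ⟨.ff (D.oF g), ciC (ciPred (x none)) (fun i => x (some (e (D.eF g i))))⟩
              (CiWire.nf hK h0' (by change ((x none : Fin n) : ℕ) = ((x none : Fin n) : ℕ) - 1 + 1; omega) fun i => rfl)
            rw [ciR_succ (D.T n) F H h0 h0']
            exact (hFv _ g (fun k => x (some (e k)))).1 h1
          · exact ciR_top (D.T n) F H h0' g _
  · refine ⟨fun w hw => absurd hw ?_, fun _ => ?_⟩
    · exact fun h => by cases h
    · rw [← not_iff_not, not_not]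
      constructor
      · intro h k hk
        obtain rfl := ci_w_f1 D hk
        exact h
      · intro h
        exact h ⟨.fin2, x⟩ CiWire.f1
  · refine ⟨fun w hw => absurd hw ?_, fun _ => ?_⟩
    · exact fun h => by cases h
    · refine not_congr ?_
      constructor
      · intro h k hk
        obtain ⟨h0, rfl⟩ := ci_w_f2 D hk
        exact (hFv _ D.f x).2 h
      · intro h
        have hn : 0 < n := by
          obtain ⟨i⟩ := hne
          exact lt_of_le_of_lt (Nat.zero_le _) ((show κ → Fin n from x) i).2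
        have h1 := h ⟨.ff (D.oF D.f), ciC (ciLast D (D.hTn n hn)) (fun i => x (D.eF D.f i))⟩
            (CiWire.f2 rfl fun i => rfl)
        exact (hFv _ D.f x).1 h1

theorem ci_bound (cH kH cF kF n d d' T : ℕ) (hd : (T + 1) * (d + 1) ≤ d' + 1) :
    cH * (Nat.log 2 n + 1) ^ kH * (d' + 1) + 3 + (T + 1) * (cF * (Nat.log 2 n + 1) ^ kF * (d + 1) + 3) ≤
      (cH + 6 + cF) * (Nat.log 2 n + 1) ^ (kH + kF) * (d' + 1) := by
  have hL : 1 ≤ Nat.log 2 n + 1 := Nat.succ_pos _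
  generalize Nat.log 2 n + 1 = L at *
  have h1 : L ^ kH ≤ L ^ (kH + kF) := Nat.pow_le_pow_right hL (by omega)
  have h2 : L ^ kF ≤ L ^ (kH + kF) := Nat.pow_le_pow_right hL (by omega)
  have h3 : 1 ≤ L ^ (kH + kF) := Nat.one_le_pow _ _ hL
  generalize L ^ (kH + kF) = M at *
  have h4 : T + 1 ≤ d' + 1 := by
    have : T + 1 ≤ (T + 1) * (d + 1) := Nat.le_mul_of_pos_right _ (Nat.succ_pos _)
    omega
  have h5 : (T + 1) * (d + 1) ≤ d' + 1 := by omega
  calc cH * L ^ kH * (d' + 1) + 3 + (T + 1) * (cF * L ^ kF * (d + 1) + 3)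
      = cH * L ^ kH * (d' + 1) + 3 + (cF * L ^ kF * ((T + 1) * (d + 1)) + 3 * (T + 1)) := by ring
    _ ≤ cH * M * (d' + 1) + 3 * (M * (d' + 1)) + (cF * M * (d' + 1) + 3 * (M * (d' + 1))) := by
      have e1 := Nat.mul_le_mul_right (d' + 1) (Nat.mul_le_mul_left cH h1)
      have e2 : 1 ≤ M * (d' + 1) := Nat.mul_pos h3 (Nat.succ_pos _)
      have e3 : cF * L ^ kF * ((T + 1) * (d + 1)) ≤ cF * M * (d' + 1) := Nat.mul_le_mul (Nat.mul_le_mul_left cF h2) h5
      have e4 : T + 1 ≤ M * (d' + 1) := h4.trans (Nat.le_mul_of_pos_left _ h3)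
      omega
    _ = (cH + 6 + cF) * M * (d' + 1) := by ring

end

/-- Iteration. `T n + 1` iterations, where `T n < n` is definable. The iterates are R 0 = H, R (j+1) = F (R j); the gates with counter j (j ≤ T n) have the values given by the circuit for F on the input (s, R j);
see `Comp.iter` in `UPM/Compile.lean` for the construction of the circuit. -/
theorem LComp.loop {κ Fl : Type} (hFl : Finite Fl) (hne : Nonempty κ) {D' T : ℕ → ℕ} (hT : FOM Unit (fun n x => (x () : ℕ) = T n))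
    (hTn : ∀ n, 0 < n → T n < n) (hD : ∀ n, (T n + 1) * (D n + 1) ≤ D' n + 1) {H : Fl → RF S κ} {F : Fl → RF (fun n => S n × RelF κ Fl n) κ}
    (hH : ∀ f, LComp D' S B κ (H f)) (hF : ∀ f, LComp D (fun n => S n × RelF κ Fl n) (Ext B κ Fl) κ (F f)) (f : Fl) :
    LComp D' S B κ (fun n s x =>
        ((fun (R : RelF κ Fl n) (f : Fl) (x : κ → Fin n) => F f n (s, R) x)^[T n + 1] (fun f x => H f n s x)) f x) := by
  have hκ : Finite κ := (hH f).1
  obtain ⟨CH, oH, eH, cH, kH, hCH, hvH⟩ := ci_family hFl hH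
  obtain ⟨CF, oF, eF, cF, kF, hCF, hvF⟩ := ci_family hFl hF
  obtain ⟨K, hK⟩ := ci_kind CF
  refine ⟨hκ, ciIter ⟨hκ, CH, CF, oH, eH, oF, eF, K, f, T, hT, hTn⟩, .fin, fun i => i, cH + 6 + cF, kH + kF, fun n => ⟨?_, ?_⟩, fun n s => ?_⟩
  · exact ci_fanin _ (hCH n).1 (hCF n).1
  · obtain ⟨lev, h1, h2⟩ := ci_depth ⟨hκ, CH, CF, oH, eH, oF, eF, K, f, T, hT, hTn⟩ (hCH n).2 (hCF n).2
    exact ⟨lev, fun g => (h1 g).trans (ci_bound cH kH cF kF n (D n) (D' n) (T n) (hD n)), h2⟩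
  · obtain ⟨vH, hvH1, hvH2⟩ := hvH n s
    choose vF hvF1 hvF2 using fun R => hvF n (s, R)
    refine ⟨ciVal ⟨hκ, CH, CF, oH, eH, oF, eF, K, f, T, hT, hTn⟩ vH vF
      (ciR (T n) (fun (R : RelF κ Fl n) (f : Fl) (x : κ → Fin n) => F f n (s, R) x) (fun f x => H f n s x))
      (fun (R : RelF κ Fl n) (f : Fl) (x : κ → Fin n) => F f n (s, R) x), ?_, fun x => ?_⟩
    · exact ci_consistent ⟨hκ, CH, CF, oH, eH, oF, eF, K, f, T, hT, hTn⟩ hne s (fun f x => H f n s x) (fun R f x => F f n (s, R) x) vH vF hvH1 hvH2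
        (fun R g => hK n s R (vF R) (hvF1 R) g) (fun R f x => hvF2 R f x)
    · change _ ↔ ((fun (R : RelF κ Fl n) (f : Fl) (x : κ → Fin n) => F f n (s, R) x)^[T n + 1] (fun f x => H f n s x)) f x
      rw [Function.iterate_succ_apply']
      have e : ciR (T n) (fun (R : RelF κ Fl n) (f : Fl) (x : κ → Fin n) => F f n (s, R) x) (fun f x => H f n s x) (T n) =
          (fun (R : RelF κ Fl n) (f : Fl) (x : κ → Fin n) => F f n (s, R) x)^[T n] (fun f x => H f n s x) := by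
        unfold ciR
        rw [if_pos le_rfl]
      change F f n (s, ciR (T n) (fun (R : RelF κ Fl n) (f : Fl) (x : κ → Fin n) => F f n (s, R) x) (fun f x => H f n s x) (T n)) x ↔ _
      rw [e]

end Pool.Agent.SUB
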