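import Pool.Agent.Lib.MP_0087d5_lc.SUB.HK

/-!
# The number of rounds

Jobs PTA (`pot`), PTB (`arith_N`), PTC (`iter_main`).
-/

namespace Pool.Agent.SUB

open Relation Finset Pool.Agent.AUG

/-- Job PTA. Potential: `Φ x = 0` if `Mx x`, otherwise `T * k x + F * (β x + min (k x) K + T)` where `β x = (B + 1 - L x) * (A + T) + min (p x) A` if `L x ≤ B` and `0` otherwise. Claim: `¬ Mx x → Φ (O x) + F * T ≤ Φ x`. If `Mx (O x)`: clear. Otherwise:
`L x ≤ B`, `A ≤ p x`: `k` decreases by `F` (`h4`), and `β`, `min (k x) K` do not increase (`h2`, `h3`; if `L` increases, the first summand of `β` decreases by `A + T` or `β` becomes 0).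
`L x ≤ B`, `p x < A`: `β` decreases by `T`: if `L (O x) = L x` by `h3`; if `L (O x) > L x` since the first summand decreases by `A + T` and the second one is at most `A`, or `β` becomes 0 (`B + 1 - L x ≥ 1`).
`B < L x`: `k x ≤ K`, so `min (k x) K` decreases by `T` (`h1`).
So if `O^[N] x₀` is not `Mx` then (`h0`) none of the `O^[i] x₀`, `i ≤ N`, is, and `Φ (O^[N] x₀) + N * (F * T) ≤ Φ x₀ ≤ T * k x₀ + F * ((B + 1) * (A + T) + A + K + T)`, but `Φ (O^[N] x₀) ≥ F * T > 0`. -/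
theorem pot {X : Type*} (O : X → X) (Mx : X → Prop) (k L p : X → ℕ) (B A F K T N : ℕ)
    (h0 : ∀ x, Mx x → Mx (O x))
    (h1 : ∀ x, ¬ Mx (O x) → k (O x) + T ≤ k x)
    (h2 : ∀ x, ¬ Mx (O x) → L x ≤ L (O x))
    (h3 : ∀ x, ¬ Mx (O x) → L (O x) = L x → p (O x) + T ≤ p x)
    (h4 : ∀ x, ¬ Mx (O x) → L x ≤ B → A ≤ p x → k (O x) + F ≤ k x)
    (h5 : ∀ x, ¬ Mx x → B < L x → k x ≤ K)
    (hF : 1 ≤ F) (hT : 1 ≤ T) (x₀ : X)
    (hN : T * k x₀ + F * ((B + 1) * (A + T) + A + K + T) ≤ N * (F * T)) : Mx (O^[N] x₀) := by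
  classical
  obtain ⟨b, hb⟩ : ∃ b : X → ℕ, b = fun x => if L x ≤ B then (B + 1 - L x) * (A + T) + min (p x) A else 0 := ⟨_, rfl⟩
  have hb1 : ∀ x, L x ≤ B → b x = (B + 1 - L x) * (A + T) + min (p x) A := fun x hx => by
    rw [hb]; exact if_pos hx
  have hb2 : ∀ x, ¬ L x ≤ B → b x = 0 := fun x hx => by
    rw [hb]; exact if_neg hx
  obtain ⟨c, hc⟩ : ∃ c : X → ℕ, ∀ x, c x = b x + min (k x) K + T := ⟨_, fun _ => rfl⟩
  obtain ⟨Φ, hΦ⟩ : ∃ Φ : X → ℕ, Φ = fun x => if Mx x then 0 else T * k x + F * c x := ⟨_, rfl⟩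
  have hΦ1 : ∀ x, Mx x → Φ x = 0 := fun x hx => by rw [hΦ]; exact if_pos hx
  have hΦ2 : ∀ x, ¬ Mx x → Φ x = T * k x + F * c x := fun x hx => by rw [hΦ]; exact if_neg hx
  -- the first summand decreases if `L` increases
  have hmul : ∀ l l' : ℕ, l < l' → l' ≤ B → (B + 1 - l') * (A + T) + (A + T) ≤ (B + 1 - l) * (A + T) := by
    intro l l' h h'
    have e : (B + 1 - l') * (A + T) + (A + T) = (B + 1 - l' + 1) * (A + T) := by ring
    rw [e]
    exact Nat.mul_le_mul_right _ (by omega)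
  have key : ∀ x, ¬ Mx x → Φ (O x) + F * T ≤ Φ x := by
    intro x hx
    rw [hΦ2 x hx]
    by_cases hO : Mx (O x)
    · rw [hΦ1 _ hO, hc]
      have e : F * (b x + min (k x) K + T) = F * (b x + min (k x) K) + F * T := by ring
      omega
    · rw [hΦ2 _ hO]
      have g1 := h1 x hO
      have g2 := h2 x hO
      have g3 := h3 x hO
      have hstep : (k (O x) + F ≤ k x ∧ c (O x) ≤ c x) ∨ (k (O x) ≤ k x ∧ c (O x) + T ≤ c x) := by
        rw [hc, hc]
        by_cases hL : L x ≤ B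
        · have hbx := hb1 x hL
          by_cases hp : A ≤ p x
          · left
            refine ⟨h4 x hO hL hp, ?_⟩
            have hbb : b (O x) ≤ b x := by
              by_cases hL' : L (O x) ≤ B
              · have hbx' := hb1 _ hL'
                rcases g2.eq_or_lt with he | hl
                · have := g3 he.symm
                  rw [← he] at hbx'
                  omega
                · have := hmul _ _ hl hL'
                  omega
              · have := hb2 _ hL'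
                omega
            omega
          · right
            refine ⟨by omega, ?_⟩
            have hbb : b (O x) + T ≤ b x := by
              by_cases hL' : L (O x) ≤ B
              · have hbx' := hb1 _ hL'
                rcases g2.eq_or_lt with he | hl
                · have := g3 he.symm
                  rw [← he] at hbx'
                  omega
                · have := hmul _ _ hl hL'
                  omega
              · have h6 := hb2 _ hL'
                have h7 : 1 * (A + T) ≤ (B + 1 - L x) * (A + T) := Nat.mul_le_mul_right _ (by omega)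
                omega
            omega
        · right
          refine ⟨by omega, ?_⟩
          have h6 := hb2 x hL
          have h7 := hb2 (O x) (by omega)
          have h8 := h5 x hx (by omega)
          omega
      rcases hstep with ⟨a1, a2⟩ | ⟨a1, a2⟩
      · have b1 := Nat.mul_le_mul_left T a1
        have b2 := Nat.mul_le_mul_left F a2
        have e : T * (k (O x) + F) = T * k (O x) + F * T := by ring
        omega
      · have b1 := Nat.mul_le_mul_left T a1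
        have b2 := Nat.mul_le_mul_left F a2
        have e : F * (c (O x) + T) = F * c (O x) + F * T := by ring
        omega
  by_contra hcon
  have hnot : ∀ i j, i + j = N → ¬ Mx (O^[j] x₀) := by
    intro i
    induction i with
    | zero =>
      intro j hj
      rw [Nat.zero_add] at hj
      rw [hj]
      exact hcon
    | succ i ih =>
      intro j hj h
      refine ih (j + 1) (by omega) ?_
      rw [Function.iterate_succ_apply']
      exact h0 _ h
  have hsum : ∀ j, j ≤ N → Φ (O^[j] x₀) + j * (F * T) ≤ Φ x₀ := by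
    intro j
    induction j with
    | zero => intro _; simp
    | succ j ih =>
      intro hj
      have h6 := ih (by omega)
      have h7 := key _ (hnot (N - j) j (by omega))
      rw [Function.iterate_succ_apply']
      have e : (j + 1) * (F * T) = j * (F * T) + F * T := by ring
      omega
  have h6 := hsum N le_rfl
  have h7 : F * T ≤ Φ (O^[N] x₀) := by
    have h8 := key _ hcon
    omega
  have h8 : 1 ≤ F * T := Nat.mul_le_mul hF hT
  have h9 : Φ x₀ ≤ T * k x₀ + F * ((B + 1) * (A + T) + A + K + T) := by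
    have hx₀ : ¬ Mx x₀ := hnot N 0 (by omega)
    rw [hΦ2 _ hx₀]
    refine Nat.add_le_add_left (Nat.mul_le_mul_left F ?_) _
    rw [hc]
    have h10 : b x₀ ≤ (B + 1) * (A + T) + A := by
      by_cases hL : L x₀ ≤ B
      · rw [hb1 _ hL]
        have h11 : (B + 1 - L x₀) * (A + T) ≤ (B + 1) * (A + T) := Nat.mul_le_mul_right _ (by omega)
        omega
      · rw [hb2 _ hL]
        exact Nat.zero_le _
    omega
  omega

private theorem ptb_pow {n a : ℕ} (ha : 1 ≤ a) (hn : n ≤ (a + 1) ^ 9) : n ≤ 512 * a ^ 9 := by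
  have h1 : (a + 1) ^ 9 ≤ (2 * a) ^ 9 := Nat.pow_le_pow_left (by omega) 9
  have h2 : (2 * a) ^ 9 = 512 * a ^ 9 := by ring
  omega

/-- Job PTB. The parameters: `B = a`, `A = 6144 a^7`, `F = 512 a^4`, `K = 256 a^8`, `T = a^3 + 1`, `N = 20000 (a^5 + 1)`; `k₀ ≤ n ≤ (a + 1)^9 ≤ 512 a^9`. -/
theorem arith_N {n a k₀ : ℕ} (ha : 1 ≤ a) (hn : n ≤ (a + 1) ^ 9) (hk : k₀ ≤ n) :
    (a ^ 3 + 1) * k₀ + 512 * a ^ 4 * ((a + 1) * (6144 * a ^ 7 + (a ^ 3 + 1)) + 6144 * a ^ 7 + 256 * a ^ 8 + (a ^ 3 + 1)) ≤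
      20000 * (a ^ 5 + 1) * (512 * a ^ 4 * (a ^ 3 + 1)) := by
  have h0 : k₀ ≤ 512 * a ^ 9 := hk.trans (ptb_pow ha hn)
  have h1 : (a ^ 3 + 1) * k₀ ≤ (a ^ 3 + 1) * (512 * a ^ 9) := Nat.mul_le_mul_left _ h0
  have e78 : a ^ 7 ≤ a ^ 8 := Nat.pow_le_pow_right ha (by norm_num)
  have e48 : a ^ 4 ≤ a ^ 8 := Nat.pow_le_pow_right ha (by norm_num)
  have e18 : a ≤ a ^ 8 := by
    calc a = a ^ 1 := (pow_one a).symm
      _ ≤ a ^ 8 := Nat.pow_le_pow_right ha (by norm_num)
  have h2 : (a ^ 3 + 1) * a ^ 5 + ((a + 1) * (6144 * a ^ 7 + (a ^ 3 + 1)) + 6144 * a ^ 7 + 256 * a ^ 8 + (a ^ 3 + 1)) ≤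
      20000 * (a ^ 5 + 1) * (a ^ 3 + 1) := by
    have l1 : (a ^ 3 + 1) * a ^ 5 + ((a + 1) * (6144 * a ^ 7 + (a ^ 3 + 1)) + 6144 * a ^ 7 + 256 * a ^ 8 + (a ^ 3 + 1))
        = 6401 * a ^ 8 + 12288 * a ^ 7 + a ^ 5 + a ^ 4 + 2 * a ^ 3 + a + 2 := by ring
    have l2 : 20000 * (a ^ 5 + 1) * (a ^ 3 + 1) = 20000 * a ^ 8 + 20000 * a ^ 5 + 20000 * a ^ 3 + 20000 := by ring
    rw [l1, l2]
    omega
  calc _ ≤ (a ^ 3 + 1) * (512 * a ^ 9) + 512 * a ^ 4 * ((a + 1) * (6144 * a ^ 7 + (a ^ 3 + 1)) + 6144 * a ^ 7 + 256 * a ^ 8 + (a ^ 3 + 1)) :=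
        Nat.add_le_add_right h1 _
    _ = 512 * a ^ 4 * ((a ^ 3 + 1) * a ^ 5 + ((a + 1) * (6144 * a ^ 7 + (a ^ 3 + 1)) + 6144 * a ^ 7 + 256 * a ^ 8 + (a ^ 3 + 1))) := by ring
    _ ≤ 512 * a ^ 4 * (20000 * (a ^ 5 + 1) * (a ^ 3 + 1)) := Nat.mul_le_mul_left _ h2
    _ = _ := by ring

/-- Job PTB. Many disjoint paths lead to many augmentations: from `(T + 2) p ≤ 2 n (L + 2) + 2 f (T + 2)^2`, `T = a^3`. (`4 n (a + 2) ≤ 4 * 512 a^9 * 3 a = 6144 a^10 ≤ A (T + 2) ≤ p (T + 2)`, so `(T + 2) p ≤ 4 f (T + 2)^2`, `p ≤ 4 f (T + 2) ≤ 12 a^3 f`.) -/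
theorem arith_f {n a p f L : ℕ} (ha : 1 ≤ a) (hn : n ≤ (a + 1) ^ 9) (hL : L ≤ a) (hp : 6144 * a ^ 7 ≤ p)
    (h : (a ^ 3 + 2) * p ≤ 2 * n * (L + 2) + 2 * f * (a ^ 3 + 2) ^ 2) : 512 * a ^ 4 ≤ f := by
  have h0 := ptb_pow ha hn
  have h1 : 2 * (2 * n * (L + 2)) ≤ (a ^ 3 + 2) * p := by
    calc 2 * (2 * n * (L + 2)) ≤ 2 * (2 * (512 * a ^ 9) * (3 * a)) := by
          refine Nat.mul_le_mul_left _ (Nat.mul_le_mul (Nat.mul_le_mul_left _ h0) (by omega))
      _ = a ^ 3 * (6144 * a ^ 7) := by ring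
      _ ≤ (a ^ 3 + 2) * p := Nat.mul_le_mul (by omega) hp
  have h2 : (a ^ 3 + 2) * p ≤ 4 * f * (a ^ 3 + 2) ^ 2 := by
    have : 4 * f * (a ^ 3 + 2) ^ 2 = 2 * (2 * f * (a ^ 3 + 2) ^ 2) := by ring
    omega
  have h3 : p ≤ 4 * f * (a ^ 3 + 2) := by
    have e : 4 * f * (a ^ 3 + 2) ^ 2 = (a ^ 3 + 2) * (4 * f * (a ^ 3 + 2)) := by ring
    rw [e] at h2
    exact Nat.le_of_mul_le_mul_left h2 (by omega)
  have h4 : 1 ≤ a ^ 3 := Nat.one_le_pow _ _ ha
  have h5 : 12 * a ^ 3 * (512 * a ^ 4) ≤ 12 * a ^ 3 * f := by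
    calc 12 * a ^ 3 * (512 * a ^ 4) = 6144 * a ^ 7 := by ring
      _ ≤ p := hp
      _ ≤ 4 * f * (a ^ 3 + 2) := h3
      _ ≤ 4 * f * (3 * a ^ 3) := Nat.mul_le_mul_left _ (by omega)
      _ = 12 * a ^ 3 * f := by ring
  exact Nat.le_of_mul_le_mul_left h5 (by omega)

/-- Job PTB. -/
theorem arith_K {n a k L : ℕ} (ha : 1 ≤ a) (hn : n ≤ (a + 1) ^ 9) (hL : a < L) (h : k * (2 * L + 2) ≤ n) : k ≤ 256 * a ^ 8 := by
  have h0 := ptb_pow ha hn
  have h1 : (2 * a) * k ≤ (2 * a) * (256 * a ^ 8) := by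
    calc (2 * a) * k = k * (2 * a) := Nat.mul_comm _ _
      _ ≤ k * (2 * L + 2) := Nat.mul_le_mul_left _ (by omega)
      _ ≤ n := h
      _ ≤ 512 * a ^ 9 := h0
      _ = (2 * a) * (256 * a ^ 8) := by ring
  exact Nat.le_of_mul_le_mul_left h1 (by omega)

variable {n : ℕ} {G : SimpleGraph (Fin n)}

/-- The properties of one round with `T + 1` steps. -/
structure RSpec (G : SimpleGraph (Fin n)) (T : ℕ) (R : SimpleGraph (Fin n) → SimpleGraph (Fin n)) : Prop where
  mat : ∀ M, IsMat G M → IsMat G (R M)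
  mx : ∀ M, IsMat G M → Mxl G (mt M) → Mxl G (mt (R M))
  sp : ∀ M, IsMat G M → ¬ Mxl G (mt M) → ∃ f, Sp G (mt M) (mt (R M)) f ∧
    ∀ ν k, Sp G (mt M) ν k → (T + 2) * k ≤ 2 * n * (lam G (mt M) + 2) + 2 * f * (T + 2) ^ 2

/-- The properties of one augmentation along a shortest path. -/
structure ASpec (G : SimpleGraph (Fin n)) (A : SimpleGraph (Fin n) → SimpleGraph (Fin n)) : Prop where
  mat : ∀ M, IsMat G M → IsMat G (A M)
  mx : ∀ M, IsMat G M → Mxl G (mt M) → Mxl G (mt (A M))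
  sp : ∀ M, IsMat G M → ¬ Mxl G (mt M) → Sp G (mt M) (mt (A M)) 1

/-- Job PTC. `pot` for `X = {M // IsMat G M}`, `O M = A^[a^3 + 1] (R M)`, `Mx M = Mxl G (mt M)`, `k M` = number of edges of a maximum matching minus the number of edges of `M` (`cv_mt`, `mxl_of_cv`; take `Mmax` with `IsMaxMat`), `L M = lam G (mt M)`, `p M = pk G (mt M)`,
`T` (of `pot`) `= a^3 + 1` and the parameters of `arith_N`. If `O M` is not maximum then none of the intermediate matchings is; `lam` does not decrease in any of the steps (`sp_lam`), and if it is the same at the end then it is always the same, and the `Sp` compose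
(`sp_trans`): `Sp G (mt M) (mt (O M)) (f + (a^3 + 1))`, so `h3` by `sp_pk`, `h1`; `h4` by `pk_spec`, `arith_f`; `h5` by `k_bound`, `arith_K`. -/
theorem iter_main {a : ℕ} (ha : 1 ≤ a) (hn : n ≤ (a + 1) ^ 9) {R A : SimpleGraph (Fin n) → SimpleGraph (Fin n)} (hR : RSpec G (a ^ 3) R) (hA : ASpec G A)
    {M : SimpleGraph (Fin n)} (hM : IsMat G M) {N : ℕ} (hN : 20000 * (a ^ 5 + 1) ≤ N) :
    IsMaxMat G ((fun M => A^[a ^ 3 + 1] (R M))^[N] M) := by
  classical
  -- a maximum matching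
  obtain ⟨Mm, hMm, hmax⟩ := Set.exists_max_image {M : SimpleGraph (Fin n) | IsMat G M}
    (fun M => M.edgeSet.ncard) (Set.toFinite _) ⟨M, hM⟩
  have hMm' : IsMat G Mm := hMm
  have hmax' : ∀ M, IsMat G M → M.edgeSet.ncard ≤ Mm.edgeSet.ncard := hmax
  have hcm := cv_mt hMm'
  have hmm := (mt_mate hMm').1
  have hmatI : ∀ i M, IsMat G M → IsMat G (A^[i] M) := by
    intro i
    induction i with
    | zero => intro M h; exact h
    | succ i ih =>
      intro M h
      rw [Function.iterate_succ_apply']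
      exact hA.mat _ (ih M h)
  have hmxI : ∀ i M, IsMat G M → Mxl G (mt M) → Mxl G (mt (A^[i] M)) := by
    intro i
    induction i with
    | zero => intro M _ h; exact h
    | succ i ih =>
      intro M h h'
      rw [Function.iterate_succ_apply']
      exact hA.mx _ (hmatI i M h) (ih M h h')
  -- the map on the matchings
  let O : {M : SimpleGraph (Fin n) // IsMat G M} → {M : SimpleGraph (Fin n) // IsMat G M} :=
    fun M => ⟨A^[a ^ 3 + 1] (R M.1), hmatI _ _ (hR.mat _ M.2)⟩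
  -- the analysis of one round
  have hround : ∀ M : {M : SimpleGraph (Fin n) // IsMat G M}, ¬ Mxl G (mt (O M).1) → ¬ Mxl G (mt M.1) ∧
      lam G (mt M.1) ≤ lam G (mt (O M).1) ∧
      ∃ f, (∀ ν k, Sp G (mt M.1) ν k →
          (a ^ 3 + 2) * k ≤ 2 * n * (lam G (mt M.1) + 2) + 2 * f * (a ^ 3 + 2) ^ 2) ∧
        cv (mt (O M).1) = cv (mt M.1) + 2 * (f + (a ^ 3 + 1)) ∧
        (lam G (mt (O M).1) = lam G (mt M.1) → Sp G (mt M.1) (mt (O M).1) (f + (a ^ 3 + 1))) := by
    intro M hO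
    have hRM := hR.mat _ M.2
    have hnR : ¬ Mxl G (mt (R M.1)) := fun h => hO (hmxI (a ^ 3 + 1) _ hRM h)
    have hnM : ¬ Mxl G (mt M.1) := fun h => hnR (hR.mx _ M.2 h)
    obtain ⟨f, hf, hf'⟩ := hR.sp _ M.2 hnM
    have hmate := (mt_mate M.2).1
    have hnI : ∀ i, i ≤ a ^ 3 + 1 → ¬ Mxl G (mt (A^[i] (R M.1))) := by
      intro i hi h
      apply hO
      show Mxl G (mt (A^[a ^ 3 + 1] (R M.1)))
      have e : a ^ 3 + 1 = (a ^ 3 + 1 - i) + i := by omega
      rw [e, Function.iterate_add_apply]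
      exact hmxI _ _ (hmatI i _ hRM) h
    have hlam : ∀ i, i ≤ a ^ 3 + 1 → lam G (mt M.1) ≤ lam G (mt (A^[i] (R M.1))) ∧
        cv (mt (A^[i] (R M.1))) = cv (mt M.1) + 2 * (f + i) ∧
        (lam G (mt (A^[i] (R M.1))) = lam G (mt M.1) → Sp G (mt M.1) (mt (A^[i] (R M.1))) (f + i)) := by
      intro i
      induction i with
      | zero =>
        intro _
        refine ⟨sp_lam hmate hf hnR, ?_, fun _ => hf⟩
        exact hf.2.1
      | succ i ih =>
        intro hi
        obtain ⟨l1, l2, l3⟩ := ih (by omega)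
        have hMi := hmatI i _ hRM
        have hs := hA.sp _ hMi (hnI i (by omega))
        have hsl := sp_lam (mt_mate hMi).1 hs (by
          have h := hnI (i + 1) hi
          rw [Function.iterate_succ_apply'] at h
          exact h)
        rw [Function.iterate_succ_apply']
        refine ⟨l1.trans hsl, ?_, ?_⟩
        · rw [hs.2.1, l2]
          ring
        · intro he
          have he' : lam G (mt (A^[i] (R M.1))) = lam G (mt M.1) := le_antisymm (hsl.trans he.le) l1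
          have h6 := sp_trans (l3 he') hs he'
          rw [add_assoc] at h6
          exact h6
    obtain ⟨l1, l2, l3⟩ := hlam (a ^ 3 + 1) le_rfl
    exact ⟨hnM, l1, f, hf', l2, l3⟩
  have hcvle : ∀ M : {M : SimpleGraph (Fin n) // IsMat G M}, M.1.edgeSet.ncard ≤ Mm.edgeSet.ncard :=
    fun M => hmax' _ M.2
  have hmain := pot O (fun M => Mxl G (mt M.1)) (fun M => Mm.edgeSet.ncard - M.1.edgeSet.ncard)
    (fun M => lam G (mt M.1)) (fun M => pk G (mt M.1)) a (6144 * a ^ 7) (512 * a ^ 4) (256 * a ^ 8) (a ^ 3 + 1) N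
    (fun M h => hmxI _ _ (hR.mat _ M.2) (hR.mx _ M.2 h))
    (fun M h => by
      obtain ⟨-, -, f, -, h2, -⟩ := hround M h
      rw [cv_mt (O M).2, cv_mt M.2] at h2
      have h3 := hcvle (O M)
      show Mm.edgeSet.ncard - (O M).1.edgeSet.ncard + (a ^ 3 + 1) ≤ Mm.edgeSet.ncard - M.1.edgeSet.ncard
      omega)
    (fun M h => (hround M h).2.1)
    (fun M h he => by
      obtain ⟨-, -, f, -, -, h3⟩ := hround M h
      have h4 := sp_pk (h3 he) (mt_mate (O M).2).1 he
      show pk G (mt (O M).1) + (a ^ 3 + 1) ≤ pk G (mt M.1)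
      omega)
    (fun M h hL hp => by
      obtain ⟨-, -, f, h1, h2, -⟩ := hround M h
      obtain ⟨ν, hν⟩ := pk_spec (G := G) (mt_mate M.2).1
      have h4 := arith_f ha hn hL hp (h1 ν _ hν)
      rw [cv_mt (O M).2, cv_mt M.2] at h2
      have h3 := hcvle (O M)
      show Mm.edgeSet.ncard - (O M).1.edgeSet.ncard + 512 * a ^ 4 ≤ Mm.edgeSet.ncard - M.1.edgeSet.ncard
      omega)
    (fun M _ hL => by
      show Mm.edgeSet.ncard - M.1.edgeSet.ncard ≤ 256 * a ^ 8
      have h3 := hcvle M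
      refine arith_K ha hn hL (k_bound (mt_mate M.2).1 hmm ?_)
      rw [hcm, cv_mt M.2]
      omega)
    (by
      have : 0 < a ^ 4 := by positivity
      omega)
    (by omega) ⟨M, hM⟩
    (by
      have hk : Mm.edgeSet.ncard - M.edgeSet.ncard ≤ n := by
        have h1 : cv (mt Mm) ≤ n := by
          unfold cv
          exact (Finset.card_le_univ _).trans (by simp)
        omega
      refine (arith_N ha hn hk).trans ?_
      exact Nat.mul_le_mul_right _ hN)
  have hsemi : ∀ j, ((O^[j] ⟨M, hM⟩ : {M : SimpleGraph (Fin n) // IsMat G M}) : SimpleGraph (Fin n)) =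
      (fun M => A^[a ^ 3 + 1] (R M))^[j] M := by
    intro j
    induction j with
    | zero => rfl
    | succ j ih =>
      rw [Function.iterate_succ_apply', Function.iterate_succ_apply', ← ih]
  rw [← hsemi]
  exact (isMaxMat_iff_mxl (O^[N] ⟨M, hM⟩).2).2 hmain

end Pool.Agent.SUB
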