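import Pool.Agent.Lib.MP_0087d5_lc.SUB.KStat
import Pool.Agent.Lib.MP_0087d5_lc.SUB.Pot

/-!
# Augmentation along a shortest path

Jobs SGA (`dir_lam`, `datS_*`), SGB (`aug_graph2`, `direct_graph2`), SGC (`sAug_spec`).
-/

namespace Pool.Agent.SUB

open Relation Finset Pool.Agent.AUG Pool.Agent.UPM

variable {n : ℕ} {G M : SimpleGraph (Fin n)} {m : Fin n → Fin n} {a b z x s t : Fin n} {k : ℕ} {L : List (Fin n)}

/-- Job SGA. -/
theorem dir_lam (h : dirK n (G, M) a b) : ¬ Mxl G (mt M) ∧ lam G (mt M) = 0 := by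
  obtain ⟨h1, h2, h3⟩ := h
  have hAP : AP G (mt M) {a, b} 0 := ⟨a, b, h3.ne, h1, h2, Or.inl ⟨rfl, h3, rfl⟩⟩
  exact ⟨fun hM => hM _ _ hAP, Nat.le_zero.1 (lam_le hAP)⟩

/-- Job SGA, auxiliary. The data of an augmenting path which is not an edge. -/
theorem sga_data (h : IsMat G M) (hd : ¬ ∃ a b, dirK n (G, M) a b) {S : Finset (Fin n)} {k : ℕ} (hS : AP G (mt M) S k) :
    ∃ a b z x j, datK n (G, M) a b z x ∧ DK n (G, M) z x j ∧ (j : ℕ) + 1 ≤ k := by
  obtain ⟨s, t, hst, hs, ht, ⟨-, hadj, -⟩ | ⟨z, x, L, d, rfl, h4, h5, hL, h7, -⟩⟩ := hS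
  · exact absurd ⟨s, t, hs, ht, hadj⟩ hd
  · have hlt : dd (mt M) (EE G (mt M)) z x < ZZ (Fin n) := dd_lt_of_walk hL
    have hr := (reachK_iff (G, M) h z x).2 hlt
    obtain ⟨j, hj⟩ := hr
    have hj' : DK n (G, M) z x j := hj
    refine ⟨s, t, z, x, j, ⟨hst, hs, ht, h4, h5, ⟨j, hj⟩, h7⟩, hj', ?_⟩
    have h8 := (DK_iff h).1 hj'
    have h9 := dd_le_of_walk hL
    omega

/-- Job SGA. The data of a shortest augmenting path if there is no edge between exposed vertices. (`datS`, `datK`, `reachK_iff`, `DK_iff`, `dd_walk`; the least `k` of an augmenting path is `dd z x + 1` for the data with the least distance.) -/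
theorem datS_lam (h : IsMat G M) (hd : ¬ ∃ a b, dirK n (G, M) a b) (hs : datS n (G, M) a b z x) :
    ¬ Mxl G (mt M) ∧ lam G (mt M) = dd (mt M) (EE G (mt M)) z x + 1 ∧ dd (mt M) (EE G (mt M)) z x < ZZ (Fin n) := by
  obtain ⟨hdat, j, hj, hmin⟩ := hs
  have hd' : dd (mt M) (EE G (mt M)) z x = j := (DK_iff h).1 hj
  obtain ⟨h1, h2, h3, h4, h5, h6, h7⟩ := hdat
  have hlt := (reachK_iff (G, M) h z x).1 h6
  obtain ⟨L, hL⟩ := dd_walk hlt
  have hAP : AP G (mt M) ({a, b} ∪ (x :: L).toFinset ∪ ((x :: L).map (mt M)).toFinset)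
      (dd (mt M) (EE G (mt M)) z x + 1) :=
    ⟨a, b, h1, h2, h3, Or.inr ⟨z, x, L, _, rfl, h4, h5, hL, h7, rfl⟩⟩
  have hn : ¬ Mxl G (mt M) := fun hM => hM _ _ hAP
  refine ⟨hn, le_antisymm (lam_le hAP) ?_, hlt⟩
  obtain ⟨S, hS⟩ := lam_mem hn
  obtain ⟨s', t', z', x', j', hdat', hj', hle⟩ := sga_data h hd hS
  have h8 := hmin _ _ _ _ _ hdat' hj'
  have h9 : (j : ℕ) ≤ j' := h8
  rw [hd']
  omega

/-- Job SGA. -/
theorem datS_exists (h : IsMat G M) (hd : ¬ ∃ a b, dirK n (G, M) a b) (hn : ¬ Mxl G (mt M)) : ∃ a b z x, datS n (G, M) a b z x := by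
  classical
  have hex : ∃ j : ℕ, ∃ a b z x, ∃ i : Fin n, datK n (G, M) a b z x ∧ DK n (G, M) z x i ∧ (i : ℕ) = j := by
    obtain ⟨S, hS⟩ := lam_mem hn
    obtain ⟨a, b, z, x, j, h1, h2, -⟩ := sga_data h hd hS
    exact ⟨j, a, b, z, x, j, h1, h2, rfl⟩
  obtain ⟨a, b, z, x, i, h1, h2, h3⟩ := Nat.find_spec hex
  refine ⟨a, b, z, x, h1, i, h2, fun a' b' z' x' j' h4 h5 => ?_⟩
  have h6 := Nat.find_min' hex ⟨a', b', z', x', j', h4, h5, rfl⟩
  rw [Fin.le_def, h3]
  exact h6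

/-- Job SGB, auxiliary. The map of a graph at `w` depends on the neighbours of `w` only. -/
theorem sgb_congr {N M : SimpleGraph (Fin n)} {w : Fin n} (h : ∀ q, N.Adj w q ↔ M.Adj w q) : mt N w = mt M w := by
  rw [mt_iff]
  have h1 := (mt_iff (M := M) (x := w) (y := mt M w)).1 rfl
  simpa only [h] using h1

/-- Job SGB, auxiliary. -/
theorem sgb_mt (hM : IsMat G M) (hMm : IsMateOf M m) {w : Fin n} : mt M w = m w := by
  rcases (mt_iff (M := M) (x := w) (y := mt M w)).1 rfl with ⟨h1, -⟩ | ⟨h1, h2⟩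
  · exact ((hMm _ _).1 h1).1.symm
  · rw [h1]
    by_contra h3
    exact h2 (m w) ((hMm w (m w)).2 ⟨rfl, h3⟩)

/-- Job SGB. In addition to `aug_graph`: the mates outside of the path are not changed. (For `w` outside of the set, `newE … w q` and `newE … q w` only hold in the first case, and then `M.Adj w q`; if `M.Adj w q` then `q = m w` is not on the walk. So the new graph and `M` have the same neighbours at `w`; `mt_iff`.) -/
theorem aug_graph2 (hM : IsMat G M) (hm : Mate G m) (hMm : IsMateOf M m) (hst : s ≠ t) (hs : m s = s) (ht : m t = t) (hz : m z ≠ z) (hsz : G.Adj s (m z))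
    (hxt : G.Adj x t) (hW : WW m (one (EE G m)) z (x :: L) k) {On : Fin n → Prop} {Nx : Fin n → Fin n → Prop} (hOn : ∀ v, On v ↔ v ∈ x :: L)
    (hNx : ∀ a b, Nx a b ↔ ∃ A B, x :: L = A ++ b :: a :: B) {w : Fin n}
    (hw : w ∉ ({s, t} ∪ (x :: L).toFinset ∪ ((x :: L).map m).toFinset : Finset (Fin n))) :
    mt (SimpleGraph.fromRel (newE M m On Nx s t z x)) w = m w := by
  have hw' := hw
  simp only [Finset.mem_union, Finset.mem_insert, Finset.mem_singleton, List.mem_toFinset, not_or] at hw'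
  obtain ⟨⟨⟨w1, w2⟩, w3⟩, w4⟩ := hw'
  rw [sgb_congr (M := M) (fun q => ?_), sgb_mt hM hMm]
  rw [SimpleGraph.fromRel_adj]
  constructor
  · rintro ⟨-, (⟨e1, -⟩ | ⟨e1, -⟩ | ⟨e1, -⟩ | ⟨b, e1, -⟩) | (⟨e1, -⟩ | ⟨-, e1⟩ | ⟨-, e1⟩ | ⟨b, e1, e2⟩)⟩
    · exact e1
    · exact absurd e1 w1
    · exact absurd (by rw [e1]; exact List.mem_cons_self) w3
    · obtain ⟨A, B, hAB⟩ := (hNx w b).1 e1
      exact absurd (by rw [hAB]; simp) w3
    · exact e1.symm
    · exact absurd (by rw [e1]; exact List.mem_map_of_mem hW.start_mem) w4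
    · exact absurd e1 w2
    · obtain ⟨A, B, hAB⟩ := (hNx q b).1 e1
      refine absurd ?_ w4
      rw [e2]
      exact List.mem_map_of_mem (by rw [hAB]; simp)
  · intro e1
    refine ⟨e1.ne, Or.inl (Or.inl ⟨e1, ?_, ?_⟩)⟩
    · rw [hOn]
      exact w3
    · rw [hOn]
      intro e2
      refine w4 ?_
      have e3 := ((hMm w q).1 e1).1
      have e4 : w = m q := by rw [← e3, hm.invol]
      rw [e4]
      exact List.mem_map_of_mem e2

/-- Job SGB. -/
theorem direct_graph2 (hM : IsMat G M) (hm : Mate G m) (hMm : IsMateOf M m) (hs : m s = s) (ht : m t = t) (hst : G.Adj s t) {w : Fin n} (h1 : w ≠ s) (h2 : w ≠ t) :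
    mt (SimpleGraph.fromRel (fun p q => M.Adj p q ∨ (p = s ∧ q = t))) w = m w := by
  rw [sgb_congr (M := M) (fun q => ?_), sgb_mt hM hMm]
  rw [SimpleGraph.fromRel_adj]
  constructor
  · rintro ⟨-, (e1 | ⟨e1, -⟩) | (e1 | ⟨-, e1⟩)⟩
    · exact e1
    · exact absurd e1 h1
    · exact e1.symm
    · exact absurd e1 h2
  · intro e1
    exact ⟨e1.ne, Or.inl (Or.inl e1)⟩

private theorem sgc_least1 {P : Fin n → Prop} (h : ∃ a, P a) : ∃ a, P a ∧ ∀ a', P a' → a ≤ a' := by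
  classical
  obtain ⟨a, ha⟩ := h
  have hne : (Finset.univ.filter P).Nonempty := ⟨a, by simpa using ha⟩
  refine ⟨(Finset.univ.filter P).min' hne, ?_, ?_⟩
  · have := Finset.min'_mem _ hne
    simpa using this
  · intro a' ha'
    exact Finset.min'_le _ _ (by simpa using ha')

private theorem sgc_least2 {P : Fin n → Fin n → Prop} (h : ∃ a b, P a b) :
    ∃ a b, P a b ∧ ∀ a' b', P a' b' → a < a' ∨ (a = a' ∧ b ≤ b') := by
  obtain ⟨a, ha, hmin⟩ := sgc_least1 h
  obtain ⟨b, hb, hmin'⟩ := sgc_least1 ha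
  refine ⟨a, b, hb, fun a' b' h' => ?_⟩
  rcases lt_or_eq_of_le (hmin a' ⟨b', h'⟩) with hlt | heq
  · exact Or.inl hlt
  · subst heq
    exact Or.inr ⟨rfl, hmin' b' h'⟩

private theorem sgc_least4 {P : Fin n → Fin n → Fin n → Fin n → Prop} (h : ∃ a b z x, P a b z x) :
    ∃ a b z x, P a b z x ∧ ∀ a' b' z' x', P a' b' z' x' →
      a < a' ∨ (a = a' ∧ (b < b' ∨ (b = b' ∧ (z < z' ∨ (z = z' ∧ x ≤ x'))))) := by
  obtain ⟨a, b, hab, hmin⟩ := sgc_least2 (P := fun a b => ∃ z x, P a b z x) h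
  obtain ⟨z, x, hzx, hmin'⟩ := sgc_least2 hab
  refine ⟨a, b, z, x, hzx, fun a' b' z' x' h' => ?_⟩
  rcases hmin a' b' ⟨z', x', h'⟩ with hlt | ⟨heq, hle⟩
  · exact Or.inl hlt
  · subst heq
    refine Or.inr ⟨rfl, ?_⟩
    rcases lt_or_eq_of_le hle with hlt | heq
    · exact Or.inl hlt
    · subst heq
      exact Or.inr ⟨rfl, hmin' z' x' h'⟩

private theorem sgc_uniq2 {a b a' b' : Fin n} (h : a < a' ∨ (a = a' ∧ b ≤ b')) (h' : a' < a ∨ (a' = a ∧ b' ≤ b)) :
    a' = a ∧ b' = b := by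
  rcases h with h | ⟨h1, h2⟩
  · rcases h' with h' | ⟨h1', h2'⟩
    · exact absurd h' (lt_asymm h)
    · exact absurd h1' h.ne'
  · rcases h' with h' | ⟨h1', h2'⟩
    · exact absurd h1 h'.ne'
    · exact ⟨h1', le_antisymm h2' h2⟩

private theorem sgc_uniq4 {a b z x a' b' z' x' : Fin n}
    (h : a < a' ∨ (a = a' ∧ (b < b' ∨ (b = b' ∧ (z < z' ∨ (z = z' ∧ x ≤ x'))))))
    (h' : a' < a ∨ (a' = a ∧ (b' < b ∨ (b' = b ∧ (z' < z ∨ (z' = z ∧ x' ≤ x)))))) :
    a' = a ∧ b' = b ∧ z' = z ∧ x' = x := by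
  rcases h with h | ⟨h1, h2⟩
  · rcases h' with h' | ⟨h1', h2'⟩
    · exact absurd h' (lt_asymm h)
    · exact absurd h1' h.ne'
  · rcases h' with h' | ⟨h1', h2'⟩
    · exact absurd h1 h'.ne'
    · refine ⟨h1', ?_⟩
      rcases h2 with h2 | ⟨h3, h4⟩
      · rcases h2' with h2' | ⟨h3', h4'⟩
        · exact absurd h2' (lt_asymm h2)
        · exact absurd h3' h2.ne'
      · rcases h2' with h2' | ⟨h3', h4'⟩
        · exact absurd h3 h2'.ne'
        · exact ⟨h3', sgc_uniq2 h4 h4'⟩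

private theorem sgc_df {m ν : Fin n → Fin n} (S : Finset (Fin n)) (h : ∀ w, w ∉ S → ν w = m w) : df m ν ≤ S.card := by
  unfold df
  apply Finset.card_le_card
  intro w hw
  rw [Finset.mem_filter] at hw
  by_contra hwS
  exact hw.2 (h w hwS).symm

private theorem sgc_core (h : IsMat G M) :
    IsMat G (sAug n G M) ∧ ((Mxl G (mt M) ∧ sAug n G M = M) ∨
      (¬ Mxl G (mt M) ∧ (sAug n G M).edgeSet.ncard = M.edgeSet.ncard + 1 ∧
        df (mt M) (mt (sAug n G M)) ≤ 2 * lam G (mt M) + 2)) := by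
  obtain ⟨hm, hMm⟩ := mt_mate h
  have hMM : MM (mt M) (EE G (mt M)) := hm.mm
  have hK : ∀ u x k : Fin n, DK n (G, M) u x k ↔ dd (mt M) (EE G (mt M)) u x = k :=
    fun u x k => distK_iff (qs n (G, M)) hMM u x k
  have hchd : chdK (mt M) (EE G (mt M)) (DK n (G, M)) = chd (mt M) (EE G (mt M)) := by
    funext a b
    exact propext (chdK_iff hK a b)
  by_cases hd : ∃ a b, dirK n (G, M) a b
  · obtain ⟨a, b, hab, hmin⟩ := sgc_least2 hd
    have hE : sstepE n (G, M) = fun p q => M.Adj p q ∨ (p = a ∧ q = b) := by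
      funext p q
      refine propext ⟨?_, fun hpq => Or.inr (Or.inl ⟨h, a, b, hab, hmin, hpq⟩)⟩
      rintro (h1 | ⟨-, a', b', h1, h2, h3⟩ | ⟨-, h1, -⟩ | ⟨-, h1, -⟩)
      · exact absurd h h1.1
      · obtain ⟨rfl, rfl⟩ := sgc_uniq2 (hmin a' b' h1) (h2 a b hab)
        exact h3
      · exact absurd hd h1
      · exact absurd hd h1
    have hG : sAug n G M = SimpleGraph.fromRel (fun p q => M.Adj p q ∨ (p = a ∧ q = b)) := by
      unfold sAug
      rw [hE]
    rw [hG]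
    have h1 := direct_graph h hm hMm hab.1 hab.2.1 hab.2.2
    obtain ⟨h2, h3⟩ := dir_lam hab
    refine ⟨h1.1, Or.inr ⟨h2, h1.2, ?_⟩⟩
    rw [h3]
    refine (sgc_df {a, b} fun w hw => ?_).trans Finset.card_le_two
    rw [Finset.mem_insert, Finset.mem_singleton, not_or] at hw
    exact direct_graph2 h hm hMm hab.1 hab.2.1 hab.2.2 hw.1 hw.2
  · by_cases hdat : ∃ a b z x, datS n (G, M) a b z x
    · obtain ⟨a, b, z, x, hab, hmin⟩ := sgc_least4 hdat
      have hE : sstepE n (G, M) = newE M (mt M) (OnK n (G, M) z x) (NxK n (G, M) z x) a b z x := by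
        funext p q
        refine propext ⟨?_, fun hpq => Or.inr (Or.inr (Or.inl ⟨h, hd, a, b, z, x, hab, hmin, hpq⟩))⟩
        rintro (h1 | ⟨-, a', b', h1, -⟩ | ⟨-, -, a', b', z', x', h1, h2, h3⟩ | ⟨-, -, h1, -⟩)
        · exact absurd h h1.1
        · exact absurd ⟨a', b', h1⟩ hd
        · obtain ⟨rfl, rfl, rfl, rfl⟩ := sgc_uniq4 (hmin a' b' z' x' h1) (h2 a b z x hab)
          exact h3
        · exact absurd hdat h1
      have hG : sAug n G M = SimpleGraph.fromRel (newE M (mt M) (OnK n (G, M) z x) (NxK n (G, M) z x) a b z x) := by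
        unfold sAug
        rw [hE]
      rw [hG]
      obtain ⟨g1, g2, -⟩ := datS_lam h hd hab
      obtain ⟨h1, h2, h3, h4, h5, h6, h7⟩ := hab.1
      have hr := (reachK_iff (G, M) h z x).1 h6
      obtain ⟨L, hL, hon, hnx⟩ := extract hMM h4 hr
      have hOn : ∀ v, OnK n (G, M) z x v ↔ v ∈ x :: L := by
        intro v
        rw [hon v]
        show ReflTransGen (chdK (mt M) (EE G (mt M)) (DK n (G, M))) (z, x) (v, v) ↔ _
        rw [hchd]
      have hNx : ∀ p q, NxK n (G, M) z x p q ↔ ∃ A B, x :: L = A ++ q :: p :: B := by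
        intro p q
        rw [hnx p q]
        show (∃ u' x', ReflTransGen (chdK (mt M) (EE G (mt M)) (DK n (G, M))) (z, x) (u', x') ∧
          chsK (mt M) (EE G (mt M)) (DK n (G, M)) u' x' p q) ↔ _
        rw [hchd]
        exact exists_congr fun u' => exists_congr fun x' => and_congr_right fun _ => chsK_iff hK
      have h8 := aug_graph h hm hMm h1 h2 h3 h4 h5 h7 hL hOn hNx
      have h9 : AP G (mt M) ({a, b} ∪ (x :: L).toFinset ∪ ((x :: L).map (mt M)).toFinset)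
          (dd (mt M) (EE G (mt M)) z x + 1) :=
        ⟨a, b, h1, h2, h3, Or.inr ⟨z, x, L, _, rfl, h4, h5, hL, h7, rfl⟩⟩
      refine ⟨h8.1, Or.inr ⟨g1, h8.2, ?_⟩⟩
      rw [g2, ← ap_card hm h9]
      exact sgc_df _ fun w hw => aug_graph2 h hm hMm h1 h2 h3 h4 h5 h7 hL hOn hNx hw
    · have hE : sstepE n (G, M) = M.Adj := by
        funext p q
        refine propext ⟨?_, fun hpq => Or.inr (Or.inr (Or.inr ⟨h, hd, hdat, hpq⟩))⟩
        rintro (h1 | ⟨-, a', b', h1, -⟩ | ⟨-, -, a', b', z', x', h1, -⟩ | ⟨-, -, -, h1⟩)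
        · exact absurd h h1.1
        · exact absurd ⟨a', b', h1⟩ hd
        · exact absurd ⟨a', b', z', x', h1⟩ hdat
        · exact h1
      have hG : sAug n G M = M := by
        unfold sAug
        rw [hE]
        ext p q
        rw [SimpleGraph.fromRel_adj]
        constructor
        · rintro ⟨-, h1 | h1⟩
          · exact h1
          · exact h1.symm
        · intro h1
          exact ⟨h1.ne, Or.inl h1⟩
      rw [hG]
      refine ⟨h, Or.inl ⟨?_, rfl⟩⟩
      by_contra hn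
      exact hdat (datS_exists h hd hn)

/-- Job SGC. As `augG_spec`. The three cases: an edge between exposed vertices (`direct_graph`, `direct_graph2`, `dir_lam`; `df ≤ 2`); the least data of a shortest augmenting path (`datS_lam`, `extract`, `aug_graph`, `aug_graph2`; `df ≤ 2 (d + 1) + 2` by `ap_card`, the set of the path);
otherwise the matching is maximum (`datS_exists`) and not changed. `cv` by `cv_mt`. -/
theorem sAug_spec : ASpec G (sAug n G) := by
  refine ⟨fun M hM => (sgc_core hM).1, fun M hM hx => ?_, fun M hM hx => ?_⟩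
  · rcases (sgc_core hM).2 with ⟨-, h1⟩ | ⟨h1, -⟩
    · rw [h1]
      exact hx
    · exact absurd hx h1
  · obtain ⟨h0, h1⟩ := sgc_core hM
    rcases h1 with ⟨h1, -⟩ | ⟨-, h2, h3⟩
    · exact absurd h1 hx
    · refine ⟨(mt_mate h0).1, ?_, ?_⟩
      · rw [cv_mt h0, cv_mt hM, h2]
        ring
      · rw [one_mul]
        exact h3

/-- A maximum matching is not changed. -/
theorem sAug_fix (h : IsMat G M) (hm : Mxl G (mt M)) : sAug n G M = M := by
  rcases (sgc_core h).2 with h1 | h1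
  · exact h1.2
  · exact absurd hm h1.1

end Pool.Agent.SUB
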