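import Pool.Agent.Lib.MP_0087d5_lc.SUB.AP

/-!
# The extended graph

Jobs VSA (`vs_mm` … `vs_struct`), VSB (`vs_build…`), VSC (`vs_ap1`, `vs_ap2`), VSD (levels).
-/

namespace Pool.Agent.SUB

open Relation Finset Pool.Agent.AUG

variable {n : ℕ} {G : SimpleGraph (Fin n)} {m : Fin n → Fin n} {S : Finset (Fin n)} {k l d : ℕ} {x z s t : Fin n} {L : List (Fin n)} {W : List (VS n)}

theorem ms_vv_exp (h : m x = x) : ms m (vv x) = vc x := if_pos h
theorem ms_vv_cov (h : m x ≠ x) : ms m (vv x) = vv (m x) := if_neg h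
theorem ms_vc_exp (h : m x = x) : ms m (vc x) = vv x := if_pos h
theorem ms_vc_cov (h : m x ≠ x) : ms m (vc x) = vc x := if_neg h
theorem ms_rr : ms m rr = Sum.inr false := rfl

private theorem vsa_invol (hm : Mate G m) (x : VS n) : ms m (ms m x) = x := by
  rcases x with (x | x) | b
  · by_cases h : m x = x
    · have e : ms m (vv x) = vc x := ms_vv_exp h
      show ms m (ms m (vv x)) = vv x
      rw [e, ms_vc_exp h]
    · have e : ms m (vv x) = vv (m x) := ms_vv_cov h
      have h' : m (m x) ≠ m x := by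
        rw [hm.invol]
        exact fun h'' => h h''.symm
      show ms m (ms m (vv x)) = vv x
      rw [e, ms_vv_cov h', hm.invol]
  · by_cases h : m x = x
    · have e : ms m (vc x) = vv x := ms_vc_exp h
      show ms m (ms m (vc x)) = vc x
      rw [e, ms_vv_exp h]
    · have e : ms m (vc x) = vc x := ms_vc_cov h
      show ms m (ms m (vc x)) = vc x
      rw [e, e]
  · show (Sum.inr (!!b) : VS n) = Sum.inr b
    rw [Bool.not_not]

/-- Job VSA. -/
theorem vs_mm (hm : Mate G m) : MM (ms m) (Es G m) := by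
  refine ⟨vsa_invol hm, ?_, ?_, ?_⟩
  · rintro ((x | x) | (_ | _)) ((y | y) | (_ | _)) h
    · exact ⟨h.1.symm, fun h' => h.2 (by rw [← h', hm.invol])⟩
    all_goals exact h
  · rintro ((x | x) | (_ | _)) h
    · exact h.1.ne rfl
    all_goals exact h
  · rintro ((x | x) | (_ | _)) ((y | y) | (_ | _)) h h'
    · by_cases hx : m x = x
      · have e : ms m (vv x) = vc x := ms_vv_exp hx
        have h'' : ms m (vv x) = vv x := h'
        rw [e] at h''
        simp at h''
      · have e : ms m (vv x) = vv (m x) := ms_vv_cov hx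
        have h'' : ms m (vv x) = vv x := h'
        rw [e] at h''
        simp only [Sum.inl.injEq] at h''
        exact hx h''
    all_goals first
      | exact h.elim
      | (have hx : m x = x := h
         have e : ms m (vc x) = vv x := ms_vc_exp hx
         have h'' : ms m (vc x) = vc x := h'
         rw [e] at h''
         simp at h'')
      | (have h'' : (Sum.inr false : VS n) = Sum.inr true := h'
         simp at h'')

/-- Job VSA. -/
theorem ms_root : ms m (rr : VS n) ≠ rr := by
  intro h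
  have h'' : (Sum.inr false : VS n) = Sum.inr true := h
  simp at h''

private theorem vsa_cov (hz : m z ≠ z) (h : WW m (one (EE G m)) z L d) : ∀ x ∈ L, m x ≠ x := by
  induction h with
  | nil =>
    intro x hx
    rw [List.mem_singleton] at hx
    rw [hx]
    exact hz
  | @cons x y L s k _ hk _ _ ih =>
    intro w hw
    rcases List.mem_cons.1 hw with rfl | hw
    · intro h
      exact hk.1.2.2.2 (by rw [h, h])
    · exact ih w hw

/-- edges to a vertex `vv x` -/
private theorem vsa_edge {y : VS n} (hm : Mate G m) (h : Es G m (vv x) (ms m y)) :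
    ∃ w, ms m y = vv w ∧ G.Adj x w ∧ m x ≠ w ∧ ((m w = w ∧ y = vc w) ∨ (m w ≠ w ∧ y = vv (m w))) := by
  have hinv := vsa_invol (m := m) hm y
  generalize hv : ms m y = v at h hinv
  rcases v with (w | w) | (_ | _)
  · refine ⟨w, rfl, h.1, h.2, ?_⟩
    by_cases hw : m w = w
    · left
      refine ⟨hw, ?_⟩
      rw [← hinv]
      exact ms_vv_exp hw
    · right
      refine ⟨hw, ?_⟩
      rw [← hinv]
      exact ms_vv_cov hw
  all_goals exact h.elim

/-- Job VSA. The structure of the regular walks from the root (lists in reversed order). Induction on the walk. Arcs `a → b` (`Es G m a (ms m b)`):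
from `rr`: `b = vv s` with `s` exposed. From `vv s`, `s` exposed: to `vv z` with `m z ≠ z`, `G.Adj s (m z)`, or to `vc t` with `t` exposed, `G.Adj s t`. From `vv x`, `x` covered: to `vv y` with `EE G m x (m y)`, or to `vc t` with `t` exposed and `G.Adj x t`
(`t ≠ s` since `ms m (vc t) = vv t` may not be on the walk). From `vc t`: only to the mate of `rr`, which is excluded by regularity. -/
theorem vs_struct (hm : Mate G m) (h : WW (ms m) (one (Es G m)) rr W l) :
    (W = [rr] ∧ l = 0) ∨ ∃ s, m s = s ∧ (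
      (W = [vv s, rr] ∧ l = 1) ∨
      (∃ z x L d, m z ≠ z ∧ G.Adj s (m z) ∧ WW m (one (EE G m)) z (x :: L) d ∧ W = (x :: L).map vv ++ [vv s, rr] ∧ l = d + 2) ∨
      (∃ t, m t = t ∧ t ≠ s ∧ G.Adj s t ∧ W = [vc t, vv s, rr] ∧ l = 2) ∨
      (∃ t z x L d, m t = t ∧ t ≠ s ∧ m z ≠ z ∧ G.Adj s (m z) ∧ WW m (one (EE G m)) z (x :: L) d ∧ G.Adj x t ∧
        W = vc t :: ((x :: L).map vv ++ [vv s, rr]) ∧ l = d + 3)) := by
  induction h with
  | nil => exact Or.inl ⟨rfl, rfl⟩
  | @cons a y A l' k hW hk hy hmy ih =>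
    right
    obtain ⟨hE, rfl⟩ := hk
    rcases ih with ⟨he, rfl⟩ | ⟨s, hs, h1 | h2 | h3 | h4⟩
    · -- from the root
      rw [List.cons.injEq] at he
      obtain ⟨rfl, rfl⟩ := he
      have hinv := vsa_invol (m := m) hm y
      generalize hv : ms m y = v at hE hinv hmy
      rcases v with (w | w) | (_ | _)
      · exact hE.elim
      · have hw : m w = w := hE
        have e : y = vv w := by
          rw [← hinv]
          exact ms_vc_exp hw
        exact ⟨w, hw, Or.inl ⟨by rw [e], rfl⟩⟩
      · exact hE.elim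
      · exact hE.elim
    · -- from the exposed vertex
      obtain ⟨he, rfl⟩ := h1
      rw [List.cons.injEq] at he
      obtain ⟨rfl, rfl⟩ := he
      obtain ⟨w, hw1, hw2, hw3, ⟨hw4, rfl⟩ | ⟨hw4, rfl⟩⟩ := vsa_edge hm hE
      · refine ⟨s, hs, Or.inr (Or.inr (Or.inl ⟨w, hw4, ?_, hw2, rfl, rfl⟩))⟩
        intro h
        exact hw3 (by rw [hs, h])
      · refine ⟨s, hs, Or.inr (Or.inl ⟨m w, m w, [], 0, ?_, ?_, WW.nil, rfl, rfl⟩)⟩
        · rw [hm.invol]
          exact fun h => hw4 h.symm
        · rw [hm.invol]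
          exact hw2
    · -- from a covered vertex
      obtain ⟨z, x, L, d, hz, hsz, hWW, he, rfl⟩ := h2
      rw [List.map_cons, List.cons_append, List.cons.injEq] at he
      obtain ⟨rfl, rfl⟩ := he
      obtain ⟨w, hw1, hw2, hw3, ⟨hw4, rfl⟩ | ⟨hw4, rfl⟩⟩ := vsa_edge hm hE
      · refine ⟨s, hs, Or.inr (Or.inr (Or.inr ⟨w, z, x, L, d, hw4, ?_, hz, hsz, hWW, hw2, ?_, rfl⟩))⟩
        · intro h
          apply hmy
          rw [hw1, h]
          simp
        · rw [List.map_cons, List.cons_append]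
      · refine ⟨s, hs, Or.inr (Or.inl ⟨z, m w, x :: L, d + 1, hz, hsz, ?_, ?_, rfl⟩)⟩
        · refine WW.cons hWW ⟨⟨?_, ?_, vsa_cov hz hWW x (by simp), ?_⟩, rfl⟩ ?_ ?_
          · rw [hm.invol]
            exact hw2
          · rw [hm.invol]
            exact hw3
          · rw [hm.invol, hm.invol]
            exact hw4
          · intro h
            apply hy
            rw [← List.cons_append, ← List.map_cons]
            exact List.mem_append_left _ (List.mem_map_of_mem h)
          · intro h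
            apply hmy
            rw [hm.invol] at h
            rw [hw1, ← List.cons_append, ← List.map_cons]
            exact List.mem_append_left _ (List.mem_map_of_mem h)
        · rw [List.map_cons, List.map_cons, List.cons_append, List.cons_append]
    · -- from `vc t`
      obtain ⟨t, ht, -, -, he, rfl⟩ := h3
      rw [List.cons.injEq] at he
      obtain ⟨rfl, rfl⟩ := he
      exfalso
      generalize hv : ms m y = v at hE hmy
      rcases v with (w | w) | (_ | _)
      · exact hE
      · exact hE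
      · exact hE
      · exact hmy (by simp)
    · obtain ⟨t, z, x, L, d, ht, -, -, -, -, -, he, rfl⟩ := h4
      rw [List.cons.injEq] at he
      obtain ⟨rfl, rfl⟩ := he
      exfalso
      generalize hv : ms m y = v at hE hmy
      rcases v with (w | w) | (_ | _)
      · exact hE
      · exact hE
      · exact hE
      · exact hmy (by simp)

/-- Job VSB. -/
theorem vs_build1 (hs : m s = s) : WW (ms m) (one (Es G m)) rr [vv s, rr] 1 := by
  have h := WW.cons (m := ms m) (E := one (Es G m)) (u := (rr : VS n)) (x := rr) (y := vv s) (L := []) (s := 0) (k := 1) WW.nil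
    ⟨by rw [ms_vv_exp hs]; exact hs, rfl⟩ (by simp) (by rw [ms_vv_exp hs]; simp)
  exact h

private theorem vsb_vv {M : List (Fin n)} {y : Fin n} (h1 : y ∉ M) (h2 : y ≠ s) : vv y ∉ M.map vv ++ [vv s, rr] := by
  intro h3
  rcases List.mem_append.1 h3 with h4 | h4
  · obtain ⟨w, hw, hwy⟩ := List.mem_map.1 h4
    have h5 : w = y := by simpa using hwy
    exact h1 (h5 ▸ hw)
  · rcases List.mem_cons.1 h4 with h5 | h5
    · exact h2 (by simpa using h5)
    · simp at h5

private theorem vsb_walk (hm : Mate G m) (hs : m s = s) (hz : m z ≠ z) (hsz : G.Adj s (m z)) {M : List (Fin n)}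
    (hW : WW m (one (EE G m)) z M d) : WW (ms m) (one (Es G m)) rr (M.map vv ++ [vv s, rr]) (d + 2) := by
  induction hW with
  | nil =>
    have hzs : z ≠ s := fun h => hz (by rw [h]; exact hs)
    have hzs' : m z ≠ s := hsz.ne.symm
    have h := WW.cons (vs_build1 (G := G) hs) (y := vv z) (k := 1)
      ⟨by rw [ms_vv_cov hz]; exact ⟨hsz, by rw [hs]; exact hsz.ne⟩, rfl⟩
      (vsb_vv (M := []) (by simp) hzs) (by rw [ms_vv_cov hz]; exact vsb_vv (M := []) (by simp) hzs')
    exact h
  | @cons x y L d' k hW' hE h1 h2 ih =>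
    have hy : m y ≠ y := by
      intro h7
      exact hE.1.2.2.2 (by rw [hm.invol, h7])
    have hys : y ≠ s := fun h => hy (by rw [h]; exact hs)
    have hys' : m y ≠ s := by
      intro h
      apply hy
      have h3 := hm.invol y
      rw [h, hs] at h3
      rw [h, h3]
    have h := WW.cons ih (y := vv y) (k := 1)
      ⟨by rw [ms_vv_cov hy]; exact ⟨hE.1.1, hE.1.2.1⟩, rfl⟩
      (vsb_vv h1 hys) (by rw [ms_vv_cov hy]; exact vsb_vv h2 hys')
    have hk : d' + k + 2 = d' + 2 + 1 := by
      have := hE.2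
      omega
    rw [hk]
    exact h

/-- Job VSB. (`xg_cov` in `AUG/Search.lean`: the vertices of the walk are covered.) -/
theorem vs_build2 (hm : Mate G m) (hs : m s = s) (hz : m z ≠ z) (hsz : G.Adj s (m z)) (hW : WW m (one (EE G m)) z (x :: L) d) :
    WW (ms m) (one (Es G m)) rr ((x :: L).map vv ++ [vv s, rr]) (d + 2) := by
  exact vsb_walk hm hs hz hsz hW

/-- Job VSB. -/
theorem vs_build3 (hm : Mate G m) (hs : m s = s) (ht : m t = t) (hst : G.Adj s t) : WW (ms m) (one (Es G m)) rr [vc t, vv s, rr] 2 := by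
  have h := WW.cons (vs_build1 (G := G) hs) (y := vc t) (k := 1)
    ⟨by rw [ms_vc_exp ht]; exact ⟨hst, by rw [hs]; exact hst.ne⟩, rfl⟩
    (by simp) (by rw [ms_vc_exp ht]; exact vsb_vv (M := []) (by simp) hst.ne.symm)
  exact h

/-- Job VSB. -/
theorem vs_build4 (hm : Mate G m) (hs : m s = s) (ht : m t = t) (hst : t ≠ s) (hz : m z ≠ z) (hsz : G.Adj s (m z)) (hW : WW m (one (EE G m)) z (x :: L) d)
    (hxt : G.Adj x t) : WW (ms m) (one (Es G m)) rr (vc t :: ((x :: L).map vv ++ [vv s, rr])) (d + 3) := by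
  have hcov := ba_covered hm.mm hz hW
  have hmx : m x ≠ t := by
    intro h
    have h2 := hm.invol x
    rw [h, ht] at h2
    exact hxt.ne h2.symm
  have h := WW.cons (vsb_walk hm hs hz hsz hW) (y := vc t) (k := 1)
    ⟨by rw [ms_vc_exp ht]; exact ⟨hxt, hmx⟩, rfl⟩
    (by
      intro h3
      have h3' : vc t ∈ (x :: L).map vv ++ [vv s, rr] := h3
      rcases List.mem_append.1 h3' with h4 | h4
      · obtain ⟨w, hw, hwy⟩ := List.mem_map.1 h4
        simp at hwy
      · simp at h4)
    (by rw [ms_vc_exp ht]; exact vsb_vv (fun h5 => hcov t h5 ht) hst)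
  exact h

private theorem vsc_mem (hm : Mate G m) (hs : m s = s) (ht : m t = t) (K : List (Fin n)) (v : Fin n) :
    v ∈ {s, t} ∪ K.toFinset ∪ (K.map m).toFinset ↔
      vv v ∈ vc t :: (K.map vv ++ [vv s, rr]) ∨ ms m (vv v) ∈ vc t :: (K.map vv ++ [vv s, rr]) := by
  have h1 : ∀ w : Fin n, vv w ∈ vc t :: (K.map vv ++ [vv s, rr]) ↔ w ∈ K ∨ w = s := by
    intro w
    simp only [List.mem_cons, List.mem_append, List.mem_map, Sum.inl.injEq, reduceCtorEq, List.not_mem_nil, or_false, false_or,
      exists_eq_right]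
  have h2 : ∀ w : Fin n, vc w ∈ vc t :: (K.map vv ++ [vv s, rr]) ↔ w = t := by
    intro w
    simp only [List.mem_cons, List.mem_append, List.mem_map, Sum.inl.injEq, Sum.inr.injEq, reduceCtorEq, List.not_mem_nil, or_false, and_false,
      exists_false]
  simp only [mem_union, mem_insert, mem_singleton, List.mem_toFinset, List.mem_map]
  by_cases hv : m v = v
  · rw [ms_vv_exp hv, h1, h2]
    constructor
    · rintro (((h | h) | h) | ⟨w, hw, rfl⟩)
      · exact Or.inl (Or.inr h)
      · exact Or.inr h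
      · exact Or.inl (Or.inl h)
      · left
        left
        have : w = m w := by
          have h3 := hv
          rw [hm.invol] at h3
          exact h3
        rwa [← this]
    · rintro ((h | h) | h)
      · exact Or.inl (Or.inr h)
      · exact Or.inl (Or.inl (Or.inl h))
      · exact Or.inl (Or.inl (Or.inr h))
  · rw [ms_vv_cov hv, h1, h1]
    constructor
    · rintro (((h | h) | h) | ⟨w, hw, rfl⟩)
      · exact Or.inl (Or.inr h)
      · exact absurd (by rw [h]; exact ht) hv
      · exact Or.inl (Or.inl h)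
      · right
        left
        rw [hm.invol]
        exact hw
    · rintro ((h | h) | (h | h))
      · exact Or.inl (Or.inr h)
      · exact Or.inl (Or.inl (Or.inl h))
      · exact Or.inr ⟨m v, h, hm.invol v⟩
      · left
        left
        left
        have h3 : v = m s := by rw [← h, hm.invol]
        rw [h3, hs]

/-- Job VSC. -/
theorem vs_ap1 (hm : Mate G m) (h : WW (ms m) (one (Es G m)) rr (vc t :: W) l) :
    ∃ S k, l = k + 2 ∧ AP G m S k ∧ ∀ x, x ∈ S ↔ vv x ∈ vc t :: W ∨ ms m (vv x) ∈ vc t :: W := by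
  rcases vs_struct hm h with ⟨h1, _⟩ | ⟨s, hs, ⟨h1, _⟩ | ⟨z, x, L, d, _, _, _, h1, _⟩ | ⟨t', ht', hts, hst, h1, hl⟩ |
    ⟨t', z, x, L, d, ht', hts, hz, hsz, hW, hxt, h1, hl⟩⟩
  · simp at h1
  · simp at h1
  · simp at h1
  · have e1 : t = t' := by
      have := (List.cons.inj h1).1
      simpa using this
    subst e1
    rw [h1]
    refine ⟨{s, t}, 0, hl, ⟨s, t, hts.symm, hs, ht', Or.inl ⟨rfl, hst, rfl⟩⟩, fun v => ?_⟩
    have h2 := vsc_mem hm hs ht' [] v
    simpa using h2
  · have e1 : t = t' := by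
      have := (List.cons.inj h1).1
      simpa using this
    subst e1
    rw [h1]
    refine ⟨{s, t} ∪ (x :: L).toFinset ∪ ((x :: L).map m).toFinset, d + 1, hl,
      ⟨s, t, hts.symm, hs, ht', Or.inr ⟨z, x, L, d, rfl, hz, hsz, hW, hxt, rfl⟩⟩, fun v => vsc_mem hm hs ht' (x :: L) v⟩

/-- Job VSC. -/
theorem vs_ap2 (hm : Mate G m) (h : AP G m S k) :
    ∃ t W, m t = t ∧ WW (ms m) (one (Es G m)) rr (vc t :: W) (k + 2) ∧ ∀ x, x ∈ S ↔ vv x ∈ vc t :: W ∨ ms m (vv x) ∈ vc t :: W := by
  obtain ⟨s, t, hst, hs, ht, ⟨rfl, hadj, rfl⟩ | ⟨z, x, L, d, rfl, hz, hsz, hW, hxt, rfl⟩⟩ := h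
  · refine ⟨t, [vv s, rr], ht, vs_build3 hm hs ht hadj, fun v => ?_⟩
    have h2 := vsc_mem hm hs ht [] v
    simpa using h2
  · exact ⟨t, (x :: L).map vv ++ [vv s, rr], ht, vs_build4 hm hs ht hst.symm hz hsz hW hxt, fun v => vsc_mem hm hs ht (x :: L) v⟩

/-- Job VSD. -/
private theorem vsd_le (hm : Mate G m) (hs : m s = s) (hz : m z ≠ z) (hsz : G.Adj s (m z)) (h : dd m (EE G m) z x < ZZ (Fin n)) :
    lv G m x ≤ dd m (EE G m) z x + 2 := by
  obtain ⟨L, hL⟩ := dd_walk h
  have h1 := vs_build2 hm hs hz hsz hL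
  rw [List.map_cons, List.cons_append] at h1
  exact dd_le_of_walk h1

private theorem vsd_card : Fintype.card (VS n) = n + n + 2 := by
  simp [VS]

private theorem vsd_lam (hm : Mate G m) (h : ¬ Mxl G m) : lam G m + 3 < ZZ (VS n) := by
  have h1 := lam_lt hm h
  unfold ZZ
  rw [vsd_card]
  omega

/-- Job VSD. -/
theorem lv_pos (hm : Mate G m) : 1 ≤ lv G m x := by
  rw [Nat.one_le_iff_ne_zero]
  intro h
  have h1 : (vv x : VS n) = rr := dd_eq_zero.1 h
  exact absurd h1 (by simp)

/-- Job VSD. -/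
theorem lv_exp (hm : Mate G m) (h : m x = x) : lv G m x = 1 := by
  exact le_antisymm (dd_le_of_walk (vs_build1 h)) (lv_pos hm)

/-- Job VSD. -/
theorem lv_cov (hm : Mate G m) (h : m x ≠ x) (h' : lv G m x < ZZ (VS n)) :
    ∃ s z, m s = s ∧ m z ≠ z ∧ G.Adj s (m z) ∧ dd m (EE G m) z x < ZZ (Fin n) ∧ dd m (EE G m) z x + 2 = lv G m x := by
  obtain ⟨L', hL⟩ := dd_walk h'
  rcases vs_struct hm hL with ⟨h1, -⟩ | ⟨s, hs, ⟨h1, -⟩ | ⟨z, x', L, d, hz, hsz, hW, h1, h2⟩ | ⟨t, -, -, -, h1, -⟩ |
    ⟨t, z, x', L, d, -, -, -, -, -, -, h1, -⟩⟩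
  · exact absurd (List.cons.inj h1).1 (by simp)
  · have h2 : (vv x : VS n) = vv s := (List.cons.inj h1).1
    have h3 : x = s := by simpa using h2
    exact absurd (h3 ▸ hs) h
  · rw [List.map_cons, List.cons_append] at h1
    have h3 : (vv x : VS n) = vv x' := (List.cons.inj h1).1
    have h4 : x = x' := by simpa using h3
    subst h4
    have h5 := dd_lt_of_walk hW
    have h6 := dd_le_of_walk hW
    have h7 := vsd_le hm hs hz hsz h5
    refine ⟨s, z, hs, hz, hsz, h5, ?_⟩
    have h8 : lv G m x = d + 2 := h2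
    omega
  · have h2 : (vv x : VS n) = vc t := (List.cons.inj h1).1
    exact absurd h2 (by simp)
  · have h2 : (vv x : VS n) = vc t := (List.cons.inj h1).1
    exact absurd h2 (by simp)

/-- Job VSD. -/
theorem lv_le (hm : Mate G m) (hs : m s = s) (hz : m z ≠ z) (hsz : G.Adj s (m z)) (h : dd m (EE G m) z x < ZZ (Fin n)) :
    lv G m x ≤ dd m (EE G m) z x + 2 := by
  exact vsd_le hm hs hz hsz h

/-- Job VSD. A regular walk from the root to `vv x` has at most `n` vertices of `G` on it or their mates: `2 (lv - 1) + 1 ≤ n`. (From `lv_exp`, `lv_cov` and `dd_two_card` for a covered root `z`: `2 (dd + 1) ≤ n`; one of the `n` vertices is the exposed vertex `s`, which is not on the walk from `z`; it is enough to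
use `WW.mate_not_mem`, `WW.nodup`: the list, its image under `m` and `s` are distinct vertices.) -/
theorem lv_bound (hm : Mate G m) (h : lv G m x < ZZ (VS n)) : 2 * lv G m x ≤ n + 1 := by
  by_cases hx : m x = x
  · rw [lv_exp hm hx]
    have := x.2
    omega
  · obtain ⟨s, z, hs, hz, hsz, h1, h2⟩ := lv_cov hm hx h
    obtain ⟨L, hL⟩ := dd_walk h1
    have hinj : Function.Injective m := fun x y hxy => by
      have := congrArg m hxy
      rwa [hm.invol, hm.invol] at this
    have hcov := ba_covered hm.mm hz hL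
    have h3 : (s :: ((x :: L) ++ (x :: L).map m)).Nodup := by
      rw [List.nodup_cons]
      refine ⟨?_, ?_⟩
      · rw [List.mem_append, List.mem_map]
        rintro (h4 | ⟨w, hw, h4⟩)
        · exact hcov s h4 hs
        · have h5 : w = s := by rw [← hm.invol w, h4, hs]
          rw [h5] at hw
          exact hcov s hw hs
      · rw [List.nodup_append]
        refine ⟨hL.nodup, hL.nodup.map hinj, ?_⟩
        intro a ha b hb hab
        rw [List.mem_map] at hb
        obtain ⟨w, hw, rfl⟩ := hb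
        rw [hab] at ha
        exact hL.mate_not_mem hm.mm.mt hz hw ha
    have h4 := h3.length_le_card
    rw [List.length_cons, List.length_append, List.length_map, hL.length, Fintype.card_fin] at h4
    omega

/-- Job VSD. (`vs_ap1`, `lam_le`.) -/
theorem ds_vc (hm : Mate G m) (ht : m t = t) (h : ¬ Mxl G m) : lam G m + 2 ≤ ds G m (vc t) := by
  by_cases h1 : ds G m (vc t) < ZZ (VS n)
  · obtain ⟨L, hL⟩ := dd_walk h1
    obtain ⟨S, k, h2, h3, -⟩ := vs_ap1 hm hL
    have h4 := lam_le h3
    have h5 : ds G m (vc t) = k + 2 := h2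
    omega
  · have h2 := vsd_lam hm h
    omega

/-- Job VSD. (`lam_lt`.) -/
theorem th_lt (hm : Mate G m) (h : ¬ Mxl G m) : lam G m + 3 < ZZ (VS n) := by
  exact vsd_lam hm h

end Pool.Agent.SUB
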