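import Pool.Agent.Lib.MP_0087d5_lc.SUB.HK

/-!
# Disjoint zones

Jobs ZNA (`rG_mat`, `mt_rG`), ZNB (`glue`).
-/

namespace Pool.Agent.SUB

open Relation Finset Pool.Agent.AUG

variable {n : ℕ} {G M : SimpleGraph (Fin n)} {m : Fin n → Fin n} {Z : Fin n → Prop}

private theorem zna_eq (h : IsMat G M) (hm : Mate G m) (hM : IsMateOf M m) : mt M = m := by
  have h1 := (mt_mate h).2
  funext x
  by_cases hx : mt M x = x
  · by_contra hne
    have h2 : m x ≠ x := fun h3 => hne (by rw [hx, h3])
    have h3 : M.Adj x (m x) := (hM x (m x)).2 ⟨rfl, h2.symm⟩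
    exact hne ((h1 x (m x)).1 h3).1
  · have h3 : M.Adj x (mt M x) := (h1 x (mt M x)).2 ⟨rfl, Ne.symm hx⟩
    exact ((hM x (mt M x)).1 h3).1.symm

/-- Job ZNA. -/
theorem rG_mat (h : IsMat G M) : IsMat (rG G Z) (rG M Z) := by
  exact ⟨fun x y hxy => ⟨h.1 hxy.1, hxy.2⟩, fun v w w' h1 h2 => h.2 v w w' h1.1 h2.1⟩

/-- Job ZNA. (`mt_iff`; `Z` is closed under `mt M`.) -/
theorem mt_rG (h : IsMat G M) (hZ : ∀ x, Z x → Z (mt M x)) : mt (rG M Z) = rm (mt M) Z := by
  have hm := mt_mate h
  refine zna_eq (rG_mat h) (rm_mate hm.1 hZ) fun x y => ?_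
  by_cases hx : Z x
  · have e : rm (mt M) Z x = mt M x := if_pos hx
    rw [e, ← hm.2 x y]
    refine ⟨fun h1 => h1.1, fun h1 => ⟨h1, hx, ?_⟩⟩
    rw [← ((hm.2 x y).1 h1).1]
    exact hZ x hx
  · have e : rm (mt M) Z x = x := if_neg hx
    rw [e]
    exact ⟨fun h1 => absurd h1.2.1 hx, fun h1 => absurd h1.1 h1.2⟩

/-- Job ZNA. The mate map of a matching is determined: if `μ` is an involution with `IsMateOf M μ` then `mt M = μ`. -/
theorem mt_eq (h : IsMat G M) (hm : Mate G m) (hM : IsMateOf M m) : mt M = m := by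
  exact zna_eq h hm hM

private theorem znb_out {μ : Fin n → Fin n} (hμ : Mate (rG G Z) μ) {x : Fin n} (hx : ¬ Z x) : μ x = x := by
  by_contra h
  exact hx (hμ.adj x h).2.1

private theorem znb_in {μ : Fin n → Fin n} (hμ : Mate (rG G Z) μ) {x : Fin n} (hx : Z x) : Z (μ x) := by
  by_cases h : μ x = x
  · rw [h]
    exact hx
  · exact (hμ.adj x h).2.2

private theorem znb_count {I : Type} [Fintype I] (Zf : I → Fin n → Prop) (hd : ∀ i j x, Zf i x → Zf j x → i = j)
    (p : Fin n → Prop) (q : I → Fin n → Prop) [DecidablePred p] [∀ i, DecidablePred (q i)]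
    [DecidablePred fun x => (∀ i, ¬ Zf i x) ∧ p x] (hq : ∀ i x, q i x ↔ Zf i x ∧ p x) :
    (univ.filter p).card = (∑ i, (univ.filter (q i)).card) + (univ.filter (fun x => (∀ i, ¬ Zf i x) ∧ p x)).card := by
  have e : univ.filter p = (univ.biUnion fun i => univ.filter (q i)) ∪ univ.filter (fun x => (∀ i, ¬ Zf i x) ∧ p x) := by
    ext x
    simp only [mem_filter, mem_univ, true_and, mem_union, mem_biUnion]
    constructor
    · intro hp
      by_cases h : ∃ i, Zf i x
      · obtain ⟨i, hi⟩ := h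
        exact Or.inl ⟨i, (hq i x).2 ⟨hi, hp⟩⟩
      · exact Or.inr ⟨fun i hi => h ⟨i, hi⟩, hp⟩
    · rintro (⟨i, hi⟩ | h)
      · exact ((hq i x).1 hi).2
      · exact h.2
  rw [e, Finset.card_union_of_disjoint, Finset.card_biUnion]
  · intro i _ j _ hij
    rw [Function.onFun, Finset.disjoint_left]
    intro x hx hx'
    simp only [mem_filter, mem_univ, true_and] at hx hx'
    exact hij (hd i j x ((hq i x).1 hx).1 ((hq j x).1 hx').1)
  · rw [Finset.disjoint_left]
    intro x hx hx'
    simp only [mem_filter, mem_univ, true_and, mem_biUnion] at hx hx'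
    obtain ⟨i, hi⟩ := hx
    exact hx'.1 i ((hq i x).1 hi).1

/-- Job ZNB. Gluing: finitely many disjoint zones `Z i`, closed under `m`, with matchings `μ i` of the restricted graphs which cover two vertices more. The new map is `μ i` on `Z i` and `m` outside. `Mate G m'`: an edge of `μ i` is an edge of `rG G (Z i)`, so `μ i` maps `Z i` to itself (a vertex outside `Z i` is
isolated in `rG G (Z i)`, so fixed). `cv`: the covered vertices are those outside of the zones and in the zones; `cv (rm m (Z i))` = number of covered vertices of `m` in `Z i`, `cv (μ i)` = number of covered vertices of `m'` in `Z i`. The same for `df`. -/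
theorem glue {I : Type} [Fintype I] (hm : Mate G m) (Zf : I → Fin n → Prop) (hZ : ∀ i x, Zf i x → Zf i (m x)) (hd : ∀ i j x, Zf i x → Zf j x → i = j)
    (μ : I → Fin n → Fin n) (hμ : ∀ i, Mate (rG G (Zf i)) (μ i)) (hcv : ∀ i, cv (μ i) = cv (rm m (Zf i)) + 2) {c : ℕ} (hdf : ∀ i, df (rm m (Zf i)) (μ i) ≤ c)
    {m' : Fin n → Fin n} (h1 : ∀ i x, Zf i x → m' x = μ i x) (h2 : ∀ x, (∀ i, ¬ Zf i x) → m' x = m x) :
    Mate G m' ∧ cv m' = cv m + 2 * Fintype.card I ∧ df m m' ≤ Fintype.card I * c := by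
  classical
  have hout : ∀ i x, ¬ Zf i x → μ i x = x := fun i x hx => znb_out (hμ i) hx
  have hin : ∀ i x, Zf i x → Zf i (μ i x) := fun i x hx => znb_in (hμ i) hx
  refine ⟨⟨?_, ?_⟩, ?_, ?_⟩
  · intro x
    by_cases h : ∃ i, Zf i x
    · obtain ⟨i, hi⟩ := h
      rw [h1 i x hi, h1 i _ (hin i x hi), (hμ i).invol]
    · have h' : ∀ i, ¬ Zf i x := fun i hi => h ⟨i, hi⟩
      have h'' : ∀ i, ¬ Zf i (m x) := by
        intro i hi
        have := hZ i _ hi
        rw [hm.invol] at this
        exact h' i this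
      rw [h2 x h', h2 _ h'', hm.invol]
  · intro x hx
    by_cases h : ∃ i, Zf i x
    · obtain ⟨i, hi⟩ := h
      rw [h1 i x hi] at hx ⊢
      exact ((hμ i).adj x hx).1
    · have h' : ∀ i, ¬ Zf i x := fun i hi => h ⟨i, hi⟩
      rw [h2 x h'] at hx ⊢
      exact hm.adj x hx
  · have e1 := znb_count Zf hd (fun x => m' x ≠ x) (fun i x => μ i x ≠ x) (by
      intro i x
      constructor
      · intro h
        have hz : Zf i x := by
          by_contra hz
          exact h (hout i x hz)
        exact ⟨hz, by rw [h1 i x hz]; exact h⟩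
      · rintro ⟨hz, h⟩
        rw [h1 i x hz] at h
        exact h)
    have e2 := znb_count Zf hd (fun x => m x ≠ x) (fun i x => rm m (Zf i) x ≠ x) (by
      intro i x
      unfold rm
      by_cases hz : Zf i x
      · simp [hz]
      · simp [hz])
    have e3 : (univ.filter (fun x => (∀ i, ¬ Zf i x) ∧ m' x ≠ x)) = univ.filter (fun x => (∀ i, ¬ Zf i x) ∧ m x ≠ x) := by
      refine Finset.filter_congr fun x _ => ?_
      constructor
      · rintro ⟨ha, hb⟩
        rw [h2 x ha] at hb
        exact ⟨ha, hb⟩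
      · rintro ⟨ha, hb⟩
        refine ⟨ha, ?_⟩
        rw [h2 x ha]
        exact hb
    have e4 : ∑ i, (univ.filter (fun x => μ i x ≠ x)).card
        = ∑ i, ((univ.filter (fun x => rm m (Zf i) x ≠ x)).card + 2) := by
      refine Finset.sum_congr rfl fun i _ => ?_
      exact hcv i
    have e5 : cv m' = (univ.filter (fun x => m' x ≠ x)).card := rfl
    have e6 : cv m = (univ.filter (fun x => m x ≠ x)).card := rfl
    rw [e5, e6, e1, e2, e3, e4, Finset.sum_add_distrib, Finset.sum_const, Finset.card_univ, smul_eq_mul]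
    ring
  · have hsub : (univ.filter (fun w => m w ≠ m' w)) ⊆ univ.biUnion fun i => univ.filter (fun w => rm m (Zf i) w ≠ μ i w) := by
      intro w hw
      simp only [mem_filter, mem_univ, true_and, mem_biUnion] at hw ⊢
      by_cases h : ∃ i, Zf i w
      · obtain ⟨i, hi⟩ := h
        refine ⟨i, ?_⟩
        rw [h1 i w hi] at hw
        unfold rm
        rw [if_pos hi]
        exact hw
      · have h' : ∀ i, ¬ Zf i w := fun i hi => h ⟨i, hi⟩
        exact absurd (h2 w h').symm hw
    have e5 : df m m' = (univ.filter (fun w => m w ≠ m' w)).card := rfl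
    rw [e5]
    refine (Finset.card_le_card hsub).trans ?_
    rw [← Finset.card_univ (α := I)]
    exact Finset.card_biUnion_le_card_mul _ _ _ fun i _ => hdf i

end Pool.Agent.SUB
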